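import Pool.Agent.H760.TX.LxA

/-!
# Mixed augmentation in the thickened torus: the integral to all orders

Adapted from `LPNq` (`TX/Lq.lean`) and `H811/VX/LpX.lean`.
-/

set_option autoImplicit false

namespace Pool.Agent.H760.TX

open Finset Filter Topology MeasureTheory
open Pool.Agent.Q99.HT
open Pool.Agent.Q99.HU.Q239 hiding q4 Hs_bound Hl_ne Hs_tendsto pg_eq Ph_taylor pv_cont pv_pt int_eq
  ph_lim qf_re gf_tendsto ind_eq gf_eq cst_ne task_LPN
open Pool.Agent.Q99.KN (bb ct St LC S_LC S_GAM S_LAP S_GIM ez kz th jN)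
open Pool.Agent.Q251.KN (fz Eg eg_norm eg_tendsto)
open Pool.Agent.Q99.HX (Xp UA Xp.mul Xp.const Xp.congr')
open Pool.Agent.Q176.HX (cb cT cJ cZ cb_real cT_real cJ_real cZ_real cb_norm cb_zero box_sub
  pos_le_all)
open Pool.Agent.H811.VX (mk st_mk lapx HHX)
open Pool.Agent.H760.MX hiding Ph_taylor gf_eq ind_eq int_eq ph_lim0 qf_re cr_pg step_lim ph_lim gf_tendsto

variable {c d : ℕ}

/-- **the integral to all orders** -/
theorem LPXq (c d : ℕ) (X : Nw c d) (H : Hol d) (cc : Fin c → Bool) (hX : X.Okb) (r κ K C0 : ℝ)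
    (hB : ∀ s, Blk (X.α s) r κ K C0) : ∃ δ0 : ℝ, 0 < δ0 ∧ ∀ δ : ℝ, 0 < δ → δ ≤ δ0 →
    ∃ ρ : ℝ, 0 < ρ ∧ ∀ (w : Fin c → ℤ) (T : Fin d → ℂ) (J ζ : Fin c → ℂ), CrQ X H cc w T J ζ →
    X.Nr ρ T J ζ → (∀ s, cc s = true → ζ s = 0) → (∀ s, cc s = false → 0 < (ζ s).im) →
    ∃ y : ℕ → ℂ,
    Xp (fun N : ℕ => ((√N : ℝ) : ℂ) ^ X.nA / ((√N : ℝ) : ℂ) ^ Fintype.card X.Ix *
      sgX cc N * Complex.exp (-(N * PhQ X H cc w T J ζ)) * (N ^ d *
      ∫ x in X.bx δ N, (∏ s, FZx r N (X.α s) (cc s) (w s) (ζ s).im (J s).im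
        (X.xN N (fun j => x j + (T j).im * Complex.I) s)) *
        GH H X.τ N (fun j => x j + (T j).im * Complex.I))) y := by
  classical
  have hLC : S_LC := Pool.Agent.Q99.HT.t_LC
  have hGAM : S_GAM := Pool.Agent.Q99.HT.t_GAM
  have hUA := Pool.Agent.Q202.HX2.task_UA
  obtain ⟨δ0, hδ0, hδ0'⟩ := exists_delta (r := r) hX (fun s => (hB s).r0)
  refine ⟨δ0, hδ0, fun δ hδ hδle => ?_⟩
  have hδ' := hδ0' δ hδle
  obtain ⟨κ', hκ', hmx⟩ := MXNq X H cc hX r κ K C0 hB
  obtain ⟨N0, τ2, hτ2, hbox⟩ := BXNq c d X H cc r κ K C0 hB δ hδ hδ'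
  set r1 : ℝ := if c = 0 then 1 else r with hr1
  have hr1s : ∀ s : Fin c, r1 = r := by
    intro s
    have : c ≠ 0 := by
      rintro rfl
      exact s.elim0
    rw [hr1, if_neg this]
  have hr10 : 0 < r1 := by
    rw [hr1]
    split_ifs with h
    · exact one_pos
    · exact (hB ⟨0, Nat.pos_of_ne_zero h⟩).r0
  set ρ : ℝ := min (δ / 2) (min (r1 / 32) τ2) with hρ
  have hρ0 : 0 < ρ := lt_min (by linarith) (lt_min (by linarith) hτ2)
  have hρδ : ρ ≤ δ / 2 := min_le_left _ _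
  have hρr : ∀ s : Fin c, ρ ≤ r / 32 := fun s => by
    have h1 : ρ ≤ r1 / 32 := (min_le_right _ _).trans (min_le_left _ _)
    rwa [hr1s s] at h1
  have hρτ : ρ ≤ τ2 := (min_le_right _ _).trans (min_le_right _ _)
  have hρr' : ∀ s : Fin c, ρ ≤ r / 16 := fun s => (hρr s).trans (by linarith [(hB s).r0])
  refine ⟨ρ, hρ0, fun w T J ζ hcr hn hz hpos => ?_⟩
  have haj := hcr.aj
  have hrg2 : X.Rg (r / 2) T J ζ := by
    refine rg_of_near hB hδ' (fun j => ?_) (fun s => ?_) (fun s => ?_)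
    · linarith [hn.1 j]
    · linarith [hn.2.1 s, hρr s, (hB s).r0]
    · linarith [hn.2.2 s, hρr s, (hB s).r0]
  have hrr : ∀ {T : Fin d → ℂ} {J ζ : Fin c → ℂ}, X.Rg (r / 2) T J ζ → X.Rg r T J ζ :=
    fun h s => ⟨Metric.ball_subset_ball (by linarith [(hB s).r0]) (h s).1,
      (h s).2.trans (by linarith [(hB s).r0])⟩
  have hrg := hrr hrg2
  have h2N : Tendsto (fun N : ℕ => 1 / (2 * (N:ℝ))) atTop (𝓝 0) := by
    have h := tendsto_const_div_atTop_nhds_zero_nat (1 / 2 : ℝ)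
    refine h.congr fun N => ?_
    rw [div_div]
  have h3N : Tendsto (fun N : ℕ => 2 / (N:ℝ)) atTop (𝓝 0) := tendsto_const_div_atTop_nhds_zero_nat 2
  have hev1 : ∀ᶠ N : ℕ in atTop, 1 / (2 * (N:ℝ)) ≤ δ / 2 := h2N.eventually_le_const (by linarith)
  have hev2 : ∀ᶠ N : ℕ in atTop, ∀ s : Fin c, 1 / (2 * (N:ℝ)) ≤ r / 16 := by
    rw [eventually_all]
    intro s
    exact h2N.eventually_le_const (by linarith [(hB s).r0])
  have hev3 : ∀ᶠ N : ℕ in atTop, ∀ s, cc s = false → Real.exp (-(Real.pi * N * (ζ s).im)) ≤ 1 / 2 := by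
    rw [eventually_all]
    intro s
    cases hc : cc s
    · filter_upwards [(eg_tendsto (hpos s hc)).eventually_le_const (by norm_num : (0:ℝ) < 1 / 2)] with N h _
      exact h
    · exact Eventually.of_forall fun N h => absurd h (by simp)
  have hev4 := ev_small hB
  have hev5 := eventually_ge_atTop (max 1 N0)
  have hmem0 : ∀ᶠ N : ℕ in atTop, ∀ v ∈ Sx X r δ N T J ζ,
      X.Rg (r / 2) (Tv X T v) (Jv X J v) (Zv X ζ v) := by
    filter_upwards [hev1, hev2, hev5] with N h1 h2 h3 v hv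
    exact sx_mem hB hδ' hρδ hρr' hn haj ((le_max_left _ _).trans h3) h1 h2 hv
  have hmem : ∀ᶠ N : ℕ in atTop, ∀ v ∈ Sx X r δ N T J ζ,
      X.Rg (r / 2) (Tv X T (stv X cc N v)) (Jv X J (stv X cc N v)) (Zv X ζ (stv X cc N v)) := by
    filter_upwards [hev1, hev2, hev5] with N h1 h2 h3 v hv
    exact sx_memX cc hB hδ' hρδ hρr hn haj ((le_max_left _ _).trans h3) h1 h2 hv
  have hmxg : ∀ v : X.Ix → ℝ, X.Rg (r / 2) (Tv X T v) (Jv X J v) (Zv X ζ v) →
      (PhQ X H cc w (Tv X T v) (Jv X J v) (Zv X ζ v)).re ≤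
        (PhQ X H cc w T J ζ).re - κ' * ∑ i, v i ^ 2 := by
    intro v hv
    have h2 := hmx w T J ζ hcr hrg (fun j => v (.inl j)) (bv X v) (fun s => v (.inr (.inr s)))
      (fun s hs => bv_zero X v hs) (hrr hv)
    rw [bv_sum] at h2
    rw [Ix_sum X fun i => v i ^ 2, ← add_assoc]
    exact h2
  have hmx' : ∀ᶠ N : ℕ in atTop, ∀ v ∈ Sx X r δ N T J ζ,
      (PhQ X H cc w (Tv X T (stv X cc N v)) (Jv X J (stv X cc N v)) (Zv X ζ (stv X cc N v))).re ≤
        (PhQ X H cc w T J ζ).re - κ' * ((∑ i, v i ^ 2) / 2 - Fintype.card X.Ix / (N : ℝ)) := by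
    filter_upwards [hmem, hev5] with N h1 h5 v hv
    have hN1 : 1 ≤ N := (le_max_left _ _).trans h5
    have h2 := hmxg _ (h1 v hv)
    have h3 := mul_le_mul_of_nonneg_left (sum_stv X cc hN1 v) hκ'.le
    linarith
  have hsx : ∀ u : X.Ix → ℝ, ∀ᶠ N : ℕ in atTop, (fun i => u i / √(N:ℝ)) ∈ Sx X r δ N T J ζ :=
    fun u => sx_ev hB hδ hρδ hρr' hn u
  obtain ⟨B1, hB10, hBd⟩ := Hs_bound cc hLC hX hB
  obtain ⟨B2, hB20, hBd2⟩ := AH_bd X H T
  obtain ⟨B, hBe⟩ : ∃ B : ℝ, B = B1 * B2 := ⟨_, rfl⟩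
  have hB0 : 0 ≤ B := by rw [hBe]; exact mul_nonneg hB10 hB20
  have hev6 : ∀ᶠ N : ℕ in atTop, 2 / (N:ℝ) ≤ δ / 8 := h3N.eventually_le_const (by linarith)
  have hev7 : ∀ᶠ N : ℕ in atTop, ∀ s : Fin c, 2 / (N:ℝ) ≤ r / 16 := by
    rw [eventually_all]
    intro s
    exact h3N.eventually_le_const (by linarith [(hB s).r0])
  have hmeas : ∀ᶠ N : ℕ in atTop, AEStronglyMeasurable
      ((Sx X r δ N T J ζ).indicator (fun v => GfQ X H cc N w T J ζ (stv X cc N v))) volume := by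
    filter_upwards [hmem, hev4, hev5] with N h1 h2 h3
    have hN1 : 1 ≤ N := (le_max_left _ _).trans h3
    rw [ind_eq X H cc hN1]
    refine AEStronglyMeasurable.const_mul ?_ _
    have hG : Measurable fun v : X.Ix → ℝ => GH H X.τ N (Tv X T v) := by
      have h4 : Continuous fun v : X.Ix → ℝ => Tv X T v := by
        unfold Tv
        fun_prop
      exact ((GH_cont H X.τ N).comp h4).measurable
    have hm : Measurable ((rgS X r T J ζ).indicator (PvX X cc N w T J ζ)) := by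
      rw [← Set.piecewise_eq_indicator]
      exact (pv_cont cc hB w hpos hN1 h2 (fun v hv => hv)).measurable_piecewise
        continuousOn_const (rgS_open X r T J ζ).measurableSet
    have hm2 : Measurable ((Sx X r δ N T J ζ).indicator
        (fun v => (rgS X r T J ζ).indicator (PvX X cc N w T J ζ) (stv X cc N v))) :=
      (hm.comp (stv_meas X cc N)).indicator (sx_closed X r δ N T J ζ).measurableSet
    have he : (Sx X r δ N T J ζ).indicator (fun v => PvX X cc N w T J ζ (stv X cc N v) *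
        GH H X.τ N (Tv X T v)) = fun v => (Sx X r δ N T J ζ).indicator
        (fun v => (rgS X r T J ζ).indicator (PvX X cc N w T J ζ) (stv X cc N v)) v *
        GH H X.τ N (Tv X T v) := by
      funext v
      by_cases hv : v ∈ Sx X r δ N T J ζ
      · rw [Set.indicator_of_mem hv, Set.indicator_of_mem hv,
          Set.indicator_of_mem (show stv X cc N v ∈ rgS X r T J ζ from h1 v hv)]
      · rw [Set.indicator_of_notMem hv, Set.indicator_of_notMem hv, zero_mul]
    rw [he]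
    exact (hm2.mul hG).aestronglyMeasurable
  have hbnd : ∀ᶠ N : ℕ in atTop, ∀ u, ‖(Sx X r δ N T J ζ).indicator
      (fun v => GfQ X H cc N w T J ζ (stv X cc N v)) u‖ ≤ B * Real.exp (κ' * Fintype.card X.Ix) *
      Real.exp (-(κ' / 2 * N * ∑ i, u i ^ 2)) := by
    filter_upwards [hmem, hmx', hev3, hev4, hev5] with N h1 h2 h3 h4 h5 u
    have hN1 : 1 ≤ N := (le_max_left _ _).trans h5
    by_cases hu : u ∈ Sx X r δ N T J ζ
    · rw [Set.indicator_of_mem hu]
      unfold GfQ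
      rw [norm_mul, Complex.norm_exp, mul_comm, mul_assoc B]
      refine mul_le_mul ?_ ?_ (Real.exp_pos _).le hB0
      · rw [norm_mul, hBe]
        refine mul_le_mul ?_ (by rw [Tv_stv]; exact hBd2 N u) (norm_nonneg _) hB10
        refine hBd N hN1 h4 _ _ _ (h1 u hu) (fun s hs => ?_) (fun s hc => ?_)
        · rw [Jv_stv]
          unfold Jv
          rw [haj s hs, bv_zero X u hs]
          simp
        · rw [eg_norm]
          have : (Zv X ζ (stv X cc N u) s).im = (ζ s).im := by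
            rw [Zv_stv, Complex.add_im, Complex.ofReal_im, add_zero]
          rw [this]
          exact h3 s hc
      · rw [← Real.exp_add]
        refine Real.exp_le_exp.2 ?_
        have h6 := h2 u hu
        have hN0 : (0:ℝ) < N := by exact_mod_cast hN1
        rw [← Complex.ofReal_natCast, Complex.re_ofReal_mul, Complex.sub_re]
        have h7 : (PhQ X H cc w (Tv X T (stv X cc N u)) (Jv X J (stv X cc N u))
            (Zv X ζ (stv X cc N u))).re - (PhQ X H cc w T J ζ).re ≤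
            -(κ' * ((∑ i, u i ^ 2) / 2 - Fintype.card X.Ix / (N : ℝ))) := by linarith
        calc (N : ℝ) * _ ≤ N * (-(κ' * ((∑ i, u i ^ 2) / 2 - Fintype.card X.Ix / (N : ℝ)))) :=
              mul_le_mul_of_nonneg_left h7 (Nat.cast_nonneg _)
          _ = _ := by
              field_simp
              ring
    · rw [Set.indicator_of_notMem hu, norm_zero]
      exact mul_nonneg (mul_nonneg hB0 (Real.exp_pos _).le) (Real.exp_pos _).le
  -- the complex neighbourhood
  obtain ⟨y0, hy0, hy0'⟩ := pos_le_all (fun s => if cc s then (1:ℝ) else (ζ s).im / 2) fun s => by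
    cases hc : cc s
    · simp only [Bool.false_eq_true, if_false]
      exact half_pos (hpos s hc)
    · simp only [if_true]
      exact one_pos
  set R : ℝ := min δ (min (r1 / 4) y0) with hR
  have hR0 : 0 < R := lt_min hδ (lt_min (by linarith) hy0)
  have hRδ : R ≤ δ := min_le_left _ _
  have hRr : ∀ s : Fin c, R ≤ r / 4 := fun s => by
    have h1 : R ≤ r1 / 4 := (min_le_right _ _).trans (min_le_left _ _)
    rwa [hr1s s] at h1
  have hRy : R ≤ y0 := (min_le_right _ _).trans (min_le_right _ _)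
  have hU : ∀ v ∈ Metric.ball (0 : X.Ix → ℂ) R, X.Rg (r / 2) (cT X T v) (cJ X J v) (cZ X ζ v) := by
    intro v hv
    rw [mem_ball_zero_iff] at hv
    refine rg_of_near hB hδ' (fun j => ?_) (fun s => ?_) (fun s => ?_)
    · have h1 := norm_le_pi_norm v (.inl j)
      have h2 : cT X T v j - X.τ j = (T j - X.τ j) + v (.inl j) := by unfold cT; ring
      rw [h2]
      refine (norm_add_le _ _).trans ?_
      linarith [hn.1 j]
    · have h1 := cb_norm X v s
      have h2 : cJ X J v s - X.α s 1 = (J s - X.α s 1) + cb X v s := by unfold cJ; ring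
      rw [h2]
      refine (norm_add_le _ _).trans_lt ?_
      linarith [hn.2.1 s, hρr s, (hB s).r0, hRr s]
    · have h1 := norm_le_pi_norm v (.inr (.inr s))
      unfold cZ
      refine (norm_add_le _ _).trans_lt ?_
      linarith [hn.2.2 s, hρr s, (hB s).r0, hRr s]
  have hIm : ∀ v ∈ Metric.ball (0 : X.Ix → ℂ) R, ∀ s, cc s = false → y0 ≤ (cZ X ζ v s).im := by
    intro v hv s hc
    rw [mem_ball_zero_iff] at hv
    have h1 := norm_le_pi_norm v (.inr (.inr s))
    have h2 := (abs_le.1 (Complex.abs_im_le_norm (v (.inr (.inr s))))).1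
    unfold cZ
    rw [Complex.add_im]
    have h3 := hy0' s
    rw [hc] at h3
    simp only [Bool.false_eq_true, if_false] at h3
    linarith
  set η1 : ℝ := min (δ / 4) (r1 / 16) with hη1
  have hη1p : 0 < η1 := lt_min (by linarith) (by linarith)
  have hηδ : η1 ≤ δ / 4 := min_le_left _ _
  have hηr : ∀ s : Fin c, η1 ≤ r / 16 := fun s => by
    have h1 : η1 ≤ r1 / 16 := min_le_right _ _
    rwa [hr1s s] at h1
  obtain ⟨y, hy⟩ := lapx (mk X cc) hR0 hκ' (half_pos hκ')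
    (mul_nonneg hB0 (Real.exp_pos (κ' * Fintype.card X.Ix)).le) hη1p
    (qqQ X H cc w T J ζ) (HHQ X H cc T J ζ)
    (qqQ_an hLC hX hB cc w fun v hv => hrr (hU v hv)) (qqQ_zero X H cc w T J ζ)
    (qqQ_fderiv hLC hX hB cc hcr hrg)
    (by
      intro x hx
      have hxR : (fun i => (x i : ℂ)) ∈ Metric.ball (0 : X.Ix → ℂ) R := by
        rw [mem_ball_zero_iff, pi_norm_lt_iff hR0]
        intro i
        rw [Complex.norm_real, Real.norm_eq_abs]
        exact hx i
      have h1 := hU _ hxR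
      rw [cT_real, cJ_real, cZ_real] at h1
      have h2 := hmxg x h1
      unfold qqQ
      rw [cT_real, cJ_real, cZ_real, Complex.sub_re]
      linarith)
    (by
      filter_upwards [hev4, hev5] with N h4 h5
      exact HHQ_diff cc hLC hX hB hU (fun v hv s hc => hy0.trans_le (hIm v hv s hc))
        ((le_max_left _ _).trans h5) h4)
    (HHQ_UA cc hUA (fun s => Pool.Agent.Q202.HX2.task_PX hLC hGAM Pool.Agent.Q162.HX.task_GX hUA
      (X.α s) r κ K C0 (hX.fr s) (hB s) (X.q0 s)) hB hy0 hU hIm)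
    (fun N v => (Sx X r δ N T J ζ).indicator (fun v => GfQ X H cc N w T J ζ (stv X cc N v)) v *
      (eH H N)⁻¹)
    (by
      filter_upwards [hbnd] with N h u
      rw [norm_mul, norm_inv, eH_norm, inv_one, mul_one]
      exact h u)
    (by
      filter_upwards [hmeas] with N h
      exact h.mul_const _)
    (by
      filter_upwards [hev5, hev6, hev7] with N h5 h6 h7 u hu
      have hN1 : 1 ≤ N := (le_max_left _ _).trans h5
      rw [Set.indicator_of_mem (box_sub hB hρδ hρr' hηδ hηr hn hN1 h6 h7 hu), st_mk,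
        ← GfQ_real, mul_assoc _ (eH H N), mul_inv_cancel₀ (eH_ne H N), mul_one])
  obtain ⟨ue, -, hue⟩ := eH_xp H
  obtain ⟨ye, -, hye⟩ := (Xp.const (kX cc)).mul hue
  obtain ⟨y', -, hy'⟩ := hye.mul hy
  refine ⟨y', hy'.congr' ?_⟩
  filter_upwards [hev5] with N h5
  have hN1 : 1 ≤ N := (le_max_left _ _).trans h5
  have hNN : N0 ≤ N := (le_max_right _ _).trans h5
  have key : ∀ J' S' : ℂ, kX cc * eH H N * (S' * (J' * (eH H N)⁻¹)) = kX cc * (S' * J') := by
    intro J' S'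
    have := eH_ne H N
    field_simp
  rw [integral_mul_const, key]
  rw [int_eq H haj hz hN1, ← hbox w (fun s => (ζ s).im) (fun s => (J s).im) (fun j => (T j).im)
    (fun s => ⟨fun hc => ⟨hpos s hc, by
      have h1 := (le_abs_self _).trans (Complex.abs_im_le_norm (ζ s))
      linarith [hn.2.2 s]⟩, (im_le (hn.2.1 s)).trans hρτ⟩)
    (fun j => (im_le (hn.1 j)).trans hρτ) N hNN]
  have hN0 : (0:ℝ) < N := by exact_mod_cast hN1
  have hs0 : ((√(N:ℝ) : ℝ) : ℂ) ≠ 0 := by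
    exact_mod_cast (Real.sqrt_pos.2 hN0).ne'
  have hs2 : ((√(N:ℝ) : ℝ) : ℂ) ^ 2 = (N : ℂ) := by
    have := Real.sq_sqrt hN0.le
    exact_mod_cast this
  have hN0' : (N : ℂ) ≠ 0 := by
    exact_mod_cast hN0.ne'
  unfold cNQ
  rw [Pool.Agent.H760.MX.cst_eq, card_J, mul_inv]
  have h9 := alg1 (s := ((√(N:ℝ) : ℝ) : ℂ)) (n := (N : ℂ)) (g := sgX cc N)
    (E := Complex.exp (-(N * PhQ X H cc w T J ζ)))
    (I := ∫ x in X.bx δ N, (∏ s, FZx r N (X.α s) (cc s) (w s) (ζ s).im (J s).im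
      (X.xN N (fun j => x j + (T j).im * Complex.I) s)) *
      GH H X.τ N (fun j => x j + (T j).im * Complex.I)) (d := d) (c := c)
    (a := Fintype.card {s : Fin c // X.α s 1 ≠ 0}) (m := X.nA) hs0 hN0' (sgX_ne cc N)
    (sgX_inv cc N) hs2
  rw [← h9]
  have hk := mul_inv_cancel₀ (kX_ne cc)
  obtain ⟨I, hI⟩ : ∃ I : ℂ, I = ∫ x in X.bx δ N, (∏ s, FZx r N (X.α s) (cc s) (w s) (ζ s).im
    (J s).im (X.xN N (fun j => x j + (T j).im * Complex.I) s)) *
    GH H X.τ N (fun j => x j + (T j).im * Complex.I) := ⟨_, rfl⟩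
  rw [← hI]
  generalize ((N : ℂ) ^ c * sgX cc N * (N : ℂ) ^ Fintype.card {s : Fin c // X.α s 1 ≠ 0} /
    ((√N : ℝ) : ℂ) ^ X.nA)⁻¹ = A
  generalize ((√N : ℝ) : ℂ) ^ (d + (Fintype.card {s : Fin c // X.α s 1 ≠ 0} + c)) = S
  linear_combination (S * (A * Complex.exp (-(N * PhQ X H cc w T J ζ)) * I)) * hk

end Pool.Agent.H760.TX
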