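import Pool.Agent.H760.TX.Cx
import Pool.Agent.H760.MX.Ph
import Pool.Agent.H760.TT.Ph

/-!
# Mixed augmentation in the thickened torus: the phase of the trace

Adapted from `TT/Ph.lean` and `MX/Ph.lean`.
-/

set_option autoImplicit false

namespace Pool.Agent.H760.TX

open Finset Filter Topology
open Pool.Agent.W715.VC (rt)
open Pool.Agent.Q191.TW (cs cs_add cs_zero cs_ne cs_neg cs_norm dl)
open Pool.Agent.Q191.LB (sg)
open Pool.Agent.Q99.FW (Kg K2)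
open Pool.Agent.Q99.FP2 (Phs phs_Kg phs_K2 Fh)
open Pool.Agent.Q99.FAL (Pc Ty fV n1 n2 cor dn up wd ncl)
open Pool.Agent.Q99.KN (Rgn)
open Pool.Agent.Q99.HT
open Pool.Agent.Q99.HX (tot phs_all div_tendsto)
open Pool.Agent.Q299.HU (tg tg_K phs_tg)
open Pool.Agent.H760.TT (Vx TS AT Val Cell Flat phs_rc al wr)
open Pool.Agent.H760.MX

/-- the constants of the diagram without those of the regions -/
noncomputable def gX (N : ℕ) : List Vx → ℕ → ℤ → ℂ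
  | [], _, _ => 1
  | V :: D, n, S => TT.rc N V.b n S ^ V.r * tg N 1 V.P.ty V.P.p n *
      gX N D (up V.P.ty n) (S + ((N : ℤ) - 1) * (1 - ncl V.P.ty))

theorem TDG_gX (N : ℕ) : ∀ (D : List Vx) (ρ : Fin D.length → Rgn N) (n : ℕ) (S : ℤ),
    TDG D ρ n S = gX N D n S * ∏ k, (ρ k).K
  | [], ρ, n, S => by
    have : ∏ k : Fin ([] : List Vx).length, (ρ k).K = 1 := rfl
    rw [this, mul_one]
    rfl
  | V :: D, ρ, n, S => by
    have h1 := TDG_gX N D (fun k => ρ k.succ) (up V.P.ty n) (S + ((N : ℤ) - 1) * (1 - ncl V.P.ty))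
    have h2 : ∏ k : Fin (V :: D).length, (ρ k).K = (ρ 0).K * ∏ k : Fin D.length, (ρ k.succ).K :=
      Fin.prod_univ_succ (n := D.length) fun k => (ρ k).K
    rw [TDG, h1, h2, gX, tg_K N (ρ 0).K]
    ring

lemma phs_gX : ∀ (D : List Vx) (n n' : ℕ) (s : ℤ), Val D n n' →
    Phs (fun N => gX N D n (((N : ℤ) - 1) * s)) ((Fh n' - Fh n) + al D s)
  | [], n, n', s, h => by
    have h' : n = n' := h
    subst h'
    have e : (Fh n - Fh n) + ((al [] s : ℤ) : ℝ) = 0 := by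
      simp [al]
    rw [e]
    exact Phs.one
  | V :: D, n, n', s, h => by
    have h1 := ((phs_rc V.b n s).pow V.r).mul (phs_tg V.P.ty V.P.p n h.1)
    have h2 := h1.mul (phs_gX D _ n' (s + (1 - ncl V.P.ty)) h.2)
    have e : (Fh n' - Fh n) + ((al (V :: D) s : ℤ) : ℝ) =
        (V.r : ℝ) * ((if V.b then s else -s : ℤ) : ℝ) +
        (Fh (up V.P.ty n) - Fh n) +
        ((Fh n' - Fh (up V.P.ty n)) + ((al D (s + (1 - ncl V.P.ty)) : ℤ) : ℝ)) := by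
      rw [al]
      push_cast
      ring
    rw [e]
    have e2 : (fun N : ℕ => gX N (V :: D) n (((N : ℤ) - 1) * s)) = fun N : ℕ =>
        TT.rc N V.b n (((N : ℤ) - 1) * s) ^ V.r * tg N 1 V.P.ty V.P.p n *
        gX N D (up V.P.ty n) (((N : ℤ) - 1) * (s + (1 - ncl V.P.ty))) := by
      funext N
      rw [gX, mul_add ((N : ℤ) - 1) s]
    rw [e2]
    exact h2

variable {D : List Vx} {k m : ℕ}

/-- the constants of the regions -/
lemma prod_rgD (N : ℕ) (cc : Fin D.length → Bool) (f : Fin D.length → Bool × ℕ) :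
    ∏ k, (rgD N cc f k).K = ((∏ k, Kg N (sg (f k).1) ^ (f k).2) * K2 N ^ nc cc) * sgX cc N := by
  have h : ∀ k, (rgD N cc f k).K = Kg N (sg (f k).1) ^ (f k).2 * kr N (cc k) := fun k =>
    rg_K N (cc k) (f k).1 (f k).2
  rw [prod_congr rfl fun k _ => h k, prod_mul_distrib, prod_kr]
  ring

/-- the integer of the phase -/
def qT (D : List Vx) (m : ℕ) (j l : ℤ) : ℤ :=
  2 * al D 0 + (m + 1) * wr D + 2 * (j * wr D - l * (m + 1))

lemma qT_par (D : List Vx) (m : ℕ) (j l : ℤ) : (2 : ℤ) ∣ qT D m j l - (m + 1) * wr D :=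
  ⟨al D 0 + (j * wr D - l * (m + 1)), by unfold qT; ring⟩

/-- the phase of the trace -/
lemma phs_phT (h : Val D (m + 1) (m + 1)) (cc : Fin D.length → Bool)
    (f : Fin D.length → Bool × ℕ) (j l : ℤ) :
    Phs (fun N => phT D m cc f j l N * sgX cc N) (-(tot f : ℝ) / 4 + qT D m j l / 2) := by
  have h1 := phs_gX D (m + 1) (m + 1) 0 h
  have e1 : (fun N : ℕ => gX N D (m + 1) (((N : ℤ) - 1) * 0)) = fun N : ℕ => gX N D (m + 1) 0 := by
    funext N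
    rw [mul_zero]
  rw [e1] at h1
  have h2 : Phs (fun N => cs N (((m + 1 : ℕ) : ℝ) * wr D * ((N : ℝ) - 1) ^ 2 / 2))
      (((m + 1 : ℕ) : ℝ) * wr D / 2) := by
    refine ⟨-(((m + 1 : ℕ) : ℝ) * wr D), ((m + 1 : ℕ) : ℝ) * wr D / 2, fun N _ => ?_⟩
    show cs N _ = _
    congr 1
    ring
  have h3 : Phs (fun N => cs N (N * ((N : ℝ) - 1) * (j * wr D - l * ((m + 1 : ℕ) : ℤ))))
      (j * wr D - l * ((m + 1 : ℕ) : ℤ)) := by
    refine ⟨-(j * wr D - l * ((m + 1 : ℕ) : ℤ)), 0, fun N _ => ?_⟩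
    show cs N _ = _
    congr 1
    ring
  have h5 := (phs_all f).mul (phs_K2.pow (nc cc))
  have h4 := ((h5.mul h1).mul h2).mul h3
  have e2 : -(tot f : ℝ) / 4 + ((nc cc : ℕ) : ℝ) * 0 +
      ((Fh (m + 1) - Fh (m + 1)) + ((al D 0 : ℤ) : ℝ)) +
      ((m + 1 : ℕ) : ℝ) * wr D / 2 + (j * wr D - l * ((m + 1 : ℕ) : ℤ)) =
      -(tot f : ℝ) / 4 + (qT D m j l : ℝ) / 2 := by
    unfold qT
    push_cast
    ring
  rw [e2] at h4
  obtain ⟨β, γ, hb⟩ := h4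
  refine ⟨β, γ, fun N hN => ?_⟩
  refine Eq.trans ?_ (hb N hN)
  show phT D m cc f j l N * sgX cc N = _
  unfold phT
  rw [TDG_gX, prod_rgD]
  have e3 := sgX_sq cc N
  linear_combination (gX N D (m + 1) 0 * ((∏ k, Kg N (sg (f k).1) ^ (f k).2) * K2 N ^ nc cc) *
    cs N (((m + 1 : ℕ) : ℝ) * wr D * ((N : ℝ) - 1) ^ 2 / 2) *
    cs N (N * ((N : ℝ) - 1) * (j * wr D - l * ((m + 1 : ℕ) : ℤ)))) * e3

/-- **the asymptotics of the trace with its phase** -/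
theorem phT_lim (h : Val D (m + 1) (m + 1)) (cc : Fin D.length → Bool)
    (f : Fin D.length → Bool × ℕ) (j l : ℤ) (P z : ℂ) (hz : z ≠ 0)
    (hlim : Tendsto (fun N : ℕ => (∑ t : Fin (m + 1) → Fin N, FDG D (rgD N cc f)
          (Pool.Agent.Q191.TW.dl (List.ofFn t)) (List.ofFn t)) /
        ((phT D m cc f j l N * (∏ b, kp (cc b)) * sgX cc N) *
          ((√N : ℝ) * Complex.exp (N * P)))) atTop (𝓝 z)) :
    ∃ c : ℂ, c ≠ 0 ∧ Tendsto (fun N : ℕ =>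
      rt N ^ (-((m + 1 + 1 : ℕ) : ℤ) * ((N : ℤ) - 1)) * (N * trN N m D cc f) /
      (N * √N * Complex.exp (N * (P +
        Real.pi * (-(tot f : ℝ) / 4 + (qT D m j l : ℝ) / 2 : ℝ) * Complex.I)))) atTop (𝓝 c) := by
  have h0 : Phs (fun N => rt N ^ (-((m + 1 + 1 : ℕ) : ℤ) * ((N : ℤ) - 1))) 0 := by
    refine ⟨-((m + 1 + 1 : ℕ) : ℝ), ((m + 1 + 1 : ℕ) : ℝ), fun N _ => ?_⟩
    show rt N ^ _ = _
    rw [Pool.Agent.Q191.TW.rt_cs]
    congr 1
    push_cast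
    ring
  have h1 := h0.mul (phs_phT h cc f j l)
  rw [zero_add] at h1
  obtain ⟨z', hz', hlim'⟩ := h1.lim
  have hk0 : (∏ k, kp (cc k)) ≠ 0 := Finset.prod_ne_zero_iff.2 fun k _ => kp_ne _
  refine ⟨z' * z * ∏ k, kp (cc k), mul_ne_zero (mul_ne_zero hz' hz) hk0,
    ((hlim'.mul hlim).mul_const (∏ k, kp (cc k))).congr' ?_⟩
  filter_upwards [eventually_gt_atTop 0] with N hN
  have hNr : (0 : ℝ) < N := by exact_mod_cast hN
  have hs : (0 : ℝ) < √N := Real.sqrt_pos.mpr hNr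
  have hNc : (N : ℂ) ≠ 0 := by exact_mod_cast hN.ne'
  have hsc : ((√N : ℝ) : ℂ) ≠ 0 := by exact_mod_cast hs.ne'
  have hphn : phT D m cc f j l N ≠ 0 := by
    have := phT_norm hN h cc f j l
    intro hh
    rw [hh, norm_zero] at this
    exact one_ne_zero this.symm
  have hsg := sgX_ne cc N
  obtain ⟨A, hA⟩ : ∃ A : ℂ, A = Real.pi * (-(tot f : ℝ) / 4 + (qT D m j l : ℝ) / 2 : ℝ) *
    Complex.I := ⟨_, rfl⟩
  have e : Complex.exp (N * (P + A)) = Complex.exp (N * P) * Complex.exp (N * A) := by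
    rw [← Complex.exp_add]
    congr 1
    ring
  have e4 : trN N m D cc f = ∑ t : Fin (m + 1) → Fin N, FDG D (rgD N cc f)
          (Pool.Agent.Q191.TW.dl (List.ofFn t)) (List.ofFn t) := rfl
  rw [← hA, e, e4, Complex.exp_neg]
  have e1 := Complex.exp_ne_zero (N * A)
  have e2 := Complex.exp_ne_zero (N * P)
  field_simp

/-- **the phase for partially augmented links in the thickened torus** -/
theorem phTx {k : ℕ} (h : Val D (m + 1) (m + 1)) (hC : Cell D m k)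
    (cc : Fin D.length → Bool) (a : Fin D.length → Fin 6 → ℝ) (ha : MxT k m D a)
    (hq : Dmt k m D cc a) :
    ∃ q : ℤ, (2 : ℤ) ∣ q - (m + 1) * wr D ∧
    ∃ ρ0 : ℝ, 0 < ρ0 ∧ ∀ ρ : ℝ, 0 < ρ → ρ ≤ ρ0 → ∃ W0 C : ℝ, 1 ≤ W0 ∧
    ∀ (f : Fin D.length → Bool × ℕ) (Wm : ℝ), W0 ≤ Wm → (∀ k, cc k = false → Wm ≤ (f k).2) →
    ∃ x : Fin D.length → Fin 6 → ℂ, CrIT k m D a cc (wf f) x ∧ (∀ s i, ‖x s i - a s i‖ < ρ) ∧
      (∀ x', CrIT k m D a cc (wf f) x' → (∀ s i, ‖x' s i - a s i‖ < ρ) → x' = x) ∧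
      (∀ s, cc s = true → n1 (x s) = n2 (x s)) ∧
      VI x = 2 * Real.pi * (PIT k m D a cc (wf f) x).re ∧
      |VI x - 2 * Real.pi * fV a| ≤ C / Wm ^ 2 ∧
      ∃ z : ℂ, z ≠ 0 ∧ Tendsto (fun N : ℕ =>
        rt N ^ (-((m + 1 + 1 : ℕ) : ℤ) * ((N : ℤ) - 1)) * (N * trN N m D cc f) /
        (N * √N * Complex.exp (N * (PIT k m D a cc (wf f) x +
          Real.pi * (-(tot f : ℝ) / 4 + (q : ℝ) / 2 : ℝ) * Complex.I)))) atTop (𝓝 z) := by
  obtain ⟨a0, -, h0⟩ := Pool.Agent.H760.TT.exists_a0 h hC a ha.mem.2.2 ha.mem.1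
  obtain ⟨j, l, hF⟩ := Pool.Agent.H760.TT.flat_of h hC a ha.mem ha.pos ha.max
  refine ⟨qT D m j l, qT_par D m j l, ?_⟩
  obtain ⟨ρ0, hρ0, H⟩ := finT h hC a0 h0 cc a ha hq j l hF
  refine ⟨ρ0, hρ0, fun ρ hρ hρ' => ?_⟩
  obtain ⟨W0, C, hW0, G⟩ := H ρ hρ hρ'
  refine ⟨W0, C, hW0, fun f Wm hWm hf => ?_⟩
  obtain ⟨x, g1, g2, g3, g4, -, g5, g6, z, hz, g7⟩ := G f Wm hWm fun k hk => by
    rw [Pool.Agent.Q99.HU.wf_abs]
    exact hf k hk
  exact ⟨x, g1, g2, g3, g4, g5, g6, phT_lim h cc f j l _ z hz g7⟩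

end Pool.Agent.H760.TX
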