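import Pool.Agent.H760.TX.Ax
import Pool.Agent.H760.TX.Pht

/-!
# Mixed augmentation in the thickened torus: the state sum to all orders

Adapted from `TX/Fint.lean` and `H811/VX/FinX.lean`.
-/

set_option autoImplicit false

namespace Pool.Agent.H760.TX

open Finset Filter Topology MeasureTheory
open Pool.Agent.W715.VC (rt)
open Pool.Agent.Q99.FAL (bq hh S_T1 Pc Ty fV n1 n2 cor dn Net up wd stp cls zz nV toR eij)
open Pool.Agent.Q99.KN (LC bb St S_LC tet lbf S_BW)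
open Pool.Agent.Q99.HT
open Pool.Agent.Q99.FP2 (Phs)
open Pool.Agent.Q99.HX (Xp tot)
open Pool.Agent.Q99.HU.Q166 (n1_sx n2_sx sx_sy sum_bf term_gT term_LT lf_zer Vu Vu_one Vu_zero gT_zero
  LT_zero)
open Pool.Agent.H760.TT (Vx TS LT XT AT mem_LT span_LT LR_TS TS_add TS_sub TS_map
  TS_cor TS_castR TS_smulR TS_zero Val Cell gS gK gS_eq gK_eq Gof Kf Flat wr)
open Pool.Agent.H760.MX

variable {D : List Vx} {k m d : ℕ}

section
open Pool.Agent.Q99.HU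

/-- **the state sum of a partially augmented link in the thickened torus, to all orders** -/
theorem finTx (h : Val D (m + 1) (m + 1)) (hC : Cell D m k) (a0 : Fin D.length → Fin 6 → ℤ)
    (h0 : TS k m D a0 1) (cc : Fin D.length → Bool) (a : Fin D.length → Fin 6 → ℝ)
    (ha : MxT k m D a) (hq : Dmt k m D cc a) (j l : ℤ) (hF : Flat k m D a j l) :
    ∃ ρ0 : ℝ, 0 < ρ0 ∧ ∀ ρ : ℝ, 0 < ρ → ρ ≤ ρ0 → ∃ W0 C : ℝ, 1 ≤ W0 ∧
    ∀ (f : Fin D.length → Bool × ℕ) (Wm : ℝ), W0 ≤ Wm →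
      (∀ s, cc s = false → Wm ≤ |(wf f s : ℝ)|) →
    ∃ x : Fin D.length → Fin 6 → ℂ, CrIT k m D a cc (wf f) x ∧ (∀ s i, ‖x s i - a s i‖ < ρ) ∧
      (∀ x', CrIT k m D a cc (wf f) x' → (∀ s i, ‖x' s i - a s i‖ < ρ) → x' = x) ∧
      (∀ s, cc s = true → n1 (x s) = n2 (x s)) ∧
      (∀ s, cc s = false → 0 < (n1 (x s) - n2 (x s)).im) ∧
      VI x = 2 * Real.pi * (PIT k m D a cc (wf f) x).re ∧
      |VI x - 2 * Real.pi * fV a| ≤ C / Wm ^ 2 ∧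
      ∃ y : ℕ → ℂ, y 0 ≠ 0 ∧ Xp (fun N : ℕ =>
        (∑ t : Fin (m + 1) → Fin N, FDG D (rgD N cc f) (Pool.Agent.Q191.TW.dl (List.ofFn t))
          (List.ofFn t)) / ((phT D m cc f j l N * (∏ b, kp (cc b)) * sgX cc N) *
          ((√N : ℝ) * Complex.exp (N * PIT k m D a cc (wf f) x)))) y := by
  have hpi := Real.pi_pos
  obtain ⟨d, β, Y, hY⟩ := exists_net a0 h0 ha.mem.1
  obtain ⟨hOk, hab, hv⟩ := okb_net ha hY
  obtain ⟨H, hH⟩ := hol_net hY ha.mem.1 j l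
  have hfar := FARt cc a ha hq β Y hY hv
  obtain ⟨ρa, hρa, hAs⟩ := ASXq _ _ Y H cc hOk hfar (fun s => Lt_of cc a ha hq β Y hY s)
  obtain ⟨Cd, hCd, hDi⟩ := net_dist hY hOk
  obtain ⟨ρv, hρv, hVf⟩ := VFt cc a ha
  have hAJ : ∀ J : Fin D.length → ℂ, Y.AJ J := fun J s hs => absurd hs (al1_ne ha hY s)
  have hT1 : ∀ x : Fin D.length → Fin 6 → ℂ, TS k m D x 1 ↔ ∃ (T : Fin d → ℂ)
      (J ζ : Fin D.length → ℂ), x = fun s => sx (β s) (1 / 2) (Y.v T J s) (ζ s) := by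
    intro x
    rw [TS_par hY]
    simp only [Vu_one]
  have hT2 : ∀ x : Fin D.length → Fin 6 → ℂ, TS k m D x 0 ↔ ∃ (T : Fin d → ℂ)
      (J ζ : Fin D.length → ℂ), x = fun s => sx (β s) 0 (Y.dv T J s) (ζ s) := by
    intro x
    rw [TS_par hY]
    simp only [Vu_zero, zero_div]
  have hCd0 : 0 < Cd := by linarith
  refine ⟨min (ρa / Cd) ρv, lt_min (by positivity) hρv, fun ρ hρ hρ' => ?_⟩
  have hρ1 : Cd * ρ ≤ ρa := by
    have := le_trans hρ' (min_le_left _ _)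
    rw [le_div_iff₀ hCd0] at this
    linarith
  have hρ2 : ρ ≤ ρv := le_trans hρ' (min_le_right _ _)
  have hρ3 : ρ / Cd ≤ ρa := by
    refine le_trans ?_ hρ1
    rw [div_le_iff₀ hCd0]
    nlinarith [mul_pos hCd0 hρ]
  obtain ⟨W1, C1, hW1, hB1⟩ := hAs (ρ / Cd) (by positivity) hρ3
  obtain ⟨W2, C2, hW2, hB2⟩ := hAs (Cd * ρ) (by positivity) hρ1
  refine ⟨max W1 W2, 2 * Real.pi * C1, le_trans hW1 (le_max_left _ _), fun f Wm hWm hf => ?_⟩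
  obtain ⟨w, hw⟩ : ∃ w, w = wf f := ⟨_, rfl⟩
  rw [← hw] at hf ⊢
  obtain ⟨T, J, ζ, hc, hn, hz0, him, hval, -, z, hz, hlim⟩ :=
    hB1 w Wm (le_trans (le_max_left _ _) hWm) hf
  obtain ⟨T2, J2, ζ2, hc2, hn2, -, -, -, hu2, -⟩ :=
    hB2 w Wm (le_trans (le_max_right _ _) hWm) hf
  have hle : ρ / Cd ≤ Cd * ρ := by
    rw [div_le_iff₀ hCd0]
    nlinarith [mul_pos hCd0 hρ, mul_pos (mul_pos hCd0 hρ) hCd0]
  have hmono : ∀ {T' : Fin d → ℂ} {J' ζ' : Fin D.length → ℂ}, Y.Nr (ρ / Cd) T' J' ζ' →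
      Y.Nr (Cd * ρ) T' J' ζ' := fun h =>
    ⟨fun j => lt_of_lt_of_le (h.1 j) hle, fun s => lt_of_lt_of_le (h.2.1 s) hle,
      fun s => lt_of_lt_of_le (h.2.2 s) hle⟩
  have hun : ∀ (T' : Fin d → ℂ) (J' ζ' : Fin D.length → ℂ), CrQ Y H cc w T' J' ζ' →
      Y.Nr (Cd * ρ) T' J' ζ' → T' = T ∧ J' = J ∧ ζ' = ζ := by
    intro T' J' ζ' h4 h5
    obtain ⟨e1, e2, e3⟩ := hu2 T' J' ζ' h4 h5
    obtain ⟨e4, e5, e6⟩ := hu2 T J ζ hc (hmono hn)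
    exact ⟨e1.trans e4.symm, e2.trans e5.symm, e3.trans e6.symm⟩
  set x : Fin D.length → Fin 6 → ℂ := fun s => sx (β s) (1 / 2) (Y.v T J s) (ζ s) with hx
  have hxc : CrIT k m D a cc w x := by
    refine ⟨(hT1 x).2 ⟨T, J, ζ, rfl⟩, fun δ hδ => ?_⟩
    obtain ⟨T', J', ζ', rfl⟩ := (hT2 δ).1 hδ
    rw [hx, GIT_eq hOk hH cc w T T' J ζ J' ζ' (hAJ J) (hAJ J')]
    exact hc.eq _ _ _ (hAJ J')
  have hxn : ∀ s i, ‖x s i - a s i‖ < ρ := by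
    intro s i
    have := (hDi (ρ / Cd) T J ζ (by positivity)).1 hn s i
    rwa [mul_div_cancel₀ _ hCd0.ne'] at this
  have hPI : PIT k m D a cc w x = PhQ Y H cc w T J ζ := PIT_eq hOk hH cc w T J ζ (hAJ J)
  have hVx : VI x = 2 * Real.pi * (PIT k m D a cc w x).re :=
    hVf w x hxc fun s i => lt_of_lt_of_le (hxn s i) hρ2
  refine ⟨x, hxc, hxn, ?_, ?_, ?_, hVx, ?_, z, hz, ?_⟩
  · intro x' hx' hn'
    obtain ⟨T', J', ζ', rfl⟩ := (hT1 x').1 hx'.1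
    have h5 := (hDi ρ T' J' ζ' hρ).2 hn'
    have h4 : CrQ Y H cc w T' J' ζ' := by
      refine ⟨hAJ J', fun T'' J'' ζ'' hJ'' => ?_⟩
      rw [← GIT_eq hOk hH cc w T' T'' J' ζ' J'' ζ'' (hAJ J') hJ'']
      exact hx'.2 _ ((hT2 _).2 ⟨T'', J'', ζ'', rfl⟩)
    obtain ⟨e1, e2, e3⟩ := hun T' J' ζ' h4 h5
    rw [hx, e1, e2, e3]
  · intro s hs
    have e1 := sx_n12 (β s) (1 / 2) (Y.v T J s) (ζ s)
    show n1 (sx (β s) (1 / 2) (Y.v T J s) (ζ s)) = n2 (sx (β s) (1 / 2) (Y.v T J s) (ζ s))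
    rw [e1.1, e1.2, hz0 s hs]
    ring
  · intro s hs
    have e1 := sx_n12 (β s) (1 / 2) (Y.v T J s) (ζ s)
    show 0 < (n1 (sx (β s) (1 / 2) (Y.v T J s) (ζ s)) -
      n2 (sx (β s) (1 / 2) (Y.v T J s) (ζ s))).im
    rw [e1.1, e1.2]
    have e2 : (1 / 2 + ζ s / 2 - (1 / 2 - ζ s / 2) : ℂ) = ζ s := by ring
    rw [e2]
    exact him s hs
  · rw [hVx, hPI, ← hv, ← mul_sub, abs_mul, abs_of_pos (by positivity : 0 < 2 * Real.pi), mul_div_assoc]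
    exact mul_le_mul_of_nonneg_left hval (by positivity)
  · refine hlim.congr' ?_
    filter_upwards [eventually_ge_atTop 1] with N hN
    have hN0 : 0 < N := hN
    have hN' : (N : ℂ) ≠ 0 := by exact_mod_cast hN0.ne'
    have hs0 : (√(N : ℝ)) ≠ 0 := (Real.sqrt_pos.2 (by exact_mod_cast hN0)).ne'
    have hs : ((√(N : ℝ) : ℝ) : ℂ) ≠ 0 := by exact_mod_cast hs0
    have hss : ((√(N : ℝ) : ℝ) : ℂ) ^ 2 = N := by
      rw [← Complex.ofReal_pow, Real.sq_sqrt (Nat.cast_nonneg N)]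
      simp
    have hcard := (card_T h hC ha hY).1
    have hnA := nA_T ha hY
    rw [hPI, trace_Zq hN0 h hC hY j l hF cc f H hH, ← hw, Complex.exp_neg, hcard, hnA]
    have e1 : ((√(N : ℝ) : ℝ) : ℂ) ^ (6 * D.length) / ((√(N : ℝ) : ℝ) : ℂ) ^ (4 * D.length + 1) =
        (N : ℂ) ^ D.length / (√(N : ℝ) : ℝ) := by
      rw [div_eq_div_iff (pow_ne_zero _ hs) hs]
      have e3 : (N : ℂ) ^ D.length = ((√(N : ℝ) : ℝ) : ℂ) ^ (2 * D.length) := by rw [pow_mul, hss]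
      rw [e3, ← pow_succ, ← pow_add]
      congr 1
      omega
    rw [e1]
    have e5 := sgX_ne cc N
    have e6 := sgX_inv cc N
    have e7 := Complex.exp_ne_zero (N * PhQ Y H cc w T J ζ)
    have e8 : phT D m cc f j l N ≠ 0 := by
      intro h8
      have := phT_norm hN0 h cc f j l
      rw [h8, norm_zero] at this
      exact zero_ne_one this
    have e9 : (∏ b, kp (cc b)) ≠ 0 := by
      refine Finset.prod_ne_zero_iff.2 fun b _ => ?_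
      unfold kp
      split_ifs
      · exact one_ne_zero
      · exact one_div_ne_zero (by exact_mod_cast hpi.ne')
    calc (N : ℂ) ^ D.length / (√(N : ℝ) : ℝ) * sgX cc N *
          (Complex.exp (N * PhQ Y H cc w T J ζ))⁻¹ * Zq Y H N cc w =
        (N : ℂ) ^ D.length / (√(N : ℝ) : ℝ) * (sgX cc N)⁻¹ *
          (Complex.exp (N * PhQ Y H cc w T J ζ))⁻¹ * Zq Y H N cc w := by rw [e6]
      _ = _ := by
          field_simp

end

/-- a phase to all orders -/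
lemma phs_xp {f : ℕ → ℂ} {α : ℝ} (h : Phs f α) : ∃ u : ℕ → ℂ, u 0 ≠ 0 ∧
    Xp (fun N : ℕ => f N * Complex.exp (-(N * (Real.pi * α * Complex.I)))) u := by
  obtain ⟨β, γ, hf⟩ := h
  obtain ⟨u1, e1, g1⟩ := Pool.Agent.Q99.HX.Xp.inv (Complex.I * Real.pi * γ)
  obtain ⟨u2, e2, g2⟩ := (Pool.Agent.Q99.HX.Xp.const (Complex.exp (Complex.I * Real.pi * β))).mul g1
  refine ⟨u2, ?_, g2.congr' ?_⟩
  · rw [e2, e1]
    simp only [if_true, mul_one]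
    exact Complex.exp_ne_zero _
  · filter_upwards [eventually_gt_atTop 0] with N hN
    have hN0 : (N : ℂ) ≠ 0 := by exact_mod_cast hN.ne'
    rw [hf N hN]
    unfold Pool.Agent.Q191.TW.cs
    rw [← Complex.exp_add, ← Complex.exp_add]
    congr 1
    push_cast
    field_simp
    ring

/-- **the trace to all orders** -/
theorem phT_xp (h : Val D (m + 1) (m + 1)) (cc : Fin D.length → Bool)
    (f : Fin D.length → Bool × ℕ) (j l : ℤ) (P : ℂ) (y : ℕ → ℂ) (hy : y 0 ≠ 0)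
    (hlim : Xp (fun N : ℕ => (∑ t : Fin (m + 1) → Fin N, FDG D (rgD N cc f)
          (Pool.Agent.Q191.TW.dl (List.ofFn t)) (List.ofFn t)) /
        ((phT D m cc f j l N * (∏ b, kp (cc b)) * sgX cc N) *
          ((√N : ℝ) * Complex.exp (N * P)))) y) :
    ∃ u : ℕ → ℂ, u 0 ≠ 0 ∧ Xp (fun N : ℕ =>
      rt N ^ (-((m + 1 + 1 : ℕ) : ℤ) * ((N : ℤ) - 1)) * (N * trN N m D cc f) /
      (N * √N * Complex.exp (N * (P +
        Real.pi * (-(tot f : ℝ) / 4 + (qT D m j l : ℝ) / 2 : ℝ) * Complex.I)))) u := by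
  have h0 : Phs (fun N => rt N ^ (-((m + 1 + 1 : ℕ) : ℤ) * ((N : ℤ) - 1))) 0 := by
    refine ⟨-((m + 1 + 1 : ℕ) : ℝ), ((m + 1 + 1 : ℕ) : ℝ), fun N _ => ?_⟩
    show rt N ^ _ = _
    rw [Pool.Agent.Q191.TW.rt_cs]
    congr 1
    push_cast
    ring
  have h1 := h0.mul (phs_phT h cc f j l)
  rw [zero_add] at h1
  obtain ⟨y1, hy1, hlim'⟩ := phs_xp h1
  have hk0 : (∏ k, kp (cc k)) ≠ 0 := Finset.prod_ne_zero_iff.2 fun k _ => kp_ne _
  obtain ⟨y2, e2, g2⟩ := hlim'.mul hlim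
  obtain ⟨y3, e3, g3⟩ := g2.mul (Pool.Agent.Q99.HX.Xp.const (∏ k, kp (cc k)))
  refine ⟨y3, ?_, g3.congr' ?_⟩
  · rw [e3, e2]
    simp only [if_true]
    exact mul_ne_zero (mul_ne_zero hy1 hy) hk0
  filter_upwards [eventually_gt_atTop 0] with N hN
  have hNr : (0 : ℝ) < N := by exact_mod_cast hN
  have hs : (0 : ℝ) < √N := Real.sqrt_pos.mpr hNr
  have hNc : (N : ℂ) ≠ 0 := by exact_mod_cast hN.ne'
  have hsc : ((√N : ℝ) : ℂ) ≠ 0 := by exact_mod_cast hs.ne'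
  have hphn : phT D m cc f j l N ≠ 0 := by
    have := phT_norm hN h cc f j l
    intro hh
    rw [hh, norm_zero] at this
    exact one_ne_zero this.symm
  have hsg := sgX_ne cc N
  obtain ⟨A, hA⟩ : ∃ A : ℂ, A = Real.pi * (-(tot f : ℝ) / 4 + (qT D m j l : ℝ) / 2 : ℝ) *
    Complex.I := ⟨_, rfl⟩
  have e : Complex.exp (N * (P + A)) = Complex.exp (N * P) * Complex.exp (N * A) := by
    rw [← Complex.exp_add]
    congr 1
    ring
  have e4 : trN N m D cc f = ∑ t : Fin (m + 1) → Fin N, FDG D (rgD N cc f)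
          (Pool.Agent.Q191.TW.dl (List.ofFn t)) (List.ofFn t) := rfl
  rw [← hA, e, e4, Complex.exp_neg]
  have e1 := Complex.exp_ne_zero (N * A)
  have e2 := Complex.exp_ne_zero (N * P)
  field_simp

/-- **the trace for partially augmented links in the thickened torus, to all orders** -/
theorem phTxx {k : ℕ} (h : Val D (m + 1) (m + 1)) (hC : Cell D m k)
    (cc : Fin D.length → Bool) (a : Fin D.length → Fin 6 → ℝ) (ha : MxT k m D a)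
    (hq : Dmt k m D cc a) :
    ∃ q : ℤ, (2 : ℤ) ∣ q - (m + 1) * wr D ∧
    ∃ ρ0 : ℝ, 0 < ρ0 ∧ ∀ ρ : ℝ, 0 < ρ → ρ ≤ ρ0 → ∃ W0 C : ℝ, 1 ≤ W0 ∧
    ∀ (f : Fin D.length → Bool × ℕ) (Wm : ℝ), W0 ≤ Wm → (∀ k, cc k = false → Wm ≤ (f k).2) →
    ∃ x : Fin D.length → Fin 6 → ℂ, CrIT k m D a cc (wf f) x ∧ (∀ s i, ‖x s i - a s i‖ < ρ) ∧
      (∀ x', CrIT k m D a cc (wf f) x' → (∀ s i, ‖x' s i - a s i‖ < ρ) → x' = x) ∧
      (∀ s, cc s = true → n1 (x s) = n2 (x s)) ∧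
      VI x = 2 * Real.pi * (PIT k m D a cc (wf f) x).re ∧
      |VI x - 2 * Real.pi * fV a| ≤ C / Wm ^ 2 ∧
      ∃ u : ℕ → ℂ, u 0 ≠ 0 ∧ Xp (fun N : ℕ =>
        rt N ^ (-((m + 1 + 1 : ℕ) : ℤ) * ((N : ℤ) - 1)) * (N * trN N m D cc f) /
        (N * √N * Complex.exp (N * (PIT k m D a cc (wf f) x +
          Real.pi * (-(tot f : ℝ) / 4 + (q : ℝ) / 2 : ℝ) * Complex.I)))) u := by
  obtain ⟨a0, -, h0⟩ := Pool.Agent.H760.TT.exists_a0 h hC a ha.mem.2.2 ha.mem.1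
  obtain ⟨j, l, hF⟩ := Pool.Agent.H760.TT.flat_of h hC a ha.mem ha.pos ha.max
  refine ⟨qT D m j l, qT_par D m j l, ?_⟩
  obtain ⟨ρ0, hρ0, H⟩ := finTx h hC a0 h0 cc a ha hq j l hF
  refine ⟨ρ0, hρ0, fun ρ hρ hρ' => ?_⟩
  obtain ⟨W0, C, hW0, G⟩ := H ρ hρ hρ'
  refine ⟨W0, C, hW0, fun f Wm hWm hf => ?_⟩
  obtain ⟨x, g1, g2, g3, g4, -, g5, g6, y, hy, g7⟩ := G f Wm hWm fun k hk => by
    rw [Pool.Agent.Q99.HU.wf_abs]
    exact hf k hk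
  exact ⟨x, g1, g2, g3, g4, g5, g6, phT_xp h cc f j l _ y hy g7⟩

end Pool.Agent.H760.TX
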