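import Pool.Agent.H760.TX.Fint
import Pool.Agent.H760.MX.Bl

/-!
# Mixed augmentation in the thickened torus: a sufficient condition

Adapted from `MX/Bl.lean`.
-/

set_option autoImplicit false

namespace Pool.Agent.H760.TX

open Finset Filter Topology
open Pool.Agent.Q99.FAL (hh Pc fV n1 n2 cor dn toR)
open Pool.Agent.Q99.HT Pool.Agent.Q99.HU Pool.Agent.Q206.HT
open Pool.Agent.Q239.HU
open Pool.Agent.Q208.HT
open Pool.Agent.H760.TT (Vx TS AT TS_sub)
open Pool.Agent.H760.MX

variable {D : List Vx} {k m : ℕ}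

/-- **a sufficient condition for `Dmt`** -/
theorem BALt (a0 : Fin D.length → Fin 6 → ℤ) (h0 : TS k m D a0 1)
    (cc : Fin D.length → Bool) (a : Fin D.length → Fin 6 → ℝ) (ha : MxT k m D a)
    (hBal : ∀ s, cc s = false → Bal (bf (decide (a s 1 ≤ a s 2)) (a s))) : Dmt k m D cc a := by
  classical
  intro x hx hnb hsol hne
  have hRL : RLc := task_RL Pool.Agent.Q151.HU.task_LBD Pool.Agent.Q166.HT.task_TG task_TG6
    Pool.Agent.Q299.HU.task_HIM t_T1
  obtain ⟨d, β, Y, hY⟩ := exists_net a0 h0 ha.mem.1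
  obtain ⟨hOk, -, hv⟩ := okb_net ha hY
  have hβ : ∀ s, β s = decide (a s 1 ≤ a s 2) := by
    intro s
    rw [Bool.eq_iff_iff, hY.be s, decide_eq_true_iff]
  have hsum : ∀ s, n1 (x s) + n2 (x s) = 1 := hsol.1
  have hn2 : ∀ k, n2 (a k) = 1 / 2 := ha.h2
  have hap : ∀ s i, Y.α s i ≠ 0 := by
    intro s i
    rw [hY.al s]
    generalize β s = c
    cases c
    · fin_cases i
      · exact (ha.pos s 0).ne'
      · exact (ha.pos s 2).ne'
      · exact (ha.pos s 1).ne'
      · exact (ha.pos s 3).ne'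
      · exact (ha.pos s 5).ne'
      · exact (ha.pos s 4).ne'
    · exact (ha.pos s i).ne'
  have hB : ∀ s, cc s = false → Bal (Y.α s) := by
    intro s hs
    rw [hY.al, hβ]
    exact hBal s hs
  have key : ∀ s, x s ≠ a s →
      pt (x s) < v0 (Y.α s) + mR (Y.α s) (qc (bf (β s) (x s))) := by
    intro s hs
    rw [← pt_bf (β s) (x s)]
    have hz : ∀ i, Y.α s i = 0 → bf (β s) (x s) i = 0 := fun i hi => absurd hi (hap s i)
    have g1 : n1 (bf (β s) (x s)) + n2 (bf (β s) (x s)) = 1 := by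
      rw [n1_bf, n2_bf]
      exact hsum s
    have g2 : Y.α s 1 = 0 → bf (β s) (x s) 1 = 0 ∧ bf (β s) (x s) 4 = 0 :=
      fun h1 => absurd h1 (hap s 1)
    have g3 : bf (β s) (x s) ≠ Y.α s := by
      intro h
      apply hs
      rw [hY.al] at h
      rw [← bf_bf (β s) (x s), h, bf_bf]
    cases hc : cc s
    · exact hRL (Y.α s) (hOk.fr s) (hB s hc) (bf (β s) (x s)) (bf_nonneg _ (hx s)) g1 (hz 0) g2
        (hz 3) g3
    · have g4 := Nbd_bf (β := β s) (hnb s) hc
      exact RLn (Y.α s) (hOk.fr s) (bf (β s) (x s))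
        ⟨bf_nonneg _ (hx s), g1, hz 0, g2, hz 3⟩ g4.1 g4.2 g3
  have key2 : ∀ s, pt (x s) ≤ v0 (Y.α s) + mR (Y.α s) (qc (bf (β s) (x s))) := by
    intro s
    by_cases hs : x s = a s
    · have h1 : mR (Y.α s) (qc (bf (β s) (x s))) = 0 := by
        rw [hs, ← hY.al]
        unfold mR
        exact sum_eq_zero fun i _ => by rw [sub_self, mul_zero]
      rw [h1, add_zero, hY.al, v0_bf, hs, pt_half (ha.h1 s) (hn2 s)]
    · exact (key s hs).le
  -- the linear part vanishes
  have hsolR : TS k m D (x - a) (0 : ℝ) := by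
    have h4 := TS_sub k _ _ _ _ hsol ha.mem.1
    rw [sub_self] at h4
    exact h4
  obtain ⟨t, ht⟩ := span_cvT hY _ hsolR
  have hlin : ∑ s, mR (Y.α s) (qc (bf (β s) (x s))) = 0 := by
    have h1 : ∀ s, mR (Y.α s) (qc (bf (β s) (x s))) =
        ∑ j, t j * ∑ i, ml (Y.α s) i * (Y.E j s i : ℝ) := by
      intro s
      unfold mR
      have h2 : ∀ i, ml (Y.α s) i * (qc (bf (β s) (x s)) i - qc (Y.α s) i) =
          ∑ j, t j * (ml (Y.α s) i * (Y.E j s i : ℝ)) := by
        intro i
        have h3 : qc (bf (β s) (x s)) i - qc (Y.α s) i = cv (β s) ((x - a) s) i := by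
          rw [hY.al, qc_bf, qc_bf]
          have h4 := cv_add (β s) ((x - a) s) (a s) i
          have h5 : (x - a) s + a s = x s := by rw [Pi.sub_apply, sub_add_cancel]
          rw [h5] at h4
          linarith
        rw [h3, ht s i, mul_sum]
        exact sum_congr rfl fun j _ => by ring
      rw [sum_congr rfl fun i _ => h2 i, sum_comm]
      exact sum_congr rfl fun j _ => by rw [mul_sum]
    rw [sum_congr rfl fun s _ => h1 s, sum_comm]
    refine sum_eq_zero fun j _ => ?_
    rw [← mul_sum, hOk.crit j, mul_zero]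
  obtain ⟨s₀, hs₀⟩ : ∃ s, x s ≠ a s := by
    by_contra hc
    push Not at hc
    exact hne (funext hc)
  have hlt : ∑ s, pt (x s) < ∑ s, (v0 (Y.α s) + mR (Y.α s) (qc (bf (β s) (x s)))) :=
    sum_lt_sum (fun s _ => key2 s) ⟨s₀, mem_univ _, key s₀ hs₀⟩
  rw [sum_add_distrib, hlin, add_zero, hv] at hlt
  exact hlt

/-- the condition holds if the angles at the vertices without circles are not obtuse -/
theorem NOPt (a0 : Fin D.length → Fin 6 → ℤ) (h0 : TS k m D a0 1)
    (cc : Fin D.length → Bool) (a : Fin D.length → Fin 6 → ℝ) (ha : MxT k m D a)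
    (hq : ∀ k, cc k = false → a k 0 ≤ 1 / 4 ∧ a k 3 ≤ 1 / 4) : Dmt k m D cc a := by
  refine BALt a0 h0 cc a ha fun s hs => ?_
  obtain ⟨d, β, Y, hY⟩ := exists_net a0 h0 ha.mem.1
  obtain ⟨hOk, -, -⟩ := okb_net ha hY
  have e1 : decide (a s 1 ≤ a s 2) = β s := by
    have := hY.be s
    cases hβ : β s
    · rw [hβ] at this
      simpa using this
    · rw [hβ] at this
      simpa using this
  have e2 := hOk.fr s
  rw [hY.al s, ← e1] at e2
  refine Pool.Agent.Q299.HU.task_NOP t_T1 _ e2 ?_ ?_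
  · generalize decide (a s 1 ≤ a s 2) = c
    cases c
    · exact (hq s hs).1
    · exact (hq s hs).1
  · generalize decide (a s 1 ≤ a s 2) = c
    cases c
    · exact (hq s hs).2
    · exact (hq s hs).2

end Pool.Agent.H760.TX
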