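import Pool.Agent.H760.TX.Nw
import Pool.Agent.H760.MX.Bx

/-!
# Mixed augmentation in the thickened torus: all integrals together

Adapted from `MX/Bx.lean` and `Q99/HU/Q299/BXNA.lean`.
-/

set_option autoImplicit false

namespace Pool.Agent.H760.TX

open Finset Filter Topology MeasureTheory
open Pool.Agent.Q99.HT
open Pool.Agent.Q99.KN (sn bc Wk zl ez Fk cz LC bb Gm St ct S_LC S_GAM S_PZ QZ kz th jN S_LAP S_GIM)
open Pool.Agent.Q99.HU.Q299
open Pool.Agent.H760.MX

section
variable {d c : ℕ} (P : Fin c → Prop) [DecidablePred P]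

/-- **abstract Fubini theorem.** -/
theorem abs_fubG (lam : Fin d → Measure ℝ) (μ : {s // P s} → Measure ℝ)
    (ν : Fin c → Measure ℝ) [∀ s, IsFiniteMeasure (lam s)] [∀ s, IsFiniteMeasure (μ s)]
    [∀ s, IsFiniteMeasure (ν s)] (g : Fin c → (Fin d → ℝ) × ℝ × ℝ → ℂ) (hg : ∀ s, BM (g s))
    (h0 : (Fin d → ℝ) → ℂ) (hh0 : BM h0) :
    ∫ x, (∏ s, ∫ z, (if h : P s then ∫ j, g s (x, z, j) ∂(μ ⟨s, h⟩) else g s (x, z, 0)) ∂(ν s)) *
      h0 x ∂(Measure.pi lam) =
    ∫ u, (∏ s, g s (fun i => u (.inl i), u (.inr (.inr s)),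
      if h : P s then u (.inr (.inl ⟨s, h⟩)) else 0)) * h0 (fun i => u (.inl i))
      ∂(Measure.pi (mA P lam μ ν)) := by
  -- the function which does not depend on the missing variables
  obtain ⟨G, hG⟩ : ∃ G : Fin c → (Fin d → ℝ) × ℝ × ℝ → ℂ, G = fun s q =>
      g s (q.1, q.2.1, if P s then q.2.2 else 0) := ⟨_, rfl⟩
  have hGB : ∀ s, BM (G s) := by
    intro s
    rw [hG]
    refine (hg s).comp (m := fun q : (Fin d → ℝ) × ℝ × ℝ => (q.1, q.2.1, if P s then q.2.2 else 0)) ?_
    by_cases hs : P s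
    · simp only [hs, if_true]
      fun_prop
    · simp only [hs, if_false]
      fun_prop
  have s1 : ∀ x s, ∫ z, (if h : P s then ∫ j, g s (x, z, j) ∂(μ ⟨s, h⟩) else g s (x, z, 0)) ∂(ν s) =
      ∫ p, G s (x, p) ∂((ν s).prod (mJ P μ s)) := by
    intro x s
    have hq : BM fun q : ℝ × ℝ => G s (x, q) := (hGB s).comp (m := fun q : ℝ × ℝ => (x, q)) (by fun_prop)
    rw [integral_prod _ (hq.integrable _)]
    refine integral_congr_ae (Eventually.of_forall fun z => ?_)
    simp only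
    by_cases hs : P s
    · rw [dif_pos hs]
      unfold mJ
      rw [dif_pos hs, hG]
      simp only [hs, if_true]
    · rw [dif_neg hs]
      unfold mJ
      rw [dif_neg hs, integral_dirac, hG]
      simp only [hs, if_false]
  simp only [s1]
  have s2 : ∀ x, ∏ s, ∫ p, G s (x, p) ∂((ν s).prod (mJ P μ s)) =
      ∫ p : Fin c → ℝ × ℝ, ∏ s, G s (x, p s) ∂(Measure.pi fun s => (ν s).prod (mJ P μ s)) := by
    intro x
    exact (integral_fintype_prod_eq_prod (𝕜 := ℂ) (μ := fun s => (ν s).prod (mJ P μ s))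
      (f := fun s p => G s (x, p))).symm
  simp only [s2, ← integral_mul_const]
  have hH : BM fun q : (Fin d → ℝ) × (Fin c → ℝ × ℝ) => (∏ s, G s (q.1, q.2 s)) * h0 q.1 := by
    refine (BM.prod fun s _ => ?_).mul (hh0.comp (m := fun q : (Fin d → ℝ) × (Fin c → ℝ × ℝ) => q.1)
      (by fun_prop))
    exact (hGB s).comp (m := fun q : (Fin d → ℝ) × (Fin c → ℝ × ℝ) => (q.1, q.2 s)) (by fun_prop)
  have s3 := integral_prod (μ := Measure.pi lam) (ν := Measure.pi fun s => (ν s).prod (mJ P μ s))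
    (fun q : (Fin d → ℝ) × (Fin c → ℝ × ℝ) => (∏ s, G s (q.1, q.2 s)) * h0 q.1) (hH.integrable _)
  simp only at s3
  rw [← s3, ← mp_map P lam μ ν, integral_map (mp_meas P).aemeasurable]
  · refine integral_congr_ae (Eventually.of_forall fun q => ?_)
    simp only
    congr 1
    refine Finset.prod_congr rfl fun s _ => ?_
    rw [hG]
    simp only [mp, Sum.elim_inl, Sum.elim_inr]
    congr 3
  · refine Measurable.aestronglyMeasurable ?_
    have : BM fun u : Fin d ⊕ {s // P s} ⊕ Fin c → ℝ => (∏ s, g s (fun i => u (.inl i), u (.inr (.inr s)),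
      if h : P s then u (.inr (.inl ⟨s, h⟩)) else 0)) * h0 (fun i => u (.inl i)) := by
      refine (BM.prod fun s _ => ?_).mul (hh0.comp
        (m := fun u : Fin d ⊕ {s // P s} ⊕ Fin c → ℝ => fun i => u (.inl i)) (by fun_prop))
      refine (hg s).comp (m := fun u : Fin d ⊕ {s // P s} ⊕ Fin c → ℝ => (fun i => u (.inl i),
        u (.inr (.inr s)), if h : P s then u (.inr (.inl ⟨s, h⟩)) else 0)) ?_
      by_cases hs : P s
      · simp only [hs, dif_pos]
        fun_prop
      · have h1 : (fun u : Fin d ⊕ {s // P s} ⊕ Fin c → ℝ => (((fun i => u (.inl i)),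
            u (.inr (.inr s)), if h : P s then u (.inr (.inl ⟨s, h⟩)) else 0) :
            (Fin d → ℝ) × ℝ × ℝ)) = fun u => ((fun i => u (.inl i)), u (.inr (.inr s)), 0) := by
          funext u
          rw [dif_neg hs]
        rw [h1]
        fun_prop
    exact this.1

end

/-- **all integrals together** -/
theorem BXNq (c d : ℕ) (X : Nw c d) (H : Hol d) (cc : Fin c → Bool) (r κ K C0 : ℝ)
    (hB : ∀ s, Blk (X.α s) r κ K C0) (δ : ℝ) (hδ : 0 < δ)
    (hx : ∀ s, ∀ T : Fin d → ℂ, (∀ j, ‖T j - X.τ j‖ ≤ 2 * δ) →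
      X.x T s ∈ Metric.ball (qC (X.α s)) (r / 4)) :
    ∃ N0 : ℕ, ∃ τ2 : ℝ, 0 < τ2 ∧ ∀ (w : Fin c → ℤ) (y ηJ : Fin c → ℝ) (η : Fin d → ℝ),
    (∀ s, (cc s = false → 0 < y s ∧ y s ≤ τ2) ∧ |ηJ s| ≤ τ2) → (∀ j, |η j| ≤ τ2) → ∀ N : ℕ, N0 ≤ N →
    ∫ x in X.bx δ N, (∏ s, FZx r N (X.α s) (cc s) (w s) (y s) (ηJ s)
        (X.xN N (fun j => x j + η j * Complex.I) s)) * GH H X.τ N (fun j => x j + η j * Complex.I) =
      ∫ u in X.Bx r δ N, PgX X cc N w (fun j => u (.inl j) + η j * Complex.I) (X.Jf u ηJ)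
        (zX cc N y fun s => u (.inr (.inr s))) *
        GH H X.τ N (fun j => u (.inl j) + η j * Complex.I) := by
  classical
  obtain ⟨τ2, hτ0, hτδ, hτr⟩ : ∃ τ2 : ℝ, 0 < τ2 ∧ τ2 ≤ δ / 2 ∧ ∀ s : Fin c, τ2 ≤ r / 8 := by
    rcases isEmpty_or_nonempty (Fin c) with h | ⟨⟨s0⟩⟩
    · exact ⟨δ / 2, by positivity, le_rfl, fun s => (h.false s).elim⟩
    · have hr := (hB s0).r0
      exact ⟨min (δ / 2) (r / 8), lt_min (by positivity) (by positivity), min_le_left _ _,
        fun _ => min_le_right _ _⟩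
  set M : ℝ := ∑ s, ∑ i, |(X.q0 s i : ℝ)| with hMdef
  have hM : ∀ s i, |(X.q0 s i : ℝ)| ≤ M := by
    intro s i
    refine (Finset.single_le_sum (f := fun i => |(X.q0 s i : ℝ)|) (fun i _ => abs_nonneg _)
      (Finset.mem_univ i)).trans ?_
    exact Finset.single_le_sum (f := fun s => ∑ i, |(X.q0 s i : ℝ)|)
      (fun s _ => Finset.sum_nonneg fun i _ => abs_nonneg _) (Finset.mem_univ s)
  refine ⟨max 1 (max ⌈16 / r⌉₊ (max ⌈1 / δ⌉₊ ⌈4 * M / r⌉₊)), τ2, hτ0, ?_⟩
  intro w y ηJ η hy hη N hN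
  have hN1 : 0 < N := lt_of_lt_of_le one_pos ((le_max_left _ _).trans hN)
  have hNr : 16 / r ≤ N := (Nat.le_ceil _).trans (by
    exact_mod_cast (le_max_left _ _).trans ((le_max_right _ _).trans hN))
  have hNδ : 1 / δ ≤ N := (Nat.le_ceil _).trans (by
    exact_mod_cast (le_max_left _ _).trans ((le_max_right _ _).trans ((le_max_right _ _).trans hN)))
  have hNM : 4 * M / r ≤ N := (Nat.le_ceil _).trans (by
    exact_mod_cast (le_max_right _ _).trans ((le_max_right _ _).trans ((le_max_right _ _).trans hN)))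
  have hN0 : (0 : ℝ) < N := by exact_mod_cast hN1
  have hb : ∀ s, cc s = false → ∀ q ∈ Ks X r δ N s, ![X.xN N (fun j => q.1 j + η j * Complex.I) s 0,
      X.xN N (fun j => q.1 j + η j * Complex.I) s 1, X.xN N (fun j => q.1 j + η j * Complex.I) s 2,
      Jc X ηJ s q.2.2] ∈ Metric.ball (vC (X.α s)) r ∧
      (q.2.1 + y s * Complex.I : ℂ) ∈ Metric.ball (0 : ℂ) r := fun s hs q hq =>
    in_ball X (hB s) hδ (hx s) (hM s) hτδ (hτr s) hN1 hNr hNδ hNM ((hy s).1 hs) (hy s).2
      hη hq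
  have hbc : ∀ s, ∀ q ∈ Kc X r δ N s, ![X.xN N (fun j => q.1 j + η j * Complex.I) s 0,
      X.xN N (fun j => q.1 j + η j * Complex.I) s 1, X.xN N (fun j => q.1 j + η j * Complex.I) s 2,
      Jc X ηJ s q.2.2] ∈ Metric.ball (vC (X.α s)) r ∧ (q.2.1 : ℂ) ∈ Metric.ball (0 : ℂ) r :=
    fun s q hq => in_ballc X (hB s) hδ (hx s) (hM s) hτ0 hτδ (hτr s) hN1 hNr hNδ hNM (hy s).2 hη hq
  -- the factors
  obtain ⟨g, hg⟩ : ∃ g : Fin c → (Fin d → ℝ) × ℝ × ℝ → ℂ, g = fun s =>
    if cc s then (fun q => (Kc X r δ N s).indicator (Fcs X N w ηJ η s) (q.1, stN N q.2.1, q.2.2)) else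
    (Ks X r δ N s).indicator (Fs X N w y ηJ η s) := ⟨_, rfl⟩
  have hgB : ∀ s, BM (g s) := by
    intro s
    rw [hg]
    simp only
    cases hcs : cc s
    · rw [if_neg (by simp)]
      exact BM.ind (Ks_compact X r δ N s) (Ks_meas X r δ N s)
        (Fs_cont X (hB s) hN1 w ((hy s).1 hcs).1 (hb s hcs))
    · rw [if_pos rfl]
      exact (BM.ind (Kc_compact X r δ N s) (Kc_meas X r δ N s)
        (Fcs_cont X (hB s) hN1 w (hbc s))).comp (m := fun q : (Fin d → ℝ) × ℝ × ℝ =>
          (q.1, stN N q.2.1, q.2.2)) (by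
            have := stN_meas N
            fun_prop)
  have hgf : ∀ s, cc s = false → ∀ q, g s q = (Ks X r δ N s).indicator (Fs X N w y ηJ η s) q := by
    intro s hs q
    rw [hg]
    simp only
    rw [if_neg (by simp [hs])]
  have hgt : ∀ s, cc s = true → ∀ (x : Fin d → ℝ) (z j : ℝ), g s (x, z, j) =
      (Kc X r δ N s).indicator (Fcs X N w ηJ η s) (x, stN N z, j) := by
    intro s hs x z j
    rw [hg]
    simp only
    rw [if_pos hs]
  obtain ⟨h0, hh0⟩ : ∃ h0 : (Fin d → ℝ) → ℂ, h0 = (X.bx δ N).indicator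
      (fun x => GH H X.τ N (fun j => x j + η j * Complex.I)) := ⟨_, rfl⟩
  have h0B : BM h0 := by
    rw [hh0]
    refine BM.ind (bx_compact X δ N) (bx_meas X δ N) ?_
    have h1 := GH_cont H X.τ N
    have h2 : Continuous fun x : Fin d → ℝ => (fun j => (x j : ℂ) + η j * Complex.I) := by fun_prop
    exact (h1.comp h2).continuousOn
  have key := abs_fubG (fun s : Fin c => X.α s 1 ≠ 0)
    (fun j : Fin d => volume.restrict (Set.Icc (lo N ⌈(N : ℝ) * (X.τ j - δ)⌉) (hi N ⌊(N : ℝ) * (X.τ j + δ)⌋)))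
    (fun s => volume.restrict (Set.Icc (lo N ⌈(N : ℝ) * (X.α s.1 1 - r / 4)⌉)
      (hi N ⌊(N : ℝ) * (X.α s.1 1 + r / 4)⌋)))
    (fun _ : Fin c => volume.restrict (Set.Icc (-th r N) (th r N))) g hgB h0 h0B
  -- the left side
  have hL : ∫ x in X.bx δ N, (∏ s, FZx r N (X.α s) (cc s) (w s) (y s) (ηJ s)
      (X.xN N (fun j => x j + η j * Complex.I) s)) * GH H X.τ N (fun j => x j + η j * Complex.I) =
      ∫ x, (∏ s, ∫ z, (if h : X.α s 1 ≠ 0 then ∫ j, g s (x, z, j) ∂(volume.restrict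
        (Set.Icc (lo N ⌈(N : ℝ) * (X.α s 1 - r / 4)⌉) (hi N ⌊(N : ℝ) * (X.α s 1 + r / 4)⌋)))
        else g s (x, z, 0)) ∂(volume.restrict (Set.Icc (-th r N) (th r N)))) * h0 x
      ∂(Measure.pi fun j : Fin d => volume.restrict
        (Set.Icc (lo N ⌈(N : ℝ) * (X.τ j - δ)⌉) (hi N ⌊(N : ℝ) * (X.τ j + δ)⌋))) := by
    rw [← Measure.restrict_pi_pi, ← volume_pi]
    refine setIntegral_congr_fun (bx_meas X δ N) fun x hxb => ?_
    have hhx : h0 x = GH H X.τ N (fun j => x j + η j * Complex.I) := by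
      rw [hh0, Set.indicator_of_mem hxb]
    rw [hhx]
    congr 1
    refine Finset.prod_congr rfl fun s _ => ?_
    have hr := (hB s).r0
    have hr16 : r ≤ 1 / 16 := (hB s).r1.trans (by norm_num)
    have hth := (th_bounds hr hr16 hNr).1
    have hNr' : 16 ≤ N * r := by rwa [div_le_iff₀ hr] at hNr
    cases hcs : cc s
    · unfold FZx FZ QZ
      rw [if_neg (by simp)]
      rw [intervalIntegral.integral_of_le (by linarith), ← integral_Icc_eq_integral_Ioc,
        ← integral_const_mul]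
      refine setIntegral_congr_fun measurableSet_Icc fun z hz => ?_
      simp only
      by_cases hs : X.α s 1 ≠ 0
      · rw [dif_pos hs]
        have hs' : ¬ X.α s 1 = 0 := hs
        unfold VB
        rw [if_neg hs', intervalIntegral.integral_of_le (lohi_le hN1 (by linarith)),
          ← integral_Icc_eq_integral_Ioc, ← integral_const_mul]
        simp only [← integral_const_mul, ← integral_mul_const]
        refine setIntegral_congr_fun measurableSet_Icc fun j hj => ?_
        have hmem : (x, z, j) ∈ Ks X r δ N s := by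
          refine ⟨hxb, hz, ?_⟩
          show j ∈ IJ X r N s
          unfold IJ
          rw [if_pos hs]
          exact hj
        rw [hgf s hcs, Set.indicator_of_mem hmem]
        unfold Fs Jc
        simp only
        rw [if_neg hs', if_pos hs]
        ring
      · rw [dif_neg hs]
        have hs' : X.α s 1 = 0 := not_not.1 hs
        unfold VB
        rw [if_pos hs']
        have hmem : (x, z, (0 : ℝ)) ∈ Ks X r δ N s := by
          refine ⟨hxb, hz, ?_⟩
          show (0 : ℝ) ∈ IJ X r N s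
          unfold IJ
          rw [if_neg hs]
          rfl
        rw [hgf s hcs, Set.indicator_of_mem hmem]
        unfold Fs Jc
        simp only
        rw [if_pos hs', if_neg hs]
        ring
    · unfold FZx
      rw [if_pos rfl, FZc_int hN1 hr hr16 hNr]
      refine setIntegral_congr_fun measurableSet_Icc fun z hz => ?_
      by_cases hs : X.α s 1 ≠ 0
      · rw [dif_pos hs]
        have hs' : ¬ X.α s 1 = 0 := hs
        unfold VB
        rw [if_neg hs', intervalIntegral.integral_of_le (lohi_le hN1 (by linarith)),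
          ← integral_Icc_eq_integral_Ioc]
        simp only [← integral_const_mul]
        refine setIntegral_congr_fun measurableSet_Icc fun j hj => ?_
        have hmem : (x, stN N z, j) ∈ Kc X r δ N s := by
          refine ⟨hxb, stN_mem hN1 hr hr16 hNr hz, ?_⟩
          show j ∈ IJ X r N s
          unfold IJ
          rw [if_pos hs]
          exact hj
        rw [hgt s hcs, Set.indicator_of_mem hmem]
        unfold Fcs Jc
        simp only
        rw [if_neg hs', if_pos hs]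
        ring
      · rw [dif_neg hs]
        have hs' : X.α s 1 = 0 := not_not.1 hs
        unfold VB
        rw [if_pos hs']
        have hmem : (x, stN N z, (0 : ℝ)) ∈ Kc X r δ N s := by
          refine ⟨hxb, stN_mem hN1 hr hr16 hNr hz, ?_⟩
          show (0 : ℝ) ∈ IJ X r N s
          unfold IJ
          rw [if_neg hs]
          rfl
        rw [hgt s hcs, Set.indicator_of_mem hmem]
        unfold Fcs Jc
        simp only
        rw [if_pos hs', if_neg hs]
        ring
  rw [hL, key]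
  -- the right side
  have hBx : X.Bx r δ N = Set.univ.pi (Sum.elim
      (fun j : Fin d => Set.Icc (lo N ⌈(N : ℝ) * (X.τ j - δ)⌉) (hi N ⌊(N : ℝ) * (X.τ j + δ)⌋))
      (Sum.elim (fun s : {s : Fin c // X.α s 1 ≠ 0} => Set.Icc (lo N ⌈(N : ℝ) * (X.α s.1 1 - r / 4)⌉)
        (hi N ⌊(N : ℝ) * (X.α s.1 1 + r / 4)⌋)) (fun _ : Fin c => Set.Icc (-th r N) (th r N)))) := by
    ext u
    constructor
    · rintro ⟨a1, a2, a3⟩ i _
      rcases i with i | i | i
      · exact a1 i (Set.mem_univ _)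
      · exact a2 i
      · exact a3 i
    · intro h
      exact ⟨fun j _ => h (.inl j) (Set.mem_univ _), fun s => h (.inr (.inl s)) (Set.mem_univ _),
        fun s => h (.inr (.inr s)) (Set.mem_univ _)⟩
  have hmeas : Measure.pi (mA (fun s : Fin c => X.α s 1 ≠ 0)
      (fun j : Fin d => volume.restrict (Set.Icc (lo N ⌈(N : ℝ) * (X.τ j - δ)⌉) (hi N ⌊(N : ℝ) * (X.τ j + δ)⌋)))
      (fun s => volume.restrict (Set.Icc (lo N ⌈(N : ℝ) * (X.α s.1 1 - r / 4)⌉)
      (hi N ⌊(N : ℝ) * (X.α s.1 1 + r / 4)⌋)))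
      (fun _ : Fin c => volume.restrict (Set.Icc (-th r N) (th r N)))) =
      (volume : Measure (X.Ix → ℝ)).restrict (X.Bx r δ N) := by
    rw [hBx, volume_pi, Measure.restrict_pi_pi]
    congr 1
    funext i
    rcases i with i | i | i <;> rfl
  rw [hmeas]
  have hBm : MeasurableSet (X.Bx r δ N) := by
    rw [hBx]
    refine MeasurableSet.univ_pi fun i => ?_
    rcases i with i | i | i <;> exact measurableSet_Icc
  refine setIntegral_congr_fun hBm fun u hu => ?_
  obtain ⟨a1, a2, a3⟩ := hu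
  have hhx : h0 (fun i => u (.inl i)) = GH H X.τ N (fun j => u (.inl j) + η j * Complex.I) := by
    rw [hh0, Set.indicator_of_mem a1]
  rw [hhx]
  congr 1
  unfold PgX
  refine Finset.prod_congr rfl fun s _ => ?_
  have hr := (hB s).r0
  have hr16 : r ≤ 1 / 16 := (hB s).r1.trans (by norm_num)
  cases hcs : cc s
  · rw [if_neg (by simp), hgf s hcs, zX_of_f hcs]
    by_cases hs : X.α s 1 ≠ 0
    · rw [dif_pos hs]
      have hmem : ((fun i => u (.inl i)), u (.inr (.inr s)), u (.inr (.inl ⟨s, hs⟩))) ∈ Ks X r δ N s := by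
        refine ⟨a1, a3 s, ?_⟩
        show u (.inr (.inl ⟨s, hs⟩)) ∈ IJ X r N s
        unfold IJ
        rw [if_pos hs]
        exact a2 ⟨s, hs⟩
      rw [Set.indicator_of_mem hmem]
      unfold Fs Jc Nw.Jf
      simp only
      rw [if_pos hs, dif_pos hs]
    · rw [dif_neg hs]
      have hmem : ((fun i => u (.inl i)), u (.inr (.inr s)), (0 : ℝ)) ∈ Ks X r δ N s := by
        refine ⟨a1, a3 s, ?_⟩
        show (0 : ℝ) ∈ IJ X r N s
        unfold IJ
        rw [if_neg hs]
        rfl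
      rw [Set.indicator_of_mem hmem]
      unfold Fs Jc Nw.Jf
      simp only
      rw [if_neg hs, dif_neg hs]
  · rw [if_pos rfl, hgt s hcs, zX_of_t hcs]
    by_cases hs : X.α s 1 ≠ 0
    · rw [dif_pos hs]
      have hmem : ((fun i => u (.inl i)), stN N (u (.inr (.inr s))), u (.inr (.inl ⟨s, hs⟩))) ∈ Kc X r δ N s := by
        refine ⟨a1, stN_mem hN1 hr hr16 hNr (a3 s), ?_⟩
        show u (.inr (.inl ⟨s, hs⟩)) ∈ IJ X r N s
        unfold IJ
        rw [if_pos hs]
        exact a2 ⟨s, hs⟩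
      rw [Set.indicator_of_mem hmem]
      unfold Fcs Jc Nw.Jf
      simp only
      rw [if_pos hs, dif_pos hs]
    · rw [dif_neg hs]
      have hmem : ((fun i => u (.inl i)), stN N (u (.inr (.inr s))), (0 : ℝ)) ∈ Kc X r δ N s := by
        refine ⟨a1, stN_mem hN1 hr hr16 hNr (a3 s), ?_⟩
        show (0 : ℝ) ∈ IJ X r N s
        unfold IJ
        rw [if_neg hs]
        rfl
      rw [Set.indicator_of_mem hmem]
      unfold Fcs Jc Nw.Jf
      simp only
      rw [if_neg hs, dif_neg hs]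

end Pool.Agent.H760.TX
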