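import Pool.Agent.H760.TX.Vct

/-!
# Mixed augmentation in the thickened torus: the sums at the bottom of complex angles
-/

set_option autoImplicit false

namespace Pool.Agent.H760.TX

open Pool.Agent.H760.TT (Vx TS Val Cell Gof Gof_map Gof_len Kf turn turn_map uniqR fixR gS gK gS_eq
  gK_eq)

variable {D : List Vx} {k m : ℕ}

lemma list_reim : ∀ (G G' : List ℂ), G.map Complex.reAddGroupHom = G'.map Complex.reAddGroupHom →
    G.map Complex.imAddGroupHom = G'.map Complex.imAddGroupHom → G = G'
  | [], [], _, _ => rfl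
  | [], _ :: _, h, _ => by simp at h
  | _ :: _, [], h, _ => by simp at h
  | z :: G, z' :: G', h1, h2 => by
    simp only [List.map_cons, List.cons.injEq] at h1 h2
    rw [list_reim G G' h1.2 h2.2]
    congr 1
    exact Complex.ext h1.1 h2.1

lemma fixC (h : Val D (m + 1) (m + 1)) (hC : Cell D m k) (a : Fin D.length → Fin 6 → ℂ) :
    turn D a (Gof k m D a) = Gof k m D a := by
  apply list_reim
  · rw [← turn_map, ← Gof_map]
    exact fixR h hC _
  · rw [← turn_map, ← Gof_map]
    exact fixR h hC _

lemma uniqC (h : Val D (m + 1) (m + 1)) (hC : Cell D m k) (a : Fin D.length → Fin 6 → ℂ)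
    (G : List ℂ) (hG : G.length = m + 2) (hf : turn D a G = G) : G = Gof k m D a := by
  apply list_reim
  · rw [← Gof_map]
    refine uniqR h hC _ _ (by simp [hG]) ?_
    rw [turn_map, hf]
  · rw [← Gof_map]
    refine uniqR h hC _ _ (by simp [hG]) ?_
    rw [turn_map, hf]

lemma ev_gS {R : Type} [CommRing R] (x : Fin D.length → Fin 6 → R) :
    ev (gS k m D) x = (Gof k m D x).sum := by
  rw [ev_evx, gS_eq]

lemma ev_gK {R : Type} [CommRing R] (x : Fin D.length → Fin 6 → R) :
    ev (gK k m D) x = Kf D x (Gof k m D x) := by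
  rw [ev_evx, gK_eq]

end Pool.Agent.H760.TX
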