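import Pool.Agent.H760.TX.Net3
import Pool.Agent.H760.TT.Rank
import Pool.Graph.R_pool_sql_team_seeded_3997aac3.Q261.HT.NR

/-!
# Mixed augmentation in the thickened torus: distances and dimensions

Adapted from `Q99/HU/Q166/NDi.lean` and `Q261/HT/NR.lean`.
-/

set_option autoImplicit false

namespace Pool.Agent.H760.TX

open Finset Filter Topology
open Pool.Agent.Q99.HT
open Pool.Agent.Q99.HU.Q166 (bf_bf bf_all dX' dl x_eq sx_eq inj_bd)
open Pool.Agent.Q99.FAL (n1 n2 cor dn toR fV)
open Pool.Agent.H760.TT (Vx TS LT XT AT mem_LT span_LT LR_TS TS_add TS_sub TS_map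
  TS_cor TS_castR TS_smulR TS_zero Val Cell)

variable {D : List Vx} {k m d : ℕ}

theorem net_dist {a : Fin D.length → Fin 6 → ℝ} {β : Fin D.length → Bool} {Y : Nw D.length d}
    (hN : NetT k m D a β Y) (hY : Y.Okb) : ∃ C : ℝ, 1 ≤ C ∧
  ∀ (ρ : ℝ) (T : Fin d → ℂ) (J ζ : Fin D.length → ℂ), 0 < ρ →
  (Y.Nr ρ T J ζ → ∀ s i, ‖sx (β s) (1 / 2) (Y.v T J s) (ζ s) i - a s i‖ < C * ρ) ∧
  ((∀ s i, ‖sx (β s) (1 / 2) (Y.v T J s) (ζ s) i - a s i‖ < ρ) → Y.Nr (C * ρ) T J ζ) := by
  obtain ⟨K, hK0, hK⟩ := inj_bd Y hY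
  set M : ℝ := ∑ j, ∑ s, ∑ i, |(Y.E j s i : ℝ)| with hM'
  have hM0 : 0 ≤ M := by positivity
  have hab : ∀ s i, (a s i : ℂ) = bf (β s) (fun i => (Y.α s i : ℂ)) i := by
    intro s i
    have h1 : a s = bf (β s) (Y.α s) := by rw [hN.al s, bf_bf]
    rw [h1]
    cases β s
    · fin_cases i <;> rfl
    · rfl
  have hdiff : ∀ (T : Fin d → ℂ) (J ζ : Fin D.length → ℂ) s i,
      sx (β s) (1 / 2) (Y.v T J s) (ζ s) i - a s i = bf (β s) (dl Y T J ζ s) i := by
    intro T J ζ s i
    rw [sx_eq Y hY β T J ζ s, hab]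
    simp
  refine ⟨2 * M + 2 * K + 7, by linarith, ?_⟩
  intro ρ T J ζ hρ
  constructor
  · rintro ⟨h1, h2, h3⟩
    have hX : ∀ s i, ‖dX' Y T s i‖ ≤ M * ρ := by
      intro s i
      unfold dX'
      calc ‖∑ j, (T j - Y.τ j) * (Y.E j s i : ℂ)‖ ≤ ∑ j, ‖(T j - Y.τ j) * (Y.E j s i : ℂ)‖ :=
            norm_sum_le _ _
        _ ≤ ∑ j, ρ * (∑ s, ∑ i, |(Y.E j s i : ℝ)|) := by
          apply Finset.sum_le_sum
          intro j _
          rw [norm_mul]
          apply mul_le_mul (h1 j).le _ (norm_nonneg _) hρ.le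
          rw [Complex.norm_intCast]
          calc |((Y.E j s i : ℤ) : ℝ)| ≤ ∑ i, |(Y.E j s i : ℝ)| :=
                Finset.single_le_sum (f := fun i => |(Y.E j s i : ℝ)|)
                  (fun i _ => abs_nonneg _) (Finset.mem_univ i)
            _ ≤ ∑ s, ∑ i, |(Y.E j s i : ℝ)| :=
                Finset.single_le_sum (f := fun s => ∑ i, |(Y.E j s i : ℝ)|)
                  (fun s _ => Finset.sum_nonneg fun i _ => abs_nonneg _) (Finset.mem_univ s)
        _ = M * ρ := by rw [← Finset.mul_sum, mul_comm]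
    intro s i
    rw [hdiff]
    revert i
    rw [bf_all (fun z : ℂ => ‖z‖ < (2 * M + 2 * K + 7) * ρ) (β s)]
    have g0 := hX s 0
    have g1 := hX s 1
    have g2 := hX s 2
    have g3 := h2 s
    have g4 := h3 s
    have g5 : ‖ζ s / 2‖ = ‖ζ s‖ / 2 := by rw [norm_div]; simp
    have hKρ : 0 ≤ K * ρ := by positivity
    have hMρ : 0 ≤ M * ρ := by positivity
    intro i
    fin_cases i
    · show ‖dX' Y T s 0‖ < _
      linarith
    · show ‖J s - Y.α s 1‖ < _
      linarith
    · show ‖ζ s / 2 - dX' Y T s 0 - (J s - Y.α s 1)‖ < _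
      have e1 := norm_sub_le (ζ s / 2 - dX' Y T s 0) (J s - Y.α s 1)
      have e2 := norm_sub_le (ζ s / 2) (dX' Y T s 0)
      linarith
    · show ‖dX' Y T s 2‖ < _
      linarith
    · show ‖dX' Y T s 1 - (J s - Y.α s 1)‖ < _
      have e1 := norm_sub_le (dX' Y T s 1) (J s - Y.α s 1)
      linarith
    · show ‖-(ζ s / 2) - dX' Y T s 2 - (dX' Y T s 1 - (J s - Y.α s 1))‖ < _
      have e1 := norm_sub_le (dX' Y T s 1) (J s - Y.α s 1)
      have e2 := norm_sub_le (-(ζ s / 2) - dX' Y T s 2) (dX' Y T s 1 - (J s - Y.α s 1))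
      have e3 := norm_sub_le (-(ζ s / 2)) (dX' Y T s 2)
      rw [norm_neg] at e3
      linarith
  · intro h
    have hb : ∀ s i, ‖dl Y T J ζ s i‖ < ρ := by
      intro s
      have h' := h s
      simp only [hdiff] at h'
      rwa [bf_all (fun z : ℂ => ‖z‖ < ρ) (β s)] at h'
    have hX : ∀ s i, ‖dX' Y T s i‖ ≤ 2 * ρ := by
      intro s i
      have b0 : ‖dX' Y T s 0‖ < ρ := hb s 0
      have b1 : ‖J s - Y.α s 1‖ < ρ := hb s 1
      have b3 : ‖dX' Y T s 2‖ < ρ := hb s 3
      have b4 : ‖dX' Y T s 1 - (J s - Y.α s 1)‖ < ρ := hb s 4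
      fin_cases i
      · show ‖dX' Y T s 0‖ ≤ _
        linarith
      · show ‖dX' Y T s 1‖ ≤ _
        have e1 := norm_add_le (dX' Y T s 1 - (J s - Y.α s 1)) (J s - Y.α s 1)
        rw [sub_add_cancel] at e1
        linarith
      · show ‖dX' Y T s 2‖ ≤ _
        linarith
    have hMρ : 0 ≤ M * ρ := by positivity
    have hKρ : 0 ≤ K * ρ := by positivity
    refine ⟨fun j => ?_, fun s => ?_, fun s => ?_⟩
    · have := hK T (2 * ρ) (by positivity) hX j
      linarith
    · have b1 : ‖J s - Y.α s 1‖ < ρ := hb s 1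
      linarith
    · have b0 : ‖dX' Y T s 0‖ < ρ := hb s 0
      have b1 : ‖J s - Y.α s 1‖ < ρ := hb s 1
      have b2 : ‖ζ s / 2 - dX' Y T s 0 - (J s - Y.α s 1)‖ < ρ := hb s 2
      have e : ζ s = 2 * (dX' Y T s 0 + (J s - Y.α s 1) +
          (ζ s / 2 - dX' Y T s 0 - (J s - Y.α s 1))) := by ring
      rw [e, norm_mul]
      have e1 := norm_add_le (dX' Y T s 0 + (J s - Y.α s 1))
        (ζ s / 2 - dX' Y T s 0 - (J s - Y.α s 1))
      have e2 := norm_add_le (dX' Y T s 0) (J s - Y.α s 1)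
      have e3 : ‖(2 : ℂ)‖ = 2 := by simp
      rw [e3]
      linarith


/-! ### the number of the variables -/

section dim
open Pool.Agent.Q261.HT (Ph Ph_apply cv_Ph Ph_inj Jz Jz_zero kv cor_kv cv_kv eq_kv)
open Pool.Agent.Q99.HU.Q239 (card_J)
variable {a : Fin D.length → Fin 6 → ℝ} {β : Fin D.length → Bool} {Y : Nw D.length d}

lemma al1_ne (hM : MxT k m D a) (hN : NetT k m D a β Y) (s : Fin D.length) : Y.α s 1 ≠ 0 := by
  rw [hN.al s]
  generalize β s = c
  cases c
  · exact (hM.pos s 2).ne'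
  · exact (hM.pos s 1).ne'

lemma nA_T (hM : MxT k m D a) (hN : NetT k m D a β Y) : Y.nA = 6 * D.length := by
  have h1 : ∀ s, na (Y.α s) = 6 := by
    intro s
    have hp : ∀ i, 0 < Y.α s i := by
      intro i
      rw [hN.al s]
      generalize β s = c
      cases c
      · fin_cases i
        · exact hM.pos s 0
        · exact hM.pos s 2
        · exact hM.pos s 1
        · exact hM.pos s 3
        · exact hM.pos s 5
        · exact hM.pos s 4
      · exact hM.pos s i
    have hs1 : Y.α s 0 + Y.α s 1 + Y.α s 2 = 1 / 2 := by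
      have g := hM.h1 s
      rw [hN.al s]
      generalize β s = c
      cases c
      · show a s 0 + a s 2 + a s 1 = 1 / 2
        linarith
      · exact g
    have hs2 : Y.α s 3 + Y.α s 4 + Y.α s 5 = 1 / 2 := by
      have g := hM.h2 s
      rw [hN.al s]
      generalize β s = c
      cases c
      · show a s 3 + a s 5 + a s 4 = 1 / 2
        linarith
      · exact g
    have p0 := hp 0
    have p1 := hp 1
    have p2 := hp 2
    have p3 := hp 3
    have p4 := hp 4
    have p5 := hp 5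
    have hc : ∀ i, ctr (Y.α s) i ≠ 0 := by
      intro i
      fin_cases i
      · exact p0.ne'
      · exact p1.ne'
      · show 1 / 2 - Y.α s 2 ≠ 0
        have : 0 < 1 / 2 - Y.α s 2 := by linarith
        exact this.ne'
      · exact p3.ne'
      · exact p4.ne'
      · show 1 / 2 - Y.α s 5 ≠ 0
        have : 0 < 1 / 2 - Y.α s 5 := by linarith
        exact this.ne'
    unfold na
    simp only [if_neg (hc _), Finset.sum_const, Finset.card_univ, Fintype.card_fin, smul_eq_mul,
      mul_one]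
  unfold Nw.nA
  simp only [h1, Finset.sum_const, Finset.card_univ, Fintype.card_fin, smul_eq_mul]
  ring

theorem card_T (h : Val D (m + 1) (m + 1)) (hC : Cell D m k) (hM : MxT k m D a)
    (hN : NetT k m D a β Y) : Fintype.card Y.Ix = 4 * D.length + 1 ∧ d = 2 * D.length + 1 := by
  classical
  obtain ⟨a0, ha0, hq0⟩ := hN.q0
  choose δ hδS hδE using hN.E1
  have hin := Ph_inj Y β δ hδE hN.inj
  have hrange : LinearMap.range (Ph Y β δ) = LT k m D := by
    apply le_antisymm
    · rintro _ ⟨u, rfl⟩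
      have e1 : Ph Y β δ u = (∑ j, u (.inl j) • δ j) +
          fun s => bf (β s) (kv (Jz Y u s) (u (.inr (.inr s)))) := by
        funext s
        rw [Ph_apply, Pi.add_apply, Finset.sum_apply]
        rfl
      rw [e1]
      refine (LT k m D).add_mem ((LT k m D).sum_mem fun j _ => (LT k m D).smul_mem _ (hδS j)) ?_
      rw [mem_LT]
      refine TS_cor (fun _ _ => 0) _ 0 (fun b => ?_) (fun b => ?_) (TS_zero k)
      · rw [cor_kv]
        funext j
        fin_cases j <;> rfl
      · have e2 : n1 (bf (β b) (kv (Jz Y u b) (u (.inr (.inr b))))) +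
            n2 (bf (β b) (kv (Jz Y u b) (u (.inr (.inr b))))) = 0 := by
          rw [Pool.Agent.Q99.HU.Q166.n1_bf, Pool.Agent.Q99.HU.Q166.n2_bf]
          show 0 + Jz Y u b + u (.inr (.inr b)) + (0 + -(Jz Y u b) + -(u (.inr (.inr b)))) = 0
          ring
        rw [e2]
        simp [n1, n2]
    · intro x hx
      obtain ⟨t, ht, -⟩ := hN.E2 x hx
      set x' : Fin D.length → Fin 6 → ℤ := x - ∑ j, t j • δ j with hx'
      have hx'L : x' ∈ LT k m D :=
        (LT k m D).sub_mem hx ((LT k m D).sum_mem fun j _ => (LT k m D).smul_mem _ (hδS j))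
      have hcv : ∀ s i, cv (β s) (x' s) i = 0 := by
        intro s i
        have e1 : x' s = x s + (-1 : ℤ) • ∑ j, t j • δ j s := by
          rw [hx', Pi.sub_apply, Finset.sum_apply, neg_one_smul, sub_eq_add_neg]
          rfl
        rw [e1, Pool.Agent.Q261.HT.cv_add, Pool.Agent.Q261.HT.cv_smul, Pool.Agent.Q261.HT.cv_sum,
          ht s i]
        simp only [hδE]
        ring
      have hsum : ∀ s, n1 (x' s) + n2 (x' s) = 0 := ((mem_LT x').1 hx'L).1
      have hk := fun s => eq_kv (hcv s) (hsum s)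
      refine ⟨fun q => match q with
        | .inl j => t j
        | .inr (.inl q) => if β q.1 then x' q.1 1 else x' q.1 2
        | .inr (.inr s) => if β s then x' s 2 else x' s 1, ?_⟩
      funext s
      rw [Ph_apply]
      have hJ : Jz Y (fun q => match q with
        | .inl j => t j
        | .inr (.inl q) => if β q.1 then x' q.1 1 else x' q.1 2
        | .inr (.inr s) => if β s then x' s 2 else x' s 1) s = if β s then x' s 1 else x' s 2 := by
        unfold Jz
        rw [dif_pos (al1_ne hM hN s)]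
      rw [hJ]
      show (∑ j, t j • δ j s) + bf (β s) (kv (if β s then x' s 1 else x' s 2)
        (if β s then x' s 2 else x' s 1)) = x s
      rw [← hk s, hx', Pi.sub_apply, Finset.sum_apply]
      show (∑ j, t j • δ j s) + (x s - ∑ j, t j • δ j s) = x s
      abel
  have hrank : Module.finrank ℤ (LT k m D) = Fintype.card Y.Ix := by
    have e1 := (LinearEquiv.ofInjective (Ph Y β δ) hin).finrank_eq
    rw [hrange] at e1
    rw [← e1]
    exact Module.finrank_fintype_fun_eq_card ℤ
  have hr := Pool.Agent.H760.TT.rank_LT h hC a hM.mem.1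
  have hc1 : Fintype.card {s : Fin D.length // Y.α s 1 ≠ 0} = D.length := by
    rw [Fintype.card_congr (Equiv.subtypeUnivEquiv fun s => al1_ne hM hN s), Fintype.card_fin]
  have hc2 := card_J Y
  rw [hc1] at hc2
  constructor
  · rw [← hrank, hr]
  · have := hrank.symm.trans hr
    omega

end dim

end Pool.Agent.H760.TX
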