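import Pool.Agent.H760.TX.Trc
import Pool.Agent.H760.TX.Net4

/-!
# Mixed augmentation in the thickened torus: the critical structure

Adapted from `MX/Fin.lean`.
-/

set_option autoImplicit false

namespace Pool.Agent.H760.TX

open Finset Filter Topology MeasureTheory
open Pool.Agent.Q99.FAL (bq hh S_T1 Pc Ty fV n1 n2 cor dn Net up wd stp cls zz nV toR eij)
open Pool.Agent.Q99.KN (LC bb St S_LC tet lbf S_BW)
open Pool.Agent.Q99.HT
open Pool.Agent.Q99.HU.Q166 (n1_sx n2_sx sx_sy sum_bf term_gT term_LT lf_zer Vu Vu_one Vu_zero gT_zero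
  LT_zero)
open Pool.Agent.H760.TT (Vx TS LT XT AT mem_LT span_LT LR_TS TS_add TS_sub TS_map
  TS_cor TS_castR TS_smulR TS_zero Val Cell gS gK gS_eq gK_eq Gof Kf Flat)
open Pool.Agent.H760.MX

variable {D : List Vx} {k m d : ℕ}

/-- the deviation of the first holonomy -/
noncomputable def hS (k m : ℕ) (D : List Vx) (a : Fin D.length → Fin 6 → ℝ)
    (x : Fin D.length → Fin 6 → ℂ) : ℂ := ev (gS k m D) x - ((ev (gS k m D) a : ℝ) : ℂ)

/-- the deviation of the second holonomy -/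
noncomputable def hK (k m : ℕ) (D : List Vx) (a : Fin D.length → Fin 6 → ℝ)
    (x : Fin D.length → Fin 6 → ℂ) : ℂ := ev (gK k m D) x - ((ev (gK k m D) a : ℝ) : ℂ)

/-- the derivative of the potential in the direction `δ` -/
noncomputable def GIT (k m : ℕ) (D : List Vx) (a : Fin D.length → Fin 6 → ℝ)
    (cc : Fin D.length → Bool) (w : Fin D.length → ℤ) (x δ : Fin D.length → Fin 6 → ℂ) : ℂ :=
  GIX cc w x δ + 2 * Real.pi * Complex.I *
    (hS k m D a x * ev (gK k m D) δ + hK k m D a x * ev (gS k m D) δ)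

/-- the potential -/
noncomputable def PIT (k m : ℕ) (D : List Vx) (a : Fin D.length → Fin 6 → ℝ)
    (cc : Fin D.length → Bool) (w : Fin D.length → ℤ) (x : Fin D.length → Fin 6 → ℂ) : ℂ :=
  PIX cc w x + 2 * Real.pi * Complex.I * (hS k m D a x * hK k m D a x)

/-- a critical complex angle structure -/
def CrIT (k m : ℕ) (D : List Vx) (a : Fin D.length → Fin 6 → ℝ) (cc : Fin D.length → Bool)
    (w : Fin D.length → ℤ) (x : Fin D.length → Fin 6 → ℂ) : Prop :=
  TS k m D x 1 ∧ ∀ δ : Fin D.length → Fin 6 → ℂ, TS k m D δ 0 → GIT k m D a cc w x δ = 0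

section eqs
variable {a : Fin D.length → Fin 6 → ℝ} {β : Fin D.length → Bool} {Y : Nw D.length d} {j l : ℤ}
  {H : Hol d}

lemma GIT_eq (hY : Y.Okb) (hH : HolN k m D a β Y j l H) (cc : Fin D.length → Bool)
    (w : Fin D.length → ℤ) (T T' : Fin d → ℂ) (J ζ J' ζ' : Fin D.length → ℂ) (hJ : Y.AJ J)
    (hJ' : Y.AJ J') :
    GIT k m D a cc w (fun s => sx (β s) (1 / 2) (Y.v T J s) (ζ s))
      (fun s => sx (β s) 0 (Y.dv T' J' s) (ζ' s)) = GPQ Y H cc w T J ζ T' J' ζ' := by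
  unfold GIT GPQ hS hK
  rw [GIX_eq Y hY β cc w T T' J ζ J' ζ' hJ hJ', hH.s1, hH.k1, hH.s0, hH.k0, add_sub_cancel_left,
    add_sub_cancel_left]
  rfl

lemma PIT_eq (hY : Y.Okb) (hH : HolN k m D a β Y j l H) (cc : Fin D.length → Bool)
    (w : Fin D.length → ℤ) (T : Fin d → ℂ) (J ζ : Fin D.length → ℂ) (hJ : Y.AJ J) :
    PIT k m D a cc w (fun s => sx (β s) (1 / 2) (Y.v T J s) (ζ s)) = PhQ Y H cc w T J ζ := by
  unfold PIT PhQ hS hK
  rw [PIX_eq Y hY β cc w T J ζ hJ, hH.s1, hH.k1, add_sub_cancel_left, add_sub_cancel_left]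
  rfl

end eqs

section
open Pool.Agent.Q206.HT

/-- **the critical value is the volume** -/
theorem VFt (cc : Fin D.length → Bool)
    (a : Fin D.length → Fin 6 → ℝ) (ha : MxT k m D a) : ∃ ρ : ℝ, 0 < ρ ∧
    ∀ (w : Fin D.length → ℤ) (x : Fin D.length → Fin 6 → ℂ), CrIT k m D a cc w x →
    (∀ s i, ‖x s i - a s i‖ < ρ) → VI x = 2 * Real.pi * (PIT k m D a cc w x).re := by
  have hL : S_LC := Pool.Agent.Q99.HT.t_LC
  have hB : S_BW := Pool.Agent.Q239.KN.task_BW
  have nn : ∀ s i, 0 ≤ a s i := fun s i => (ha.pos s i).le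
  have hn1 : ∀ s, a s 0 + a s 1 + a s 2 = 1 / 2 := ha.h1
  have hn2 : ∀ s, a s 3 + a s 4 + a s 5 = 1 / 2 := ha.h2
  have hle : ∀ s i, a s i ≤ 1 / 2 := by
    intro s i
    have m0 := nn s 0
    have m1 := nn s 1
    have m2 := nn s 2
    have m3 := nn s 3
    have m4 := nn s 4
    have m5 := nn s 5
    have g1 := hn1 s
    have g2 := hn2 s
    have hall : a s 0 ≤ 1 / 2 ∧ a s 1 ≤ 1 / 2 ∧ a s 2 ≤ 1 / 2 ∧ a s 3 ≤ 1 / 2 ∧ a s 4 ≤ 1 / 2 ∧
        a s 5 ≤ 1 / 2 := by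
      refine ⟨?_, ?_, ?_, ?_, ?_, ?_⟩ <;> linarith
    obtain ⟨q0, q1, q2, q3, q4, q5⟩ := hall
    fin_cases i
    · exact q0
    · exact q1
    · exact q2
    · exact q3
    · exact q4
    · exact q5
  obtain ⟨ρ, hρ0, hρ1, hρ⟩ := exists_rho a nn hle
  refine ⟨ρ, hρ0, ?_⟩
  intro w x hx hd
  obtain ⟨hxs, hcr⟩ := hx
  have hsum : ∀ s, n1 (x s) + n2 (x s) = 1 := hxs.1
  have hx0 : ∀ s i, a s i = 0 → x s i = 0 := fun s i h => absurd h (ha.pos s i).ne'
  -- real parts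
  have hre : ∀ s i, |(x s i).re - a s i| < ρ := by
    intro s i
    have h1 := Complex.abs_re_le_norm (x s i - a s i)
    rw [Complex.sub_re, Complex.ofReal_re] at h1
    exact h1.trans_lt (hd s i)
  have hre1 : ∀ s i, a s i - ρ < (x s i).re := fun s i => by
    have := (abs_lt.1 (hre s i)).1
    linarith
  have hre2 : ∀ s i, (x s i).re < a s i + ρ := fun s i => by
    have := (abs_lt.1 (hre s i)).2
    linarith
  have hn1re : ∀ s, (n1 (x s)).re = (x s 0).re + (x s 1).re + (x s 2).re := fun s => by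
    unfold n1; rw [Complex.add_re, Complex.add_re]
  have hn2re : ∀ s, (n2 (x s)).re = (x s 3).re + (x s 4).re + (x s 5).re := fun s => by
    unfold n2; rw [Complex.add_re, Complex.add_re]
  have h1 : ∀ s, n1 (x s) ∈ St := by
    intro s
    have g := hn1 s
    have a0 := hre1 s 0
    have a1 := hre1 s 1
    have a2 := hre1 s 2
    have b0 := hre2 s 0
    have b1 := hre2 s 1
    have b2 := hre2 s 2
    refine ⟨?_, ?_⟩
    · rw [hn1re]; linarith
    · rw [hn1re]; linarith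
  have h2 : ∀ s i, S0 (x s i) := by
    intro s i
    left
    have m1 := (hρ s i).1 (ha.pos s i).ne'
    have m2 := hle s i
    have m3 := hre1 s i
    have m4 := hre2 s i
    exact ⟨by linarith, by linarith⟩
  -- two angles of a triangle
  have hpair : ∀ s i j, (a s i = 0 ∧ a s j = 0) ∨ 8 * ρ ≤ a s i + a s j →
      a s i + a s j ≤ 1 / 2 → S0 (x s i + x s j) := by
    intro s i j h hh
    rcases h with ⟨h, h'⟩ | h
    · right
      rw [hx0 s i h, hx0 s j h', add_zero]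
    · left
      have m1 := hre1 s i
      have m2 := hre1 s j
      have m3 := hre2 s i
      have m4 := hre2 s j
      refine ⟨?_, ?_⟩
      · rw [Complex.add_re]; linarith
      · rw [Complex.add_re]; linarith
  have hpair' : ∀ s i j k, a s i + a s j + a s k = 1 / 2 → S0 (x s i + x s j) := by
    intro s i j k h
    have m1 := nn s i
    have m2 := nn s j
    have m3 := nn s k
    refine hpair s i j ?_ (by linarith)
    by_cases h' : a s k = 1 / 2
    · left; constructor <;> linarith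
    · right
      have := (hρ s k).2 h'
      linarith
  have h3 : ∀ s i, S0 (dn (x s) i - x s i) := by
    intro s i
    have hs := hsum s
    have g1 := hn1 s
    have g2 := hn2 s
    -- the angles `0` and `3`
    have h03 : ∀ i j : Fin 6, (a s i ≠ 1 / 2) → ∀ y : ℂ, y.re = (x s i).re →
        (∀ z : ℂ, 1 / 2 - 3 * ρ < z.re → z.re < 1 / 2 + 3 * ρ → S0 (z - y)) := by
      intro i j hi y hy z hz1 hz2
      left
      have m1 := (hρ s i).2 hi
      have m2 := hre1 s i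
      have m3 := hre2 s i
      have m4 := nn s i
      refine ⟨?_, ?_⟩
      · rw [Complex.sub_re, hy]; linarith
      · rw [Complex.sub_re, hy]; linarith
    have r1 : 1 / 2 - 3 * ρ < (n1 (x s)).re ∧ (n1 (x s)).re < 1 / 2 + 3 * ρ := by
      have a0 := hre1 s 0
      have a1 := hre1 s 1
      have a2 := hre1 s 2
      have b0 := hre2 s 0
      have b1 := hre2 s 1
      have b2 := hre2 s 2
      rw [hn1re]
      constructor <;> linarith
    have r2 : 1 / 2 - 3 * ρ < (n2 (x s)).re ∧ (n2 (x s)).re < 1 / 2 + 3 * ρ := by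
      have a0 := hre1 s 3
      have a1 := hre1 s 4
      have a2 := hre1 s 5
      have b0 := hre2 s 3
      have b1 := hre2 s 4
      have b2 := hre2 s 5
      rw [hn2re]
      constructor <;> linarith
    have m1 := ha.pos s 1
    have m2 := ha.pos s 2
    have m4 := ha.pos s 4
    have m5 := ha.pos s 5
    fin_cases i
    · refine h03 0 0 ?_ _ rfl _ r2.1 r2.2
      intro h
      linarith
    · have e : dn (x s) 1 - x s 1 = x s 0 + x s 2 := by
        show x s 0 + x s 1 + x s 2 - x s 1 = _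
        ring
      show S0 (dn (x s) 1 - x s 1)
      rw [e]
      exact hpair' s 0 2 1 (by linarith)
    · have e : dn (x s) 2 - x s 2 = x s 0 + x s 1 := by
        show x s 0 + x s 1 + x s 2 - x s 2 = _
        ring
      show S0 (dn (x s) 2 - x s 2)
      rw [e]
      exact hpair' s 0 1 2 (by linarith)
    · refine h03 3 3 ?_ _ rfl _ r1.1 r1.2
      intro h
      linarith
    · have e : dn (x s) 4 - x s 4 = x s 3 + x s 5 := by
        show x s 3 + x s 4 + x s 5 - x s 4 = _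
        ring
      show S0 (dn (x s) 4 - x s 4)
      rw [e]
      exact hpair' s 3 5 4 (by linarith)
    · have e : dn (x s) 5 - x s 5 = x s 3 + x s 4 := by
        show x s 3 + x s 4 + x s 5 - x s 5 = _
        ring
      show S0 (dn (x s) 5 - x s 5)
      rw [e]
      exact hpair' s 3 4 5 (by linarith)
  -- the direction
  let δ : Fin D.length → Fin 6 → ℂ := fun s i => (((x s i).im : ℝ) : ℂ)
  have hδ : TS k m D δ 0 := by
    have e1 := TS_map Complex.imAddGroupHom k x 1 hxs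
    have e2 := TS_map (Complex.ofRealHom : ℝ →+* ℂ).toAddMonoidHom k _ _ e1
    simpa using e2
  have hG := congrArg Complex.im (hcr δ hδ)
  obtain ⟨S, hS'⟩ : ∃ S, S = hS k m D a x := ⟨_, rfl⟩
  obtain ⟨K, hK'⟩ : ∃ K, K = hK k m D a x := ⟨_, rfl⟩
  have evδ : ∀ u : Fin D.length → Fin 6 → ℤ, ev u δ = (((ev u x).im : ℝ) : ℂ) := by
    intro u
    have e1 := ev_map (Complex.ofRealHom : ℝ →+* ℂ) u (fun s i => (x s i).im)
    rw [ev_im] at e1
    exact e1
  have hSim : S.im = (ev (gS k m D) x).im := by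
    rw [hS']
    unfold hS
    rw [Complex.sub_im, Complex.ofReal_im, sub_zero]
  have hKim : K.im = (ev (gK k m D) x).im := by
    rw [hK']
    unfold hK
    rw [Complex.sub_im, Complex.ofReal_im, sub_zero]
  have hQ : (2 * Real.pi * Complex.I * (hS k m D a x * ev (gK k m D) δ +
      hK k m D a x * ev (gS k m D) δ)).im = 2 * Real.pi * (S.re * K.im + K.re * S.im) := by
    rw [evδ, evδ, ← hS', ← hK', ← hSim, ← hKim]
    have e : 2 * Real.pi * Complex.I * (S * ((K.im : ℝ) : ℂ) + K * ((S.im : ℝ) : ℂ)) =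
        ((2 * Real.pi : ℝ) : ℂ) * (Complex.I * (((K.im : ℝ) : ℂ) * S + ((S.im : ℝ) : ℂ) * K)) := by
      push_cast
      ring
    rw [e, Complex.im_ofReal_mul, Complex.I_mul_im, Complex.add_re, Complex.re_ofReal_mul,
      Complex.re_ofReal_mul]
    ring
  have hR : (2 * Real.pi * Complex.I * (hS k m D a x * hK k m D a x)).re =
      -(2 * Real.pi * (S.re * K.im + K.re * S.im)) := by
    rw [← hS', ← hK']
    have e : 2 * Real.pi * Complex.I * (S * K) = ((2 * Real.pi : ℝ) : ℂ) * (Complex.I * (S * K)) := by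
      push_cast
      ring
    rw [e, Complex.re_ofReal_mul, Complex.I_mul_re, Complex.mul_im]
    ring
  unfold GIT at hG
  rw [Complex.add_im, hQ] at hG
  unfold GIX at hG
  rw [Complex.im_sum, Complex.zero_im] at hG
  have hdn : ∀ s i, dn (δ s) i = (((dn (x s) i).im : ℝ) : ℂ) := by
    intro s i
    unfold dn
    split
    · show δ s 3 + δ s 4 + δ s 5 = (((n2 (x s)).im : ℝ) : ℂ)
      unfold n2
      rw [Complex.add_im, Complex.add_im]
      push_cast
      rfl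
    · show δ s 0 + δ s 1 + δ s 2 = (((n1 (x s)).im : ℝ) : ℂ)
      unfold n1
      rw [Complex.add_im, Complex.add_im]
      push_cast
      rfl
  have hnn : ∀ s, n1 (δ s) - n2 (δ s) = (((n1 (x s) - n2 (x s)).im : ℝ) : ℂ) := by
    intro s
    have e1 : n1 (δ s) = (((n1 (x s)).im : ℝ) : ℂ) := hdn s 1
    have e2 : n2 (δ s) = (((n2 (x s)).im : ℝ) : ℂ) := hdn s 0
    rw [e1, e2, Complex.sub_im]
    push_cast
    rfl
  have hterm : ∀ s, (∑ i, gT (dn (x s) i) (x s i) (dn (δ s) i) (δ s i) +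
      (Complex.I * Real.pi * w s * (n1 (x s) - n2 (x s)) / 2 + kc (cc s) * (Complex.I * Real.pi)) *
        (n1 (δ s) - n2 (δ s))).im =
      (∑ i, gT (dn (x s) i) (x s i) ((dn (x s) i).im : ℂ) ((x s i).im : ℂ)).im +
        (n1 (x s) - n2 (x s)).im *
          (Complex.I * Real.pi * w s * (n1 (x s) - n2 (x s)) / 2 + kc (cc s) * (Complex.I * Real.pi)).im := by
    intro s
    rw [Complex.add_im]
    congr 1
    · congr 1
      apply Finset.sum_congr rfl
      intro i _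
      rw [hdn]
    · rw [hnn, mul_comm, Complex.im_ofReal_mul]
  rw [Finset.sum_congr rfl (fun s _ => hterm s), Finset.sum_add_distrib] at hG
  -- the value
  have hV' : VI x = ∑ s, (2 * Real.pi * (∑ i, LT (dn (x s) i) (x s i)).re +
        2 * Real.pi * (∑ i, gT (dn (x s) i) (x s i) ((dn (x s) i).im : ℂ) ((x s i).im : ℂ)).im) := by
    unfold VI
    apply Finset.sum_congr rfl
    intro s _
    exact rgn hL hB (hsum s) (h1 s) (h2 s) (h3 s)
  have hPI : (PIX cc w x).re = ∑ s, ((∑ i, LT (dn (x s) i) (x s i)).re -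
      (n1 (x s) - n2 (x s)).im *
          (Complex.I * Real.pi * w s * (n1 (x s) - n2 (x s)) / 2 + kc (cc s) * (Complex.I * Real.pi)).im) := by
    unfold PIX
    rw [Complex.re_sum]
    apply Finset.sum_congr rfl
    intro s _
    rw [add_assoc, Complex.add_re, quad_reX]
    ring
  unfold PIT
  rw [Complex.add_re, hR, hV', hPI, Finset.sum_add_distrib, Finset.sum_sub_distrib, ← Finset.mul_sum,
    ← Finset.mul_sum]
  linear_combination (2 * Real.pi) * hG

end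

section
open Pool.Agent.Q99.HU

/-- **the state sum of a partially augmented link in the thickened torus** -/
theorem finT (h : Val D (m + 1) (m + 1)) (hC : Cell D m k) (a0 : Fin D.length → Fin 6 → ℤ)
    (h0 : TS k m D a0 1) (cc : Fin D.length → Bool) (a : Fin D.length → Fin 6 → ℝ)
    (ha : MxT k m D a) (hq : Dmt k m D cc a) (j l : ℤ) (hF : Flat k m D a j l) :
    ∃ ρ0 : ℝ, 0 < ρ0 ∧ ∀ ρ : ℝ, 0 < ρ → ρ ≤ ρ0 → ∃ W0 C : ℝ, 1 ≤ W0 ∧
    ∀ (f : Fin D.length → Bool × ℕ) (Wm : ℝ), W0 ≤ Wm →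
      (∀ s, cc s = false → Wm ≤ |(wf f s : ℝ)|) →
    ∃ x : Fin D.length → Fin 6 → ℂ, CrIT k m D a cc (wf f) x ∧ (∀ s i, ‖x s i - a s i‖ < ρ) ∧
      (∀ x', CrIT k m D a cc (wf f) x' → (∀ s i, ‖x' s i - a s i‖ < ρ) → x' = x) ∧
      (∀ s, cc s = true → n1 (x s) = n2 (x s)) ∧
      (∀ s, cc s = false → 0 < (n1 (x s) - n2 (x s)).im) ∧
      VI x = 2 * Real.pi * (PIT k m D a cc (wf f) x).re ∧
      |VI x - 2 * Real.pi * fV a| ≤ C / Wm ^ 2 ∧
      ∃ z : ℂ, z ≠ 0 ∧ Tendsto (fun N : ℕ =>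
        (∑ t : Fin (m + 1) → Fin N, FDG D (rgD N cc f) (Pool.Agent.Q191.TW.dl (List.ofFn t))
          (List.ofFn t)) / ((phT D m cc f j l N * (∏ b, kp (cc b)) * sgX cc N) *
          ((√N : ℝ) * Complex.exp (N * PIT k m D a cc (wf f) x)))) atTop (𝓝 z) := by
  have hpi := Real.pi_pos
  obtain ⟨d, β, Y, hY⟩ := exists_net a0 h0 ha.mem.1
  obtain ⟨hOk, hab, hv⟩ := okb_net ha hY
  obtain ⟨H, hH⟩ := hol_net hY ha.mem.1 j l
  have hfar := FARt cc a ha hq β Y hY hv
  obtain ⟨ρa, hρa, hAs⟩ := ASNq _ _ Y H cc hOk hfar (fun s => Lt_of cc a ha hq β Y hY s)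
  obtain ⟨Cd, hCd, hDi⟩ := net_dist hY hOk
  obtain ⟨ρv, hρv, hVf⟩ := VFt cc a ha
  have hAJ : ∀ J : Fin D.length → ℂ, Y.AJ J := fun J s hs => absurd hs (al1_ne ha hY s)
  have hT1 : ∀ x : Fin D.length → Fin 6 → ℂ, TS k m D x 1 ↔ ∃ (T : Fin d → ℂ)
      (J ζ : Fin D.length → ℂ), x = fun s => sx (β s) (1 / 2) (Y.v T J s) (ζ s) := by
    intro x
    rw [TS_par hY]
    simp only [Vu_one]
  have hT2 : ∀ x : Fin D.length → Fin 6 → ℂ, TS k m D x 0 ↔ ∃ (T : Fin d → ℂ)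
      (J ζ : Fin D.length → ℂ), x = fun s => sx (β s) 0 (Y.dv T J s) (ζ s) := by
    intro x
    rw [TS_par hY]
    simp only [Vu_zero, zero_div]
  have hCd0 : 0 < Cd := by linarith
  refine ⟨min (ρa / Cd) ρv, lt_min (by positivity) hρv, fun ρ hρ hρ' => ?_⟩
  have hρ1 : Cd * ρ ≤ ρa := by
    have := le_trans hρ' (min_le_left _ _)
    rw [le_div_iff₀ hCd0] at this
    linarith
  have hρ2 : ρ ≤ ρv := le_trans hρ' (min_le_right _ _)
  have hρ3 : ρ / Cd ≤ ρa := by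
    refine le_trans ?_ hρ1
    rw [div_le_iff₀ hCd0]
    nlinarith [mul_pos hCd0 hρ]
  obtain ⟨W1, C1, hW1, hB1⟩ := hAs (ρ / Cd) (by positivity) hρ3
  obtain ⟨W2, C2, hW2, hB2⟩ := hAs (Cd * ρ) (by positivity) hρ1
  refine ⟨max W1 W2, 2 * Real.pi * C1, le_trans hW1 (le_max_left _ _), fun f Wm hWm hf => ?_⟩
  obtain ⟨w, hw⟩ : ∃ w, w = wf f := ⟨_, rfl⟩
  rw [← hw] at hf ⊢
  obtain ⟨T, J, ζ, hc, hn, hz0, him, hval, -, z, hz, hlim⟩ :=
    hB1 w Wm (le_trans (le_max_left _ _) hWm) hf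
  obtain ⟨T2, J2, ζ2, hc2, hn2, -, -, -, hu2, -⟩ :=
    hB2 w Wm (le_trans (le_max_right _ _) hWm) hf
  have hle : ρ / Cd ≤ Cd * ρ := by
    rw [div_le_iff₀ hCd0]
    nlinarith [mul_pos hCd0 hρ, mul_pos (mul_pos hCd0 hρ) hCd0]
  have hmono : ∀ {T' : Fin d → ℂ} {J' ζ' : Fin D.length → ℂ}, Y.Nr (ρ / Cd) T' J' ζ' →
      Y.Nr (Cd * ρ) T' J' ζ' := fun h =>
    ⟨fun j => lt_of_lt_of_le (h.1 j) hle, fun s => lt_of_lt_of_le (h.2.1 s) hle,
      fun s => lt_of_lt_of_le (h.2.2 s) hle⟩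
  have hun : ∀ (T' : Fin d → ℂ) (J' ζ' : Fin D.length → ℂ), CrQ Y H cc w T' J' ζ' →
      Y.Nr (Cd * ρ) T' J' ζ' → T' = T ∧ J' = J ∧ ζ' = ζ := by
    intro T' J' ζ' h4 h5
    obtain ⟨e1, e2, e3⟩ := hu2 T' J' ζ' h4 h5
    obtain ⟨e4, e5, e6⟩ := hu2 T J ζ hc (hmono hn)
    exact ⟨e1.trans e4.symm, e2.trans e5.symm, e3.trans e6.symm⟩
  set x : Fin D.length → Fin 6 → ℂ := fun s => sx (β s) (1 / 2) (Y.v T J s) (ζ s) with hx
  have hxc : CrIT k m D a cc w x := by
    refine ⟨(hT1 x).2 ⟨T, J, ζ, rfl⟩, fun δ hδ => ?_⟩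
    obtain ⟨T', J', ζ', rfl⟩ := (hT2 δ).1 hδ
    rw [hx, GIT_eq hOk hH cc w T T' J ζ J' ζ' (hAJ J) (hAJ J')]
    exact hc.eq _ _ _ (hAJ J')
  have hxn : ∀ s i, ‖x s i - a s i‖ < ρ := by
    intro s i
    have := (hDi (ρ / Cd) T J ζ (by positivity)).1 hn s i
    rwa [mul_div_cancel₀ _ hCd0.ne'] at this
  have hPI : PIT k m D a cc w x = PhQ Y H cc w T J ζ := PIT_eq hOk hH cc w T J ζ (hAJ J)
  have hVx : VI x = 2 * Real.pi * (PIT k m D a cc w x).re :=
    hVf w x hxc fun s i => lt_of_lt_of_le (hxn s i) hρ2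
  refine ⟨x, hxc, hxn, ?_, ?_, ?_, hVx, ?_, z, hz, ?_⟩
  · intro x' hx' hn'
    obtain ⟨T', J', ζ', rfl⟩ := (hT1 x').1 hx'.1
    have h5 := (hDi ρ T' J' ζ' hρ).2 hn'
    have h4 : CrQ Y H cc w T' J' ζ' := by
      refine ⟨hAJ J', fun T'' J'' ζ'' hJ'' => ?_⟩
      rw [← GIT_eq hOk hH cc w T' T'' J' ζ' J'' ζ'' (hAJ J') hJ'']
      exact hx'.2 _ ((hT2 _).2 ⟨T'', J'', ζ'', rfl⟩)
    obtain ⟨e1, e2, e3⟩ := hun T' J' ζ' h4 h5
    rw [hx, e1, e2, e3]
  · intro s hs
    have e1 := sx_n12 (β s) (1 / 2) (Y.v T J s) (ζ s)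
    show n1 (sx (β s) (1 / 2) (Y.v T J s) (ζ s)) = n2 (sx (β s) (1 / 2) (Y.v T J s) (ζ s))
    rw [e1.1, e1.2, hz0 s hs]
    ring
  · intro s hs
    have e1 := sx_n12 (β s) (1 / 2) (Y.v T J s) (ζ s)
    show 0 < (n1 (sx (β s) (1 / 2) (Y.v T J s) (ζ s)) -
      n2 (sx (β s) (1 / 2) (Y.v T J s) (ζ s))).im
    rw [e1.1, e1.2]
    have e2 : (1 / 2 + ζ s / 2 - (1 / 2 - ζ s / 2) : ℂ) = ζ s := by ring
    rw [e2]
    exact him s hs
  · rw [hVx, hPI, ← hv, ← mul_sub, abs_mul, abs_of_pos (by positivity : 0 < 2 * Real.pi), mul_div_assoc]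
    exact mul_le_mul_of_nonneg_left hval (by positivity)
  · refine hlim.congr' ?_
    filter_upwards [eventually_ge_atTop 1] with N hN
    have hN0 : 0 < N := hN
    have hN' : (N : ℂ) ≠ 0 := by exact_mod_cast hN0.ne'
    have hs0 : (√(N : ℝ)) ≠ 0 := (Real.sqrt_pos.2 (by exact_mod_cast hN0)).ne'
    have hs : ((√(N : ℝ) : ℝ) : ℂ) ≠ 0 := by exact_mod_cast hs0
    have hss : ((√(N : ℝ) : ℝ) : ℂ) ^ 2 = N := by
      rw [← Complex.ofReal_pow, Real.sq_sqrt (Nat.cast_nonneg N)]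
      simp
    have hcard := (card_T h hC ha hY).1
    have hnA := nA_T ha hY
    rw [hPI, trace_Zq hN0 h hC hY j l hF cc f H hH, ← hw, Complex.exp_neg, hcard, hnA]
    have e1 : ((√(N : ℝ) : ℝ) : ℂ) ^ (6 * D.length) / ((√(N : ℝ) : ℝ) : ℂ) ^ (4 * D.length + 1) =
        (N : ℂ) ^ D.length / (√(N : ℝ) : ℝ) := by
      rw [div_eq_div_iff (pow_ne_zero _ hs) hs]
      have e3 : (N : ℂ) ^ D.length = ((√(N : ℝ) : ℝ) : ℂ) ^ (2 * D.length) := by rw [pow_mul, hss]
      rw [e3, ← pow_succ, ← pow_add]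
      congr 1
      omega
    rw [e1]
    have e5 := sgX_ne cc N
    have e6 := sgX_inv cc N
    have e7 := Complex.exp_ne_zero (N * PhQ Y H cc w T J ζ)
    have e8 : phT D m cc f j l N ≠ 0 := by
      intro h8
      have := phT_norm hN0 h cc f j l
      rw [h8, norm_zero] at this
      exact zero_ne_one this
    have e9 : (∏ b, kp (cc b)) ≠ 0 := by
      refine Finset.prod_ne_zero_iff.2 fun b _ => ?_
      unfold kp
      split_ifs
      · exact one_ne_zero
      · exact one_div_ne_zero (by exact_mod_cast hpi.ne')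
    calc (N : ℂ) ^ D.length / (√(N : ℝ) : ℝ) * sgX cc N *
          (Complex.exp (N * PhQ Y H cc w T J ζ))⁻¹ * Zq Y H N cc w =
        (N : ℂ) ^ D.length / (√(N : ℝ) : ℝ) * (sgX cc N)⁻¹ *
          (Complex.exp (N * PhQ Y H cc w T J ζ))⁻¹ * Zq Y H N cc w := by rw [e6]
      _ = _ := by
          field_simp

end

end Pool.Agent.H760.TX
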