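import Pool.Agent.H760.TX.Pht
import Pool.Graph.R_pool_sql_team_seeded_3997aac3.Q176.HT.Pre

/-!
# Mixed augmentation in the thickened torus: circles at all vertices
-/

set_option autoImplicit false

namespace Pool.Agent.H760.TX

open Finset Filter Topology
open Pool.Agent.Q99.FAL (hh Pc Ty fV n1 n2 cor dn toR)
open Pool.Agent.Q99.KN (LC bb St S_LC)
open Pool.Agent.Q99.HT
open Pool.Agent.H760.TT (Vx TS LT AT Val Cell TS_map span_LT gS gK)
open Pool.Agent.H760.MX

variable {D : List Vx} {k m : ℕ} {a : Fin D.length → Fin 6 → ℝ}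

lemma dn_add' (x y : Fin 6 → ℝ) (i : Fin 6) : dn (x + y) i = dn x i + dn y i := by
  unfold dn
  split_ifs
  · show (x + y) 3 + (x + y) 4 + (x + y) 5 = (x 3 + x 4 + x 5) + (y 3 + y 4 + y 5)
    simp only [Pi.add_apply]
    ring
  · show (x + y) 0 + (x + y) 1 + (x + y) 2 = (x 0 + x 1 + x 2) + (y 0 + y 1 + y 2)
    simp only [Pi.add_apply]
    ring

lemma dn_smul' (r : ℝ) (x : Fin 6 → ℝ) (i : Fin 6) : dn (r • x) i = r * dn x i := by
  unfold dn
  split_ifs
  · show (r • x) 3 + (r • x) 4 + (r • x) 5 = r * (x 3 + x 4 + x 5)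
    simp only [Pi.smul_apply, smul_eq_mul]
    ring
  · show (r • x) 0 + (r • x) 1 + (r • x) 2 = r * (x 0 + x 1 + x 2)
    simp only [Pi.smul_apply, smul_eq_mul]
    ring

/-- the maximum is critical in all real directions -/
theorem crit_R (hM : MxT k m D a) (a0 : Fin D.length → Fin 6 → ℤ) (h0 : TS k m D a0 1)
    (δ : Fin D.length → Fin 6 → ℝ) (hδ : TS k m D δ 0) :
    ∑ b, ∑ i, (Real.log (Real.tan (Real.pi * a b i)) * δ b i +
      Real.log (Real.cos (Real.pi * a b i)) * dn (δ b) i) = 0 := by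
  have hs := span_LT δ hδ
  clear hδ
  induction hs using Submodule.span_induction with
  | mem x hx =>
    obtain ⟨δ, hδ, rfl⟩ := hx
    exact crit_T hM a0 h0 δ hδ
  | zero =>
    refine Finset.sum_eq_zero fun b _ => Finset.sum_eq_zero fun i _ => ?_
    have e : dn ((0 : Fin D.length → Fin 6 → ℝ) b) i = 0 := by
      unfold dn n1 n2
      split_ifs <;> simp
    rw [e]
    simp
  | add x y _ _ hx hy =>
    rw [← add_zero (0 : ℝ)]
    nth_rewrite 1 [← hx]
    rw [← hy, ← Finset.sum_add_distrib]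
    refine Finset.sum_congr rfl fun b _ => ?_
    rw [← Finset.sum_add_distrib]
    refine Finset.sum_congr rfl fun i _ => ?_
    rw [Pi.add_apply, dn_add', Pi.add_apply]
    ring
  | smul r x _ hx =>
    rw [← mul_zero r, ← hx, Finset.mul_sum]
    refine Finset.sum_congr rfl fun b _ => ?_
    rw [Finset.mul_sum]
    refine Finset.sum_congr rfl fun i _ => ?_
    rw [Pi.smul_apply, dn_smul', Pi.smul_apply, smul_eq_mul]
    ring

lemma hS_self : hS k m D a (fun s i => (a s i : ℂ)) = 0 := by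
  unfold hS
  have := ev_map (Complex.ofRealHom : ℝ →+* ℂ) (gS k m D) a
  have e : ev (gS k m D) (fun s i => (a s i : ℂ)) = ((ev (gS k m D) a : ℝ) : ℂ) := this
  rw [e, sub_self]

lemma hK_self : hK k m D a (fun s i => (a s i : ℂ)) = 0 := by
  unfold hK
  have := ev_map (Complex.ofRealHom : ℝ →+* ℂ) (gK k m D) a
  have e : ev (gK k m D) (fun s i => (a s i : ℂ)) = ((ev (gK k m D) a : ℝ) : ℂ) := this
  rw [e, sub_self]

lemma n1c (hM : MxT k m D a) (s : Fin D.length) : n1 (fun i => (a s i : ℂ)) = 1 / 2 := by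
  have h := hM.h1 s
  show (a s 0 : ℂ) + a s 1 + a s 2 = 1 / 2
  have h' : ((a s 0 + a s 1 + a s 2 : ℝ) : ℂ) = ((1 / 2 : ℝ) : ℂ) := by rw [h]
  push_cast at h'
  exact h'

lemma n2c (hM : MxT k m D a) (s : Fin D.length) : n2 (fun i => (a s i : ℂ)) = 1 / 2 := by
  have h := hM.h2 s
  show (a s 3 : ℂ) + a s 4 + a s 5 = 1 / 2
  have h' : ((a s 3 + a s 4 + a s 5 : ℝ) : ℂ) = ((1 / 2 : ℝ) : ℂ) := by rw [h]
  push_cast at h'
  exact h'

lemma dnc (hM : MxT k m D a) (s : Fin D.length) (i : Fin 6) :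
    dn (fun i => (a s i : ℂ)) i = 1 / 2 := by
  unfold dn
  split_ifs
  · exact n2c hM s
  · exact n1c hM s

/-- **with circles at all vertices the geometric angles are critical** -/
theorem full_crit (hM : MxT k m D a) (a0 : Fin D.length → Fin 6 → ℤ) (h0 : TS k m D a0 1)
    (cc : Fin D.length → Bool) (hcc : ∀ s, cc s = true) (w : Fin D.length → ℤ) :
    CrIT k m D a cc w (fun s i => (a s i : ℂ)) := by
  have hlt := Pool.Agent.H760.TT.lt_half hM.mem hM.pos
  refine ⟨?_, fun δ hδ => ?_⟩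
  · have e1 := TS_map (Complex.ofRealHom : ℝ →+* ℂ).toAddMonoidHom k a 1 hM.mem.1
    simpa using e1
  unfold GIT
  rw [hS_self, hK_self, zero_mul, zero_mul, add_zero, mul_zero, add_zero]
  have hpi := Real.pi_pos
  have hterm : ∀ s i, gT (dn (fun i => (a s i : ℂ)) i) (a s i) (dn (δ s) i) (δ s i) =
      -(((Real.log (Real.tan (Real.pi * a s i)) : ℝ) : ℂ) * δ s i +
        ((Real.log (Real.cos (Real.pi * a s i)) : ℝ) : ℂ) * dn (δ s) i) := by
    intro s i
    have p := hM.pos s i
    have p' := hlt s i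
    have b1 := Pool.Agent.Q176.HT.bb_real (x := 1 / 2) (by norm_num) (by norm_num)
    have b2 := Pool.Agent.Q176.HT.bb_real (x := 1 / 2 - a s i) (by linarith) (by linarith)
    have b3 := Pool.Agent.Q176.HT.bb_real (x := a s i) p (by linarith)
    have c0 : 0 < Real.cos (Real.pi * a s i) :=
      Real.cos_pos_of_mem_Ioo ⟨by nlinarith, by nlinarith⟩
    have s0 : 0 < Real.sin (Real.pi * a s i) :=
      Real.sin_pos_of_pos_of_lt_pi (by positivity) (by nlinarith)
    have e1 : Real.sin (Real.pi * (1 / 2)) = 1 := by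
      rw [show Real.pi * (1 / 2) = Real.pi / 2 by ring, Real.sin_pi_div_two]
    have e2 : Real.sin (Real.pi * (1 / 2 - a s i)) = Real.cos (Real.pi * a s i) := by
      rw [show Real.pi * (1 / 2 - a s i) = Real.pi / 2 - Real.pi * a s i by ring,
        Real.sin_pi_div_two_sub]
    have l1 : Real.log (2 * Real.cos (Real.pi * a s i)) = Real.log 2 +
        Real.log (Real.cos (Real.pi * a s i)) := Real.log_mul two_ne_zero c0.ne'
    have l2 : Real.log (2 * Real.sin (Real.pi * a s i)) = Real.log 2 +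
        Real.log (Real.sin (Real.pi * a s i)) := Real.log_mul two_ne_zero s0.ne'
    have l3 : Real.log (Real.tan (Real.pi * a s i)) = Real.log (Real.sin (Real.pi * a s i)) -
        Real.log (Real.cos (Real.pi * a s i)) := by
      rw [Real.tan_eq_sin_div_cos, Real.log_div s0.ne' c0.ne']
    rw [e1] at b1
    rw [e2, l1] at b2
    rw [l2] at b3
    push_cast at b1 b2
    rw [dnc hM s i]
    unfold gT
    rw [b1, b2, b3, l3]
    push_cast
    rw [mul_one]
    ring
  have hG : GIX cc w (fun s i => (a s i : ℂ)) δ =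
      -∑ s, ∑ i, (((Real.log (Real.tan (Real.pi * a s i)) : ℝ) : ℂ) * δ s i +
        ((Real.log (Real.cos (Real.pi * a s i)) : ℝ) : ℂ) * dn (δ s) i) := by
    unfold GIX
    rw [← Finset.sum_neg_distrib]
    refine Finset.sum_congr rfl fun s _ => ?_
    have e1 : kc (cc s) = 0 := by rw [hcc s]; rfl
    rw [n1c hM s, n2c hM s, sub_self, e1, mul_zero, zero_div, zero_mul, add_zero, zero_mul,
      add_zero, ← Finset.sum_neg_distrib]
    exact Finset.sum_congr rfl fun i _ => hterm s i
  rw [hG, neg_eq_zero]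
  have hre := crit_R hM a0 h0 (fun s i => (δ s i).re) (by
    have := TS_map Complex.reAddGroupHom k δ 0 hδ
    simpa using this)
  have him := crit_R hM a0 h0 (fun s i => (δ s i).im) (by
    have := TS_map Complex.imAddGroupHom k δ 0 hδ
    simpa using this)
  have dre : ∀ s i, (dn (δ s) i).re = dn (fun i => (δ s i).re) i := by
    intro s i
    unfold dn n1 n2
    split_ifs <;> simp
  have dim : ∀ s i, (dn (δ s) i).im = dn (fun i => (δ s i).im) i := by
    intro s i
    unfold dn n1 n2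
    split_ifs <;> simp
  apply Complex.ext
  · rw [Complex.zero_re, ← hre, Complex.re_sum]
    refine Finset.sum_congr rfl fun s _ => ?_
    rw [Complex.re_sum]
    refine Finset.sum_congr rfl fun i _ => ?_
    rw [Complex.add_re, Complex.re_ofReal_mul, Complex.re_ofReal_mul, dre]
  · rw [Complex.zero_im, ← him, Complex.im_sum]
    refine Finset.sum_congr rfl fun s _ => ?_
    rw [Complex.im_sum]
    refine Finset.sum_congr rfl fun i _ => ?_
    rw [Complex.add_im, Complex.im_ofReal_mul, Complex.im_ofReal_mul, dim]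

/-- the potential of the geometric angles is real -/
theorem full_im (hM : MxT k m D a) (cc : Fin D.length → Bool) (hcc : ∀ s, cc s = true)
    (w : Fin D.length → ℤ) : (PIT k m D a cc w (fun s i => (a s i : ℂ))).im = 0 := by
  have hlt := Pool.Agent.H760.TT.lt_half hM.mem hM.pos
  unfold PIT
  rw [hS_self, zero_mul, mul_zero, add_zero]
  unfold PIX
  rw [Complex.im_sum]
  refine Finset.sum_eq_zero fun s _ => ?_
  have e1 : kc (cc s) = 0 := by rw [hcc s]; rfl
  have e2 : ∀ i, Pool.Agent.Q99.HT.LT (dn (fun i => (a s i : ℂ)) i) (a s i) =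
      ((hh (a s i) : ℝ) : ℂ) := by
    intro i
    rw [dnc hM s i]
    exact Pool.Agent.Q176.HT.LT_real Pool.Agent.Q99.HT.t_LC (hM.pos s i) (hlt s i)
  rw [n1c hM s, n2c hM s, sub_self, e1, Finset.sum_congr rfl fun i _ => e2 i]
  have e3 : (∑ i, ((hh (a s i) : ℝ) : ℂ)) + Complex.I * Real.pi * w s * 0 ^ 2 / 4 +
      0 * (Complex.I * Real.pi) * 0 = ((∑ i, hh (a s i) : ℝ) : ℂ) := by
    push_cast
    ring
  rw [e3, Complex.ofReal_im]

end Pool.Agent.H760.TX
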