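import Pool.Agent.H760.TX.Mq
import Pool.Agent.H760.TX.Bq
import Pool.Agent.H760.MX.LpB

/-!
# Mixed augmentation in the thickened torus: asymptotics of the integral

Adapted from `MX/LpB.lean`.
-/

set_option autoImplicit false

namespace Pool.Agent.H760.TX

open Finset Filter Topology MeasureTheory
open Pool.Agent.Q99.HT
open Pool.Agent.Q99.HU.Q239 hiding q4 Hs_bound Hl_ne Hs_tendsto pg_eq Ph_taylor pv_cont pv_pt int_eq
  ph_lim qf_re gf_tendsto ind_eq gf_eq cst_ne task_LPN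
open Pool.Agent.Q99.KN (bb ct St LC S_LC S_GAM S_LAP S_GIM ez kz th jN)
open Pool.Agent.Q251.KN (taylor2 fz Eg fac_z IsQF eg_norm eg_tendsto fz_bound div_sqrt_tendsto sin_ne_of_im)
open Pool.Agent.H760.MX hiding Ph_taylor gf_eq ind_eq int_eq ph_lim0 qf_re cr_pg step_lim ph_lim gf_tendsto

variable {c d : ℕ}

section taylor
variable {X : Nw c d} {r κ K C0 : ℝ}

theorem Ph_taylor (H : Hol d) (cc : Fin c → Bool) (hB : ∀ s, Blk (X.α s) r κ K C0) {w : Fin c → ℤ} {T : Fin d → ℂ} {J ζ : Fin c → ℂ}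
    (hcr : CrQ X H cc w T J ζ) (hrg : X.Rg r T J ζ) (a : Fin d → ℝ) (b g : Fin c → ℝ)
    (hb : ∀ s, X.α s 1 = 0 → b s = 0) :
    Tendsto (fun N : ℕ => (N : ℂ) * (PhQ X H cc w (fun j => T j + ((a j / √(N:ℝ) : ℝ) : ℂ))
      (fun s => J s + ((b s / √(N:ℝ) : ℝ) : ℂ)) (fun s => ζ s + ((g s / √(N:ℝ) : ℝ) : ℂ)) - PhQ X H cc w T J ζ))
      atTop (𝓝 ((X.HP w T J ζ (fun j => (a j : ℂ)) (fun s => (b s : ℂ)) (fun s => (g s : ℂ))
        (fun j => (a j : ℂ)) (fun s => (b s : ℂ)) (fun s => (g s : ℂ)) +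
        HQ H (fun j => (a j : ℂ)) (fun j => (a j : ℂ))) / 2)) := by
  have hopen := Rg_open (X := X) (r := r) (a := fun j => (a j : ℂ)) (b := fun s => (b s : ℂ))
    (g := fun s => (g s : ℂ)) hrg
  have h3 := taylor2
    (φ := fun t : ℝ => PhQ X H cc w (fun j => T j + t * (a j : ℂ)) (fun s => J s + t * (b s : ℂ))
      (fun s => ζ s + t * (g s : ℂ)))
    (D := fun t : ℝ => GPQ X H cc w (fun j => T j + t * (a j : ℂ)) (fun s => J s + t * (b s : ℂ))
      (fun s => ζ s + t * (g s : ℂ)) (fun j => (a j : ℂ)) (fun s => (b s : ℂ)) (fun s => (g s : ℂ)))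
    (D' := X.HP w T J ζ (fun j => (a j : ℂ)) (fun s => (b s : ℂ)) (fun s => (g s : ℂ))
        (fun j => (a j : ℂ)) (fun s => (b s : ℂ)) (fun s => (g s : ℂ)) +
        HQ H (fun j => (a j : ℂ)) (fun j => (a j : ℂ)))
    (by
      filter_upwards [hopen] with t ht
      exact (PhQ_line H cc hB w ht 0 0 0).1)
    (by
      simp only [Complex.ofReal_zero, zero_mul, add_zero]
      exact hcr.eq _ _ _ (fun s hs => by rw [hb s hs]; simp))
    (by
      have ht : X.Rg r (fun j => T j + ((0:ℝ) : ℂ) * (a j : ℂ)) (fun s => J s + ((0:ℝ) : ℂ) * (b s : ℂ))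
          (fun s => ζ s + ((0:ℝ) : ℂ) * (g s : ℂ)) := by
        simpa using hrg
      have h4 := (PhQ_line H cc hB w ht (fun j => (a j : ℂ)) (fun s => (b s : ℂ)) (fun s => (g s : ℂ))).2
      simp only [Complex.ofReal_zero, zero_mul, add_zero] at h4
      exact h4)
  refine h3.congr fun N => ?_
  have e1 : ∀ c : ℝ, (((1 / √(N:ℝ) : ℝ)) : ℂ) * (c : ℂ) = ((c / √(N:ℝ) : ℝ) : ℂ) := by
    intro c
    push_cast
    ring
  simp only [e1, Complex.ofReal_zero, zero_mul, add_zero]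
end taylor

/-- the quadratic form -/
noncomputable def QfQ (X : Nw c d) (H : Hol d) (w : Fin c → ℤ) (T : Fin d → ℂ) (J ζ : Fin c → ℂ)
    (u : X.Ix → ℝ) : ℂ :=
  (X.HP w T J ζ (fun j => (u (.inl j) : ℂ)) (fun s => (bv X u s : ℂ)) (fun s => (u (.inr (.inr s)) : ℂ))
    (fun j => (u (.inl j) : ℂ)) (fun s => (bv X u s : ℂ)) (fun s => (u (.inr (.inr s)) : ℂ)) +
    HQ H (fun j => (u (.inl j) : ℂ)) (fun j => (u (.inl j) : ℂ))) / 2

theorem QfQ_qf (X : Nw c d) (H : Hol d) (w : Fin c → ℤ) (T : Fin d → ℂ) (J ζ : Fin c → ℂ) :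
    IsQF fun u : X.Ix → ℝ => QfQ X H w T J ζ u := by
  have h1 := HP_qf X w T J ζ
  have hl : ∀ f : Fin d → ℝ, IsLin fun u : X.Ix → ℝ => lf f (fun j => (u (.inl j) : ℂ)) := by
    intro f
    exact IsLin.sum _ fun j => ((IsLin.coord (ι := X.Ix) (.inl j)).const_mul (f j : ℂ)).congr
      fun u => by ring
  have h2 := qf_const_mul (hf := (hl H.f).mul (hl H.g)) (k := (2 * Real.pi * Complex.I : ℂ))
  refine (h1.add h2).congr fun u => ?_
  unfold QfQ HQ
  ring

/-- the normalized integrand -/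
noncomputable def GfQ (X : Nw c d) (H : Hol d) (cc : Fin c → Bool) (N : ℕ) (w : Fin c → ℤ)
    (T : Fin d → ℂ) (J ζ : Fin c → ℂ) (v : X.Ix → ℝ) : ℂ :=
  Complex.exp (N * (PhQ X H cc w (Tv X T v) (Jv X J v) (Zv X ζ v) - PhQ X H cc w T J ζ)) *
    ((∏ s, HsX X cc N (Tv X T v) (Jv X J v) (Zv X ζ v) s) * AH H X.τ N (Tv X T v))

/-- the constant -/
noncomputable def cNQ (X : Nw c d) (H : Hol d) (cc : Fin c → Bool) (N : ℕ) (w : Fin c → ℤ)
    (T : Fin d → ℂ) (J ζ : Fin c → ℂ) : ℂ :=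
  (cstX X cc N)⁻¹ * Complex.exp (-(N * PhQ X H cc w T J ζ))

theorem gf_eq (X : Nw c d) (H : Hol d) (cc : Fin c → Bool) {N : ℕ} (hN : 1 ≤ N) (w : Fin c → ℤ)
    (T : Fin d → ℂ) (J ζ : Fin c → ℂ)
    (v : X.Ix → ℝ) : GfQ X H cc N w T J ζ v = cNQ X H cc N w T J ζ * (PvX X cc N w T J ζ v *
      GH H X.τ N (Tv X T v)) := by
  have h1 := cst_ne X cc hN
  unfold GfQ cNQ PvX GH
  rw [pg_eq X cc hN]
  have e : Complex.exp (N * (PhQ X H cc w (Tv X T v) (Jv X J v) (Zv X ζ v) - PhQ X H cc w T J ζ)) =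
      Complex.exp (N * PhX X cc w (Tv X T v) (Jv X J v) (Zv X ζ v)) *
      Complex.exp (N * QH H X.τ (Tv X T v)) * Complex.exp (-(N * PhQ X H cc w T J ζ)) := by
    rw [← Complex.exp_add, ← Complex.exp_add]
    congr 1
    unfold PhQ
    ring
  rw [e]
  field_simp

section pts
variable {X : Nw c d} {H : Hol d} {r κ K C0 δ ρ : ℝ}

/-- the amplitude of the phase is bounded -/
theorem AH_bd (X : Nw c d) (H : Hol d) (T : Fin d → ℂ) : ∃ B : ℝ, 0 ≤ B ∧ ∀ (N : ℕ) (v : X.Ix → ℝ),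
    ‖AH H X.τ N (Tv X T v)‖ ≤ B := by
  refine ⟨Real.exp (-(2 * Real.pi * (H.v * (lt H.f X.τ T).im + H.u * (lt H.g X.τ T).im))),
    (Real.exp_pos _).le, fun N v => le_of_eq ?_⟩
  unfold AH
  rw [Complex.norm_exp]
  congr 1
  have h : ∀ f : Fin d → ℝ, (lt f X.τ (Tv X T v)).im = (lt f X.τ T).im := by
    intro f
    rw [lt_im, lt_im]
    refine Finset.sum_congr rfl fun j _ => ?_
    unfold Tv
    rw [Complex.add_im, Complex.ofReal_im, add_zero]
  have e1 : (2 * Real.pi * Complex.I * (H.v * lt H.f X.τ (Tv X T v) + H.u * lt H.g X.τ (Tv X T v) +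
      H.u * H.v / N) : ℂ) = ((2 * Real.pi : ℝ) : ℂ) * (Complex.I * (((H.v : ℝ) : ℂ) *
      lt H.f X.τ (Tv X T v) + ((H.u : ℝ) : ℂ) * lt H.g X.τ (Tv X T v) +
      ((H.u * H.v / N : ℝ) : ℂ))) := by
    push_cast
    ring
  rw [e1, Complex.re_ofReal_mul, Complex.I_mul_re, Complex.add_im, Complex.add_im,
    Complex.im_ofReal_mul, Complex.im_ofReal_mul, Complex.ofReal_im, h, h]
  ring

/-- the limit of the amplitude of the phase -/
theorem AH_lim (X : Nw c d) (H : Hol d) (T : Fin d → ℂ) (u : X.Ix → ℝ) :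
    Tendsto (fun N : ℕ => AH H X.τ N (Tv X T fun i => u i / √(N:ℝ))) atTop
      (𝓝 (Complex.exp (2 * Real.pi * Complex.I * (H.v * lt H.f X.τ T + H.u * lt H.g X.τ T)))) := by
  have hT : Tendsto (fun N : ℕ => Tv X T fun i => u i / √(N:ℝ)) atTop (𝓝 T) := by
    rw [tendsto_pi_nhds]
    intro j
    have h1 := ((Complex.continuous_ofReal.tendsto 0).comp (div_sqrt_tendsto (u (.inl j)))).const_add
      (T j)
    rw [Complex.ofReal_zero, add_zero] at h1
    exact h1
  have hl : ∀ f : Fin d → ℝ, Tendsto (fun N : ℕ => lt f X.τ (Tv X T fun i => u i / √(N:ℝ))) atTop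
      (𝓝 (lt f X.τ T)) := fun f => ((lt_cont f X.τ).tendsto T).comp hT
  have h0 : Tendsto (fun N : ℕ => ((H.u : ℂ) * (H.v : ℂ) / (N : ℂ))) atTop (𝓝 0) := by
    have h1 := (tendsto_const_div_atTop_nhds_zero_nat (𝕜 := ℝ) (H.u * H.v))
    have h2 := (Complex.continuous_ofReal.tendsto 0).comp h1
    rw [Complex.ofReal_zero] at h2
    refine h2.congr fun N => ?_
    simp only [Function.comp]
    push_cast
    ring
  have h1 := ((((hl H.f).const_mul (H.v : ℂ)).add ((hl H.g).const_mul (H.u : ℂ))).add h0).const_mul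
    (2 * Real.pi * Complex.I : ℂ)
  rw [add_zero] at h1
  exact (Complex.continuous_exp.tendsto _).comp h1

theorem ind_eq (X : Nw c d) (H : Hol d) (cc : Fin c → Bool) {N : ℕ} (hN : 1 ≤ N) (w : Fin c → ℤ)
    (T : Fin d → ℂ) (J ζ : Fin c → ℂ)
    (S : Set (X.Ix → ℝ)) : S.indicator (fun v => GfQ X H cc N w T J ζ (stv X cc N v)) =
      fun v => cNQ X H cc N w T J ζ * S.indicator (fun v => PvX X cc N w T J ζ (stv X cc N v) *
        GH H X.τ N (Tv X T v)) v := by
  funext v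
  by_cases hv : v ∈ S
  · rw [Set.indicator_of_mem hv, Set.indicator_of_mem hv, gf_eq X H cc hN, Tv_stv]
  · rw [Set.indicator_of_notMem hv, Set.indicator_of_notMem hv, mul_zero]
theorem gh_pt (H : Hol d) {T : Fin d → ℂ} {J ζ : Fin c → ℂ} (N : ℕ) (v : X.Ix → ℝ) :
    GH H X.τ N (Tv X T v) = GH H X.τ N
      (fun j => ((v + pr X T J ζ) (.inl j) : ℂ) + (T j).im * Complex.I) := by
  congr 1
  funext j
  have e1 : ∀ (z : ℂ) (t : ℝ), z + t = ((t + z.re : ℝ) : ℂ) + z.im * Complex.I := by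
    intro z t
    conv_lhs => rw [← Complex.re_add_im z]
    push_cast
    ring
  unfold Tv
  rw [e1]
  rfl

theorem int_eq (H : Hol d) {cc : Fin c → Bool} {T : Fin d → ℂ} {J ζ : Fin c → ℂ} (haj : X.AJ J)
    (hz : ∀ s, cc s = true → ζ s = 0) {N : ℕ} (hN : 1 ≤ N) (w : Fin c → ℤ) :
    ∫ v, (Sx X r δ N T J ζ).indicator (fun v => GfQ X H cc N w T J ζ (stv X cc N v)) v =
      cNQ X H cc N w T J ζ * ∫ u in X.Bx r δ N, PgX X cc N w
        (fun j => u (.inl j) + (T j).im * Complex.I)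
        (X.Jf u (fun s => (J s).im)) (zX cc N (fun s => (ζ s).im) fun s => u (.inr (.inr s))) *
        GH H X.τ N (fun j => u (.inl j) + (T j).im * Complex.I) := by
  rw [ind_eq X H cc hN, integral_const_mul]
  congr 1
  have h1 : ∀ v, (Sx X r δ N T J ζ).indicator (fun v => PvX X cc N w T J ζ (stv X cc N v) *
      GH H X.τ N (Tv X T v)) v =
      (X.Bx r δ N).indicator
      (fun u => PgX X cc N w (fun j => u (.inl j) + (T j).im * Complex.I)
        (X.Jf u (fun s => (J s).im)) (zX cc N (fun s => (ζ s).im) fun s => u (.inr (.inr s))) *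
        GH H X.τ N (fun j => u (.inl j) + (T j).im * Complex.I))
      (v + pr X T J ζ) := by
    intro v
    by_cases hv : v ∈ Sx X r δ N T J ζ
    · have hv' : v + pr X T J ζ ∈ X.Bx r δ N := hv
      rw [Set.indicator_of_mem hv, Set.indicator_of_mem hv', pv_pt haj hz, gh_pt H (J := J) (ζ := ζ) N v]
    · have hv' : v + pr X T J ζ ∉ X.Bx r δ N := hv
      rw [Set.indicator_of_notMem hv, Set.indicator_of_notMem hv']
  rw [integral_congr_ae (Filter.Eventually.of_forall h1), integral_add_right_eq_self _ (pr X T J ζ),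
    integral_indicator (bx_closed X r δ N).measurableSet]
theorem ph_lim0 (H : Hol d) (cc : Fin c → Bool) (hB : ∀ s, Blk (X.α s) r κ K C0) {w : Fin c → ℤ}
    {T : Fin d → ℂ} {J ζ : Fin c → ℂ}
    (hcr : CrQ X H cc w T J ζ) (hrg : X.Rg r T J ζ) (u : X.Ix → ℝ) :
    Tendsto (fun N : ℕ => (N : ℂ) * (PhQ X H cc w (Tv X T fun i => u i / √(N:ℝ))
      (Jv X J fun i => u i / √(N:ℝ)) (Zv X ζ fun i => u i / √(N:ℝ)) - PhQ X H cc w T J ζ))
      atTop (𝓝 (QfQ X H w T J ζ u)) := by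
  have h := Ph_taylor H cc hB hcr hrg (fun j => u (.inl j)) (bv X u) (fun s => u (.inr (.inr s)))
    fun s hs => bv_zero X u hs
  refine h.congr fun N => ?_
  rw [Jv_sqrt]
  rfl

theorem qf_re {κ' : ℝ} (H : Hol d) (cc : Fin c → Bool) (hB : ∀ s, Blk (X.α s) r κ K C0) {w : Fin c → ℤ}
    {T : Fin d → ℂ}
    {J ζ : Fin c → ℂ} (hcr : CrQ X H cc w T J ζ) (hrg : X.Rg r T J ζ) (u : X.Ix → ℝ)
    (hmx : ∀ᶠ N : ℕ in atTop, (PhQ X H cc w (Tv X T fun i => u i / √(N:ℝ))
      (Jv X J fun i => u i / √(N:ℝ)) (Zv X ζ fun i => u i / √(N:ℝ))).re ≤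
      (PhQ X H cc w T J ζ).re - κ' * ∑ i, (u i / √(N:ℝ)) ^ 2) :
    (QfQ X H w T J ζ u).re ≤ -κ' * ∑ i, u i ^ 2 := by
  have h1 := (Complex.continuous_re.tendsto _).comp (ph_lim0 H cc hB hcr hrg u)
  refine le_of_tendsto h1 ?_
  filter_upwards [hmx, eventually_ge_atTop 1] with N h2 hN1
  have hN0 : (0:ℝ) < N := by exact_mod_cast hN1
  simp only [Function.comp]
  rw [← Complex.ofReal_natCast, Complex.re_ofReal_mul, Complex.sub_re]
  have e1 : ∀ c : ℝ, (c / √(N:ℝ)) ^ 2 = (N:ℝ)⁻¹ * c ^ 2 := by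
    intro c
    rw [div_pow, Real.sq_sqrt hN0.le]
    ring
  simp only [e1, ← Finset.mul_sum] at h2
  calc (N : ℝ) * _ ≤ N * (-(κ' * ((N:ℝ)⁻¹ * ∑ i, u i ^ 2))) := by
        refine mul_le_mul_of_nonneg_left ?_ hN0.le
        linarith
    _ = -κ' * ∑ i, u i ^ 2 := by
        field_simp
/-- the equation of the critical point at a circled region -/
theorem cr_pg {cc : Fin c → Bool} {w : Fin c → ℤ} {T : Fin d → ℂ} {J ζ : Fin c → ℂ}
    (hcr : CrQ X H cc w T J ζ) {s : Fin c} (hs : cc s = true) (hz : ζ s = 0) :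
    PG (X.α s) (X.v T J s) (ζ s) 0 1 = 0 := by
  classical
  have h1 := hcr.eq 0 0 (Pi.single s 1) (fun _ _ => rfl)
  have hl0 : ∀ f : Fin d → ℝ, lf f (0 : Fin d → ℂ) = 0 := lf_zero
  unfold GPQ DQ at h1
  rw [hl0, hl0, mul_zero, mul_zero, add_zero, mul_zero, add_zero] at h1
  unfold GPX at h1
  have h2 : ∀ s' : Fin c, X.dv (0 : Fin d → ℂ) (0 : Fin c → ℂ) s' = 0 := by
    intro s'
    unfold Nw.dv
    funext i
    fin_cases i <;> simp
  have h0 : ∀ s' : Fin c, PG (X.α s') (X.v T J s') (ζ s') 0 0 = 0 := by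
    intro s'
    have := PG_smul (α := X.α s') (X.v T J s') (ζ s') 0 0 0
    simpa using this
  rw [Finset.sum_eq_single s] at h1
  · rw [h2, Pi.single_eq_same, mul_one, hz] at h1
    unfold kc at h1
    rw [hs, if_pos rfl] at h1
    rw [hz]
    simpa using h1
  · intro s' _ hne
    rw [h2, Pi.single_eq_of_ne hne, mul_zero, add_zero]
    exact h0 s'
  · intro h
    exact absurd (Finset.mem_univ s) h
theorem step_lim {cc : Fin c → Bool} (hB : ∀ s, Blk (X.α s) r κ K C0) {w : Fin c → ℤ}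
    {T : Fin d → ℂ} {J ζ : Fin c → ℂ} (hpg : ∀ s, cc s = true → PG (X.α s) (X.v T J s) (ζ s) 0 1 = 0)
    (hz : ∀ s, cc s = true → ζ s = 0) (hrg : X.Rg r T J ζ) (u : X.Ix → ℝ)
    (hev : ∀ᶠ N : ℕ in atTop, X.Rg r (Tv X T fun i => u i / √(N:ℝ))
      (Jv X J fun i => u i / √(N:ℝ)) (Zv X ζ fun i => u i / √(N:ℝ)))
    (hevs : ∀ᶠ N : ℕ in atTop, X.Rg r (Tv X T (stv X cc N fun i => u i / √(N:ℝ)))
      (Jv X J (stv X cc N fun i => u i / √(N:ℝ))) (Zv X ζ (stv X cc N fun i => u i / √(N:ℝ)))) :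
    Tendsto (fun N : ℕ => (N : ℂ) * (PhX X cc w (Tv X T (stv X cc N fun i => u i / √(N:ℝ)))
      (Jv X J (stv X cc N fun i => u i / √(N:ℝ))) (Zv X ζ (stv X cc N fun i => u i / √(N:ℝ))) -
      PhX X cc w (Tv X T fun i => u i / √(N:ℝ))
      (Jv X J fun i => u i / √(N:ℝ)) (Zv X ζ fun i => u i / √(N:ℝ)))) atTop (𝓝 0) := by
  have hsum : ∀ N : ℕ, (N : ℂ) * (PhX X cc w (Tv X T (stv X cc N fun i => u i / √(N:ℝ)))
      (Jv X J (stv X cc N fun i => u i / √(N:ℝ))) (Zv X ζ (stv X cc N fun i => u i / √(N:ℝ))) -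
      PhX X cc w (Tv X T fun i => u i / √(N:ℝ))
      (Jv X J fun i => u i / √(N:ℝ)) (Zv X ζ fun i => u i / √(N:ℝ))) =
      ∑ s, (N : ℂ) * ((PE (X.α s) (X.v (Tv X T fun i => u i / √(N:ℝ))
        (Jv X J fun i => u i / √(N:ℝ)) s) (Zv X ζ (stv X cc N fun i => u i / √(N:ℝ)) s) -
        PE (X.α s) (X.v (Tv X T fun i => u i / √(N:ℝ))
        (Jv X J fun i => u i / √(N:ℝ)) s) (Zv X ζ (fun i => u i / √(N:ℝ)) s)) +
        Complex.I * Real.pi * w s / 4 * (Zv X ζ (stv X cc N fun i => u i / √(N:ℝ)) s ^ 2 -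
          Zv X ζ (fun i => u i / √(N:ℝ)) s ^ 2) +
        kc (cc s) * (Complex.I * Real.pi) * (Zv X ζ (stv X cc N fun i => u i / √(N:ℝ)) s -
          Zv X ζ (fun i => u i / √(N:ℝ)) s)) := by
    intro N
    unfold PhX
    rw [Tv_stv, Jv_stv, ← Finset.sum_sub_distrib, Finset.mul_sum]
    refine Finset.sum_congr rfl fun s _ => ?_
    ring
  simp only [hsum]
  have h0 : (0 : ℂ) = ∑ s : Fin c, (0 : ℂ) := by simp
  rw [h0]
  refine tendsto_finsetSum _ fun s _ => ?_
  cases hc : cc s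
  · -- nothing changes
    have h1 : ∀ N : ℕ, Zv X ζ (stv X cc N fun i => u i / √(N:ℝ)) s =
        Zv X ζ (fun i => u i / √(N:ℝ)) s := by
      intro N
      rw [Zv_stv, if_neg (by simp [hc])]
      rfl
    simp only [h1, sub_self, mul_zero, add_zero]
    exact tendsto_const_nhds
  · have hzs := hz s hc
    obtain ⟨b, hb⟩ : ∃ b : ℕ → ℂ, b = fun N => Zv X ζ (stv X cc N fun i => u i / √(N:ℝ)) s -
      Zv X ζ (fun i => u i / √(N:ℝ)) s := ⟨_, rfl⟩
    have hbn : ∀ N : ℕ, 1 ≤ N → ‖(N : ℂ) * b N‖ ≤ 1 := by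
      intro N hN
      have hN0 : (0:ℝ) < N := by exact_mod_cast hN
      have h1 := stv_near X cc hN (fun i => u i / √(N:ℝ)) (.inr (.inr s))
      have h2 : b N = ((stv X cc N (fun i => u i / √(N:ℝ)) (.inr (.inr s)) -
          u (.inr (.inr s)) / √(N:ℝ) : ℝ) : ℂ) := by
        rw [hb]
        unfold Zv
        push_cast
        ring
      rw [norm_mul, Complex.norm_natCast, h2, Complex.norm_real, Real.norm_eq_abs]
      calc (N : ℝ) * _ ≤ N * (1 / N) := mul_le_mul_of_nonneg_left h1 hN0.le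
        _ = 1 := by field_simp
    have hb0 : Tendsto b atTop (𝓝 0) := by
      rw [tendsto_zero_iff_norm_tendsto_zero]
      refine squeeze_zero' (Eventually.of_forall fun _ => norm_nonneg _) ?_
        (tendsto_const_div_atTop_nhds_zero_nat (1 : ℝ))
      filter_upwards [eventually_ge_atTop 1] with N hN
      have hN0 : (0:ℝ) < N := by exact_mod_cast hN
      have h1 := hbn N hN
      rw [norm_mul, Complex.norm_natCast] at h1
      rw [le_div_iff₀ hN0]
      linarith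
    have hcc : ∀ (z : ℂ) (x : ℝ), Tendsto (fun N : ℕ => z + ((x / √(N:ℝ) : ℝ) : ℂ)) atTop (𝓝 z) := by
      intro z x
      have h1 := ((Complex.continuous_ofReal.tendsto 0).comp (div_sqrt_tendsto x)).const_add z
      simpa using h1
    have hz1 : Tendsto (fun N : ℕ => Zv X ζ (fun i => u i / √(N:ℝ)) s) atTop (𝓝 (ζ s)) :=
      hcc _ _
    have hz2 : Tendsto (fun N : ℕ => Zv X ζ (stv X cc N fun i => u i / √(N:ℝ)) s) atTop
        (𝓝 (ζ s)) := by
      have h1 := hb0.add hz1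
      rw [zero_add] at h1
      refine h1.congr fun N => ?_
      rw [hb]
      ring
    have hkc : kc (cc s) = 0 := by
      rw [hc]
      rfl
    have hT : ∀ j, Tendsto (fun N : ℕ => Tv X T (fun i => u i / √(N:ℝ)) j) atTop (𝓝 (T j)) :=
      fun j => hcc _ _
    have hJ : ∀ s', Tendsto (fun N : ℕ => Jv X J (fun i => u i / √(N:ℝ)) s') atTop (𝓝 (J s')) := by
      intro s'
      simp only [Jv_sqrt]
      exact hcc _ _
    have hv := v_tendsto (X := X) hT hJ s
    -- the bounded factor times something small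
    have hbd : ∀ f : ℕ → ℂ, Tendsto f atTop (𝓝 0) →
        Tendsto (fun N : ℕ => ((N : ℂ) * b N) * f N) atTop (𝓝 0) := by
      intro f hf
      rw [tendsto_zero_iff_norm_tendsto_zero] at hf ⊢
      refine squeeze_zero' (Eventually.of_forall fun _ => norm_nonneg _) ?_ hf
      filter_upwards [eventually_ge_atTop 1] with N hN
      rw [norm_mul]
      calc _ ≤ 1 * ‖f N‖ := mul_le_mul_of_nonneg_right (hbn N hN) (norm_nonneg _)
        _ = _ := one_mul _
    -- the potential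
    have hPE : Tendsto (fun N : ℕ => (N : ℂ) * (PE (X.α s) (X.v (Tv X T fun i => u i / √(N:ℝ))
        (Jv X J fun i => u i / √(N:ℝ)) s) (Zv X ζ (stv X cc N fun i => u i / √(N:ℝ)) s) -
        PE (X.α s) (X.v (Tv X T fun i => u i / √(N:ℝ))
        (Jv X J fun i => u i / √(N:ℝ)) s) (Zv X ζ (fun i => u i / √(N:ℝ)) s))) atTop (𝓝 0) := by
      have hPG : Tendsto (fun N : ℕ => PG (X.α s) (X.v (Tv X T fun i => u i / √(N:ℝ))
          (Jv X J fun i => u i / √(N:ℝ)) s) (Zv X ζ (fun i => u i / √(N:ℝ)) s) 0 1) atTop (𝓝 0) := by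
        have h3 : Tendsto (fun N : ℕ => C0 * (‖X.v (Tv X T fun i => u i / √(N:ℝ))
            (Jv X J fun i => u i / √(N:ℝ)) s - X.v T J s‖ +
            ‖Zv X ζ (fun i => u i / √(N:ℝ)) s - ζ s‖) * (‖(0 : Fin 4 → ℂ)‖ + ‖(1:ℂ)‖)) atTop (𝓝 0) := by
          have e1 := (tendsto_iff_norm_sub_tendsto_zero.1 hv)
          have e2 := (tendsto_iff_norm_sub_tendsto_zero.1 hz1)
          have e3 := ((e1.add e2).const_mul C0).mul_const (‖(0 : Fin 4 → ℂ)‖ + ‖(1:ℂ)‖)
          simpa using e3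
        rw [tendsto_zero_iff_norm_tendsto_zero]
        refine squeeze_zero' (Eventually.of_forall fun _ => norm_nonneg _) ?_ h3
        filter_upwards [hev] with N hN
        have h4 := PG_lip (hB s) (v := X.v T J s) (u := X.v (Tv X T fun i => u i / √(N:ℝ))
            (Jv X J fun i => u i / √(N:ℝ)) s - X.v T J s) (ζ := ζ s)
          (b := Zv X ζ (fun i => u i / √(N:ℝ)) s - ζ s) (hrg s).1 (hrg s).2
          (by rw [add_sub_cancel]; exact (hN s).1)
          (by rw [add_sub_cancel]; exact (hN s).2) 0 1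
        rw [add_sub_cancel, add_sub_cancel, hpg s hc, sub_zero] at h4
        exact h4
      have h5 := hbd _ hPG
      have h6 : Tendsto (fun N : ℕ => (N : ℂ) * (PE (X.α s) (X.v (Tv X T fun i => u i / √(N:ℝ))
        (Jv X J fun i => u i / √(N:ℝ)) s) (Zv X ζ (stv X cc N fun i => u i / √(N:ℝ)) s) -
        PE (X.α s) (X.v (Tv X T fun i => u i / √(N:ℝ))
        (Jv X J fun i => u i / √(N:ℝ)) s) (Zv X ζ (fun i => u i / √(N:ℝ)) s)) -
        ((N : ℂ) * b N) * PG (X.α s) (X.v (Tv X T fun i => u i / √(N:ℝ))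
          (Jv X J fun i => u i / √(N:ℝ)) s) (Zv X ζ (fun i => u i / √(N:ℝ)) s) 0 1) atTop (𝓝 0) := by
        have h7 : Tendsto (fun N : ℕ => C0 * ‖b N‖) atTop (𝓝 0) := by
          have := (tendsto_zero_iff_norm_tendsto_zero.1 hb0).const_mul C0
          simpa using this
        rw [tendsto_zero_iff_norm_tendsto_zero]
        refine squeeze_zero' (Eventually.of_forall fun _ => norm_nonneg _) ?_ h7
        filter_upwards [hev, hevs, eventually_ge_atTop 1] with N hN hNs hN1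
        have hC0 : 0 ≤ C0 := zero_le_one.trans (hB s).C1
        have e0 : Zv X ζ (stv X cc N fun i => u i / √(N:ℝ)) s =
            Zv X ζ (fun i => u i / √(N:ℝ)) s + b N := by
          rw [hb]
          ring
        have h8 := PE_taylor1 (hB s) (v := X.v (Tv X T fun i => u i / √(N:ℝ))
          (Jv X J fun i => u i / √(N:ℝ)) s) (u := 0) (ζ := Zv X ζ (fun i => u i / √(N:ℝ)) s)
          (b := b N) (hN s).1 (hN s).2 (by rw [add_zero]; exact (hN s).1)
          (by rw [← e0]; exact (hNs s).2)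
        rw [add_zero, ← e0] at h8
        have h9 := PG_smul (α := X.α s) (X.v (Tv X T fun i => u i / √(N:ℝ))
          (Jv X J fun i => u i / √(N:ℝ)) s) (Zv X ζ (fun i => u i / √(N:ℝ)) s) (b N) 0 1
        rw [smul_zero, mul_one] at h9
        rw [h9] at h8
        have h10 : ‖(0 : Fin 4 → ℂ)‖ = 0 := norm_zero
        rw [h10, zero_add] at h8
        rw [mul_assoc (N : ℂ) (b N), ← mul_sub, norm_mul, Complex.norm_natCast]
        have hN0 : (0:ℝ) < N := by exact_mod_cast hN1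
        have h11 := hbn N hN1
        rw [norm_mul, Complex.norm_natCast] at h11
        calc (N : ℝ) * _ ≤ N * (C0 * ‖b N‖ * ‖b N‖) := mul_le_mul_of_nonneg_left h8 hN0.le
          _ = C0 * ‖b N‖ * (N * ‖b N‖) := by ring
          _ ≤ C0 * ‖b N‖ * 1 := mul_le_mul_of_nonneg_left h11 (by positivity)
          _ = _ := mul_one _
      have h12 := h6.add h5
      rw [add_zero] at h12
      exact h12.congr fun N => by ring
    have hsq : Tendsto (fun N : ℕ => ((N : ℂ) * b N) * (Complex.I * Real.pi * w s / 4 *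
        (Zv X ζ (stv X cc N fun i => u i / √(N:ℝ)) s + Zv X ζ (fun i => u i / √(N:ℝ)) s)))
        atTop (𝓝 0) := by
      refine hbd _ ?_
      have h1 := ((hz2.add hz1).const_mul (Complex.I * Real.pi * w s / 4))
      rw [hzs, add_zero, mul_zero] at h1
      exact h1
    have h13 := hPE.add hsq
    rw [add_zero] at h13
    refine h13.congr fun N => ?_
    have hk : kc true = 0 := rfl
    rw [hk, hb]
    ring
theorem ph_lim (H : Hol d) {cc : Fin c → Bool} (hB : ∀ s, Blk (X.α s) r κ K C0) {w : Fin c → ℤ}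
    {T : Fin d → ℂ} {J ζ : Fin c → ℂ} (hcr : CrQ X H cc w T J ζ)
    (hz : ∀ s, cc s = true → ζ s = 0) (hrg : X.Rg r T J ζ) (u : X.Ix → ℝ)
    (hev : ∀ᶠ N : ℕ in atTop, X.Rg r (Tv X T fun i => u i / √(N:ℝ))
      (Jv X J fun i => u i / √(N:ℝ)) (Zv X ζ fun i => u i / √(N:ℝ)))
    (hevs : ∀ᶠ N : ℕ in atTop, X.Rg r (Tv X T (stv X cc N fun i => u i / √(N:ℝ)))
      (Jv X J (stv X cc N fun i => u i / √(N:ℝ))) (Zv X ζ (stv X cc N fun i => u i / √(N:ℝ)))) :
    Tendsto (fun N : ℕ => (N : ℂ) * (PhQ X H cc w (Tv X T (stv X cc N fun i => u i / √(N:ℝ)))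
      (Jv X J (stv X cc N fun i => u i / √(N:ℝ))) (Zv X ζ (stv X cc N fun i => u i / √(N:ℝ))) -
      PhQ X H cc w T J ζ)) atTop (𝓝 (QfQ X H w T J ζ u)) := by
  have h1 := (step_lim (w := w) hB (fun s hs => cr_pg hcr hs (hz s hs)) hz hrg u hev hevs).add
    (ph_lim0 H cc hB hcr hrg u)
  rw [zero_add] at h1
  refine h1.congr fun N => ?_
  unfold PhQ
  rw [Tv_stv]
  ring

theorem gf_tendsto (H : Hol d) {cc : Fin c → Bool} (hLC : S_LC) (hX : X.Okb)
    (hB : ∀ s, Blk (X.α s) r κ K C0) {w : Fin c → ℤ}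
    {T : Fin d → ℂ} {J ζ : Fin c → ℂ} (hcr : CrQ X H cc w T J ζ)
    (hz : ∀ s, cc s = true → ζ s = 0) (hrg : X.Rg r T J ζ)
    (hrg2 : X.Rg (r / 2) T J ζ) (hpos : ∀ s, cc s = false → 0 < (ζ s).im) (u : X.Ix → ℝ)
    (hev : ∀ᶠ N : ℕ in atTop, X.Rg (r / 2) (Tv X T fun i => u i / √(N:ℝ))
      (Jv X J fun i => u i / √(N:ℝ)) (Zv X ζ fun i => u i / √(N:ℝ)))
    (hevs : ∀ᶠ N : ℕ in atTop, X.Rg (r / 2) (Tv X T (stv X cc N fun i => u i / √(N:ℝ)))
      (Jv X J (stv X cc N fun i => u i / √(N:ℝ))) (Zv X ζ (stv X cc N fun i => u i / √(N:ℝ)))) :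
    Tendsto (fun N : ℕ => GfQ X H cc N w T J ζ (stv X cc N fun i => u i / √(N:ℝ))) atTop
      (𝓝 (Complex.exp (QfQ X H w T J ζ u) * ((∏ s, HlX X cc T J ζ s) *
        Complex.exp (2 * Real.pi * Complex.I * (H.v * lt H.f X.τ T + H.u * lt H.g X.τ T))))) := by
  unfold GfQ
  have hrr : ∀ {T : Fin d → ℂ} {J ζ : Fin c → ℂ}, X.Rg (r / 2) T J ζ → X.Rg r T J ζ :=
    fun h s => ⟨Metric.ball_subset_ball (by linarith [(hB s).r0]) (h s).1,
      (h s).2.trans (by linarith [(hB s).r0])⟩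
  refine ((Complex.continuous_exp.tendsto _).comp (ph_lim H hB hcr hz hrg u
    (hev.mono fun _ => hrr) (hevs.mono fun _ => hrr))).mul ?_
  refine Tendsto.mul ?_ (by
    simp only [Tv_stv]
    exact AH_lim X H T u)
  refine tendsto_finsetProd _ fun s _ => ?_
  have hc : ∀ (z : ℂ) (x : ℝ), Tendsto (fun N : ℕ => z + ((x / √(N:ℝ) : ℝ) : ℂ)) atTop (𝓝 z) := by
    intro z x
    have h1 := ((Complex.continuous_ofReal.tendsto 0).comp (div_sqrt_tendsto x)).const_add z
    simpa using h1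
  refine Hs_tendsto cc hLC hX hB (Tn := fun N => Tv X T (stv X cc N fun i => u i / √(N:ℝ)))
    (Jn := fun N => Jv X J (stv X cc N fun i => u i / √(N:ℝ)))
    (ζn := fun N => Zv X ζ (stv X cc N fun i => u i / √(N:ℝ)))
    (T := T) (J := J) (ζ := ζ) (fun j => hc _ _) (fun s => ?_) (fun s => ?_) (fun N s hs => ?_)
    (fun N s => ?_) hpos hevs hrg2 s
  · simp only [Jv_stv, Jv_sqrt]
    exact hc _ _
  · have h1 : Tendsto (fun N : ℕ => Zv X ζ (stv X cc N fun i => u i / √(N:ℝ)) s -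
        Zv X ζ (fun i => u i / √(N:ℝ)) s) atTop (𝓝 0) := by
      rw [tendsto_zero_iff_norm_tendsto_zero]
      refine squeeze_zero' (Eventually.of_forall fun _ => norm_nonneg _) ?_
        (tendsto_const_div_atTop_nhds_zero_nat (1 : ℝ))
      filter_upwards [eventually_ge_atTop 1] with N hN
      have h2 := stv_near X cc hN (fun i => u i / √(N:ℝ)) (.inr (.inr s))
      have h3 : Zv X ζ (stv X cc N fun i => u i / √(N:ℝ)) s - Zv X ζ (fun i => u i / √(N:ℝ)) s =
          ((stv X cc N (fun i => u i / √(N:ℝ)) (.inr (.inr s)) -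
          u (.inr (.inr s)) / √(N:ℝ) : ℝ) : ℂ) := by
        unfold Zv
        push_cast
        ring
      rw [h3, Complex.norm_real, Real.norm_eq_abs]
      exact h2
    have h4 := h1.add (hc (ζ s) (u (.inr (.inr s))))
    rw [zero_add] at h4
    refine h4.congr fun N => ?_
    show Zv X ζ (stv X cc N fun i => u i / √(N:ℝ)) s - Zv X ζ (fun i => u i / √(N:ℝ)) s +
      Zv X ζ (fun i => u i / √(N:ℝ)) s = _
    ring
  · simp only [Jv_stv, Jv_sqrt]
    rw [hcr.aj s hs, bv_zero X u hs]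
    simp
  · rw [Zv_stv, Complex.add_im, Complex.ofReal_im, add_zero]
end pts

/-- **asymptotics of the integral** -/
theorem LPNq (c d : ℕ) (X : Nw c d) (H : Hol d) (cc : Fin c → Bool) (hX : X.Okb) (r κ K C0 : ℝ)
    (hB : ∀ s, Blk (X.α s) r κ K C0) : ∃ δ0 : ℝ, 0 < δ0 ∧ ∀ δ : ℝ, 0 < δ → δ ≤ δ0 →
    ∃ ρ : ℝ, 0 < ρ ∧ ∀ (w : Fin c → ℤ) (T : Fin d → ℂ) (J ζ : Fin c → ℂ), CrQ X H cc w T J ζ →
    X.Nr ρ T J ζ → (∀ s, cc s = true → ζ s = 0) → (∀ s, cc s = false → 0 < (ζ s).im) →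
    ∃ z : ℂ, z ≠ 0 ∧
    Tendsto (fun N : ℕ => ((√N : ℝ) : ℂ) ^ X.nA / ((√N : ℝ) : ℂ) ^ Fintype.card X.Ix *
      sgX cc N * Complex.exp (-(N * PhQ X H cc w T J ζ)) * (N ^ d *
      ∫ x in X.bx δ N, (∏ s, FZx r N (X.α s) (cc s) (w s) (ζ s).im (J s).im
        (X.xN N (fun j => x j + (T j).im * Complex.I) s)) *
        GH H X.τ N (fun j => x j + (T j).im * Complex.I))) atTop (𝓝 z) := by
  classical
  have hLC : S_LC := Pool.Agent.Q99.HT.t_LC
  have hLAP : S_LAP := Pool.Agent.Q239.KN.task_LAP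
  have hGIM : S_GIM := Q299.KN.Gim.task_GIM
  obtain ⟨δ0, hδ0, hδ0'⟩ := exists_delta (r := r) hX (fun s => (hB s).r0)
  refine ⟨δ0, hδ0, fun δ hδ hδle => ?_⟩
  have hδ' := hδ0' δ hδle
  obtain ⟨κ', hκ', hmx⟩ := MXNq X H cc hX r κ K C0 hB
  obtain ⟨N0, τ2, hτ2, hbox⟩ := BXNq c d X H cc r κ K C0 hB δ hδ hδ'
  set r1 : ℝ := if c = 0 then 1 else r with hr1
  have hr1s : ∀ s : Fin c, r1 = r := by
    intro s
    have : c ≠ 0 := by
      rintro rfl
      exact s.elim0
    rw [hr1, if_neg this]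
  have hr10 : 0 < r1 := by
    rw [hr1]
    split_ifs with h
    · exact one_pos
    · exact (hB ⟨0, Nat.pos_of_ne_zero h⟩).r0
  set ρ : ℝ := min (δ / 2) (min (r1 / 32) τ2) with hρ
  have hρ0 : 0 < ρ := lt_min (by linarith) (lt_min (by linarith) hτ2)
  have hρδ : ρ ≤ δ / 2 := min_le_left _ _
  have hρr : ∀ s : Fin c, ρ ≤ r / 32 := fun s => by
    have h1 : ρ ≤ r1 / 32 := (min_le_right _ _).trans (min_le_left _ _)
    rwa [hr1s s] at h1
  have hρτ : ρ ≤ τ2 := (min_le_right _ _).trans (min_le_right _ _)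
  have hρr' : ∀ s : Fin c, ρ ≤ r / 16 := fun s => (hρr s).trans (by linarith [(hB s).r0])
  refine ⟨ρ, hρ0, fun w T J ζ hcr hn hz hpos => ?_⟩
  have haj := hcr.aj
  have hrg2 : X.Rg (r / 2) T J ζ := by
    refine rg_of_near hB hδ' (fun j => ?_) (fun s => ?_) (fun s => ?_)
    · linarith [hn.1 j]
    · linarith [hn.2.1 s, hρr s, (hB s).r0]
    · linarith [hn.2.2 s, hρr s, (hB s).r0]
  have hrr : ∀ {T : Fin d → ℂ} {J ζ : Fin c → ℂ}, X.Rg (r / 2) T J ζ → X.Rg r T J ζ :=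
    fun h s => ⟨Metric.ball_subset_ball (by linarith [(hB s).r0]) (h s).1,
      (h s).2.trans (by linarith [(hB s).r0])⟩
  have hrg := hrr hrg2
  have h2N : Tendsto (fun N : ℕ => 1 / (2 * (N:ℝ))) atTop (𝓝 0) := by
    have h := tendsto_const_div_atTop_nhds_zero_nat (1 / 2 : ℝ)
    refine h.congr fun N => ?_
    rw [div_div]
  have hev1 : ∀ᶠ N : ℕ in atTop, 1 / (2 * (N:ℝ)) ≤ δ / 2 := h2N.eventually_le_const (by linarith)
  have hev2 : ∀ᶠ N : ℕ in atTop, ∀ s : Fin c, 1 / (2 * (N:ℝ)) ≤ r / 16 := by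
    rw [eventually_all]
    intro s
    exact h2N.eventually_le_const (by linarith [(hB s).r0])
  have hev3 : ∀ᶠ N : ℕ in atTop, ∀ s, cc s = false → Real.exp (-(Real.pi * N * (ζ s).im)) ≤ 1 / 2 := by
    rw [eventually_all]
    intro s
    cases hc : cc s
    · filter_upwards [(eg_tendsto (hpos s hc)).eventually_le_const (by norm_num : (0:ℝ) < 1 / 2)] with N h _
      exact h
    · exact Eventually.of_forall fun N h => absurd h (by simp)
  have hev4 := ev_small hB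
  have hev5 := eventually_ge_atTop (max 1 N0)
  have hmem0 : ∀ᶠ N : ℕ in atTop, ∀ v ∈ Sx X r δ N T J ζ,
      X.Rg (r / 2) (Tv X T v) (Jv X J v) (Zv X ζ v) := by
    filter_upwards [hev1, hev2, hev5] with N h1 h2 h3 v hv
    exact sx_mem hB hδ' hρδ hρr' hn haj ((le_max_left _ _).trans h3) h1 h2 hv
  have hmem : ∀ᶠ N : ℕ in atTop, ∀ v ∈ Sx X r δ N T J ζ,
      X.Rg (r / 2) (Tv X T (stv X cc N v)) (Jv X J (stv X cc N v)) (Zv X ζ (stv X cc N v)) := by
    filter_upwards [hev1, hev2, hev5] with N h1 h2 h3 v hv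
    exact sx_memX cc hB hδ' hρδ hρr hn haj ((le_max_left _ _).trans h3) h1 h2 hv
  have hmxg : ∀ v : X.Ix → ℝ, X.Rg (r / 2) (Tv X T v) (Jv X J v) (Zv X ζ v) →
      (PhQ X H cc w (Tv X T v) (Jv X J v) (Zv X ζ v)).re ≤
        (PhQ X H cc w T J ζ).re - κ' * ∑ i, v i ^ 2 := by
    intro v hv
    have h2 := hmx w T J ζ hcr hrg (fun j => v (.inl j)) (bv X v) (fun s => v (.inr (.inr s)))
      (fun s hs => bv_zero X v hs) (hrr hv)
    rw [bv_sum] at h2
    rw [Ix_sum X fun i => v i ^ 2, ← add_assoc]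
    exact h2
  have hmx' : ∀ᶠ N : ℕ in atTop, ∀ v ∈ Sx X r δ N T J ζ,
      (PhQ X H cc w (Tv X T (stv X cc N v)) (Jv X J (stv X cc N v)) (Zv X ζ (stv X cc N v))).re ≤
        (PhQ X H cc w T J ζ).re - κ' * ((∑ i, v i ^ 2) / 2 - Fintype.card X.Ix / (N : ℝ)) := by
    filter_upwards [hmem, hev5] with N h1 h5 v hv
    have hN1 : 1 ≤ N := (le_max_left _ _).trans h5
    have h2 := hmxg _ (h1 v hv)
    have h3 := mul_le_mul_of_nonneg_left (sum_stv X cc hN1 v) hκ'.le
    linarith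
  have hsx : ∀ u : X.Ix → ℝ, ∀ᶠ N : ℕ in atTop, (fun i => u i / √(N:ℝ)) ∈ Sx X r δ N T J ζ :=
    fun u => sx_ev hB hδ hρδ hρr' hn u
  obtain ⟨B1, hB10, hBd⟩ := Hs_bound cc hLC hX hB
  obtain ⟨B2, hB20, hBd2⟩ := AH_bd X H T
  obtain ⟨B, hBe⟩ : ∃ B : ℝ, B = B1 * B2 := ⟨_, rfl⟩
  have hB0 : 0 ≤ B := by rw [hBe]; exact mul_nonneg hB10 hB20
  have hlap := hLAP X.Ix (κ' / 2) (B * Real.exp (κ' * Fintype.card X.Ix)) (by linarith)
    (fun N => (Sx X r δ N T J ζ).indicator (fun v => GfQ X H cc N w T J ζ (stv X cc N v)))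
    (fun u => Complex.exp (QfQ X H w T J ζ u) * ((∏ s, HlX X cc T J ζ s) *
      Complex.exp (2 * Real.pi * Complex.I * (H.v * lt H.f X.τ T + H.u * lt H.g X.τ T))))
    (by
      filter_upwards [hmem, hev4, hev5] with N h1 h2 h3
      have hN1 : 1 ≤ N := (le_max_left _ _).trans h3
      rw [ind_eq X H cc hN1]
      refine AEStronglyMeasurable.const_mul ?_ _
      have hG : Measurable fun v : X.Ix → ℝ => GH H X.τ N (Tv X T v) := by
        have h4 : Continuous fun v : X.Ix → ℝ => Tv X T v := by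
          unfold Tv
          fun_prop
        exact ((GH_cont H X.τ N).comp h4).measurable
      have hm : Measurable ((rgS X r T J ζ).indicator (PvX X cc N w T J ζ)) := by
        rw [← Set.piecewise_eq_indicator]
        exact (pv_cont cc hB w hpos hN1 h2 (fun v hv => hv)).measurable_piecewise
          continuousOn_const (rgS_open X r T J ζ).measurableSet
      have hm2 : Measurable ((Sx X r δ N T J ζ).indicator
          (fun v => (rgS X r T J ζ).indicator (PvX X cc N w T J ζ) (stv X cc N v))) :=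
        (hm.comp (stv_meas X cc N)).indicator (sx_closed X r δ N T J ζ).measurableSet
      have he : (Sx X r δ N T J ζ).indicator (fun v => PvX X cc N w T J ζ (stv X cc N v) *
          GH H X.τ N (Tv X T v)) = fun v => (Sx X r δ N T J ζ).indicator
          (fun v => (rgS X r T J ζ).indicator (PvX X cc N w T J ζ) (stv X cc N v)) v *
          GH H X.τ N (Tv X T v) := by
        funext v
        by_cases hv : v ∈ Sx X r δ N T J ζ
        · rw [Set.indicator_of_mem hv, Set.indicator_of_mem hv,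
            Set.indicator_of_mem (show stv X cc N v ∈ rgS X r T J ζ from h1 v hv)]
        · rw [Set.indicator_of_notMem hv, Set.indicator_of_notMem hv, zero_mul]
      rw [he]
      exact (hm2.mul hG).aestronglyMeasurable)
    (by
      filter_upwards [hmem, hmx', hev3, hev4, hev5] with N h1 h2 h3 h4 h5 u
      have hN1 : 1 ≤ N := (le_max_left _ _).trans h5
      by_cases hu : u ∈ Sx X r δ N T J ζ
      · rw [Set.indicator_of_mem hu]
        unfold GfQ
        rw [norm_mul, Complex.norm_exp, mul_comm, mul_assoc B]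
        refine mul_le_mul ?_ ?_ (Real.exp_pos _).le hB0
        · rw [norm_mul, hBe]
          refine mul_le_mul ?_ (by rw [Tv_stv]; exact hBd2 N u) (norm_nonneg _) hB10
          refine hBd N hN1 h4 _ _ _ (h1 u hu) (fun s hs => ?_) (fun s hc => ?_)
          · rw [Jv_stv]
            unfold Jv
            rw [haj s hs, bv_zero X u hs]
            simp
          · rw [eg_norm]
            have : (Zv X ζ (stv X cc N u) s).im = (ζ s).im := by
              rw [Zv_stv, Complex.add_im, Complex.ofReal_im, add_zero]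
            rw [this]
            exact h3 s hc
        · rw [← Real.exp_add]
          refine Real.exp_le_exp.2 ?_
          have h6 := h2 u hu
          have hN0 : (0:ℝ) < N := by exact_mod_cast hN1
          rw [← Complex.ofReal_natCast, Complex.re_ofReal_mul, Complex.sub_re]
          have h7 : (PhQ X H cc w (Tv X T (stv X cc N u)) (Jv X J (stv X cc N u))
              (Zv X ζ (stv X cc N u))).re - (PhQ X H cc w T J ζ).re ≤
              -(κ' * ((∑ i, u i ^ 2) / 2 - Fintype.card X.Ix / (N : ℝ))) := by linarith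
          calc (N : ℝ) * _ ≤ N * (-(κ' * ((∑ i, u i ^ 2) / 2 - Fintype.card X.Ix / (N : ℝ)))) :=
                mul_le_mul_of_nonneg_left h7 (Nat.cast_nonneg _)
            _ = _ := by
                field_simp
                ring
      · rw [Set.indicator_of_notMem hu, norm_zero]
        exact mul_nonneg (mul_nonneg hB0 (Real.exp_pos _).le) (Real.exp_pos _).le)
    (by
      intro u
      refine (gf_tendsto H hLC hX hB hcr hz hrg hrg2 hpos u ?_ ?_).congr' ?_
      · filter_upwards [hmem0, hsx u] with N h1 h2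
        exact h1 _ h2
      · filter_upwards [hmem, hsx u] with N h1 h2
        exact h1 _ h2
      · filter_upwards [hsx u] with N hN
        rw [Set.indicator_of_mem hN])
  refine ⟨_, ?_, (hlap.const_mul (kX cc)).congr' ?_⟩
  · refine mul_ne_zero (kX_ne cc) ?_
    rw [integral_mul_const]
    refine mul_ne_zero ?_ (mul_ne_zero (prod_ne_zero_iff.2 fun s _ => Hl_ne (hpos s))
      (Complex.exp_ne_zero _))
    obtain ⟨A, hA⟩ := QfQ_qf X H w T J ζ
    have hA' : ∀ u, QfQ X H w T J ζ u = ∑ i, ∑ j, A i j * u i * u j := hA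
    have hg := hGIM X.Ix A κ' hκ' (fun u => by
      rw [← hA' u]
      refine qf_re H cc hB hcr hrg u ?_
      filter_upwards [hmem0, hsx u] with N h1 h2
      exact hmxg _ (h1 _ h2))
    refine fun h => hg ?_
    rw [← h]
    refine integral_congr_ae (Filter.Eventually.of_forall fun u => ?_)
    simp only
    rw [← hA' u]
  · filter_upwards [hev5] with N h5
    have hN1 : 1 ≤ N := (le_max_left _ _).trans h5
    have hNN : N0 ≤ N := (le_max_right _ _).trans h5
    rw [int_eq H haj hz hN1, ← hbox w (fun s => (ζ s).im) (fun s => (J s).im) (fun j => (T j).im)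
      (fun s => ⟨fun hc => ⟨hpos s hc, by
        have h1 := (le_abs_self _).trans (Complex.abs_im_le_norm (ζ s))
        linarith [hn.2.2 s]⟩, (im_le (hn.2.1 s)).trans hρτ⟩)
      (fun j => (im_le (hn.1 j)).trans hρτ) N hNN]
    have hN0 : (0:ℝ) < N := by exact_mod_cast hN1
    have hs0 : ((√(N:ℝ) : ℝ) : ℂ) ≠ 0 := by
      exact_mod_cast (Real.sqrt_pos.2 hN0).ne'
    have hs2 : ((√(N:ℝ) : ℝ) : ℂ) ^ 2 = (N : ℂ) := by
      have := Real.sq_sqrt hN0.le
      exact_mod_cast this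
    have hN0' : (N : ℂ) ≠ 0 := by
      exact_mod_cast hN0.ne'
    unfold cNQ
    rw [MX.cst_eq, card_J, mul_inv]
    have h9 := alg1 (s := ((√(N:ℝ) : ℝ) : ℂ)) (n := (N : ℂ)) (g := sgX cc N)
      (E := Complex.exp (-(N * PhQ X H cc w T J ζ)))
      (I := ∫ x in X.bx δ N, (∏ s, FZx r N (X.α s) (cc s) (w s) (ζ s).im (J s).im
        (X.xN N (fun j => x j + (T j).im * Complex.I) s)) *
        GH H X.τ N (fun j => x j + (T j).im * Complex.I)) (d := d) (c := c)
      (a := Fintype.card {s : Fin c // X.α s 1 ≠ 0}) (m := X.nA) hs0 hN0' (sgX_ne cc N)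
      (sgX_inv cc N) hs2
    rw [← h9]
    have hk := mul_inv_cancel₀ (kX_ne cc)
    obtain ⟨I, hI⟩ : ∃ I : ℂ, I = ∫ x in X.bx δ N, (∏ s, FZx r N (X.α s) (cc s) (w s) (ζ s).im
      (J s).im (X.xN N (fun j => x j + (T j).im * Complex.I) s)) *
      GH H X.τ N (fun j => x j + (T j).im * Complex.I) := ⟨_, rfl⟩
    rw [← hI]
    generalize ((N : ℂ) ^ c * sgX cc N * (N : ℂ) ^ Fintype.card {s : Fin c // X.α s 1 ≠ 0} /
      ((√N : ℝ) : ℂ) ^ X.nA)⁻¹ = A
    generalize ((√N : ℝ) : ℂ) ^ (d + (Fintype.card {s : Fin c // X.α s 1 ≠ 0} + c)) = S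
    linear_combination (S * (A * Complex.exp (-(N * PhQ X H cc w T J ζ)) * I)) * hk

end Pool.Agent.H760.TX
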