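import Pool.Agent.H811.VX.LpX
import Pool.Agent.H760.TX.Lq

/-!
# Mixed augmentation in the thickened torus: the integrand at complex points

Adapted from `H811/VX/LpXA.lean`.
-/

set_option autoImplicit false

namespace Pool.Agent.H760.TX

open Finset Filter Topology MeasureTheory
open Pool.Agent.Q99.HT
open Pool.Agent.Q99.HU.Q239 (vN Tv Jv Zv bv Rb PA_ne vN_eq vN_mem)
open Pool.Agent.Q99.KN (bb ct St LC S_LC S_GAM ez kz th jN)
open Pool.Agent.Q251.KN (fz Eg eg_norm sin_ne_of_im)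
open Pool.Agent.Q99.HX
open Pool.Agent.Q176.HX (cb cT cJ cZ cb_real cT_real cJ_real cZ_real cb_norm cb_zero cb_an coord_an
  cZ_an xv_an phi_an PE_an cT_zero cJ_zero cZ_zero cb_smul fz_UA vN_Am LC_an)
open Pool.Agent.H760.MX (PhX GPX CrX kc PhX_line HsX GfX stv)
open Pool.Agent.H811.VX

variable {c d : ℕ}

/-- the exponent -/
noncomputable def qqQ (X : Nw c d) (H : Hol d) (cc : Fin c → Bool) (w : Fin c → ℤ)
    (T : Fin d → ℂ) (J ζ : Fin c → ℂ) (v : X.Ix → ℂ) : ℂ :=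
  PhQ X H cc w (cT X T v) (cJ X J v) (cZ X ζ v) - PhQ X H cc w T J ζ

/-- the amplitude of the phase -/
noncomputable def aH (X : Nw c d) (H : Hol d) (T : Fin d → ℂ) (v : X.Ix → ℂ) : ℂ :=
  Complex.exp (2 * Real.pi * Complex.I *
    (H.v * lt H.f X.τ (cT X T v) + H.u * lt H.g X.τ (cT X T v)))

/-- the amplitude -/
noncomputable def HHQ (X : Nw c d) (H : Hol d) (cc : Fin c → Bool) (T : Fin d → ℂ)
    (J ζ : Fin c → ℂ) (N : ℕ) (v : X.Ix → ℂ) : ℂ :=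
  HHX X cc T J ζ N v * aH X H T v

/-- the constant phase -/
noncomputable def eH (H : Hol d) (N : ℕ) : ℂ :=
  Complex.exp ((2 * Real.pi * Complex.I * (H.u * H.v)) / N)

lemma eH_ne (H : Hol d) (N : ℕ) : eH H N ≠ 0 := Complex.exp_ne_zero _

lemma eH_norm (H : Hol d) (N : ℕ) : ‖eH H N‖ = 1 := by
  unfold eH
  have e : (2 * Real.pi * Complex.I * (H.u * H.v)) / N =
      ((2 * Real.pi * (H.u * H.v) / N : ℝ) : ℂ) * Complex.I := by
    push_cast
    ring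
  rw [e]
  exact Complex.norm_exp_ofReal_mul_I _

lemma eH_xp (H : Hol d) : ∃ u : ℕ → ℂ, u 0 = 1 ∧ Xp (eH H) u :=
  Pool.Agent.Q99.HX.Xp.inv (2 * Real.pi * Complex.I * (H.u * H.v))

theorem lt_an (X : Nw c d) (f : Fin d → ℝ) (T : Fin d → ℂ) (v : X.Ix → ℂ) :
    AnalyticAt ℂ (fun v : X.Ix → ℂ => lt f X.τ (cT X T v)) v := by
  unfold lt cT
  refine Finset.analyticAt_fun_sum _ fun j _ => ?_
  exact ((analyticAt_const.add (coord_an X _ v)).sub analyticAt_const).mul analyticAt_const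

theorem QH_an (X : Nw c d) (H : Hol d) (T : Fin d → ℂ) (v : X.Ix → ℂ) :
    AnalyticAt ℂ (fun v : X.Ix → ℂ => QH H X.τ (cT X T v)) v := by
  unfold QH
  exact analyticAt_const.mul ((lt_an X H.f T v).mul (lt_an X H.g T v))

theorem aH_an (X : Nw c d) (H : Hol d) (T : Fin d → ℂ) (v : X.Ix → ℂ) :
    AnalyticAt ℂ (aH X H T) v := by
  unfold aH
  exact AnalyticAt.cexp' (analyticAt_const.mul ((analyticAt_const.mul (lt_an X H.f T v)).add
    (analyticAt_const.mul (lt_an X H.g T v))))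

section main
variable {X : Nw c d} {H : Hol d} {r κ K C0 : ℝ}

theorem qqQ_eq (cc : Fin c → Bool) (w : Fin c → ℤ) (T : Fin d → ℂ) (J ζ : Fin c → ℂ) :
    qqQ X H cc w T J ζ = fun v => qqX X cc w T J ζ v + (QH H X.τ (cT X T v) - QH H X.τ T) := by
  funext v
  unfold qqQ qqX PhQ
  ring

theorem qqQ_an (hLC : S_LC) (hX : X.Okb) (hB : ∀ s, Blk (X.α s) r κ K C0) (cc : Fin c → Bool)
    (w : Fin c → ℤ) {T : Fin d → ℂ} {J ζ : Fin c → ℂ} {U : Set (X.Ix → ℂ)}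
    (hU : ∀ v ∈ U, X.Rg r (cT X T v) (cJ X J v) (cZ X ζ v)) :
    AnalyticOnNhd ℂ (qqQ X H cc w T J ζ) U := by
  rw [qqQ_eq]
  intro v hv
  exact (qqX_an hLC hX hB cc w hU v hv).add ((QH_an X H T v).sub analyticAt_const)

theorem qqQ_zero (X : Nw c d) (H : Hol d) (cc : Fin c → Bool) (w : Fin c → ℤ) (T : Fin d → ℂ)
    (J ζ : Fin c → ℂ) : qqQ X H cc w T J ζ 0 = 0 := by
  unfold qqQ
  rw [cT_zero, cJ_zero, cZ_zero, sub_self]

theorem qqQ_fderiv (hLC : S_LC) (hX : X.Okb) (hB : ∀ s, Blk (X.α s) r κ K C0)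
    (cc : Fin c → Bool) {w : Fin c → ℤ}
    {T : Fin d → ℂ} {J ζ : Fin c → ℂ} (hcr : CrQ X H cc w T J ζ) (hrg : X.Rg r T J ζ) :
    fderiv ℂ (qqQ X H cc w T J ζ) 0 = 0 := by
  have h0 : X.Rg r (cT X T 0) (cJ X J 0) (cZ X ζ 0) := by
    rw [cT_zero, cJ_zero, cZ_zero]
    exact hrg
  have han : AnalyticAt ℂ (qqQ X H cc w T J ζ) 0 :=
    qqQ_an hLC hX hB cc w (U := {0}) (fun v hv => by rw [Set.mem_singleton_iff.1 hv]; exact h0) 0 rfl
  have hd := han.differentiableAt.hasFDerivAt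
  ext u
  have h1 : HasDerivAt (fun t : ℝ => qqQ X H cc w T J ζ ((t : ℂ) • u))
      (fderiv ℂ (qqQ X H cc w T J ζ) 0 u) 0 := by
    have h2 : HasDerivAt (fun t : ℝ => (t : ℂ) • u) u 0 := by
      have := (Complex.ofRealCLM.hasDerivAt (x := (0 : ℝ))).smul_const u
      simpa using this
    have h3 : HasFDerivAt (qqQ X H cc w T J ζ)
        ((fderiv ℂ (qqQ X H cc w T J ζ) 0).restrictScalars ℝ) (((0 : ℝ) : ℂ) • u) := by
      simpa using hd.restrictScalars ℝ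
    exact h3.comp_hasDerivAt (0 : ℝ) h2
  have ht : X.Rg r (fun j => T j + ((0 : ℝ) : ℂ) * u (.inl j)) (fun s => J s + ((0 : ℝ) : ℂ) * cb X u s)
      (fun s => ζ s + ((0 : ℝ) : ℂ) * u (.inr (.inr s))) := by
    simpa using hrg
  have h4 := (PhQ_line H cc hB w (T := T) (a := fun j => u (.inl j)) (J := J) (b := cb X u) (ζ := ζ)
    (g := fun s => u (.inr (.inr s))) (t := 0) ht 0 0 0).1
  simp only [Complex.ofReal_zero, zero_mul, add_zero] at h4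
  rw [hcr.eq _ _ _ (fun s hs => cb_zero X u hs)] at h4
  have h5 : HasDerivAt (fun t : ℝ => qqQ X H cc w T J ζ ((t : ℂ) • u)) 0 0 := by
    refine (h4.sub_const (PhQ X H cc w T J ζ)).congr_of_eventuallyEq
      (Eventually.of_forall fun t => ?_)
    simp only [qqQ]
    congr 2
    · funext s
      unfold cJ
      rw [cb_smul]
  rw [h1.unique h5]
  rfl

/-- the amplitude of the phase is bounded on bounded sets -/
theorem aH_bd (X : Nw c d) (H : Hol d) (T : Fin d → ℂ) (R : ℝ) :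
    ∃ B : ℝ, ∀ v ∈ Metric.ball (0 : X.Ix → ℂ) R, ‖aH X H T v‖ ≤ B := by
  have hc : Continuous (aH X H T) := by
    rw [continuous_iff_continuousAt]
    exact fun v => (aH_an X H T v).continuousAt
  have hK : IsCompact (Metric.closedBall (0 : X.Ix → ℂ) R) := isCompact_closedBall _ _
  obtain ⟨B, hB⟩ := hK.exists_bound_of_continuousOn hc.continuousOn
  exact ⟨B, fun v hv => hB v (Metric.ball_subset_closedBall hv)⟩

/-- the amplitude has a uniform expansion -/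
theorem HHQ_UA (cc : Fin c → Bool) (hUA : S_UA)
    (hPX : ∀ s, UA (fun N (p : (Fin 4 → ℂ) × ℂ) => Am N (X.α s) (X.q0 s) p.1 p.2)
      (Metric.ball (vC (X.α s)) (r / 2) ×ˢ Metric.ball 0 (r / 2)))
    (hB : ∀ s, Blk (X.α s) r κ K C0)
    {T : Fin d → ℂ} {J ζ : Fin c → ℂ} {R : ℝ} {y : ℝ} (hy : 0 < y)
    (hU : ∀ v ∈ Metric.ball (0 : X.Ix → ℂ) R, X.Rg (r / 2) (cT X T v) (cJ X J v) (cZ X ζ v))
    (h2 : ∀ v ∈ Metric.ball (0 : X.Ix → ℂ) R, ∀ s, cc s = false → y ≤ (cZ X ζ v s).im) :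
    UA (HHQ X H cc T J ζ) (Metric.ball (0 : X.Ix → ℂ) R) := by
  obtain ⟨B, hBd⟩ := aH_bd X H T R
  have h1 := HHX_UA (X := X) cc hUA hPX hB hy hU h2
  have h3 := hUA.2.2.1 (X.Ix → ℂ) (aH X H T) (Metric.ball (0 : X.Ix → ℂ) R) B
    (fun v _ => aH_an X H T v) hBd
  exact hUA.1 (X.Ix → ℂ) _ _ _ h1 h3

theorem AH_eq (H : Hol d) (X : Nw c d) (T : Fin d → ℂ) (N : ℕ) (v : X.Ix → ℝ) :
    AH H X.τ N (Tv X T v) = aH X H T (fun i => (v i : ℂ)) * eH H N := by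
  unfold AH aH eH
  rw [cT_real, ← Complex.exp_add]
  congr 1
  ring

theorem GfQ_real (X : Nw c d) (H : Hol d) (cc : Fin c → Bool) (N : ℕ) (w : Fin c → ℤ)
    (T : Fin d → ℂ) (J ζ : Fin c → ℂ)
    (v : X.Ix → ℝ) : Complex.exp (N * qqQ X H cc w T J ζ (fun i => (v i : ℂ))) *
      HHQ X H cc T J ζ N (fun i => (v i : ℂ)) * eH H N = GfQ X H cc N w T J ζ v := by
  unfold GfQ qqQ HHQ
  rw [HHX_real, cT_real, cJ_real, cZ_real, AH_eq]
  ring

/-- differentiability of the amplitude -/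
theorem HHQ_diff (cc : Fin c → Bool) (hLC : S_LC) (hX : X.Okb)
    (hB : ∀ s, Blk (X.α s) r κ K C0) {T : Fin d → ℂ} {J ζ : Fin c → ℂ} {U : Set (X.Ix → ℂ)}
    (hU : ∀ v ∈ U, X.Rg (r / 2) (cT X T v) (cJ X J v) (cZ X ζ v))
    (h2 : ∀ v ∈ U, ∀ s, cc s = false → 0 < (cZ X ζ v s).im) {N : ℕ} (hN1 : 1 ≤ N)
    (hNq : ∀ s, ‖Pool.Agent.Q99.HU.Q239.q4 X s‖ / N < r / 2) :
    DifferentiableOn ℂ (HHQ X H cc T J ζ N) U :=
  (HHX_diff cc hLC hX hB hU h2 hN1 hNq).mul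
    fun v _ => (aH_an X H T v).differentiableAt.differentiableWithinAt

end main

end Pool.Agent.H760.TX
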