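import Pool.Agent.H760.TX.Sq
import Pool.Agent.H760.MX.Mx

/-!
# Mixed augmentation in the thickened torus: the maximum at the saddle point

Adapted from `MX/Mx.lean`.
-/

set_option autoImplicit false

namespace Pool.Agent.H760.TX

open Finset Filter Topology
open Pool.Agent.Q99.HT
open Pool.Agent.Q99.HU.Q239
open Pool.Agent.H760.MX

variable {c d : ℕ}

/-- the second derivative of the quadratic potential -/
noncomputable def HQ (H : Hol d) (T' T'' : Fin d → ℂ) : ℂ :=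
  2 * Real.pi * Complex.I * (lf H.f T' * lf H.g T'' + lf H.g T' * lf H.f T'')

lemma lt_line (f τ : Fin d → ℝ) (T a : Fin d → ℂ) (t : ℂ) :
    lt f τ (fun j => T j + t * a j) = lt f τ T + t * lf f a := by
  have e : (fun j => T j + t * a j) = T + t • a := by
    funext j
    simp
  rw [e, lt_add, lf_smul]

lemma QH_line (H : Hol d) (τ : Fin d → ℝ) (T a a' : Fin d → ℂ) (t : ℝ) :
    HasDerivAt (fun t : ℝ => QH H τ (fun j => T j + t * a j)) (DQ H τ (fun j => T j + t * a j) a) t ∧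
    HasDerivAt (fun t : ℝ => DQ H τ (fun j => T j + t * a j) a') (HQ H a a') t := by
  have hl : ∀ f : Fin d → ℝ, HasDerivAt (fun t : ℝ => lt f τ (fun j => T j + t * a j)) (lf f a) t := by
    intro f
    have h1 : HasDerivAt (fun t : ℝ => lt f τ T + (t : ℂ) * lf f a) (lf f a) t := by
      have h2 := (Complex.ofRealCLM.hasDerivAt (x := t)).mul_const (lf f a)
      have h3 := h2.const_add (lt f τ T)
      simpa using h3
    refine h1.congr_of_eventuallyEq (Filter.Eventually.of_forall fun t => ?_)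
    exact lt_line f τ T a t
  constructor
  · have h := ((hl H.f).mul (hl H.g)).const_mul (2 * Real.pi * Complex.I)
    refine h.congr_deriv ?_
    unfold DQ
    ring
  · have h := (((hl H.f).mul_const (lf H.g a')).add ((hl H.g).mul_const (lf H.f a'))).const_mul
      (2 * Real.pi * Complex.I)
    exact h

/-- derivatives of the potential along a line -/
theorem PhQ_line {X : Nw c d} (H : Hol d) (cc : Fin c → Bool) {r κ K C0 : ℝ}
    (hB : ∀ s, Blk (X.α s) r κ K C0) (w : Fin c → ℤ)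
    {T a : Fin d → ℂ} {J b ζ g : Fin c → ℂ} {t : ℝ}
    (ht : X.Rg r (fun j => T j + t * a j) (fun s => J s + t * b s) (fun s => ζ s + t * g s))
    (a' : Fin d → ℂ) (b' g' : Fin c → ℂ) :
    HasDerivAt (fun t : ℝ => PhQ X H cc w (fun j => T j + t * a j) (fun s => J s + t * b s)
      (fun s => ζ s + t * g s))
      (GPQ X H cc w (fun j => T j + t * a j) (fun s => J s + t * b s) (fun s => ζ s + t * g s) a b g) t ∧
    HasDerivAt (fun t : ℝ => GPQ X H cc w (fun j => T j + t * a j) (fun s => J s + t * b s)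
      (fun s => ζ s + t * g s) a' b' g')
      (X.HP w (fun j => T j + t * a j) (fun s => J s + t * b s) (fun s => ζ s + t * g s) a b g a' b' g' +
        HQ H a a') t := by
  obtain ⟨h1, h2⟩ := PhX_line cc hB w ht a' b' g'
  obtain ⟨h3, h4⟩ := QH_line H X.τ T a a' t
  exact ⟨h1.add h3, h2.add h4⟩

lemma lf_real (f : Fin d → ℝ) (a : Fin d → ℝ) :
    lf f (fun j => (a j : ℂ)) = ((∑ j, a j * f j : ℝ) : ℂ) := by
  unfold lf
  push_cast
  rfl

lemma HQ_real (H : Hol d) (a : Fin d → ℝ) :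
    (HQ H (fun j => (a j : ℂ)) (fun j => (a j : ℂ))).re = 0 := by
  unfold HQ
  rw [lf_real, lf_real]
  have e : (2 * Real.pi * Complex.I * (((∑ j, a j * H.f j : ℝ) : ℂ) * ((∑ j, a j * H.g j : ℝ) : ℂ) +
      ((∑ j, a j * H.g j : ℝ) : ℂ) * ((∑ j, a j * H.f j : ℝ) : ℂ)) : ℂ) =
      ((2 * Real.pi * ((∑ j, a j * H.f j) * (∑ j, a j * H.g j) +
        (∑ j, a j * H.g j) * (∑ j, a j * H.f j)) : ℝ) : ℂ) * Complex.I := by
    push_cast
    ring
  rw [e, Complex.mul_I_re, Complex.ofReal_im, neg_zero]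

/-- **the maximum at the saddle point** -/
theorem MXNq (X : Nw c d) (H : Hol d) (cc : Fin c → Bool) (hX : X.Okb) (r κ K C0 : ℝ)
    (hB : ∀ s, Blk (X.α s) r κ K C0) : ∃ κ' : ℝ, 0 < κ' ∧
  ∀ (w : Fin c → ℤ) (T : Fin d → ℂ) (J ζ : Fin c → ℂ), CrQ X H cc w T J ζ → X.Rg r T J ζ →
  ∀ (a : Fin d → ℝ) (b g : Fin c → ℝ), (∀ s, X.α s 1 = 0 → b s = 0) →
  X.Rg r (fun j => T j + a j) (fun s => J s + b s) (fun s => ζ s + g s) →
  (PhQ X H cc w (fun j => T j + a j) (fun s => J s + b s) (fun s => ζ s + g s)).re ≤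
    (PhQ X H cc w T J ζ).re - κ' * (∑ j, a j ^ 2 + ∑ s, b s ^ 2 + ∑ s, g s ^ 2) := by
  obtain ⟨κ1, hκ1, hκ11, hκ⟩ := inj_bound X.E hX.inj
  have hκ0 : ∀ s : Fin c, 0 < κ := fun s => (hB s).κ0
  set κ0 : ℝ := if c = 0 then 1 else κ with hκ0def
  have hκ0pos : 0 < κ0 := by
    rw [hκ0def]
    split_ifs with h
    · exact one_pos
    · exact hκ0 ⟨0, Nat.pos_of_ne_zero h⟩
  refine ⟨κ0 * κ1, mul_pos hκ0pos hκ1, fun w T J ζ hcr hrg a b g hb hrg2 => ?_⟩
  set A := ∑ s, ∑ i, (∑ j, a j * (X.E j s i : ℝ)) ^ 2 with hA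
  set S := κ * (A + ∑ s, b s ^ 2 + ∑ s, g s ^ 2) with hS
  have hrgt : ∀ t ∈ Set.Icc (0:ℝ) 1, X.Rg r (fun j => T j + t * (a j : ℂ))
      (fun s => J s + t * (b s : ℂ)) (fun s => ζ s + t * (g s : ℂ)) := fun t ht =>
    rg_line hrg hrg2 ht
  have hmax := max_line (S := S)
    (F := fun t : ℝ => PhQ X H cc w (fun j => T j + t * a j) (fun s => J s + t * b s) (fun s => ζ s + t * g s))
    (F1 := fun t : ℝ => GPQ X H cc w (fun j => T j + t * a j) (fun s => J s + t * b s)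
      (fun s => ζ s + t * g s) (fun j => (a j : ℂ)) (fun s => (b s : ℂ)) (fun s => (g s : ℂ)))
    (F2 := fun t : ℝ => X.HP w (fun j => T j + t * a j) (fun s => J s + t * b s)
      (fun s => ζ s + t * g s) (fun j => (a j : ℂ)) (fun s => (b s : ℂ)) (fun s => (g s : ℂ))
      (fun j => (a j : ℂ)) (fun s => (b s : ℂ)) (fun s => (g s : ℂ)) +
      HQ H (fun j => (a j : ℂ)) (fun j => (a j : ℂ)))
    (fun t ht => (PhQ_line H cc hB w (hrgt t ht) 0 0 0).1)
    (fun t ht => (PhQ_line H cc hB w (hrgt t ht) _ _ _).2)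
    (by
      simp only [Complex.ofReal_zero, zero_mul, add_zero]
      rw [hcr.eq _ _ _ (fun s hs => by rw [hb s hs]; simp)]
      rfl)
    (fun t ht => by
      rw [Complex.add_re, HQ_real, add_zero]
      exact HP_le hX hB w (hrgt t ht) a b g hb)
  simp only [Complex.ofReal_zero, Complex.ofReal_one, zero_mul, one_mul, add_zero] at hmax
  refine hmax.trans (sub_le_sub_left ?_ _)
  have hA0 : 0 ≤ A := sum_nonneg fun s _ => sum_nonneg fun i _ => sq_nonneg _
  have ha0 : 0 ≤ ∑ j, a j ^ 2 := sum_nonneg fun s _ => sq_nonneg _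
  have hb0 : 0 ≤ ∑ s, b s ^ 2 := sum_nonneg fun s _ => sq_nonneg _
  have hg0 : 0 ≤ ∑ s, g s ^ 2 := sum_nonneg fun s _ => sq_nonneg _
  have h1 := hκ a
  have h2 : κ1 * (∑ j, a j ^ 2 + ∑ s, b s ^ 2 + ∑ s, g s ^ 2) ≤ A + ∑ s, b s ^ 2 + ∑ s, g s ^ 2 := by
    nlinarith
  by_cases hc : c = 0
  · subst hc
    have hA00 : A = 0 := by rw [hA]; simp
    have hb00 : ∑ s, b s ^ 2 = 0 := by simp
    have hg00 : ∑ s, g s ^ 2 = 0 := by simp
    rw [hS, hA00, hb00, hg00] at *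
    have ha00 : ∑ j, a j ^ 2 = 0 := by
      have : κ1 * ∑ j, a j ^ 2 ≤ 0 := by simpa using h1
      nlinarith
    rw [ha00]
    simp
  · have : κ0 = κ := by rw [hκ0def, if_neg hc]
    rw [hS, this, mul_assoc]
    exact mul_le_mul_of_nonneg_left h2 (this ▸ hκ0pos.le)

end Pool.Agent.H760.TX
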