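import Pool.Agent.H760.TX.Aq
import Pool.Agent.H760.TT.VC
import Pool.Graph.R_pool_sql_team_seeded_3997aac3.Q239.HU.NOb
import Pool.Graph.R_pool_sql_team_seeded_3997aac3.Q206.HT.NE

/-!
# Mixed augmentation in the thickened torus: the network of a diagram

Adapted from `Q206/HT/NE.lean` and `Q239/HU/NOb.lean`.
-/

set_option autoImplicit false

namespace Pool.Agent.H760.TX

open Finset Filter Topology MeasureTheory
open Pool.Agent.Q99.FAL (bq hh S_T1 Pc Ty fV n1 n2 cor dn Net up wd stp cls toR eij zz nV)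
open Pool.Agent.Q99.HT Pool.Agent.Q99.HU Pool.Agent.Q206.HT
open Pool.Agent.H760.TT (Vx TS LT XT AT mem_LT span_LT LR_TS Ang_eq good_T TS_add TS_sub TS_map
  TS_cor TS_castR TS_smulR TS_zero Cell Val)

variable {D : List Vx} {k m d : ℕ}

/-- a positive angle structure of maximal volume -/
structure MxT (k m : ℕ) (D : List Vx) (a : Fin D.length → Fin 6 → ℝ) : Prop where
  mem : a ∈ AT k m D
  pos : ∀ b i, 0 < a b i
  max : ∀ a' ∈ AT k m D, fV a' ≤ fV a

/-- `Y` is the network of the diagram `D` with the angles `a` -/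
structure NetT (k m : ℕ) (D : List Vx) (a : Fin D.length → Fin 6 → ℝ) (β : Fin D.length → Bool)
    {d : ℕ} (Y : Nw D.length d) : Prop where
  be : ∀ s, β s = true ↔ a s 1 ≤ a s 2
  al : ∀ s, Y.α s = bf (β s) (a s)
  q0 : ∃ a0 : Fin D.length → Fin 6 → ℤ, TS k m D a0 1 ∧ ∀ s, Y.q0 s = cv (β s) (a0 s)
  E1 : ∀ j, ∃ δ : Fin D.length → Fin 6 → ℤ, TS k m D δ 0 ∧ ∀ s, Y.E j s = cv (β s) (δ s)
  E2 : ∀ δ : Fin D.length → Fin 6 → ℤ, TS k m D δ 0 →
    ∃! t : Fin d → ℤ, ∀ s i, cv (β s) (δ s) i = ∑ j, t j * Y.E j s i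
  inj : ∀ t : Fin d → ℝ, (∀ s i, ∑ j, t j * Y.E j s i = 0) → t = 0
  ctr : ∀ s i, qc (Y.α s) i = Y.q0 s i + ∑ j, Y.τ j * Y.E j s i

theorem exists_net (a0 : Fin D.length → Fin 6 → ℤ) (h0 : TS k m D a0 1)
    {a : Fin D.length → Fin 6 → ℝ} (ha : TS k m D a 1) :
    ∃ (d : ℕ) (β : Fin D.length → Bool) (Y : Nw D.length d), NetT k m D a β Y := by
  classical
  let β : Fin D.length → Bool := fun s => decide (a s 1 ≤ a s 2)
  let X : Net D.length := ⟨(LT k m D).map (cl ℤ β), 0⟩
  obtain ⟨E, hE1, hE2, hE3, hE4⟩ := Pool.Agent.Q299.FAL.task_LB D.length X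
  -- the basis vectors are corners of solutions
  have hEm : ∀ j, ∃ δ ∈ LT k m D, cl ℤ β δ = E j := by
    intro j
    have h := hE1 (Pi.single j 1)
    have e : ∑ k, (Pi.single j 1 : Fin (Module.finrank ℤ X.L) → ℤ) k • E k = E j := by
      rw [Finset.sum_eq_single j]
      · simp
      · intro b _ hb
        rw [Pi.single_eq_of_ne hb, zero_smul]
      · intro h; exact absurd (mem_univ j) h
    rw [e] at h
    exact Submodule.mem_map.1 h
  have hEz : ∀ j s, E j s 3 = 0 ∧ E j s 4 = 0 ∧ E j s 5 = 0 := by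
    intro j s
    obtain ⟨δ, -, hδ⟩ := hEm j
    rw [← hδ]
    exact cf_hi (β s) (δ s)
  -- the real solution
  have h0' : TS k m D (toR a0) 1 := by
    have := (TS_castR k a0 1).2 h0
    rw [Int.cast_one] at this
    exact this
  have hsolR : TS k m D (a - toR a0) (0 : ℝ) := by
    have := TS_sub k _ _ _ _ ha h0'
    rw [sub_self] at this
    exact this
  have hspan := span_LT _ hsolR
  have hspan' : cl ℝ β (a - toR a0) ∈ X.LR := by
    show cl ℝ β (a - toR a0) ∈ Submodule.span ℝ (toR '' (((LT k m D).map (cl ℤ β) : Submodule ℤ _) : Set _))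
    have h6 : cl ℝ β (a - toR a0) ∈ (Submodule.span ℝ (toR '' (LT k m D : Set _))).map (cl ℝ β) :=
      Submodule.mem_map_of_mem hspan
    rw [Submodule.map_span] at h6
    refine Submodule.span_mono ?_ h6
    rintro _ ⟨_, ⟨δ, hδ, rfl⟩, rfl⟩
    exact ⟨cl ℤ β δ, Submodule.mem_map_of_mem hδ, toR_cl β δ⟩
  obtain ⟨τ, hτ⟩ := hE4 _ hspan'
  let Y : Nw D.length (Module.finrank ℤ X.L) :=
    ⟨fun j s i => E j s (i3 i), fun s => cv (β s) (a0 s), fun s => bf (β s) (a s), τ⟩
  refine ⟨Module.finrank ℤ X.L, β, Y, ?_, fun s => rfl, ⟨a0, h0, fun s => rfl⟩, ?_, ?_, ?_, ?_⟩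
  · intro s
    exact decide_eq_true_iff
  · intro j
    obtain ⟨δ, hδ, he⟩ := hEm j
    refine ⟨δ, hδ, fun s => ?_⟩
    funext i
    show E j s (i3 i) = _
    rw [← he, ← cf_i3]
    rfl
  · intro δ hδ
    have hm : cl ℤ β δ ∈ X.L := Submodule.mem_map_of_mem (show δ ∈ LT k m D from hδ)
    obtain ⟨t, ht, hu⟩ := hE2 _ hm
    have key : ∀ t : Fin (Module.finrank ℤ X.L) → ℤ,
        (∀ s i, cv (β s) (δ s) i = ∑ j, t j * Y.E j s i) ↔ cl ℤ β δ = ∑ j, t j • E j := by
      intro t
      constructor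
      · intro h
        funext s i
        have hs : (∑ j, t j • E j) s i = ∑ j, t j * E j s i := by
          simp [Finset.sum_apply]
        rw [hs]
        have h3 : ∀ i : Fin 3, cl ℤ β δ s (i3 i) = ∑ j, t j * E j s (i3 i) := by
          intro i
          have := h s i
          rw [← cf_i3] at this
          exact this
        fin_cases i
        · exact h3 0
        · exact h3 1
        · exact h3 2
        · rw [Finset.sum_eq_zero (fun j _ => by
            show t j * E j s 3 = 0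
            rw [(hEz j s).1, mul_zero])]
          rfl
        · rw [Finset.sum_eq_zero (fun j _ => by
            show t j * E j s 4 = 0
            rw [(hEz j s).2.1, mul_zero])]
          rfl
        · rw [Finset.sum_eq_zero (fun j _ => by
            show t j * E j s 5 = 0
            rw [(hEz j s).2.2, mul_zero])]
          rfl
      · intro h s i
        rw [← cf_i3]
        show cl ℤ β δ s (i3 i) = _
        rw [h]
        simp [Finset.sum_apply, Y]
    exact ⟨t, (key t).2 ht, fun t' ht' => hu t' ((key t').1 ht')⟩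
  · intro t ht
    apply hE3
    funext s i
    have hs : (∑ j, t j • toR (E j)) s i = ∑ j, t j * (E j s i : ℝ) := by
      simp [Finset.sum_apply, toR]
    rw [hs]
    fin_cases i
    · exact ht s 0
    · exact ht s 1
    · exact ht s 2
    · exact Finset.sum_eq_zero (fun j _ => by
        show t j * ((E j s 3 : ℤ) : ℝ) = 0
        rw [(hEz j s).1]; simp)
    · exact Finset.sum_eq_zero (fun j _ => by
        show t j * ((E j s 4 : ℤ) : ℝ) = 0
        rw [(hEz j s).2.1]; simp)
    · exact Finset.sum_eq_zero (fun j _ => by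
        show t j * ((E j s 5 : ℤ) : ℝ) = 0
        rw [(hEz j s).2.2]; simp)
  · intro s i
    show qc (bf (β s) (a s)) i = ((cv (β s) (a0 s) i : ℤ) : ℝ) + ∑ j, τ j * ((E j s (i3 i) : ℤ) : ℝ)
    rw [qc_bf]
    have h7 := congrFun (congrFun hτ s) (i3 i)
    have hs : (∑ j, τ j • toR (E j)) s (i3 i) = ∑ j, τ j * (E j s (i3 i) : ℝ) := by
      simp [Finset.sum_apply, toR]
    rw [hs] at h7
    rw [← h7]
    show cv (β s) (a s) i = _ + cf (β s) ((a - toR a0) s) (i3 i)
    rw [cf_i3]
    fin_cases i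
    · simp [cv, toR]
    · simp only [cv]
      cases β s
      · simp [toR]; ring
      · simp [toR]; ring
    · simp [cv, toR]

section ok
variable {a : Fin D.length → Fin 6 → ℝ} {β : Fin D.length → Bool} {Y : Nw D.length d}

lemma MxT.h1 (hM : MxT k m D a) (s : Fin D.length) : a s 0 + a s 1 + a s 2 = 1 / 2 :=
  hM.mem.2.1 s

lemma MxT.h2 (hM : MxT k m D a) (s : Fin D.length) : a s 3 + a s 4 + a s 5 = 1 / 2 := by
  have h3 : n1 (a s) + n2 (a s) = 1 := hM.mem.1.1 s
  have h4 := hM.mem.2.1 s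
  have h5 : n2 (a s) = a s 3 + a s 4 + a s 5 := rfl
  rw [← h5]
  linarith

/-- the maximum is critical -/
theorem crit_T (hM : MxT k m D a) (a0 : Fin D.length → Fin 6 → ℤ) (h0 : TS k m D a0 1)
    (δ : Fin D.length → Fin 6 → ℤ) (hδ : TS k m D δ 0) :
    ∑ b, ∑ i, (Real.log (Real.tan (Real.pi * a b i)) * (δ b i : ℝ) +
      Real.log (Real.cos (Real.pi * a b i)) * dn (toR δ b) i) = 0 := by
  have hm : toR δ ∈ (XT k m D a0).LR := Submodule.subset_span ⟨δ, hδ, rfl⟩
  exact Pool.Agent.Q299.FAL.task_CR D.length (XT k m D a0) a (good_T a0 h0 a hM.mem hM.pos) a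
    (by rw [Ang_eq a0 h0]; exact hM.mem) (fun b i => Iff.rfl)
    (fun a' ha' => hM.max a' (by rw [← Ang_eq a0 h0]; exact ha')) (toR δ) hm

lemma tan_pos' (hM : MxT k m D a) (s : Fin D.length) (i : Fin 6) :
    0 < Real.tan (Real.pi * a s i) := by
  have hpi := Real.pi_pos
  have h1 := hM.pos s i
  have h2 := Pool.Agent.H760.TT.lt_half hM.mem hM.pos s i
  exact Real.tan_pos_of_pos_of_lt_pi_div_two (by positivity) (by nlinarith)

/-- the relation of the tangents -/
lemma cross_T (hM : MxT k m D a) (a0 : Fin D.length → Fin 6 → ℤ) (h0 : TS k m D a0 1)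
    (s : Fin D.length) : Real.tan (Real.pi * a s 1) * Real.tan (Real.pi * a s 5) =
      Real.tan (Real.pi * a s 2) * Real.tan (Real.pi * a s 4) := by
  have m1 := Pool.Agent.H760.TT.eij_mem (k := k) (m := m) s 1 4 (Or.inl ⟨rfl, rfl⟩)
  have m2 := Pool.Agent.H760.TT.eij_mem (k := k) (m := m) s 2 5 (Or.inr ⟨rfl, rfl⟩)
  have m : TS k m D (eij s 1 4 - eij s 2 5) 0 := (LT k m D).sub_mem m1 m2
  have hc := crit_T hM a0 h0 _ m
  have hdn : ∀ b i, dn (toR (eij s 1 4 - eij s 2 5) b) i = 0 := by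
    intro b i
    have e1 : n1 (toR (eij s 1 4 - eij s 2 5) b) = 0 := by
      by_cases hb : b = s
      · simp [n1, toR, eij, hb]
      · simp [n1, toR, eij, hb]
    have e2 : n2 (toR (eij s 1 4 - eij s 2 5) b) = 0 := by
      by_cases hb : b = s
      · simp [n2, toR, eij, hb]
      · simp [n2, toR, eij, hb]
    unfold dn
    split
    · exact e2
    · exact e1
  rw [Finset.sum_eq_single s] at hc
  · simp only [hdn, mul_zero, add_zero] at hc
    rw [Fin.sum_univ_six] at hc
    simp [eij] at hc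
    have t1 := tan_pos' hM s 1
    have t2 := tan_pos' hM s 2
    have t4 := tan_pos' hM s 4
    have t5 := tan_pos' hM s 5
    apply Real.log_injOn_pos (Set.mem_Ioi.2 (mul_pos t1 t5)) (Set.mem_Ioi.2 (mul_pos t2 t4))
    rw [Real.log_mul t1.ne' t5.ne', Real.log_mul t2.ne' t4.ne']
    linarith
  · intro b _ hb
    apply Finset.sum_eq_zero
    intro i _
    rw [hdn b i]
    simp [eij, hb]
  · intro h; exact absurd (mem_univ s) h

/-- the network is good -/
theorem okb_net (hM : MxT k m D a) (hY : NetT k m D a β Y) :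
    Y.Okb ∧ (∀ s, Y.α s 1 ≤ Y.α s 2 ∧ Y.α s 4 ≤ Y.α s 5) ∧ ∑ s, v0 (Y.α s) = fV a := by
  classical
  obtain ⟨a0, h0, hY0⟩ := hY.q0
  have hreg : ∀ s, Fr (bf (β s) (a s)) ∧ bf (β s) (a s) 1 ≤ bf (β s) (a s) 2 ∧
      bf (β s) (a s) 4 ≤ bf (β s) (a s) 5 := fun s =>
    Pool.Agent.Q239.HU.regionb (fun i => (hM.pos s i).le) (hM.h1 s) (hM.h2 s)
      ⟨fun h => absurd h (hM.pos s 1).ne', fun h => absurd h (hM.pos s 4).ne'⟩
      ⟨fun h => absurd h (hM.pos s 2).ne', fun h => absurd h (hM.pos s 5).ne'⟩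
      (fun h => (hM.pos s 1).ne' h.1) (fun h => (hM.pos s 0).ne' h.1)
      (fun _ _ => cross_T hM a0 h0 s) (β s) (hY.be s)
  have hqp : ∀ s i, 0 < cv (β s) (a s) i := by
    intro s i
    have p0 := hM.pos s 0
    have p1 := hM.pos s 1
    have p2 := hM.pos s 2
    have p3 := hM.pos s 3
    have p4 := hM.pos s 4
    have p5 := hM.pos s 5
    generalize β s = c
    cases c <;> fin_cases i
    · exact p0
    · show 0 < a s 2 + a s 5
      linarith
    · exact p3
    · exact p0
    · show 0 < a s 1 + a s 4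
      linarith
    · exact p3
  refine ⟨⟨?_, hY.ctr, ?_, hY.inj, ?_⟩, ?_, ?_⟩
  · intro s; rw [hY.al]; exact (hreg s).1
  · intro j
    obtain ⟨δ, hδ, hE⟩ := hY.E1 j
    have hsum : ∀ k, n1 (δ k) + n2 (δ k) = 0 := hδ.1
    -- the modified vector
    have hδ' : TS k m D (fun s => ac (β s) (cv (β s) (δ s))) 0 := by
      refine TS_cor δ _ 0 (fun b => ac_cor (β b) (δ b) (hsum b)) (fun b => ?_) hδ
      rw [hsum b, (ac_n (β b) (cv (β b) (δ b))).1, (ac_n (β b) (cv (β b) (δ b))).2, add_zero]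
    have hc := crit_T hM a0 h0 _ hδ'
    have hdn : ∀ b i, dn (toR (fun s => ac (β s) (cv (β s) (δ s))) b) i = 0 := by
      intro b i
      have e1 : n1 (toR (fun s => ac (β s) (cv (β s) (δ s))) b) = 0 := by
        have h1 := (n_cast (ac (β b) (cv (β b) (δ b)))).1
        rw [(ac_n (β b) (cv (β b) (δ b))).1, Int.cast_zero] at h1
        exact h1
      have e2 : n2 (toR (fun s => ac (β s) (cv (β s) (δ s))) b) = 0 := by
        have h1 := (n_cast (ac (β b) (cv (β b) (δ b)))).2
        rw [(ac_n (β b) (cv (β b) (δ b))).2, Int.cast_zero] at h1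
        exact h1
      unfold dn
      split
      · exact e2
      · exact e1
    simp only [hdn, mul_zero, add_zero] at hc
    have hterm : ∀ s, ∑ i, ml (Y.α s) i * (Y.E j s i : ℝ) =
        -(∑ i, Real.log (Real.tan (Real.pi * a s i)) * ((ac (β s) (cv (β s) (δ s)) i : ℤ) : ℝ)) := by
      intro s
      rw [hY.al, hE, Fin.sum_univ_three]
      have hp : ∀ i, bf (β s) (a s) i ≠ 0 := by
        intro i
        generalize β s = c
        cases c
        · fin_cases i
          · exact (hM.pos s 0).ne'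
          · exact (hM.pos s 2).ne'
          · exact (hM.pos s 1).ne'
          · exact (hM.pos s 3).ne'
          · exact (hM.pos s 5).ne'
          · exact (hM.pos s 4).ne'
        · exact (hM.pos s i).ne'
      rw [ml_log (hreg s).1 _ _ _ (fun h => absurd h (hp 0)) (fun h => absurd h (hp 1))
        (fun h => absurd h (hp 3))]
      rw [← Pool.Agent.Q206.HT.sum_bf (β s) (fun t => Real.log (Real.tan (Real.pi * t)))]
      congr 1
      apply Finset.sum_congr rfl
      intro i _
      congr 1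
      unfold ac bf
      cases β s
      · fin_cases i <;> simp
      · fin_cases i <;> simp
    rw [Finset.sum_congr rfl (fun s _ => hterm s), Finset.sum_neg_distrib, hc, neg_zero]
  · intro s i hi
    rw [hY.al, qc_bf] at hi
    exact absurd hi (hqp s i).ne'
  · intro s; rw [hY.al]; exact (hreg s).2
  · unfold fV
    apply Finset.sum_congr rfl
    intro s _
    rw [hY.al]
    unfold v0
    have := Pool.Agent.Q206.HT.sum_bf (β s) hh (a s) (fun _ => 1)
    have e : ∀ i, bf (β s) (fun _ => (1 : ℝ)) i = 1 := by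
      intro i; unfold bf
      cases β s
      · fin_cases i <;> simp
      · simp
    simp only [e, mul_one] at this
    exact this.symm

end ok

end Pool.Agent.H760.TX
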