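import Pool.Agent.H760.TX.Net1
import Pool.Agent.H760.MX.Fin

/-!
# Mixed augmentation in the thickened torus: the variables of the network

Adapted from `Q99/HU/Q166/NT.lean` and `Q99/HU/Q166/NDi.lean`.
-/

set_option autoImplicit false

namespace Pool.Agent.H760.TX

open Finset Filter Topology MeasureTheory
open Pool.Agent.Q99.FAL (Pc Ty fV n1 n2 cor dn Net up wd stp cls toR eij zz nV)
open Pool.Agent.Q99.HT Pool.Agent.Q99.HU
open Pool.Agent.Q99.HU.Q166 (cv_add cv_smul cv_map n1_sx n2_sx sx_sy sy Vu Vu_one Vu_zero cor_of_cv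
  bf_bf cv_eq cv_bf n1_bf n2_bf)
open Pool.Agent.H760.TT (Vx TS LT XT AT mem_LT span_LT LR_TS Ang_eq good_T TS_add TS_sub TS_map
  TS_cor TS_castR TS_smulR TS_zero Cell Val gS gK gS_eq gK_eq evx evx_apply Gof Gof_cor Kf lw)

variable {D : List Vx} {k m d : ℕ}

/-! ### linear functionals -/

section ev
variable {R : Type} [CommRing R] {c : ℕ}

/-- the value of a functional with integral coefficients -/
def ev (w : Fin c → Fin 6 → ℤ) (x : Fin c → Fin 6 → R) : R := ∑ b, ∑ i, (w b i : R) * x b i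

lemma ev_evx (w : Fin c → Fin 6 → ℤ) (x : Fin c → Fin 6 → R) : ev w x = evx x w := by
  rw [evx_apply]
  unfold ev
  simp only [zsmul_eq_mul]

lemma ev_add (w : Fin c → Fin 6 → ℤ) (x y : Fin c → Fin 6 → R) :
    ev w (x + y) = ev w x + ev w y := by
  unfold ev
  simp only [Pi.add_apply, mul_add, Finset.sum_add_distrib]

lemma ev_sub (w : Fin c → Fin 6 → ℤ) (x y : Fin c → Fin 6 → R) :
    ev w (x - y) = ev w x - ev w y := by
  unfold ev
  simp only [Pi.sub_apply, mul_sub, Finset.sum_sub_distrib]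

lemma ev_smul (w : Fin c → Fin 6 → ℤ) (r : R) (x : Fin c → Fin 6 → R) :
    ev w (r • x) = r * ev w x := by
  unfold ev
  simp only [Pi.smul_apply, smul_eq_mul, Finset.mul_sum]
  refine Finset.sum_congr rfl fun b _ => Finset.sum_congr rfl fun i _ => ?_
  ring

lemma ev_sum {ι : Type} (w : Fin c → Fin 6 → ℤ) (S : Finset ι) (T : ι → R)
    (x : ι → Fin c → Fin 6 → R) : ev w (∑ j ∈ S, T j • x j) = ∑ j ∈ S, T j * ev w (x j) := by
  classical
  induction S using Finset.induction_on with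
  | empty =>
    unfold ev
    simp
  | insert j S hj ih => rw [Finset.sum_insert hj, Finset.sum_insert hj, ev_add, ev_smul, ih]

lemma ev_map {R' : Type} [CommRing R'] (f : R →+* R') (w : Fin c → Fin 6 → ℤ)
    (x : Fin c → Fin 6 → R) : ev w (fun b i => f (x b i)) = f (ev w x) := by
  unfold ev
  simp only [map_sum, map_mul, map_intCast]

lemma ev_im (w : Fin c → Fin 6 → ℤ) (x : Fin c → Fin 6 → ℂ) :
    ev w (fun b i => (x b i).im) = (ev w x).im := by
  unfold ev
  rw [Complex.im_sum]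
  refine Finset.sum_congr rfl fun b _ => ?_
  rw [Complex.im_sum]
  refine Finset.sum_congr rfl fun i _ => ?_
  rw [Complex.mul_im, Complex.intCast_re, Complex.intCast_im, zero_mul, add_zero]

end ev

/-- a functional which depends only on the corners -/
def CoF (w : Fin D.length → Fin 6 → ℤ) : Prop := ∀ {R : Type} [CommRing R]
  (x x' : Fin D.length → Fin 6 → R), (∀ b, cor (x b) = cor (x' b)) → ev w x = ev w x'

lemma CoF_gS (k m : ℕ) (D : List Vx) : CoF (gS k m D) := by
  intro R _ x x' h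
  rw [ev_evx, ev_evx, ← gS_eq, ← gS_eq, Gof_cor x x' h]

lemma CoF_gK (k m : ℕ) (D : List Vx) : CoF (gK k m D) := by
  intro R _ x x' h
  rw [ev_evx, ev_evx, ← gK_eq, ← gK_eq, Gof_cor x x' h]
  unfold Kf
  rw [(Pool.Agent.H760.TT.fin_cor D x x' (0, Gof k m D x') h).1]

section par
variable {a : Fin D.length → Fin 6 → ℝ} {β : Fin D.length → Bool} {Y : Nw D.length d}

lemma cv_sum' {R : Type} [CommRing R] {ι : Type} (S : Finset ι) (b : Bool) (T : ι → R)
    (x : ι → Fin 6 → R) (i : Fin 3) :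
    cv b (∑ j ∈ S, T j • x j) i = ∑ j ∈ S, T j * cv b (x j) i := by
  classical
  induction S using Finset.induction_on with
  | empty =>
    rw [Finset.sum_empty, Finset.sum_empty]
    have := cv_smul b (0 : R) (0 : Fin 6 → R) i
    rw [zero_smul, zero_mul] at this
    exact this
  | insert j S hj ih => rw [Finset.sum_insert hj, Finset.sum_insert hj, cv_add, cv_smul, ih]

lemma cv_int {R : Type} [CommRing R] (b : Bool) (x : Fin 6 → ℤ) (i : Fin 3) :
    cv b (fun k => ((x k : ℤ) : R)) i = ((cv b x i : ℤ) : R) :=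
  cv_map (Int.castAddHom R) b x i

lemma TS_castG {R : Type} [CommRing R] (x : Fin D.length → Fin 6 → ℤ) (u : ℤ)
    (h : TS k m D x u) : TS k m D (fun b i => ((x b i : ℤ) : R)) (u : R) :=
  TS_map (Int.castAddHom R) k x u h

lemma TS_smulG {R : Type} [CommRing R] (x : Fin D.length → Fin 6 → R) (u r : R)
    (h : TS k m D x u) : TS k m D (r • x) (r * u) := TS_map (AddMonoidHom.mulLeft r) k x u h

lemma TS_sumG {R : Type} [CommRing R] {ι : Type} (S : Finset ι) (x : ι → Fin D.length → Fin 6 → R)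
    (h : ∀ j ∈ S, TS k m D (x j) 0) : TS k m D (∑ j ∈ S, x j) 0 := by
  classical
  induction S using Finset.induction_on with
  | empty =>
    rw [Finset.sum_empty]
    exact TS_zero (R := R) (D := D) (m := m) k
  | insert j S hj ih =>
    rw [Finset.sum_insert hj]
    have h1 := h j (Finset.mem_insert_self _ _)
    have h2 := ih fun i hi => h i (Finset.mem_insert_of_mem hi)
    have := TS_add k _ _ _ _ h1 h2
    rw [add_zero] at this
    exact this

/-- the lattice point with real coordinates -/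
def x0 {R : Type} [CommRing R] (a0 : Fin D.length → Fin 6 → ℤ) (δ : Fin d → Fin D.length → Fin 6 → ℤ)
    (u : R) (T : Fin d → R) : Fin D.length → Fin 6 → R :=
  u • (fun s i => ((a0 s i : ℤ) : R)) + ∑ j, T j • (fun s i => ((δ j s i : ℤ) : R))

lemma x0_TS {R : Type} [CommRing R] {a0 : Fin D.length → Fin 6 → ℤ}
    {δ : Fin d → Fin D.length → Fin 6 → ℤ} (h0 : TS k m D a0 1) (hδ : ∀ j, TS k m D (δ j) 0)
    (u : R) (T : Fin d → R) : TS k m D (x0 a0 δ u T) u := by
  have h1 := TS_smulG _ _ u (TS_castG (R := R) a0 1 h0)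
  rw [Int.cast_one, mul_one] at h1
  have h2 : TS k m D (∑ j, T j • (fun s i => ((δ j s i : ℤ) : R))) 0 := by
    apply TS_sumG
    intro j _
    have := TS_smulG _ _ (T j) (TS_castG (R := R) (δ j) 0 (hδ j))
    rwa [Int.cast_zero, mul_zero] at this
  have := TS_add k _ _ _ _ h1 h2
  rw [add_zero] at this
  exact this

lemma x0_cv {R : Type} [CommRing R] {a0 : Fin D.length → Fin 6 → ℤ}
    {δ : Fin d → Fin D.length → Fin 6 → ℤ} (hq : ∀ s, Y.q0 s = cv (β s) (a0 s))
    (hE : ∀ j s, Y.E j s = cv (β s) (δ j s)) (u : R) (T : Fin d → R) (s : Fin D.length)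
    (i : Fin 3) : cv (β s) (x0 a0 δ u T s) i = u * (Y.q0 s i : R) + ∑ j, T j * (Y.E j s i : R) := by
  have e : x0 a0 δ u T s = u • (fun k => ((a0 s k : ℤ) : R)) +
      ∑ j, T j • (fun k => ((δ j s k : ℤ) : R)) := by
    funext k
    simp only [x0, Pi.add_apply, Pi.smul_apply, Finset.sum_apply, smul_eq_mul]
  rw [e, cv_add, cv_smul, cv_sum', cv_int, hq s]
  congr 1
  refine Finset.sum_congr rfl fun j _ => ?_
  rw [cv_int, hE j s]

lemma x0_ev {R : Type} [CommRing R] (w : Fin D.length → Fin 6 → ℤ)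
    (a0 : Fin D.length → Fin 6 → ℤ) (δ : Fin d → Fin D.length → Fin 6 → ℤ) (u : R) (T : Fin d → R) :
    ev w (x0 a0 δ u T) = u * ((ev w a0 : ℤ) : R) + ∑ j, T j * ((ev w (δ j) : ℤ) : R) := by
  have h : ∀ x : Fin D.length → Fin 6 → ℤ, ev w (fun s i => ((x s i : ℤ) : R)) =
      ((ev w x : ℤ) : R) := fun x => ev_map (Int.castRingHom R) w x
  unfold x0
  rw [ev_add, ev_smul, ev_sum, h]
  simp only [h]

/-- a vector with given corners has the corners of a point of the lattice -/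
lemma x0_cor {R : Type} [CommRing R] {a0 : Fin D.length → Fin 6 → ℤ}
    {δ : Fin d → Fin D.length → Fin 6 → ℤ} (h0 : TS k m D a0 1) (hδ : ∀ j, TS k m D (δ j) 0)
    (hq : ∀ s, Y.q0 s = cv (β s) (a0 s)) (hE : ∀ j s, Y.E j s = cv (β s) (δ j s)) (u : R)
    (T : Fin d → R) (x : Fin D.length → Fin 6 → R) (hn : ∀ s, n1 (x s) + n2 (x s) = u)
    (hc : ∀ s i, cv (β s) (x s) i = u * (Y.q0 s i : R) + ∑ j, T j * (Y.E j s i : R))
    (s : Fin D.length) : cor (x s) = cor (x0 a0 δ u T s) := by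
  apply cor_of_cv (β s)
  · funext i
    rw [hc s i, x0_cv hq hE]
  · rw [hn s, (x0_TS h0 hδ u T).1 s]

/-- the values of a functional -/
theorem ev_net (hY : NetT k m D a β Y) (ha : TS k m D a 1) {w : Fin D.length → Fin 6 → ℤ}
    (hw : CoF w) : ∃ f : Fin d → ℝ,
    (∀ (u : ℂ) (T : Fin d → ℂ) (x : Fin D.length → Fin 6 → ℂ), (∀ s, n1 (x s) + n2 (x s) = u) →
      (∀ s i, cv (β s) (x s) i = u * (Y.q0 s i : ℂ) + ∑ j, T j * (Y.E j s i : ℂ)) →
      ev w x = u * ((ev w a : ℝ) : ℂ) + ∑ j, (T j - u * (Y.τ j : ℂ)) * (f j : ℂ)) ∧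
    (∀ (u : ℝ) (T : Fin d → ℝ) (x : Fin D.length → Fin 6 → ℝ), (∀ s, n1 (x s) + n2 (x s) = u) →
      (∀ s i, cv (β s) (x s) i = u * (Y.q0 s i : ℝ) + ∑ j, T j * (Y.E j s i : ℝ)) →
      ev w x = u * ev w a + ∑ j, (T j - u * Y.τ j) * f j) := by
  obtain ⟨a0, h0, hq⟩ := hY.q0
  choose δ hδ hE using hY.E1
  have hcA : ∀ s i, cv (β s) (a s) i = 1 * (Y.q0 s i : ℝ) + ∑ j, Y.τ j * (Y.E j s i : ℝ) := by
    intro s i
    have h1 := hY.ctr s i
    rw [hY.al s, Pool.Agent.Q206.HT.qc_bf] at h1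
    rw [h1, one_mul]
  have hA : ev w a = 1 * ((ev w a0 : ℤ) : ℝ) + ∑ j, Y.τ j * ((ev w (δ j) : ℤ) : ℝ) := by
    rw [← x0_ev]
    exact hw _ _ (x0_cor h0 hδ hq hE 1 Y.τ a ha.1 hcA)
  refine ⟨fun j => ((ev w (δ j) : ℤ) : ℝ), fun u T x hn hc => ?_, fun u T x hn hc => ?_⟩
  · rw [hw _ _ (x0_cor h0 hδ hq hE u T x hn hc), x0_ev, hA]
    push_cast
    simp only [sub_mul, Finset.sum_sub_distrib, mul_assoc]
    rw [← Finset.mul_sum]
    ring
  · rw [hw _ _ (x0_cor h0 hδ hq hE u T x hn hc), x0_ev, hA]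
    simp only [sub_mul, Finset.sum_sub_distrib, mul_assoc]
    rw [← Finset.mul_sum]
    ring

/-! ### solutions -/

/-- real homogeneous solutions -/
lemma span_cvT (hY : NetT k m D a β Y) (y : Fin D.length → Fin 6 → ℝ) (hy : TS k m D y 0) :
    ∃ t : Fin d → ℝ, ∀ s i, cv (β s) (y s) i = ∑ j, t j * (Y.E j s i : ℝ) := by
  have hs := span_LT y hy
  clear hy
  induction hs using Submodule.span_induction with
  | mem x hx =>
    obtain ⟨δ, hδ, rfl⟩ := hx
    obtain ⟨t, ht, _⟩ := hY.E2 δ hδ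
    refine ⟨fun j => (t j : ℝ), fun s i => ?_⟩
    have e : toR δ s = fun k => (Int.castAddHom ℝ) (δ s k) := rfl
    rw [e, cv_map, ht s i]
    simp
  | zero =>
    refine ⟨fun _ => 0, fun s i => ?_⟩
    have := cv_smul (β s) (0 : ℝ) (0 : Fin 6 → ℝ) i
    rw [zero_smul, zero_mul] at this
    simpa using this
  | add x y _ _ hx hy =>
    obtain ⟨t, ht⟩ := hx
    obtain ⟨t', ht'⟩ := hy
    refine ⟨fun j => t j + t' j, fun s i => ?_⟩
    rw [Pi.add_apply, cv_add, ht s i, ht' s i, ← Finset.sum_add_distrib]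
    apply Finset.sum_congr rfl
    intro j _
    ring
  | smul r x _ hx =>
    obtain ⟨t, ht⟩ := hx
    refine ⟨fun j => r * t j, fun s i => ?_⟩
    rw [Pi.smul_apply, cv_smul, ht s i, Finset.mul_sum]
    apply Finset.sum_congr rfl
    intro j _
    ring

/-- **complex solutions and the variables of the network.** -/
theorem TS_par (hY : NetT k m D a β Y) (u : ℂ) (x : Fin D.length → Fin 6 → ℂ) :
    TS k m D x u ↔ ∃ (T : Fin d → ℂ) (J ζ : Fin D.length → ℂ),
      x = fun s => sx (β s) (u / 2) (Vu Y u T J s) (ζ s) := by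
  classical
  obtain ⟨a0, h0, hq⟩ := hY.q0
  choose δ hδ hE using hY.E1
  constructor
  · intro hs
    -- the homogeneous solution
    have hA := TS_castG (R := ℂ) a0 1 h0
    set z : Fin D.length → Fin 6 → ℂ := fun b i => x b i + ((-u) • (fun s i => (a0 s i : ℂ))) b i
      with hz
    have hz1 : TS k m D z 0 := by
      have h1 := TS_smulG _ _ (-u) hA
      rw [Int.cast_one, mul_one] at h1
      have := TS_add k _ _ _ _ hs h1
      rw [add_neg_cancel] at this
      exact this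
    have hre' : TS k m D (fun b i => (z b i).re) 0 := by
      have := TS_map Complex.reAddGroupHom k z 0 hz1
      simpa using this
    have him' : TS k m D (fun b i => (z b i).im) 0 := by
      have := TS_map Complex.imAddGroupHom k z 0 hz1
      simpa using this
    obtain ⟨t, ht⟩ := span_cvT hY _ hre'
    obtain ⟨t', ht'⟩ := span_cvT hY _ him'
    have hcz : ∀ s i, cv (β s) (z s) i = ∑ j, ((t j : ℂ) + t' j * Complex.I) * (Y.E j s i : ℂ) := by
      intro s i
      have e1 := cv_map Complex.reAddGroupHom (β s) (z s) i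
      have e2 := cv_map Complex.imAddGroupHom (β s) (z s) i
      have e1' : (cv (β s) (z s) i).re = ∑ j, t j * (Y.E j s i : ℝ) := by
        rw [← ht s i]; exact e1.symm
      have e2' : (cv (β s) (z s) i).im = ∑ j, t' j * (Y.E j s i : ℝ) := by
        rw [← ht' s i]; exact e2.symm
      rw [← Complex.re_add_im (cv (β s) (z s) i), e1', e2']
      push_cast
      rw [Finset.sum_mul, ← Finset.sum_add_distrib]
      apply Finset.sum_congr rfl
      intro j _
      ring
    have hcx : ∀ s i, cv (β s) (x s) i = u * Y.q0 s i +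
        ∑ j, ((t j : ℂ) + t' j * Complex.I) * (Y.E j s i : ℂ) := by
      intro s i
      have e : x s = z s + u • (fun k => (a0 s k : ℂ)) := by
        funext k
        show x s k = (x s k + (-u) * (a0 s k : ℂ)) + u * (a0 s k : ℂ)
        ring
      rw [e, cv_add, cv_smul, hcz, cv_int, hq s]
      ring
    refine ⟨fun j => (t j : ℂ) + t' j * Complex.I, fun s => bf (β s) (x s) 1,
      fun s => n1 (x s) - n2 (x s), ?_⟩
    · funext s
      have hn : n1 (x s) + n2 (x s) = u := hs.1 s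
      have hn' : n1 (bf (β s) (x s)) + n2 (bf (β s) (x s)) = u := by rw [n1_bf, n2_bf, hn]
      have hc := hcx s
      rw [cv_eq] at hc
      have c0 : bf (β s) (x s) 0 = _ := hc 0
      have c1 : bf (β s) (x s) 1 + bf (β s) (x s) 4 = _ := hc 1
      have c2 : bf (β s) (x s) 3 = _ := hc 2
      have hz' : n1 (x s) - n2 (x s) = n1 (bf (β s) (x s)) - n2 (bf (β s) (x s)) := by
        rw [n1_bf, n2_bf]
      have main : bf (β s) (x s) = sy (u / 2) (Vu Y u (fun j => (t j : ℂ) + t' j * Complex.I)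
          (fun s => bf (β s) (x s) 1) s) (n1 (x s) - n2 (x s)) := ?_
      · calc x s = bf (β s) (bf (β s) (x s)) := (bf_bf _ _).symm
          _ = _ := congrArg (bf (β s)) main
      rw [hz']
      have hn1 : n1 (bf (β s) (x s)) =
        bf (β s) (x s) 0 + bf (β s) (x s) 1 + bf (β s) (x s) 2 := rfl
      have hn2 : n2 (bf (β s) (x s)) =
        bf (β s) (x s) 3 + bf (β s) (x s) 4 + bf (β s) (x s) 5 := rfl
      have gen : ∀ J' : Fin D.length → ℂ, J' s = bf (β s) (x s) 1 → bf (β s) (x s) =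
          sy (u / 2) (Vu Y u (fun j => (t j : ℂ) + t' j * Complex.I) J' s)
          (n1 (bf (β s) (x s)) - n2 (bf (β s) (x s))) := ?_
      · exact gen _ rfl
      intro J' hJ'
      generalize bf (β s) (x s) = y at *
      funext k
      fin_cases k
      · exact c0
      · exact hJ'.symm
      · show y 2 = u / 2 + (n1 y - n2 y) / 2 -
          (u * Y.q0 s 0 + ∑ j, ((t j : ℂ) + t' j * Complex.I) * (Y.E j s 0 : ℂ)) - J' s
        rw [← c0, hJ']
        linear_combination (1 / 2) * hn' - hn1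
      · exact c2
      · show y 4 = (u * Y.q0 s 1 + ∑ j, ((t j : ℂ) + t' j * Complex.I) * (Y.E j s 1 : ℂ)) - J' s
        rw [← c1, hJ']
        ring
      · show y 5 = u / 2 - (n1 y - n2 y) / 2 -
          (u * Y.q0 s 2 + ∑ j, ((t j : ℂ) + t' j * Complex.I) * (Y.E j s 2 : ℂ)) -
          ((u * Y.q0 s 1 + ∑ j, ((t j : ℂ) + t' j * Complex.I) * (Y.E j s 1 : ℂ)) - J' s)
        rw [← c1, ← c2, hJ']
        linear_combination (1 / 2) * hn' - hn2
  · rintro ⟨T, J, ζ, rfl⟩
    have hn : ∀ s, n1 (sx (β s) (u / 2) (Vu Y u T J s) (ζ s)) +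
        n2 (sx (β s) (u / 2) (Vu Y u T J s) (ζ s)) = u := by
      intro s
      rw [n1_sx, n2_sx]
      ring
    have hc : ∀ s i, cv (β s) (sx (β s) (u / 2) (Vu Y u T J s) (ζ s)) i =
        u * (Y.q0 s i : ℂ) + ∑ j, T j * (Y.E j s i : ℂ) := by
      intro s i
      rw [sx_sy, cv_bf]
      fin_cases i
      · rfl
      · show Vu Y u T J s 3 + (Vu Y u T J s 1 - Vu Y u T J s 3) = _
        rw [add_sub_cancel]
        rfl
      · rfl
    refine TS_cor (x0 a0 δ u T) _ u (fun b => ?_) (fun b => ?_) (x0_TS h0 hδ u T)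
    · exact (x0_cor h0 hδ hq hE u T _ hn hc b).symm
    · rw [hn b, (x0_TS h0 hδ u T).1 b]

/-- the corners of a solution -/
lemma cv_sx (u : ℂ) (T : Fin d → ℂ) (J ζ : Fin D.length → ℂ) (s : Fin D.length) (i : Fin 3) :
    cv (β s) (sx (β s) (u / 2) (Vu Y u T J s) (ζ s)) i =
        u * (Y.q0 s i : ℂ) + ∑ j, T j * (Y.E j s i : ℂ) := by
  rw [sx_sy, cv_bf]
  fin_cases i
  · rfl
  · show Vu Y u T J s 3 + (Vu Y u T J s 1 - Vu Y u T J s 3) = _
    rw [add_sub_cancel]
    rfl
  · rfl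

lemma n_sx (u : ℂ) (T : Fin d → ℂ) (J ζ : Fin D.length → ℂ) (s : Fin D.length) :
    n1 (sx (β s) (u / 2) (Vu Y u T J s) (ζ s)) + n2 (sx (β s) (u / 2) (Vu Y u T J s) (ζ s)) = u := by
  rw [n1_sx, n2_sx]
  ring

end par

end Pool.Agent.H760.TX
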