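import Pool.Agent.H760.TX.Net2
import Pool.Agent.H760.MX.Far

/-!
# Mixed augmentation in the thickened torus: the far terms

Adapted from `MX/Far.lean`.
-/

set_option autoImplicit false

namespace Pool.Agent.H760.TX

open Finset Filter Topology MeasureTheory
open Pool.Agent.W719.BS (LL LL_cont)
open Pool.Agent.Q99.FAL (n1 n2 cor dn toR fV)
open Pool.Agent.Q99.HT
open Pool.Agent.Q99.HU
open Pool.Agent.Q151.HU (cor_of_cvR pt_cont cv_bf qc_bf cv_contR cv_smulR cv_castR lam lam_bound)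
open Pool.Agent.H760.TT (Vx TS LT XT AT mem_LT span_LT LR_TS TS_add TS_sub TS_map
  TS_cor TS_castR TS_smulR TS_zero)
open Pool.Agent.H760.MX

variable {D : List Vx} {k m d : ℕ}

/-- **the geometric angles are the only maximum of the potential on the polytope of the nonnegative
solutions with the condition `Nbd` at the circled vertices** -/
def Dmt (k m : ℕ) (D : List Vx) (cc : Fin D.length → Bool) (a : Fin D.length → Fin 6 → ℝ) : Prop :=
  ∀ x : Fin D.length → Fin 6 → ℝ, (∀ s i, 0 ≤ x s i) → (∀ s, Nbd (cc s) (x s)) →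
    TS k m D x 1 → x ≠ a → ∑ s, pt (x s) < fV a

theorem TS_closed {a : Fin D.length → Fin 6 → ℝ} (ha : TS k m D a 1) :
    IsClosed {x : Fin D.length → Fin 6 → ℝ | TS k m D x 1} := by
  have h1 : IsClosed (((XT k m D (fun _ _ => 0)).LR : Submodule ℝ (Fin D.length → Fin 6 → ℝ)) :
      Set (Fin D.length → Fin 6 → ℝ)) := Submodule.closed_of_finiteDimensional _
  have h2 : {x : Fin D.length → Fin 6 → ℝ | TS k m D x 1} =
      (fun x => x - a) ⁻¹' (((XT k m D (fun _ _ => 0)).LR :
        Submodule ℝ (Fin D.length → Fin 6 → ℝ)) : Set (Fin D.length → Fin 6 → ℝ)) := by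
    ext x
    show TS k m D x 1 ↔ (x - a) ∈ (XT k m D (fun _ _ => 0)).LR
    rw [LR_TS]
    constructor
    · intro hx
      have h3 := TS_sub k _ _ _ _ hx ha
      rw [sub_self] at h3
      exact h3
    · intro hx
      have h3 := TS_add k _ _ _ _ hx ha
      rw [zero_add] at h3
      have e : (fun (b : Fin D.length) (i : Fin 6) => (x - a) b i + a b i) = x := by
        funext b i
        show x b i - a b i + a b i = x b i
        ring
      rw [e] at h3
      exact h3
  rw [h2]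
  exact h1.preimage (continuous_id.sub continuous_const)

section
open Pool.Agent.Q151.HU (n1_bf n2_bf pt_bf)

/-- the gap on the far part of the polytope -/
theorem gapT {cc : Fin D.length → Bool} {a : Fin D.length → Fin 6 → ℝ}
    (ha : TS k m D a 1) (hDm : Dmt k m D cc a)
    (β : Fin D.length → Bool) (δ' : ℝ) (hδ' : 0 < δ') : ∃ c3 : ℝ, 0 < c3 ∧
    ∀ x : Fin D.length → Fin 6 → ℝ, (∀ s i, 0 ≤ x s i) → (∀ s, Nbd (cc s) (x s)) →
      TS k m D x 1 → (∃ s i, δ' ≤ |cv (β s) (x s) i - cv (β s) (a s) i|) → ∑ s, pt (x s) ≤ fV a - c3 := by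
  obtain ⟨K, hK⟩ : ∃ K : Set (Fin D.length → Fin 6 → ℝ), K = {x | (∀ s i, 0 ≤ x s i) ∧
    (∀ s, Nbd (cc s) (x s)) ∧ TS k m D x 1 ∧ ∃ s i, δ' ≤ |cv (β s) (x s) i - cv (β s) (a s) i|} := ⟨_, rfl⟩
  have hKc : IsCompact K := by
    have h1 : IsClosed K := by
      have e : K = ((⋂ s, ⋂ i, {x : Fin D.length → Fin 6 → ℝ | 0 ≤ x s i}) ∩
        ((⋂ s, {x : Fin D.length → Fin 6 → ℝ | Nbd (cc s) (x s)}) ∩
        {x | TS k m D x 1})) ∩ ⋃ s, ⋃ i, {x : Fin D.length → Fin 6 → ℝ |
          δ' ≤ |cv (β s) (x s) i - cv (β s) (a s) i|} := by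
        rw [hK]
        ext x
        simp only [Set.mem_ofPred_eq, Set.mem_inter_iff, Set.mem_iInter, Set.mem_iUnion]
        tauto
      rw [e]
      refine IsClosed.inter (IsClosed.inter ?_ (IsClosed.inter ?_ (TS_closed ha))) ?_
      · refine isClosed_iInter fun s => isClosed_iInter fun i => ?_
        exact isClosed_le continuous_const
          ((continuous_apply i).comp (continuous_apply s))
      · refine isClosed_iInter fun s => ?_
        exact (Nbd_closed (cc s)).preimage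
          (continuous_apply s : Continuous fun x : Fin D.length → Fin 6 → ℝ => x s)
      · refine isClosed_iUnion_of_finite fun s => isClosed_iUnion_of_finite fun i => ?_
        refine isClosed_le continuous_const ?_
        exact (((cv_contR (β s) i).comp (continuous_apply s)).sub continuous_const).abs
    have h2 : K ⊆ Set.Icc (0 : Fin D.length → Fin 6 → ℝ) 1 := by
      intro x hx
      rw [hK] at hx
      obtain ⟨hx0, _, hx1, _⟩ := hx
      have hs := hx1.1
      constructor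
      · intro s i
        exact hx0 s i
      · intro s i
        have h3 := hs s
        have h3' : x s 0 + x s 1 + x s 2 + (x s 3 + x s 4 + x s 5) = 1 := h3
        have g0 := hx0 s 0
        have g1 := hx0 s 1
        have g2 := hx0 s 2
        have g3 := hx0 s 3
        have g4 := hx0 s 4
        have g5 := hx0 s 5
        fin_cases i
        · show x s 0 ≤ 1
          linarith
        · show x s 1 ≤ 1
          linarith
        · show x s 2 ≤ 1
          linarith
        · show x s 3 ≤ 1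
          linarith
        · show x s 4 ≤ 1
          linarith
        · show x s 5 ≤ 1
          linarith
    exact isCompact_Icc.of_isClosed_subset h1 h2
  rcases K.eq_empty_or_nonempty with hKe | hKn
  · refine ⟨1, one_pos, fun x h1 h2 h3 h4 => ?_⟩
    have : x ∈ K := by rw [hK]; exact ⟨h1, h2, h3, h4⟩
    rw [hKe] at this
    exact absurd this (Set.notMem_empty x)
  · have hcont : Continuous (fun x : Fin D.length → Fin 6 → ℝ => ∑ s, pt (x s)) :=
      continuous_finsetSum _ fun s _ => pt_cont.comp (continuous_apply s)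
    obtain ⟨x, hx, hmax⟩ := hKc.exists_isMaxOn hKn hcont.continuousOn
    have hxa : x ≠ a := by
      rintro rfl
      rw [hK] at hx
      obtain ⟨_, _, _, s, i, h⟩ := hx
      rw [sub_self, abs_zero] at h
      linarith
    have hx' := hx
    rw [hK] at hx'
    have h1 := hDm x hx'.1 hx'.2.1 hx'.2.2.1 hxa
    refine ⟨fV a - ∑ s, pt (x s), by linarith, fun y h2 h3 h3' h4 => ?_⟩
    have h5 : y ∈ K := by rw [hK]; exact ⟨h2, h3, h3', h4⟩
    have h6 := hmax h5
    simp only [Set.mem_ofPred_eq] at h6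
    linarith

theorem FARt (cc : Fin D.length → Bool) (a : Fin D.length → Fin 6 → ℝ)
    (hMx : MxT k m D a) (hDm : Dmt k m D cc a) (β : Fin D.length → Bool) (Y : Nw D.length d)
    (hY : NetT k m D a β Y) (hV0 : ∑ s, v0 (Y.α s) = fV a) : Farx Y cc := by
  classical
  intro δ hδ
  have haS : TS k m D a 1 := hMx.mem.1
  obtain ⟨a0, ha0, hq0⟩ := hY.q0
  choose δE hδS hδE using hY.E1
  have hz3 : ∀ (N : ℕ) (t : Fin d → ℤ), TS k m D (x0 a0 δE ((N : ℝ) - 1) fun j => (t j : ℝ))
      ((N : ℝ) - 1) := fun N t => x0_TS ha0 hδS _ _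
  have hqa : ∀ s i, cv (β s) (a s) i = qc (Y.α s) i := by
    intro s i
    rw [hY.al s, qc_bf]
  obtain ⟨Kc, hKc, hlam⟩ := lam_bound Y hY.inj
  obtain ⟨δ', hδ'⟩ : ∃ δ' : ℝ, δ' = δ / (2 * Kc) := ⟨_, rfl⟩
  have hδ'0 : 0 < δ' := by rw [hδ']; positivity
  obtain ⟨c3, hc3, hgap⟩ := gapT haS hDm β δ' hδ'0
  refine ⟨c3, hc3, fun w => ?_⟩
  choose C0 p0 hFw using fun s => Fx_FS (cc s) (w s)
  -- bound of the coordinates
  obtain ⟨M0, hM0⟩ : ∃ M0 : ℝ, M0 = ∑ s, ∑ i, |qc (Y.α s) i| := ⟨_, rfl⟩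
  have hM00 : 0 ≤ M0 := by
    rw [hM0]
    exact Finset.sum_nonneg fun s _ => Finset.sum_nonneg fun i _ => abs_nonneg _
  have hqM : ∀ s i, |qc (Y.α s) i| ≤ M0 := by
    intro s i
    rw [hM0]
    refine le_trans ?_ (Finset.single_le_sum (f := fun s => ∑ i, |qc (Y.α s) i|)
      (fun s _ => Finset.sum_nonneg fun i _ => abs_nonneg _) (Finset.mem_univ s))
    exact Finset.single_le_sum (f := fun i => |qc (Y.α s) i|) (fun i _ => abs_nonneg _)
      (Finset.mem_univ i)
  obtain ⟨T0, hT0⟩ : ∃ T0 : ℝ, T0 = ‖Y.τ‖ + Kc * (1 + M0) := ⟨_, rfl⟩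
  have hT00 : 0 ≤ T0 := by rw [hT0]; positivity
  obtain ⟨N1, hN1⟩ := exists_nat_ge (2 * T0 / δ)
  refine ⟨∏ s, |C0 s|, ∑ s, p0 s, max 2 N1, fun N hN t ht => ?_⟩
  have hN2 : 2 ≤ N := le_trans (le_max_left _ _) hN
  have hNN1 : N1 ≤ N := le_trans (le_max_right _ _) hN
  have hNR : (2 : ℝ) ≤ N := by exact_mod_cast hN2
  have hN0 : (0 : ℝ) < N := by linarith
  have hNm : (0 : ℝ) < (N : ℝ) - 1 := by linarith
  have hrhs : 0 ≤ (∏ s, |C0 s|) * (N : ℝ) ^ (∑ s, p0 s) *
      Real.exp (N * (∑ s, v0 (Y.α s) - c3)) := by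
    have : 0 ≤ ∏ s, |C0 s| := Finset.prod_nonneg fun s _ => abs_nonneg _
    positivity
  rcases eq_or_ne (∏ s, F3 N (Fx N (cc s) (w s)) (Y.q N t s)) 0 with hz | hnz
  · rw [hz, norm_zero]
    exact hrhs
  have hne : ∀ s, F3 N (Fx N (cc s) (w s)) (Y.q N t s) ≠ 0 := fun s => Finset.prod_ne_zero_iff.1 hnz s (Finset.mem_univ s)
  have hPs : ∀ s, Ps N (Y.q N t s) := by
    intro s
    by_contra hcon
    refine hne s ?_
    unfold F3
    rw [if_neg hcon]
  have hex : ∀ s, ∃ x : Fin 6 → ℝ, Crn N (Y.q N t s 0).toNat (Y.q N t s 1).toNat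
      (Y.q N t s 2).toNat x ∧ Nbd (cc s) x ∧ ‖F3 N (Fx N (cc s) (w s)) (Y.q N t s)‖ ≤ C0 s * N ^ p0 s * Real.exp (N * pt x) := by
    intro s
    obtain ⟨g0, g1, g2, g3⟩ := hPs s
    have h1 := hFw s N (Y.q N t s 0).toNat (Y.q N t s 1).toNat (Y.q N t s 2).toNat hN2 (by omega)
    have h2 : F3 N (Fx N (cc s) (w s)) (Y.q N t s) = Fx N (cc s) (w s) (Y.q N t s 0).toNat
        (Y.q N t s 1).toNat (Y.q N t s 2).toNat := by
      unfold F3
      rw [if_pos (hPs s)]
    rcases h1 with h1 | ⟨x, hx1, hx3, hx2⟩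
    · exact absurd (h2.trans h1) (hne s)
    · refine ⟨x, hx1, hx3, ?_⟩
      rw [h2]
      exact hx2
  choose x hxC hxN hxF using hex
  -- the point of the polytope
  obtain ⟨z, hz⟩ : ∃ z : Fin D.length → Fin 6 → ℝ, z = fun s => bf (β s) (x s) := ⟨_, rfl⟩
  have hzs : ∀ s, z s = bf (β s) (x s) := fun s => by rw [hz]
  have hz0 : ∀ s i, 0 ≤ z s i := by
    intro s i
    rw [hzs]
    have h := (hxC s).nn
    cases β s
    · fin_cases i
      · exact h 0
      · exact h 2
      · exact h 1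
      · exact h 3
      · exact h 5
      · exact h 4
    · exact h i
  have hzcv : ∀ s i, cv (β s) (z s) i = (Y.q N t s i : ℝ) / (N - 1) := by
    intro s i
    rw [hzs, cv_bf]
    obtain ⟨g0, g1, g2, g3⟩ := hPs s
    have c0 := (hxC s).c0
    have c1 := (hxC s).c1
    have c2 := (hxC s).c2
    have e0 : (((Y.q N t s 0).toNat : ℕ) : ℝ) = ((Y.q N t s 0 : ℤ) : ℝ) := by
      have := Int.toNat_of_nonneg g0
      exact_mod_cast this
    have e1 : (((Y.q N t s 1).toNat : ℕ) : ℝ) = ((Y.q N t s 1 : ℤ) : ℝ) := by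
      have := Int.toNat_of_nonneg g1
      exact_mod_cast this
    have e2 : (((Y.q N t s 2).toNat : ℕ) : ℝ) = ((Y.q N t s 2 : ℤ) : ℝ) := by
      have := Int.toNat_of_nonneg g2
      exact_mod_cast this
    rw [e0] at c0
    rw [e1] at c1
    rw [e2] at c2
    rw [eq_div_iff hNm.ne', mul_comm]
    fin_cases i
    · exact c0
    · exact c1
    · exact c2
  have hzS : TS k m D z 1 := by
    have h1 := TS_smulG _ _ (((N : ℝ) - 1)⁻¹) (hz3 N t)
    rw [inv_mul_cancel₀ hNm.ne'] at h1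
    have hn1' : ∀ s, n1 (z s) + n2 (z s) = 1 := by
      intro s
      rw [hzs, n1_bf, n2_bf, (hxC s).su]
    refine TS_cor _ _ _ (fun s => ?_) (fun s => ?_) h1
    · refine cor_of_cvR (β := β s) (fun i => ?_) ?_
      · rw [hzcv]
        have e3 : (((N : ℝ) - 1)⁻¹ • x0 a0 δE ((N : ℝ) - 1) fun j => (t j : ℝ)) s =
            ((N : ℝ) - 1)⁻¹ • (x0 a0 δE ((N : ℝ) - 1) (fun j => (t j : ℝ)) s) := rfl
        rw [e3, cv_smulR, x0_cv hq0 hδE]
        unfold Nw.q
        push_cast
        ring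
      · rw [h1.1 s, hn1' s]
    · rw [h1.1 s, hn1' s]
  -- the point is far from `a`
  obtain ⟨t', ht'⟩ : ∃ t' : Fin d → ℝ, t' = fun j => (t j : ℝ) / (N - 1) - Y.τ j := ⟨_, rfl⟩
  have hlt : ∀ s i, lam Y t' s i = cv (β s) (z s) i - cv (β s) (a s) i := by
    intro s i
    rw [hzcv, hqa, hY.ctr s i]
    show ∑ j, t' j * Y.E j s i = _
    have e1 : ((Y.q N t s i : ℤ) : ℝ) = ((N : ℝ) - 1) * Y.q0 s i + ∑ j, (t j : ℝ) * Y.E j s i := by
      unfold Nw.q
      push_cast
      rfl
    rw [e1, ht', add_div, mul_div_cancel_left₀ _ hNm.ne', Finset.sum_div]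
    simp only [sub_mul, Finset.sum_sub_distrib]
    have e2 : ∀ j, (t j : ℝ) / (N - 1) * (Y.E j s i : ℝ) = (t j : ℝ) * Y.E j s i / (N - 1) := by
      intro j
      ring
    simp only [e2]
    ring
  have hcvb : ∀ s i, 0 ≤ cv (β s) (z s) i ∧ cv (β s) (z s) i ≤ 1 := by
    intro s i
    obtain ⟨g0, g1, g2, g3⟩ := hPs s
    rw [hzcv, div_le_one hNm]
    have h1 : 0 ≤ Y.q N t s i ∧ Y.q N t s i ≤ (N : ℤ) - 1 := by
      fin_cases i
      · exact ⟨g0, by show Y.q N t s 0 ≤ _; omega⟩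
      · exact ⟨g1, by show Y.q N t s 1 ≤ _; omega⟩
      · exact ⟨g2, by show Y.q N t s 2 ≤ _; omega⟩
    have h2 : (0 : ℝ) ≤ (Y.q N t s i : ℝ) := by exact_mod_cast h1.1
    have h3 : (Y.q N t s i : ℝ) ≤ (N : ℝ) - 1 := by exact_mod_cast h1.2
    exact ⟨by positivity, h3⟩
  have hlb : ‖lam Y t'‖ ≤ 1 + M0 := by
    refine (pi_norm_le_iff_of_nonneg (by linarith)).2 fun s => ?_
    refine (pi_norm_le_iff_of_nonneg (by linarith)).2 fun i => ?_
    rw [Real.norm_eq_abs, hlt, hqa]
    have h1 := hcvb s i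
    have h2 := abs_le.1 (hqM s i)
    rw [abs_le]
    constructor <;> linarith [h1.1, h1.2, h2.1, h2.2]
  obtain ⟨j0, hj0⟩ := ht
  have htj : |(t j0 : ℝ) / (N - 1)| ≤ T0 := by
    have h1 : |t' j0| ≤ Kc * (1 + M0) := by
      have h2 := norm_le_pi_norm t' j0
      rw [Real.norm_eq_abs] at h2
      exact h2.trans ((hlam t').trans (mul_le_mul_of_nonneg_left hlb hKc.le))
    have h3 : |Y.τ j0| ≤ ‖Y.τ‖ := by
      have := norm_le_pi_norm Y.τ j0
      rwa [Real.norm_eq_abs] at this
    have e : (t j0 : ℝ) / (N - 1) = t' j0 + Y.τ j0 := by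
      rw [ht']
      ring
    rw [e, hT0]
    have := abs_add_le (t' j0) (Y.τ j0)
    linarith
  have hdiff : |(t j0 : ℝ) / (N - 1) - (t j0 : ℝ) / N| ≤ δ / 2 := by
    have e : (t j0 : ℝ) / (N - 1) - (t j0 : ℝ) / N = (t j0 : ℝ) / (N - 1) / N := by
      field_simp
      ring
    rw [e, abs_div, abs_of_pos hN0, div_le_iff₀ hN0]
    refine htj.trans ?_
    have h1 : 2 * T0 / δ ≤ N := hN1.trans (by exact_mod_cast hNN1)
    rw [div_le_iff₀ hδ] at h1
    linarith
  have htfar : δ / 2 < |t' j0| := by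
    have e : (t j0 : ℝ) / N - Y.τ j0 = t' j0 - ((t j0 : ℝ) / (N - 1) - (t j0 : ℝ) / N) := by
      rw [ht']
      ring
    rw [e] at hj0
    have := abs_sub (t' j0) ((t j0 : ℝ) / (N - 1) - (t j0 : ℝ) / N)
    linarith
  have hfar : ∃ s i, δ' ≤ |cv (β s) (z s) i - cv (β s) (a s) i| := by
    by_contra hcon
    push Not at hcon
    have h1 : ‖lam Y t'‖ ≤ δ' := by
      refine (pi_norm_le_iff_of_nonneg hδ'0.le).2 fun s => ?_
      refine (pi_norm_le_iff_of_nonneg hδ'0.le).2 fun i => ?_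
      rw [Real.norm_eq_abs, hlt]
      exact (hcon s i).le
    have h2 := hlam t'
    have h3 := norm_le_pi_norm t' j0
    rw [Real.norm_eq_abs] at h3
    have h4 : Kc * ‖lam Y t'‖ ≤ Kc * δ' := mul_le_mul_of_nonneg_left h1 hKc.le
    have h5 : Kc * δ' = δ / 2 := by
      rw [hδ']
      field_simp
    linarith
  have hsum := hgap z hz0 (fun s => by rw [hzs]; exact Nbd_bf (hxN s)) hzS hfar
  have hsum' : ∑ s, pt (x s) ≤ ∑ s, v0 (Y.α s) - c3 := by
    rw [hV0]
    refine le_trans (le_of_eq ?_) hsum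
    refine Finset.sum_congr rfl fun s _ => ?_
    rw [hzs, pt_bf]
  rw [norm_prod]
  calc ∏ s, ‖F3 N (Fx N (cc s) (w s)) (Y.q N t s)‖ ≤ ∏ s, (|C0 s| * N ^ p0 s * Real.exp (N * pt (x s))) := by
        refine Finset.prod_le_prod (fun s _ => norm_nonneg _) fun s _ => ?_
        refine (hxF s).trans ?_
        have h1 := le_abs_self (C0 s)
        have h2 : (0 : ℝ) ≤ N ^ p0 s * Real.exp (N * pt (x s)) := by positivity
        have h3 := mul_le_mul_of_nonneg_right h1 h2
        calc C0 s * N ^ p0 s * Real.exp (N * pt (x s)) =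
            C0 s * (N ^ p0 s * Real.exp (N * pt (x s))) := by ring
          _ ≤ |C0 s| * (N ^ p0 s * Real.exp (N * pt (x s))) := h3
          _ = _ := by ring
    _ = (∏ s, |C0 s|) * (N : ℝ) ^ (∑ s, p0 s) * Real.exp (N * ∑ s, pt (x s)) := by
        rw [Finset.prod_mul_distrib, Finset.prod_mul_distrib, Finset.prod_pow_eq_pow_sum,
          ← Real.exp_sum, ← Finset.mul_sum]
    _ ≤ _ := by
        apply mul_le_mul_of_nonneg_left
        · apply Real.exp_le_exp.2
          exact mul_le_mul_of_nonneg_left hsum' hN0.le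
        · have : 0 ≤ ∏ s, |C0 s| := Finset.prod_nonneg fun s _ => abs_nonneg _
          positivity

end

section
open Pool.Agent.Q239.HU (bf_bf n1_bf n2_bf pt_bf v0_bf pt_half)

/-- **one region which is not circled** -/
theorem NDMt (cc : Fin D.length → Bool) (a : Fin D.length → Fin 6 → ℝ)
    (ha : MxT k m D a) (hDm : Dmt k m D cc a) (β : Fin D.length → Bool) (Y : Nw D.length d)
    (hY : NetT k m D a β Y) (s : Fin D.length) (hs : cc s = false) : NdP (Y.α s) := by
  classical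
  intro x hx hsum h0 h1 h3 hne
  have hph : ∀ s, n1 (a s) = 1 / 2 := fun s => ha.h1 s
  have hn2 : ∀ s, n2 (a s) = 1 / 2 := fun s => ha.h2 s
  have hnn : ∀ s i, 0 ≤ a s i := fun s i => (ha.pos s i).le
  rw [hY.al] at h0 h1 h3 hne ⊢
  set y : Fin D.length → Fin 6 → ℝ := Function.update a s (bf (β s) x) with hy
  have hys : y s = bf (β s) x := Function.update_self _ _ _
  have hyk : ∀ k, k ≠ s → y k = a k := fun k hk => Function.update_of_ne hk _ _
  have hynn : ∀ k i, 0 ≤ y k i := by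
    intro k i
    by_cases hk : k = s
    · subst hk
      rw [hys]
      generalize β k = c
      cases c
      · fin_cases i
        · exact hx 0
        · exact hx 2
        · exact hx 1
        · exact hx 3
        · exact hx 5
        · exact hx 4
      · exact hx i
    · rw [hyk k hk]
      exact hnn k i
  have hcor : ∀ k, cor (a k) = cor (y k) := by
    intro k
    by_cases hk : k = s
    · subst hk
      rw [hys]
      have e1 : a k 0 + a k 1 + a k 2 = 1 / 2 := hph k
      have e2 : a k 3 + a k 4 + a k 5 = 1 / 2 := hn2 k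
      have e3 : x 0 + x 1 + x 2 + (x 3 + x 4 + x 5) = 1 := hsum
      generalize β k = c at h0 h1 h3 ⊢
      cases c
      · have h0' : x 0 = a k 0 := h0
        have h1' : x 1 + x 4 = a k 2 + a k 5 := h1
        have h3' : x 3 = a k 3 := h3
        funext j
        fin_cases j
        · exact h0'.symm
        · show a k 1 + a k 4 = x 2 + x 5
          linarith
        · exact h3'.symm
        · show a k 2 + a k 5 = x 1 + x 4
          linarith
      · have h0' : x 0 = a k 0 := h0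
        have h1' : x 1 + x 4 = a k 1 + a k 4 := h1
        have h3' : x 3 = a k 3 := h3
        funext j
        fin_cases j
        · exact h0'.symm
        · show a k 1 + a k 4 = x 1 + x 4
          linarith
        · exact h3'.symm
        · show a k 2 + a k 5 = x 2 + x 5
          linarith
    · rw [hyk k hk]
  have hyS : TS k m D y 1 := by
    refine TS_cor a y 1 hcor (fun k => ?_) ha.mem.1
    rw [ha.mem.1.1 k]
    by_cases hk : k = s
    · subst hk
      rw [hys, n1_bf, n2_bf]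
      exact hsum.symm
    · rw [hyk k hk]
      exact (ha.mem.1.1 k).symm
  have hya : y ≠ a := by
    intro h
    apply hne
    have h4 : bf (β s) x = a s := by rw [← hys, h]
    rw [← h4, bf_bf]
  have hyN : ∀ k, Nbd (cc k) (y k) := by
    intro k hk
    have hks : k ≠ s := by
      rintro rfl
      rw [hs] at hk
      exact absurd hk (by simp)
    rw [hyk k hks]
    have e1 : a k 0 + a k 1 + a k 2 = 1 / 2 := hph k
    have e2 : a k 3 + a k 4 + a k 5 = 1 / 2 := hn2 k
    have g0 := hnn k 0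
    have g1 := hnn k 1
    have g2 := hnn k 2
    have g3 := hnn k 3
    have g4 := hnn k 4
    have g5 := hnn k 5
    refine ⟨?_, ?_⟩
    · rw [hn2 k]
      linarith
    · rw [hph k]
      linarith
  have h5 := hDm y hynn hyN hyS hya
  have h6 : ∑ k, pt (y k) = pt x + ∑ k ∈ univ.erase s, pt (a k) := by
    rw [← add_sum_erase univ _ (mem_univ s), hys, pt_bf]
    congr 1
    exact sum_congr rfl fun k hk => by rw [hyk k (ne_of_mem_erase hk)]
  have h7 : fV a = v0 (a s) + ∑ k ∈ univ.erase s, pt (a k) := by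
    have h8 : fV a = ∑ k, pt (a k) := by
      unfold fV
      exact sum_congr rfl fun k _ => (pt_half (hph k) (hn2 k)).symm
    rw [h8, ← add_sum_erase univ _ (mem_univ s), pt_half (hph s) (hn2 s)]
  rw [v0_bf]
  rw [h6, h7] at h5
  linarith

end

/-- the bounds of the regions -/
theorem Lt_of (cc : Fin D.length → Bool)
    (a : Fin D.length → Fin 6 → ℝ) (ha : MxT k m D a) (hDm : Dmt k m D cc a)
    (β : Fin D.length → Bool) (Y : Nw D.length d) (hY : NetT k m D a β Y) (s : Fin D.length) :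
    ∃ κ C0 ρ : ℝ, 0 < κ ∧ 0 < ρ ∧ Lx (cc s) (Y.α s) κ C0 ρ := by
  obtain ⟨hOk, hab, hv⟩ := okb_net ha hY
  cases hc : cc s
  · obtain ⟨κ, C0, ρ, g1, g2, g3⟩ := Pool.Agent.Q79.HU.task_BBn Pool.Agent.Q208.HT.task_EV t_PF t_WR
      (t_SB Pool.Agent.Q79.HU.task_TWS) t_TW _ (hOk.fr s) (hab s).1 (hab s).2
      (NDMt cc a ha hDm β Y hY s hc)
    exact ⟨κ, C0, ρ, g1, g2, fun h => absurd h (by simp), fun _ => g3⟩
  · obtain ⟨κ, C0, g1, g2⟩ := Lc_exists (hOk.fr s) (hab s).1 (hab s).2
    exact ⟨κ, C0, 1, g1, one_pos, fun _ => g2, fun h => absurd h (by simp)⟩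

end Pool.Agent.H760.TX
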