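import Pool.Agent.H760.TX.N0
import Pool.Agent.H760.MX.NW
import Pool.Agent.H760.TT.NETQ

/-!
# Mixed augmentation in the thickened torus: the phase of the holonomies

`H : Hol d` are the data of two linear forms `f`, `g` of the variables `T` and of two shifts.
-/

set_option autoImplicit false

namespace Pool.Agent.H760.TX

open Finset Filter Topology MeasureTheory
open Pool.Agent.Q99.HT
open Pool.Agent.Q99.HU
open Pool.Agent.Q191.TW (cs)
open Pool.Agent.H760.MX

/-- two linear forms and two shifts -/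
structure Hol (d : ℕ) where
  f : Fin d → ℝ
  g : Fin d → ℝ
  u : ℝ
  v : ℝ

variable {d : ℕ}

/-- the value of a linear form -/
noncomputable def lf (f : Fin d → ℝ) (T : Fin d → ℂ) : ℂ := ∑ j, T j * f j

/-- the value at `T - τ` -/
noncomputable def lt (f τ : Fin d → ℝ) (T : Fin d → ℂ) : ℂ := ∑ j, (T j - τ j) * f j

/-- the quadratic potential -/
noncomputable def QH (H : Hol d) (τ : Fin d → ℝ) (T : Fin d → ℂ) : ℂ :=
  2 * Real.pi * Complex.I * (lt H.f τ T * lt H.g τ T)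

/-- the amplitude -/
noncomputable def AH (H : Hol d) (τ : Fin d → ℝ) (N : ℕ) (T : Fin d → ℂ) : ℂ :=
  Complex.exp (2 * Real.pi * Complex.I * (H.v * lt H.f τ T + H.u * lt H.g τ T + H.u * H.v / N))

/-- the phase -/
noncomputable def GH (H : Hol d) (τ : Fin d → ℝ) (N : ℕ) (T : Fin d → ℂ) : ℂ :=
  Complex.exp (N * QH H τ T) * AH H τ N T

lemma GH_eq (H : Hol d) (τ : Fin d → ℝ) {N : ℕ} (hN : 0 < N) (T : Fin d → ℂ) :
    GH H τ N T = Complex.exp (2 * Real.pi * Complex.I * N *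
      ((lt H.f τ T + H.u / N) * (lt H.g τ T + H.v / N))) := by
  have hN0 : (N : ℂ) ≠ 0 := by exact_mod_cast hN.ne'
  unfold GH AH QH
  rw [← Complex.exp_add]
  congr 1
  field_simp
  ring

lemma lt_im (f τ : Fin d → ℝ) (T : Fin d → ℂ) : (lt f τ T).im = ∑ j, (T j).im * f j := by
  unfold lt
  rw [Complex.im_sum]
  refine Finset.sum_congr rfl fun j _ => ?_
  rw [mul_comm, Complex.im_ofReal_mul, Complex.sub_im, Complex.ofReal_im, sub_zero, mul_comm]

lemma lt_re (f τ : Fin d → ℝ) (T : Fin d → ℂ) : (lt f τ T).re = ∑ j, ((T j).re - τ j) * f j := by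
  unfold lt
  rw [Complex.re_sum]
  refine Finset.sum_congr rfl fun j _ => ?_
  rw [mul_comm, Complex.re_ofReal_mul, Complex.sub_re, Complex.ofReal_re, mul_comm]

/-- the norm of a linear form -/
noncomputable def nf (f : Fin d → ℝ) : ℝ := ∑ j, |f j|

lemma nf_nn (f : Fin d → ℝ) : 0 ≤ nf f := Finset.sum_nonneg fun _ _ => abs_nonneg _

lemma sum_mul_le (f : Fin d → ℝ) (x : Fin d → ℝ) {a : ℝ} (hx : ∀ j, |x j| ≤ a) :
    |∑ j, x j * f j| ≤ a * nf f := by
  unfold nf
  rw [Finset.mul_sum]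
  refine (Finset.abs_sum_le_sum_abs _ _).trans (Finset.sum_le_sum fun j _ => ?_)
  rw [abs_mul]
  exact mul_le_mul_of_nonneg_right (hx j) (abs_nonneg _)

/-- the constant of the bound -/
noncomputable def HH (H : Hol d) : ℝ :=
  2 * Real.pi * (2 * nf H.f * nf H.g + |H.u| * nf H.g + |H.v| * nf H.f)

lemma HH_nn (H : Hol d) : 0 ≤ HH H := by
  have := nf_nn H.f
  have := nf_nn H.g
  have := Real.pi_pos
  unfold HH
  positivity

lemma GH_bd (H : Hol d) (τ : Fin d → ℝ) {N : ℕ} (hN : 0 < N) : Gbd τ N (HH H) (GH H τ N) := by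
  intro T a b ha hb h1 h2
  have hN0 : (0 : ℝ) < N := by exact_mod_cast hN
  have hπ := Real.pi_pos
  rw [GH_eq H τ hN, Complex.norm_exp]
  apply Real.exp_le_exp.2
  obtain ⟨F, hF⟩ : ∃ F, F = lt H.f τ T := ⟨_, rfl⟩
  obtain ⟨G, hG⟩ : ∃ G, G = lt H.g τ T := ⟨_, rfl⟩
  rw [← hF, ← hG]
  have e1 : (2 * Real.pi * Complex.I * N * ((F + H.u / N) * (G + H.v / N)) : ℂ) =
      ((2 * Real.pi * N : ℝ) : ℂ) * (Complex.I * ((F + ((H.u / N : ℝ) : ℂ)) *
        (G + ((H.v / N : ℝ) : ℂ)))) := by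
    push_cast
    ring
  rw [e1, Complex.re_ofReal_mul, Complex.I_mul_re, Complex.mul_im, Complex.add_im, Complex.add_im,
    Complex.add_re, Complex.add_re, Complex.ofReal_im, Complex.ofReal_im, Complex.ofReal_re,
    Complex.ofReal_re, add_zero, add_zero]
  have f1 : |F.im| ≤ b * nf H.f := by rw [hF, lt_im]; exact sum_mul_le _ _ h2
  have f2 : |F.re| ≤ a * nf H.f := by rw [hF, lt_re]; exact sum_mul_le _ _ h1
  have g1 : |G.im| ≤ b * nf H.g := by rw [hG, lt_im]; exact sum_mul_le _ _ h2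
  have g2 : |G.re| ≤ a * nf H.g := by rw [hG, lt_re]; exact sum_mul_le _ _ h1
  have nf0 := nf_nn H.f
  have ng0 := nf_nn H.g
  have k1 : |F.re + H.u / N| ≤ a * nf H.f + |H.u| / N := by
    refine (abs_add_le _ _).trans (add_le_add f2 ?_)
    rw [abs_div, abs_of_pos hN0]
  have k2 : |G.re + H.v / N| ≤ a * nf H.g + |H.v| / N := by
    refine (abs_add_le _ _).trans (add_le_add g2 ?_)
    rw [abs_div, abs_of_pos hN0]
  have k3 : |(F.re + H.u / N) * G.im + F.im * (G.re + H.v / N)| ≤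
      (a * nf H.f + |H.u| / N) * (b * nf H.g) + b * nf H.f * (a * nf H.g + |H.v| / N) := by
    refine (abs_add_le _ _).trans (add_le_add ?_ ?_)
    · rw [abs_mul]
      exact mul_le_mul k1 g1 (abs_nonneg _) (by positivity)
    · rw [abs_mul]
      exact mul_le_mul f1 k2 (abs_nonneg _) (by positivity)
  have k4 := (abs_le.1 k3).1
  have k5 : (a * nf H.f + |H.u| / N) * (b * nf H.g) + b * nf H.f * (a * nf H.g + |H.v| / N) =
      b * (2 * a * (nf H.f * nf H.g) + (|H.u| * nf H.g + |H.v| * nf H.f) / N) := by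
    ring
  rw [k5] at k4
  have k6 : (2 * Real.pi * N) * (b * (2 * a * (nf H.f * nf H.g) +
      (|H.u| * nf H.g + |H.v| * nf H.f) / N)) =
      2 * Real.pi * b * (N * a * (2 * (nf H.f * nf H.g)) + (|H.u| * nf H.g + |H.v| * nf H.f)) := by
    field_simp
  have k7 : 2 * Real.pi * b * (N * a * (2 * (nf H.f * nf H.g)) +
      (|H.u| * nf H.g + |H.v| * nf H.f)) ≤ HH H * b * (N * a + 1) := by
    have e : HH H * b * (N * a + 1) = 2 * Real.pi * b * ((2 * nf H.f * nf H.g + |H.u| * nf H.g +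
        |H.v| * nf H.f) * (N * a + 1)) := by
      unfold HH
      ring
    rw [e]
    refine mul_le_mul_of_nonneg_left ?_ (by positivity)
    have p1 : 0 ≤ nf H.f * nf H.g := by positivity
    have p2 : 0 ≤ |H.u| * nf H.g + |H.v| * nf H.f := by positivity
    have p3 : 0 ≤ (N : ℝ) * a := by positivity
    nlinarith [mul_nonneg p2 p3]
  have k8 := mul_le_mul_of_nonneg_left k4 (by positivity : (0 : ℝ) ≤ 2 * Real.pi * N)
  have k9 : (2 * Real.pi * N) * -((F.re + H.u / N) * G.im + F.im * (G.re + H.v / N)) ≤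
      (2 * Real.pi * N) * (b * (2 * a * (nf H.f * nf H.g) +
      (|H.u| * nf H.g + |H.v| * nf H.f) / N)) := by linarith
  exact k9.trans (k6.le.trans k7)

lemma lt_cont (f τ : Fin d → ℝ) : Continuous (lt f τ) := by
  unfold lt
  fun_prop

lemma GH_cont (H : Hol d) (τ : Fin d → ℝ) (N : ℕ) : Continuous (GH H τ N) := by
  unfold GH AH QH
  have h1 := lt_cont H.f τ
  have h2 := lt_cont H.g τ
  fun_prop

lemma GH_LD (H : Hol d) (τ : Fin d → ℝ) (N : ℕ) : LD (GH H τ N) Set.univ := by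
  refine ⟨(GH_cont H τ N).continuousOn, fun x _ u => ?_⟩
  have h : ∀ f : Fin d → ℝ, DifferentiableAt ℂ (fun t : ℂ => lt f τ (x + t • u)) 0 := by
    intro f
    unfold lt
    simp only [Pi.add_apply, Pi.smul_apply, smul_eq_mul]
    fun_prop
  have h1 := h H.f
  have h2 := h H.g
  unfold GH AH QH
  fun_prop

/-- the sum over the lattice with the phase -/
noncomputable def Zq {c : ℕ} (X : Nw c d) (H : Hol d) (N : ℕ) (cc : Fin c → Bool)
    (w : Fin c → ℤ) : ℂ :=
  ∑' t : Fin d → ℤ, (∏ s, F3 N (Fx N (cc s) (w s)) (X.q N t s)) *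
    GH H X.τ N (fun j => (t j : ℂ) / N)

end Pool.Agent.H760.TX
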