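import Pool.Agent.H760.TX.Nq
import Pool.Agent.H760.MX.Sd

/-!
# Mixed augmentation in the thickened torus: the saddle point

Adapted from `MX/Sd.lean`: the potential has the additional term `2 π i f g`.
-/

set_option autoImplicit false

namespace Pool.Agent.H760.TX

open Finset Filter Topology ComplexConjugate
open Pool.Agent.Q99.HT
open Pool.Agent.Q99.KN (S_LC)
open Pool.Agent.Q99.HU.Q299
open Pool.Agent.H760.MX

variable {c d : ℕ}

/-! ### the linear forms -/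

lemma lf_add (f : Fin d → ℝ) (a b : Fin d → ℂ) : lf f (a + b) = lf f a + lf f b := by
  unfold lf
  simp only [Pi.add_apply, add_mul, Finset.sum_add_distrib]

lemma lf_smul (f : Fin d → ℝ) (k : ℂ) (a : Fin d → ℂ) : lf f (k • a) = k * lf f a := by
  unfold lf
  rw [Finset.mul_sum]
  refine Finset.sum_congr rfl fun j _ => ?_
  simp only [Pi.smul_apply, smul_eq_mul]
  ring

lemma lf_zero (f : Fin d → ℝ) : lf f 0 = 0 := by
  unfold lf
  simp

lemma lt_sub (f τ : Fin d → ℝ) (a b : Fin d → ℂ) : lt f τ a - lt f τ b = lf f (a - b) := by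
  unfold lt lf
  rw [← Finset.sum_sub_distrib]
  refine Finset.sum_congr rfl fun j _ => ?_
  simp only [Pi.sub_apply]
  ring

lemma lt_add (f τ : Fin d → ℝ) (a b : Fin d → ℂ) : lt f τ (a + b) = lt f τ a + lf f b := by
  unfold lt lf
  rw [← Finset.sum_add_distrib]
  refine Finset.sum_congr rfl fun j _ => ?_
  simp only [Pi.add_apply]
  ring

lemma lt_self (f τ : Fin d → ℝ) : lt f τ (fun j => (τ j : ℂ)) = 0 := by
  unfold lt
  simp

lemma lf_conj (f : Fin d → ℝ) (a : Fin d → ℂ) : lf f (fun j => conj (a j)) = conj (lf f a) := by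
  unfold lf
  rw [map_sum]
  refine Finset.sum_congr rfl fun j _ => ?_
  rw [map_mul, Complex.conj_ofReal]

lemma lf_norm (f : Fin d → ℝ) (a : Fin d → ℂ) {B : ℝ} (h : ∀ j, ‖a j‖ ≤ B) :
    ‖lf f a‖ ≤ B * nf f := by
  unfold lf nf
  rw [Finset.mul_sum]
  refine (norm_sum_le _ _).trans (Finset.sum_le_sum fun j _ => ?_)
  rw [norm_mul, Complex.norm_real, Real.norm_eq_abs]
  exact mul_le_mul_of_nonneg_right (h j) (abs_nonneg _)

/-- the derivative of the quadratic potential -/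
noncomputable def DQ (H : Hol d) (τ : Fin d → ℝ) (T T' : Fin d → ℂ) : ℂ :=
  2 * Real.pi * Complex.I * (lt H.f τ T * lf H.g T' + lt H.g τ T * lf H.f T')

section
variable (X : Nw c d) (H : Hol d) (cc : Fin c → Bool)

/-- the potential -/
noncomputable def PhQ (w : Fin c → ℤ) (T : Fin d → ℂ) (J ζ : Fin c → ℂ) : ℂ :=
  PhX X cc w T J ζ + QH H X.τ T

/-- its derivative in the direction `(T', J', ζ')` -/
noncomputable def GPQ (w : Fin c → ℤ) (T : Fin d → ℂ)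
    (J ζ : Fin c → ℂ) (T' : Fin d → ℂ) (J' ζ' : Fin c → ℂ) : ℂ :=
  GPX X cc w T J ζ T' J' ζ' + DQ H X.τ T T'

/-- a critical point -/
structure CrQ (w : Fin c → ℤ) (T : Fin d → ℂ) (J ζ : Fin c → ℂ) : Prop where
  aj : X.AJ J
  eq : ∀ (T' : Fin d → ℂ) (J' ζ' : Fin c → ℂ), X.AJ J' → GPQ X H cc w T J ζ T' J' ζ' = 0

/-- the derivative of the potential -/
noncomputable def gQ (w : Fin c → ℤ) (u h : X.Ix → ℂ) : ℂ :=
  gX X cc w u h + DQ H X.τ (tT X u) (tT X h)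

theorem GQ_eq (w : Fin c → ℤ) (u h : X.Ix → ℂ) :
    GPQ X H cc w (tT X u) (tJ X u) (tZ X u) (tT X h) (tJ X h) (tZ X h) = gQ X H cc w u h := by
  unfold GPQ gQ
  rw [MX.GP_eq]

theorem gQ_add (w : Fin c → ℤ) (u h k : X.Ix → ℂ) :
    gQ X H cc w u (h + k) = gQ X H cc w u h + gQ X H cc w u k := by
  unfold gQ DQ
  rw [gX_add, tT_add, lf_add, lf_add]
  ring

theorem gQ_smul (w : Fin c → ℤ) (u : X.Ix → ℂ) (a : ℂ) (h : X.Ix → ℂ) :
    gQ X H cc w u (a • h) = a * gQ X H cc w u h := by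
  unfold gQ DQ
  rw [gX_smul, tT_smul, lf_smul, lf_smul]
  ring

theorem gQ_sum (w : Fin c → ℤ) (u h : X.Ix → ℂ) :
    gQ X H cc w u h = ∑ i, h i * gQ X H cc w u (bs X i) := by
  classical
  let L : (X.Ix → ℂ) →ₗ[ℂ] ℂ :=
    { toFun := gQ X H cc w u
      map_add' := gQ_add X H cc w u
      map_smul' := fun a h => gQ_smul X H cc w u a h }
  have h1 := LinearMap.pi_apply_eq_sum_univ L h
  have h2 : ∀ i, (fun j => if i = j then (1 : ℂ) else 0) = bs X i := by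
    intro i
    funext j
    unfold bs
    congr
  simp only [h2] at h1
  exact h1

theorem Cr_ofQ {w : Fin c → ℤ} {u : X.Ix → ℂ} (h : ∀ k, gQ X H cc w u k = 0) :
    CrQ X H cc w (tT X u) (tJ X u) (tZ X u) := by
  refine ⟨tJ_AJ X u, fun T' J' ζ' hJ' => ?_⟩
  have h1 := h (pk X T' J' ζ')
  rw [← GQ_eq, tT_pk, tJ_pk X T' ζ' hJ', tZ_pk] at h1
  exact h1

theorem of_CrQ {w : Fin c → ℤ} {T : Fin d → ℂ} {J ζ : Fin c → ℂ} (hc : CrQ X H cc w T J ζ)
    (k : X.Ix → ℂ) : gQ X H cc w (pk X T J ζ) k = 0 := by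
  rw [← GQ_eq, tT_pk, tJ_pk X T ζ hc.aj, tZ_pk]
  exact hc.eq _ _ _ (tJ_AJ X k)

theorem gQ_mono (hX : X.Okb) {r κ K C0 κ1 ρ : ℝ} (hκ : 0 < κ) (hB : ∀ s, Blk (X.α s) r κ K C0)
    (hκ1 : κ1 ≤ 1) (hlat : ∀ t : Fin d → ℝ, κ1 * ∑ j, t j ^ 2 ≤ ∑ s, ∑ i, latR X t s i ^ 2)
    (hρ : 0 < ρ) (hρr : ME X * ρ ≤ r) (w : Fin c → ℤ) {u v : X.Ix → ℂ} (hu : NR X ρ u)
    (hv : NR X ρ v) :
    (gQ X H cc w u (cj X (u - v)) - gQ X H cc w v (cj X (u - v))).re ≤
      -(2 * κ * κ1) * ∑ i, ‖(u - v) i‖ ^ 2 := by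
  have h1 := gX_mono X cc hX hκ hB hκ1 hlat hρ hρr w hu hv
  have h2 : gQ X H cc w u (cj X (u - v)) - gQ X H cc w v (cj X (u - v)) =
      (gX X cc w u (cj X (u - v)) - gX X cc w v (cj X (u - v))) +
      ((4 * Real.pi * (lf H.f (tT X (u - v)) * conj (lf H.g (tT X (u - v)))).re : ℝ) : ℂ) *
        Complex.I := by
    unfold gQ DQ
    have e1 : tT X (u - v) = tT X u - tT X v := rfl
    have e2 : ∀ f : Fin d → ℝ, lf f (tT X (cj X (u - v))) = conj (lf f (tT X (u - v))) := fun f =>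
      lf_conj f (tT X (u - v))
    rw [e2, e2]
    obtain ⟨F, hF⟩ : ∃ F, F = lf H.f (tT X (u - v)) := ⟨_, rfl⟩
    obtain ⟨G, hG⟩ : ∃ G, G = lf H.g (tT X (u - v)) := ⟨_, rfl⟩
    have f1 : lt H.f X.τ (tT X u) = lt H.f X.τ (tT X v) + F := by
      rw [hF, e1, ← lt_sub H.f X.τ]; ring
    have g1 : lt H.g X.τ (tT X u) = lt H.g X.τ (tT X v) + G := by
      rw [hG, e1, ← lt_sub H.g X.τ]; ring
    rw [← hF, ← hG, f1, g1]
    have k1 : F * conj G + G * conj F = ((2 * (F * conj G).re : ℝ) : ℂ) := by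
      have : G * conj F = conj (F * conj G) := by rw [map_mul, Complex.conj_conj]; ring
      rw [this, Complex.add_conj]
    have k2 : ((4 * Real.pi * (F * conj G).re : ℝ) : ℂ) * Complex.I =
        2 * Real.pi * Complex.I * ((2 * (F * conj G).re : ℝ) : ℂ) := by
      push_cast
      ring
    rw [k2, ← k1]
    ring
  rw [h2, Complex.add_re, Complex.mul_I_re, Complex.ofReal_im, neg_zero, add_zero]
  exact h1

theorem gQ_lip (hX : X.Okb) {r κ K C0 ρ : ℝ} (hB : ∀ s, Blk (X.α s) r κ K C0) (hρ : 0 < ρ)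
    (hρr : ME X * ρ ≤ r) (w : Fin c → ℤ) {u v : X.Ix → ℂ} (hu : NR X ρ u) (hv : NR X ρ v)
    (k : X.Ix → ℂ) (hk : ‖k‖ ≤ 1) :
    ‖gQ X H cc w u k - gQ X H cc w v k‖ ≤
      ((c * (|C0| * (ME X + 1) ^ 2)) + ∑ s, Real.pi * |(w s : ℝ)| / 2 +
        4 * Real.pi * (nf H.f * nf H.g)) * ‖u - v‖ := by
  have h1 := gX_lip X cc hX hB hρ hρr w hu hv k hk
  have hπ := Real.pi_pos
  have h2 : gQ X H cc w u k - gQ X H cc w v k = (gX X cc w u k - gX X cc w v k) +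
      2 * Real.pi * Complex.I * (lf H.f (tT X u - tT X v) * lf H.g (tT X k) +
        lf H.g (tT X u - tT X v) * lf H.f (tT X k)) := by
    unfold gQ DQ
    rw [← lt_sub H.f X.τ, ← lt_sub H.g X.τ]
    ring
  have hb : ∀ f : Fin d → ℝ, ‖lf f (tT X u - tT X v)‖ ≤ ‖u - v‖ * nf f := fun f =>
    lf_norm f _ fun j => norm_le_pi_norm (u - v) (.inl j)
  have hb2 : ∀ f : Fin d → ℝ, ‖lf f (tT X k)‖ ≤ 1 * nf f := fun f =>
    lf_norm f _ fun j => (norm_le_pi_norm k (.inl j)).trans hk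
  have nf0 := nf_nn H.f
  have ng0 := nf_nn H.g
  rw [h2, add_mul]
  refine (norm_add_le _ _).trans (add_le_add h1 ?_)
  rw [norm_mul, norm_mul, norm_mul, Complex.norm_I, mul_one, Complex.norm_real, Real.norm_eq_abs,
    abs_of_pos hπ, Complex.norm_ofNat]
  have h3 : ‖lf H.f (tT X u - tT X v) * lf H.g (tT X k) +
        lf H.g (tT X u - tT X v) * lf H.f (tT X k)‖ ≤ 2 * (nf H.f * nf H.g) * ‖u - v‖ := by
    refine (norm_add_le _ _).trans ?_
    rw [norm_mul, norm_mul]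
    have a1 := mul_le_mul (hb H.f) (hb2 H.g) (norm_nonneg _) (by positivity)
    have a2 := mul_le_mul (hb H.g) (hb2 H.f) (norm_nonneg _) (by positivity)
    linarith
  have h4 := mul_le_mul_of_nonneg_left h3 (by positivity : (0 : ℝ) ≤ 2 * Real.pi)
  linarith

theorem gQ_u0 {w : Fin c → ℤ} (hw : ∀ s, cc s = false → w s ≠ 0) (k : X.Ix → ℂ) :
    gQ X H cc w (uX X cc w) k = gP X (uX X cc w) k := by
  unfold gQ DQ
  have e : tT X (uX X cc w) = fun j => (X.τ j : ℂ) := rfl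
  rw [gX_u0 X cc hw, e, lt_self, lt_self]
  ring

theorem gQ_Z (w : Fin c → ℤ) (u : X.Ix → ℂ) (s : Fin c) :
    gQ X H cc w u (bs X (.inr (.inr s))) = PG (X.α s) (vW X u s) (tZ X u s) 0 1 +
      (Complex.I * Real.pi * w s * tZ X u s / 2 + kc (cc s) * (Complex.I * Real.pi)) := by
  unfold gQ DQ
  have e : tT X (bs X (.inr (.inr s))) = 0 := by
    funext j
    unfold tT bs
    simp
  rw [gX_Z, e, lf_zero, lf_zero]
  ring

theorem gQ_J (w : Fin c → ℤ) (u : X.Ix → ℂ) (s : Fin c) (hs : X.α s 1 ≠ 0) :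
    gQ X H cc w u (bs X (.inr (.inl ⟨s, hs⟩))) = PG (X.α s) (vW X u s) (tZ X u s) e3 0 := by
  unfold gQ DQ
  have e : tT X (bs X (.inr (.inl ⟨s, hs⟩))) = 0 := by
    funext j
    unfold tT bs
    simp
  rw [gX_J, e, lf_zero, lf_zero]
  ring

end

section
variable (X : Nw c d) (H : Hol d) (cc : Fin c → Bool)

theorem exists_critQ (hX : X.Okb) {r κ K C0 κ1 ρ Wm : ℝ} (hκ : 0 < κ)
    (hB : ∀ s, Blk (X.α s) r κ K C0) (hκ0 : 0 < κ1)
    (hκ1 : κ1 ≤ 1) (hlat : ∀ t : Fin d → ℝ, κ1 * ∑ j, t j ^ 2 ≤ ∑ s, ∑ i, latR X t s i ^ 2)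
    (hρ : 0 < ρ) (hρr : ME X * ρ ≤ r) (w : Fin c → ℤ) (hW1 : 1 ≤ Wm) (hWρ : 8 / ρ ≤ Wm)
    (hW2 : 8 * Fintype.card X.Ix * (c * (|C0| * (ME X + 1) ^ 2)) / (2 * κ * κ1 * ρ) ≤ Wm)
    (hw : ∀ s, cc s = false → Wm ≤ |(w s : ℝ)|) :
    ∃ u : X.Ix → ℂ, NR X ρ u ∧ (∀ k, gQ X H cc w u k = 0) ∧ ‖u - uC X‖ ≤
      (2 * Fintype.card X.Ix * (c * (|C0| * (ME X + 1) ^ 2)) / (2 * κ * κ1) + 2) / Wm := by
  classical
  set MB : ℝ := c * (|C0| * (ME X + 1) ^ 2) with hMB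
  have hMB0 : 0 ≤ MB := by positivity
  set m : ℝ := 2 * κ * κ1 with hm
  have hm0 : 0 < m := by positivity
  set n : ℝ := (Fintype.card X.Ix : ℝ) with hn
  have hn0 : 0 ≤ n := Nat.cast_nonneg _
  have hWm : 0 < Wm := by linarith
  have hws : ∀ s, cc s = false → w s ≠ 0 := by
    intro s hs h0
    have := hw s hs
    rw [h0] at this
    simp at this
    linarith
  have hu0 : ‖uX X cc w - uC X‖ ≤ 2 / Wm := uX_near X cc hW1 hw
  have h2W : 2 / Wm ≤ ρ / 4 := by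
    rw [div_le_iff₀ hρ] at hWρ
    rw [div_le_div_iff₀ hWm (by norm_num)]
    linarith
  have hreg : ∀ u : X.Ix → ℂ, ∑ i, ‖u i - uX X cc w i‖ ^ 2 ≤ (ρ / 2) ^ 2 → NR X ρ u := by
    intro u hu i
    have h1 : ‖u i - uX X cc w i‖ ≤ ρ / 2 := by
      refine (sq_le_sq₀ (norm_nonneg _) (by positivity)).1 (le_trans ?_ hu)
      exact Finset.single_le_sum (f := fun i => ‖u i - uX X cc w i‖ ^ 2) (fun _ _ => sq_nonneg _)
        (Finset.mem_univ i)
    have h2 : ‖uX X cc w i - uC X i‖ ≤ ρ / 4 := (norm_le_pi_norm (uX X cc w - uC X) i).trans (hu0.trans h2W)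
    have h3 : u i - uC X i = (u i - uX X cc w i) + (uX X cc w i - uC X i) := by ring
    rw [h3]
    refine (norm_add_le _ _).trans_lt ?_
    linarith
  have hu0R : NR X ρ (uX X cc w) := by
    refine hreg _ ?_
    simp only [sub_self, norm_zero]
    have : (∑ _i : X.Ix, (0 : ℝ) ^ 2) = 0 := by simp
    rw [this]
    positivity
  have huCR := NR_uC X hρ
  set G : (X.Ix → ℂ) → X.Ix → ℂ := fun u i => gQ X H cc w u (bs X i) with hG
  set L1 : ℝ := MB + ∑ s, Real.pi * |(w s : ℝ)| / 2 + 4 * Real.pi * (nf H.f * nf H.g) with hL1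
  have hL10 : 0 ≤ L1 := by
    have : 0 ≤ ∑ s, Real.pi * |(w s : ℝ)| / 2 :=
      Finset.sum_nonneg fun _ _ => by have := Real.pi_pos; positivity
    have h1 := nf_nn H.f
    have h2 := nf_nn H.g
    have h3 := Real.pi_pos
    have : 0 ≤ 4 * Real.pi * (nf H.f * nf H.g) := by positivity
    linarith
  have hcj : ∀ u v : X.Ix → ℂ, ∑ i, conj (u i - v i) * (G u i - G v i) =
      gQ X H cc w u (cj X (u - v)) - gQ X H cc w v (cj X (u - v)) := by
    intro u v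
    rw [gQ_sum X H cc w u, gQ_sum X H cc w v, ← Finset.sum_sub_distrib]
    refine Finset.sum_congr rfl fun i _ => ?_
    show conj (u i - v i) * (G u i - G v i) = conj ((u - v) i) * gQ X H cc w u (bs X i) -
      conj ((u - v) i) * gQ X H cc w v (bs X i)
    rw [hG]
    simp only [Pi.sub_apply]
    ring
  have hG0 : ∀ i, ‖G (uX X cc w) i‖ ≤ 2 * MB / Wm := by
    intro i
    have h1 := gP_lip X hX hB hρ hρr hu0R huCR (bs X i)
    rw [gP_uC X hX hB, sub_zero] at h1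
    rw [hG]
    simp only
    rw [gQ_u0 X H cc hws]
    refine h1.trans ?_
    calc MB * ‖uX X cc w - uC X‖ * ‖bs X i‖ ≤ MB * (2 / Wm) * 1 :=
          mul_le_mul (mul_le_mul_of_nonneg_left hu0 hMB0) (bs_norm X i) (norm_nonneg _) (by positivity)
      _ = 2 * MB / Wm := by ring
  have hlip : ∀ u v : X.Ix → ℂ, ∑ i, ‖u i - uX X cc w i‖ ^ 2 ≤ (ρ / 2) ^ 2 →
      ∑ i, ‖v i - uX X cc w i‖ ^ 2 ≤ (ρ / 2) ^ 2 →
      ∑ i, ‖G u i - G v i‖ ^ 2 ≤ (n * L1 + 1) ^ 2 * ∑ i, ‖u i - v i‖ ^ 2 := by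
    intro u v hu hv
    have h1 := hreg u hu
    have h2 := hreg v hv
    have h3 : ∀ i ∈ Finset.univ, ‖G u i - G v i‖ ^ 2 ≤ L1 ^ 2 * ‖u - v‖ ^ 2 := by
      intro i _
      rw [← mul_pow]
      exact pow_le_pow_left₀ (norm_nonneg _)
        (gQ_lip X H cc hX hB hρ hρr w h1 h2 (bs X i) (bs_norm X i)) 2
    refine (Finset.sum_le_sum h3).trans ?_
    rw [Finset.sum_const, Finset.card_univ, nsmul_eq_mul]
    have h4 : ‖u - v‖ ^ 2 ≤ ∑ i, ‖u i - v i‖ ^ 2 := pi_sq_le X (u - v)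
    have h5 : n * L1 ^ 2 ≤ (n * L1 + 1) ^ 2 := by
      have h6 : n ≤ n ^ 2 := by
        rw [hn]
        exact_mod_cast Nat.le_self_pow two_ne_zero _
      have h7 : n * L1 ^ 2 ≤ n ^ 2 * L1 ^ 2 := mul_le_mul_of_nonneg_right h6 (sq_nonneg _)
      have h8 : 0 ≤ n * L1 := by positivity
      linarith [sq_nonneg (n * L1), mul_pow n L1 2, add_sq (n * L1) 1]
    calc n * (L1 ^ 2 * ‖u - v‖ ^ 2) = (n * L1 ^ 2) * ‖u - v‖ ^ 2 := by ring
      _ ≤ (n * L1 + 1) ^ 2 * ∑ i, ‖u i - v i‖ ^ 2 :=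
          mul_le_mul h5 h4 (sq_nonneg _) (sq_nonneg _)
  have hmon : ∀ u v : X.Ix → ℂ, ∑ i, ‖u i - uX X cc w i‖ ^ 2 ≤ (ρ / 2) ^ 2 →
      ∑ i, ‖v i - uX X cc w i‖ ^ 2 ≤ (ρ / 2) ^ 2 →
      (∑ i, conj (u i - v i) * (G u i - G v i)).re ≤ -m * ∑ i, ‖u i - v i‖ ^ 2 := by
    intro u v hu hv
    rw [hcj]
    exact gQ_mono X H cc hX hκ hB hκ1 hlat hρ hρr w (hreg u hu) (hreg v hv)
  have hst : ∑ i, ‖G (uX X cc w) i‖ ^ 2 ≤ (m * (ρ / 2) / 2) ^ 2 := by
    have h1 : ∑ i, ‖G (uX X cc w) i‖ ^ 2 ≤ n * (2 * MB / Wm) ^ 2 := by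
      calc ∑ i, ‖G (uX X cc w) i‖ ^ 2 ≤ ∑ _i : X.Ix, (2 * MB / Wm) ^ 2 :=
            Finset.sum_le_sum fun i _ => pow_le_pow_left₀ (norm_nonneg _) (hG0 i) 2
        _ = n * (2 * MB / Wm) ^ 2 := by
            rw [Finset.sum_const, Finset.card_univ, nsmul_eq_mul]
    refine h1.trans ?_
    have h6 : n ≤ n ^ 2 := by
      rw [hn]
      exact_mod_cast Nat.le_self_pow two_ne_zero _
    have h7 : n * (2 * MB / Wm) ^ 2 ≤ (n * (2 * MB / Wm)) ^ 2 := by
      rw [mul_pow]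
      exact mul_le_mul_of_nonneg_right h6 (sq_nonneg _)
    refine h7.trans (pow_le_pow_left₀ (by positivity) ?_ 2)
    rw [div_le_iff₀ (by positivity)] at hW2
    rw [← mul_div_assoc, div_le_iff₀ hWm]
    linarith
  obtain ⟨u, hu1, hu2⟩ := mono_zero G (uX X cc w) (R := ρ / 2) (m := m) (L := n * L1 + 1)
    (by positivity) hm0 (by positivity) hlip hmon hst
  have huR := hreg u hu1
  have hz : ∀ k, gQ X H cc w u k = 0 := by
    intro k
    rw [gQ_sum]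
    refine Finset.sum_eq_zero fun i _ => ?_
    have := hu2 i
    rw [hG] at this
    simp only at this
    rw [this, mul_zero]
  refine ⟨u, huR, hz, ?_⟩
  -- the distance
  have h1 := gQ_mono X H cc hX hκ hB hκ1 hlat hρ hρr w huR hu0R
  rw [← hcj] at h1
  have h2 := pi_sq_le X (u - uX X cc w)
  have h3 : -(∑ i, conj (u i - uX X cc w i) * (G u i - G (uX X cc w) i)).re ≤
      n * (‖u - uX X cc w‖ * (2 * MB / Wm)) := by
    refine (neg_le_abs _).trans ((Complex.abs_re_le_norm _).trans ((norm_sum_le _ _).trans ?_))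
    calc ∑ i, ‖conj (u i - uX X cc w i) * (G u i - G (uX X cc w) i)‖
        ≤ ∑ _i : X.Ix, ‖u - uX X cc w‖ * (2 * MB / Wm) := by
          refine Finset.sum_le_sum fun i _ => ?_
          rw [hu2 i, zero_sub, norm_mul, Complex.norm_conj, norm_neg]
          exact mul_le_mul (norm_le_pi_norm (u - uX X cc w) i) (hG0 i) (norm_nonneg _) (norm_nonneg _)
      _ = n * (‖u - uX X cc w‖ * (2 * MB / Wm)) := by
          rw [Finset.sum_const, Finset.card_univ, nsmul_eq_mul]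
  have h4 : m * ‖u - uX X cc w‖ ^ 2 ≤ n * (‖u - uX X cc w‖ * (2 * MB / Wm)) := by
    have h5 : m * ‖u - uX X cc w‖ ^ 2 ≤ m * ∑ i, ‖(u - uX X cc w) i‖ ^ 2 :=
      mul_le_mul_of_nonneg_left h2 hm0.le
    linarith
  have h6 : ‖u - uX X cc w‖ ≤ 2 * n * MB / m / Wm := by
    rcases (norm_nonneg (u - uX X cc w)).eq_or_lt with h7 | h7
    · rw [← h7]
      positivity
    · have h8 : m * ‖u - uX X cc w‖ ≤ n * (2 * MB / Wm) := by
        have : ‖u - uX X cc w‖ * (m * ‖u - uX X cc w‖) ≤ ‖u - uX X cc w‖ * (n * (2 * MB / Wm)) := by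
          linarith
        exact le_of_mul_le_mul_left this h7
      have h9 : ‖u - uX X cc w‖ ≤ n * (2 * MB / Wm) / m := by
        rw [le_div_iff₀ hm0, mul_comm]
        exact h8
      refine h9.trans (le_of_eq ?_)
      ring
  have h10 : u - uC X = (u - uX X cc w) + (uX X cc w - uC X) := by abel
  rw [h10]
  refine (norm_add_le _ _).trans ?_
  rw [add_div]
  exact add_le_add h6 hu0

end

theorem SDNq {c d : ℕ} (X : Nw c d) (H : Hol d) (cc : Fin c → Bool) (hX : X.Okb) (r κ K C0 : ℝ)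
    (hB : ∀ s, Blk (X.α s) r κ K C0) : ∃ ρ0 : ℝ, 0 < ρ0 ∧ ∀ ρ : ℝ, 0 < ρ → ρ ≤ ρ0 →
  ∃ W0 C : ℝ, 1 ≤ W0 ∧ ∀ (w : Fin c → ℤ) (Wm : ℝ), W0 ≤ Wm →
  (∀ s, cc s = false → Wm ≤ |(w s : ℝ)|) →
  ∃ (T : Fin d → ℂ) (J ζ : Fin c → ℂ), CrQ X H cc w T J ζ ∧ X.Nr ρ T J ζ ∧
    (∀ j, ‖T j - X.τ j‖ ≤ C / Wm) ∧ (∀ s, ‖J s - X.α s 1‖ ≤ C / Wm) ∧
    (∀ s, cc s = true → ζ s = 0) ∧
    (∀ s, cc s = false → ‖ζ s‖ ≤ 3 / |(w s : ℝ)| ∧ 0 < (ζ s).im ∧
      (ζ s).im ≤ C / (w s : ℝ) ^ 2) ∧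
    |(PhQ X H cc w T J ζ).re - ∑ s, v0 (X.α s)| ≤ C / Wm ^ 2 ∧
    ∀ (T' : Fin d → ℂ) (J' ζ' : Fin c → ℂ), CrQ X H cc w T' J' ζ' → X.Nr ρ T' J' ζ' →
      T' = T ∧ J' = J ∧ ζ' = ζ := by
  classical
  have hLC := Pool.Agent.Q99.HT.t_LC
  have hLTd := Pool.Agent.Q24.HT.task_LTd
  have hZZ := Pool.Agent.Q176.HT.task_ZZ
  rcases Nat.eq_zero_or_pos c with rfl | hc
  · -- no region
    have hd : IsEmpty (Fin d) := by
      refine ⟨fun j => ?_⟩
      have h1 := hX.inj (Pi.single j 1) (fun s => s.elim0)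
      have h2 := congrFun h1 j
      simp at h2
    refine ⟨1, one_pos, fun ρ hρ _ => ⟨1, 0, le_rfl, fun w Wm hW _ => ?_⟩⟩
    refine ⟨fun j => (hd.false j).elim, fun s => s.elim0, fun s => s.elim0,
      ⟨fun s => s.elim0, fun T' J' ζ' _ => ?_⟩, ⟨fun j => (hd.false j).elim, fun s => s.elim0,
        fun s => s.elim0⟩, fun j => (hd.false j).elim, fun s => s.elim0, fun s => s.elim0,
        fun s => s.elim0, ?_, ?_⟩
    · unfold GPQ GPX DQ lf
      simp [Finset.univ_eq_empty_iff.2 hd]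
    · unfold PhQ PhX QH lt
      simp [Finset.univ_eq_empty_iff.2 hd]
    · intro T' J' ζ' _ _
      refine ⟨?_, ?_, ?_⟩
      · funext j
        exact (hd.false j).elim
      · funext s
        exact s.elim0
      · funext s
        exact s.elim0
  set s0 : Fin c := ⟨0, hc⟩ with hs0
  have hr := (hB s0).r0
  have hκ := (hB s0).κ0
  obtain ⟨κ1, hκ0, hκ1, hlat⟩ := lat_lower X hX
  -- the constants of the regions
  have hZ1 : ∀ s, ∃ Kz : ℝ, 0 < Kz ∧ ∃ ρ : ℝ, 0 < ρ ∧ ρ < r ∧ ∀ v ∈ Metric.ball (vC (X.α s)) ρ,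
      Adm (X.α s) v → ∀ ζ : ℂ, ‖ζ‖ < ρ → (X.α s 1 ≠ 0 → PG (X.α s) v ζ e3 0 = 0) →
      ‖PG (X.α s) v ζ 0 1 + Kz * ζ‖ ≤ Kz / 2 * ‖ζ‖ := by
    intro s
    obtain ⟨Kz, hK, h⟩ := hZZ hLC hLTd (X.α s) r κ K C0 (hX.fr s) (hB s)
    obtain ⟨ρ, h1, h2, h3⟩ := h (Kz / 2) (by positivity)
    exact ⟨Kz, hK, ρ, h1, h2, h3⟩
  choose Kz hKz ρs hρs0 hρsr hZ using hZ1
  obtain ⟨b, hb0, hbr, hbs⟩ := exists_min ρs hρs0 hr
  have hME := ME_one X
  have hMEp : 0 < ME X := by linarith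
  refine ⟨b / ME X, by positivity, fun ρ hρ hρb => ?_⟩
  have hρb' : ME X * ρ ≤ b := by
    rw [le_div_iff₀ hMEp] at hρb
    linarith
  have hρr : ME X * ρ ≤ r := hρb'.trans hbr
  set MB : ℝ := c * (|C0| * (ME X + 1) ^ 2) with hMB
  have hMB0 : 0 ≤ MB := by positivity
  set C1 : ℝ := 2 * Fintype.card X.Ix * MB / (2 * κ * κ1) + 2 with hC1
  have hC10 : 0 ≤ C1 := by positivity
  set KK : ℝ := ∑ s, Kz s with hKK
  have hKle : ∀ s, Kz s ≤ KK := fun s =>
    Finset.single_le_sum (f := Kz) (fun s _ => (hKz s).le) (Finset.mem_univ s)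
  have hKK0 : 0 ≤ KK := Finset.sum_nonneg fun s _ => (hKz s).le
  have hπ := Real.pi_pos
  set NN : ℝ := 2 * Real.pi * (nf H.f * nf H.g) with hNN
  have hNN0 : 0 ≤ NN := by
    have h1 := nf_nn H.f
    have h2 := nf_nn H.g
    positivity
  set CC : ℝ := C1 + 27 * KK / (2 * Real.pi) + (MB + NN) * C1 ^ 2 + c * (27 * KK / 2) with hCC
  set W0 : ℝ := max 1 (max (8 / ρ) (max (8 * Fintype.card X.Ix * MB / (2 * κ * κ1 * ρ))
    (3 * KK / Real.pi))) with hW0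
  refine ⟨W0, CC, le_max_left _ _, fun w Wm hWm hw => ?_⟩
  have a1 : 1 ≤ Wm := (le_max_left _ _).trans hWm
  have a2 : 8 / ρ ≤ Wm := (le_max_left _ _).trans ((le_max_right _ _).trans hWm)
  have a3 : 8 * Fintype.card X.Ix * MB / (2 * κ * κ1 * ρ) ≤ Wm :=
    (le_max_left _ _).trans ((le_max_right _ _).trans ((le_max_right _ _).trans hWm))
  have a4 : 3 * KK / Real.pi ≤ Wm :=
    (le_max_right _ _).trans ((le_max_right _ _).trans ((le_max_right _ _).trans hWm))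
  have hWp : 0 < Wm := by linarith
  obtain ⟨u, huR, hz, hdist⟩ := exists_critQ X H cc hX hκ hB hκ0 hκ1 hlat hρ hρr w a1 a2 a3 hw
  have hCr := Cr_ofQ X H cc hz
  have hNr := Nr_of_NR X hρ huR
  -- the variables zeta
  have hζ0 : ∀ s, cc s = true → tZ X u s = 0 := by
    intro s hs
    have hb1 := NR_ball X hX hρ (hρb'.trans (hbs s)) huR s
    have h1 := hZ s (vW X u s) hb1.1 (Adm_vW X hX u s) (tZ X u s) hb1.2 (fun hs => by
      rw [← gQ_J X H cc w u s hs]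
      exact hz _)
    have h2 := hz (bs X (.inr (.inr s)))
    rw [gQ_Z, hs] at h2
    have hk : kc true = 0 := rfl
    rw [hk, zero_mul, add_zero] at h2
    refine zeta0_lem (w := (w s : ℝ)) (hKz s) h1 ?_
    push_cast
    exact h2
  have hζ : ∀ s, cc s = false → ‖tZ X u s‖ ≤ 3 / |(w s : ℝ)| ∧ 0 < (tZ X u s).im ∧
      (tZ X u s).im ≤ 27 * Kz s / (2 * Real.pi) / (w s : ℝ) ^ 2 ∧
      |(Complex.I * Real.pi * ((w s : ℝ) : ℂ) * tZ X u s ^ 2 / 4 +
        Complex.I * Real.pi * tZ X u s).re| ≤ 27 * Kz s / 2 / (w s : ℝ) ^ 2 := by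
    intro s hcs
    have hb1 := NR_ball X hX hρ (hρb'.trans (hbs s)) huR s
    have h1 := hZ s (vW X u s) hb1.1 (Adm_vW X hX u s) (tZ X u s) hb1.2 (fun hs => by
      rw [← gQ_J X H cc w u s hs]
      exact hz _)
    have h2 := hz (bs X (.inr (.inr s)))
    rw [gQ_Z, hcs] at h2
    have hk : kc false = 1 := rfl
    rw [hk, one_mul] at h2
    refine zeta_lem (hKz s) h1 (by push_cast; exact h2) ?_ (a1.trans (hw s hcs))
    refine le_trans ?_ (a4.trans (hw s hcs))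
    exact div_le_div_of_nonneg_right (by linarith [hKle s]) hπ.le
  have hws : ∀ s, cc s = false → 0 < (w s : ℝ) ^ 2 := by
    intro s hcs
    have : 0 < |(w s : ℝ)| := by linarith [hw s hcs]
    rw [← sq_abs]
    positivity
  have hwsq : ∀ s, cc s = false → Wm ^ 2 ≤ (w s : ℝ) ^ 2 := by
    intro s hcs
    rw [← sq_abs (w s : ℝ)]
    exact pow_le_pow_left₀ hWp.le (hw s hcs) 2
  have hpos1 : 0 ≤ 27 * KK / (2 * Real.pi) := by positivity
  have hpos2 : 0 ≤ (MB + NN) * C1 ^ 2 := by positivity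
  have hpos3 : 0 ≤ c * (27 * KK / 2) := by positivity
  have hC1C : C1 ≤ CC := by linarith
  have hdC : ∀ i, ‖u i - uC X i‖ ≤ CC / Wm := by
    intro i
    refine (norm_le_pi_norm (u - uC X) i).trans (hdist.trans ?_)
    exact div_le_div_of_nonneg_right hC1C hWp.le
  refine ⟨tT X u, tJ X u, tZ X u, hCr, hNr, fun j => hdC (.inl j), fun s => ?_, hζ0,
    fun s hcs => ?_, ?_, ?_⟩
  · by_cases hs : X.α s 1 ≠ 0
    · have := hdC (.inr (.inl ⟨s, hs⟩))
      unfold tJ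
      rw [dif_pos hs]
      exact this
    · unfold tJ
      rw [dif_neg hs, not_not.1 hs]
      have : 0 ≤ CC / Wm := div_nonneg (hC10.trans hC1C) hWp.le
      simpa using this
  · obtain ⟨b1, b2, b3, -⟩ := hζ s hcs
    refine ⟨b1, b2, b3.trans ?_⟩
    refine div_le_div_of_nonneg_right ?_ (hws s hcs).le
    have : 27 * Kz s / (2 * Real.pi) ≤ 27 * KK / (2 * Real.pi) :=
      div_le_div_of_nonneg_right (by linarith [hKle s]) (by positivity)
    linarith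
  · -- the value
    have hPh : PhQ X H cc w (tT X u) (tJ X u) (tZ X u) = (eP X u + QH H X.τ (tT X u)) +
        ∑ s, (Complex.I * Real.pi *
        ((w s : ℝ) : ℂ) * tZ X u s ^ 2 / 4 + kc (cc s) * (Complex.I * Real.pi) * tZ X u s) := by
      rw [add_right_comm]
      unfold PhQ
      congr 1
      unfold PhX eP
      rw [← Finset.sum_add_distrib]
      refine Finset.sum_congr rfl fun s _ => ?_
      show PE (X.α s) (vW X u s) (tZ X u s) + _ + _ = _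
      push_cast
      ring
    have h1 := eP_near X hX hB hρ hρr huR
    rw [eP_uC X hX hB] at h1
    have h2 : |(eP X u + QH H X.τ (tT X u)).re - ∑ s, v0 (X.α s)| ≤
        (MB + NN) * C1 ^ 2 / Wm ^ 2 := by
      have h3 : (eP X u + QH H X.τ (tT X u)).re - ∑ s, v0 (X.α s) =
          ((eP X u - ((∑ s, v0 (X.α s) : ℝ) : ℂ)) + QH H X.τ (tT X u)).re := by
        rw [Complex.add_re, Complex.add_re, Complex.sub_re, Complex.ofReal_re]
        ring
      have hq : ‖QH H X.τ (tT X u)‖ ≤ NN * ‖u - uC X‖ ^ 2 := by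
        have hl : ∀ f : Fin d → ℝ, ‖lt f X.τ (tT X u)‖ ≤ ‖u - uC X‖ * nf f := by
          intro f
          have e : lt f X.τ (tT X u) = lf f (tT X u - fun j => (X.τ j : ℂ)) := by
            rw [← lt_sub f X.τ, lt_self, sub_zero]
          rw [e]
          exact lf_norm f _ fun j => norm_le_pi_norm (u - uC X) (.inl j)
        unfold QH
        rw [norm_mul, norm_mul, norm_mul, norm_mul, Complex.norm_I, mul_one, Complex.norm_real,
          Real.norm_eq_abs, abs_of_pos hπ, Complex.norm_ofNat]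
        have h5 := mul_le_mul (hl H.f) (hl H.g) (norm_nonneg _)
          (mul_nonneg (norm_nonneg _) (nf_nn H.f))
        have h6 := mul_le_mul_of_nonneg_left h5 (by positivity : (0 : ℝ) ≤ 2 * Real.pi)
        refine h6.trans (le_of_eq ?_)
        rw [hNN]
        ring
      rw [h3]
      refine (Complex.abs_re_le_norm _).trans ((norm_add_le _ _).trans ((add_le_add h1 hq).trans ?_))
      have h4 : ‖u - uC X‖ ^ 2 ≤ (C1 / Wm) ^ 2 := pow_le_pow_left₀ (norm_nonneg _) hdist 2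
      calc MB * ‖u - uC X‖ ^ 2 + NN * ‖u - uC X‖ ^ 2 = (MB + NN) * ‖u - uC X‖ ^ 2 := by ring
        _ ≤ (MB + NN) * (C1 / Wm) ^ 2 := mul_le_mul_of_nonneg_left h4 (by positivity)
        _ = (MB + NN) * C1 ^ 2 / Wm ^ 2 := by rw [div_pow]; ring
    have h5 : |(∑ s, (Complex.I * Real.pi * ((w s : ℝ) : ℂ) * tZ X u s ^ 2 / 4 +
        kc (cc s) * (Complex.I * Real.pi) * tZ X u s)).re| ≤ c * (27 * KK / 2) / Wm ^ 2 := by
      rw [Complex.re_sum]
      refine (Finset.abs_sum_le_sum_abs _ _).trans ?_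
      calc ∑ s, |(Complex.I * Real.pi * ((w s : ℝ) : ℂ) * tZ X u s ^ 2 / 4 +
            kc (cc s) * (Complex.I * Real.pi) * tZ X u s).re| ≤
            ∑ _s : Fin c, 27 * KK / 2 / Wm ^ 2 := by
            refine Finset.sum_le_sum fun s _ => ?_
            rcases hcs : cc s with _ | _
            · have hk : kc false = 1 := rfl
              rw [hk, one_mul]
              refine ((hζ s hcs).2.2.2).trans ?_
              refine div_le_div₀ (by positivity) ?_ (by positivity) (hwsq s hcs)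
              linarith [hKle s]
            · rw [hζ0 s hcs]
              simp only [ne_eq, OfNat.ofNat_ne_zero, not_false_eq_true, zero_pow, mul_zero,
                zero_div, add_zero, Complex.zero_re, abs_zero]
              positivity
        _ = c * (27 * KK / 2) / Wm ^ 2 := by
            rw [Finset.sum_const, Finset.card_univ, Fintype.card_fin, nsmul_eq_mul]
            ring
    rw [hPh, Complex.add_re]
    have h6 : (eP X u + QH H X.τ (tT X u)).re + (∑ s, (Complex.I * Real.pi * ((w s : ℝ) : ℂ) * tZ X u s ^ 2 / 4 +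
        kc (cc s) * (Complex.I * Real.pi) * tZ X u s)).re - ∑ s, v0 (X.α s) =
        ((eP X u + QH H X.τ (tT X u)).re - ∑ s, v0 (X.α s)) + (∑ s, (Complex.I * Real.pi * ((w s : ℝ) : ℂ) *
          tZ X u s ^ 2 / 4 + kc (cc s) * (Complex.I * Real.pi) * tZ X u s)).re := by ring
    rw [h6]
    refine (abs_add_le _ _).trans ((add_le_add h2 h5).trans ?_)
    rw [← add_div]
    refine div_le_div_of_nonneg_right ?_ (by positivity)
    linarith
  · -- uniqueness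
    intro T' J' ζ' hCr' hNr'
    have h1 := gQ_mono X H cc hX hκ hB hκ1 hlat hρ hρr w (NR_of_Nr X hNr') huR
    rw [of_CrQ X H cc hCr', hz, sub_zero, Complex.zero_re] at h1
    have h2 : 0 < 2 * κ * κ1 := by positivity
    have h3 : ∑ i, ‖(pk X T' J' ζ' - u) i‖ ^ 2 ≤ 0 := by
      by_contra hcon
      have := mul_pos h2 (not_le.1 hcon)
      linarith
    have h4 : pk X T' J' ζ' - u = 0 := by
      have h5 := (pi_sq_le X (pk X T' J' ζ' - u)).trans h3
      have h6 : ‖pk X T' J' ζ' - u‖ = 0 := by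
        have := sq_nonneg ‖pk X T' J' ζ' - u‖
        have h7 : ‖pk X T' J' ζ' - u‖ ^ 2 = 0 := le_antisymm h5 this
        exact pow_eq_zero_iff (two_ne_zero) |>.1 h7
      exact norm_eq_zero.1 h6
    have h5 : pk X T' J' ζ' = u := sub_eq_zero.1 h4
    rw [← h5, tT_pk, tJ_pk X T' ζ' hCr'.aj, tZ_pk]
    exact ⟨rfl, rfl, rfl⟩

end Pool.Agent.H760.TX
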