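import Pool.Agent.H760.TX.Net4
import Pool.Agent.H760.TX.Ops
import Pool.Agent.H760.MX.NZ

/-!
# Mixed augmentation in the thickened torus: the state sum of the network

Adapted from `MX/NZ.lean` and `MX/St.lean`.
-/

set_option autoImplicit false

namespace Pool.Agent.H760.TX

open Finset Filter Topology
open Pool.Agent.Q99.HT
open Pool.Agent.Q191.LB (sg)
open Pool.Agent.Q99.FAL (Pc Ty fV n1 n2 cor dn toR eij zz nV)
open Pool.Agent.Q99.KN (Wk Fk zl ez S_PF S_WR S_SY Rgn)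
open Pool.Agent.Q261.HT (cv_add cv_smul cv_sum xq cv_xq cor_of_cv n12_xq xq_45 eq_xq xq_bd Ps_cv)
open Pool.Agent.H760.TT (Vx TS LT XT AT mem_LT span_LT LR_TS TS_add TS_sub TS_map
  TS_cor TS_castR TS_smulR TS_zero Val Cell)
open Pool.Agent.H760.MX

variable {D : List Vx} {k m d : ℕ}

/-- sums over the labels of all vertices -/
lemma sum_prodC {N : ℕ} : ∀ (c : ℕ) (W W' : Fin c → (Fin 6 → Fin N) → ℂ) (κ : Fin c → ℂ)
    (_ : ∀ b (Φ : (Fin 4 → ℤ) → ℂ), ∑ x, W b x * Φ (cor (zz x)) =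
      κ b * ∑ x, W' b x * Φ (cor (zz x))) (Ψ : (Fin c → Fin 4 → ℤ) → ℂ),
    ∑ v : Fin c → Fin 6 → Fin N, (∏ b, W b (v b)) * Ψ (fun b => cor (zz (v b))) =
      (∏ b, κ b) * ∑ v : Fin c → Fin 6 → Fin N, (∏ b, W' b (v b)) *
        Ψ (fun b => cor (zz (v b)))
  | 0, W, W', κ, h, Ψ => by simp
  | c + 1, W, W', κ, h, Ψ => by
    have key : ∀ (V : Fin (c + 1) → (Fin 6 → Fin N) → ℂ),
        ∑ v : Fin (c + 1) → Fin 6 → Fin N, (∏ b, V b (v b)) * Ψ (fun b => cor (zz (v b))) =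
        ∑ x : Fin 6 → Fin N, V 0 x * ∑ v : Fin c → Fin 6 → Fin N, (∏ b : Fin c, V b.succ (v b)) *
          Ψ (Fin.cons (cor (zz x)) fun b => cor (zz (v b))) := by
      intro V
      refine Eq.trans ((Fin.consEquiv (fun _ : Fin (c + 1) => Fin 6 → Fin N)).sum_comp _).symm ?_
      rw [Fintype.sum_prod_type]
      refine Finset.sum_congr rfl fun x _ => ?_
      rw [Finset.mul_sum]
      refine Finset.sum_congr rfl fun v _ => ?_
      rw [Fin.prod_univ_succ]
      have e : (fun b : Fin (c + 1) => cor (zz ((Fin.consEquiv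
          (fun _ : Fin (c + 1) => Fin 6 → Fin N)) (x, v) b))) =
          Fin.cons (α := fun _ => Fin 4 → ℤ) (cor (zz x)) (fun b => cor (zz (v b))) := by
        funext b
        refine Fin.cases ?_ (fun i => ?_) b
        · rfl
        · rfl
      rw [e, mul_assoc]
      rfl
    rw [key W, key W']
    have ih : ∀ q : Fin 4 → ℤ, ∑ v : Fin c → Fin 6 → Fin N, (∏ b : Fin c, W b.succ (v b)) *
        Ψ (Fin.cons q fun b => cor (zz (v b))) = (∏ b : Fin c, κ b.succ) *
        ∑ v : Fin c → Fin 6 → Fin N, (∏ b : Fin c, W' b.succ (v b)) *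
          Ψ (Fin.cons q fun b => cor (zz (v b))) := fun q =>
      sum_prodC c (fun b => W b.succ) (fun b => W' b.succ) (fun b => κ b.succ)
        (fun b => h b.succ) (fun v => Ψ (Fin.cons q v))
    simp only [ih]
    have h0 := h 0 (fun q => (∏ b : Fin c, κ b.succ) *
        ∑ v : Fin c → Fin 6 → Fin N, (∏ b : Fin c, W' b.succ (v b)) *
          Ψ (Fin.cons q fun b => cor (zz (v b))))
    rw [h0, Fin.prod_univ_succ, mul_assoc]
    congr 1
    rw [Finset.mul_sum]
    refine Finset.sum_congr rfl fun x _ => ?_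
    ring

/-- a vector with given corners -/
def rep (q : Fin 4 → ℤ) : Fin 6 → ℤ := ![q 0, q 1, q 3, q 2, 0, 0]

lemma cor_rep (x : Fin 6 → ℤ) : cor (rep (cor x)) = cor x := by
  funext i
  fin_cases i
  · rfl
  · show x 1 + x 4 + 0 = x 1 + x 4
    ring
  · rfl
  · show x 2 + x 5 + 0 = x 2 + x 5
    ring

lemma n_rep (x : Fin 6 → ℤ) : n1 (rep (cor x)) + n2 (rep (cor x)) = n1 x + n2 x := by
  show x 0 + (x 1 + x 4) + (x 2 + x 5) + (x 3 + 0 + 0) = x 0 + x 1 + x 2 + (x 3 + x 4 + x 5)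
  ring

lemma TS_rep (x : Fin D.length → Fin 6 → ℤ) (u : ℤ) :
    TS k m D (fun b => rep (cor (x b))) u ↔ TS k m D x u :=
  ⟨fun h => TS_cor _ _ _ (fun b => cor_rep (x b)) (fun b => n_rep (x b)) h,
    fun h => TS_cor _ _ _ (fun b => (cor_rep (x b)).symm) (fun b => (n_rep (x b)).symm) h⟩

open Classical in
/-- **the weights of the regions.** -/
theorem sum_wt {N : ℕ} (hN : 0 < N) (cc : Fin D.length → Bool) (f : Fin D.length → Bool × ℕ)
    (P0 : (Fin D.length → Fin 6 → ℤ) → ℂ)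
    (hP : ∀ x x' : Fin D.length → Fin 6 → ℤ, (∀ b, cor (x b) = cor (x' b)) → P0 x = P0 x') :
    (∑ v : Fin D.length → Fin 6 → Fin N, if TS k m D (fun b => zz (v b)) ((N : ℤ) - 1) then
      (∏ b, (rg N (cc b) (f b).1 (f b).2).wt (zz (v b))) * P0 (fun b => zz (v b)) else 0) =
    (∏ b, kp (cc b)) * ∑ v : Fin D.length → Fin 6 → Fin N,
      if TS k m D (fun b => zz (v b)) ((N : ℤ) - 1) then
      (∏ b, t3 (Fx N (cc b) (wf f b)) (zz (v b))) * P0 (fun b => zz (v b)) else 0 := by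
  have h := sum_prodC D.length
    (fun b x => if n1 (zz x) + n2 (zz x) = (N : ℤ) - 1 then
      (rg N (cc b) (f b).1 (f b).2).wt (zz x) else 0)
    (fun b x => if n1 (zz x) + n2 (zz x) = (N : ℤ) - 1 then
      t3 (Fx N (cc b) (wf f b)) (zz x) else 0) (fun b => kp (cc b)) (fun b Φ => by
        simp only [ite_mul, zero_mul]
        exact sum_rg hN (cc b) (f b).1 (f b).2 Φ)
    (fun q => if TS k m D (fun b => rep (q b)) ((N : ℤ) - 1) then P0 (fun b => rep (q b)) else 0)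
  have gen : ∀ V : Fin D.length → (Fin 6 → Fin N) → ℂ, ∀ v : Fin D.length → Fin 6 → Fin N,
      (∏ b, (if n1 (zz (v b)) + n2 (zz (v b)) = (N : ℤ) - 1 then V b (v b) else 0)) *
      (if TS k m D (fun b => rep (cor (zz (v b)))) ((N : ℤ) - 1) then
        P0 (fun b => rep (cor (zz (v b)))) else 0) =
      if TS k m D (fun b => zz (v b)) ((N : ℤ) - 1) then
      (∏ b, V b (v b)) * P0 (fun b => zz (v b)) else 0 := by
    intro V v
    by_cases ht : TS k m D (fun b => zz (v b)) ((N : ℤ) - 1)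
    · rw [if_pos ((TS_rep _ _).2 ht), if_pos ht]
      congr 1
      · exact Finset.prod_congr rfl fun b _ => if_pos (ht.1 b)
      · exact hP _ _ fun b => cor_rep (zz (v b))
    · rw [if_neg fun h' => ht ((TS_rep _ _).1 h'), if_neg ht, mul_zero]
  have e1 := Finset.sum_congr rfl fun v (_ : v ∈ (univ : Finset (Fin D.length → Fin 6 → Fin N))) =>
    gen (fun b x => (rg N (cc b) (f b).1 (f b).2).wt (zz x)) v
  have e2 := Finset.sum_congr rfl fun v (_ : v ∈ (univ : Finset (Fin D.length → Fin 6 → Fin N))) =>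
    gen (fun b x => t3 (Fx N (cc b) (wf f b)) (zz x)) v
  exact e1.symm.trans (h.trans (congrArg (fun z => (∏ b, kp (cc b)) * z) e2))

open Classical in
theorem nz_gen {a : Fin D.length → Fin 6 → ℝ}
    {β : Fin D.length → Bool} {Y : Nw D.length d} (hY : NetT k m D a β Y) {N : ℕ}
    (F : Fin D.length → ℕ → ℕ → ℕ → ℂ) (P0 : (Fin D.length → Fin 6 → ℤ) → ℂ) (Q0 : (Fin d → ℤ) → ℂ)
    (hPQ : ∀ (t : Fin d → ℤ) (x : Fin D.length → Fin 6 → ℤ), TS k m D x ((N : ℤ) - 1) →
      (∀ s, cv (β s) (x s) = Y.q N t s) → P0 x = Q0 t) (hs : ∀ s A b C, A + b + C < N → F s A (N - 1 - A - b - C) C = F s A b C) :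
    (∑ a : Fin D.length → Fin 6 → Fin N,
      if TS k m D (fun k => zz (a k)) ((N : ℤ) - 1) then (∏ k, t3 (F k) (zz (a k))) *
        P0 (fun k => zz (a k)) else 0) =
    ∑' t : Fin d → ℤ, (∏ s, F3 N (F s) (Y.q N t s)) * Q0 t := by
  obtain ⟨a0, ha0, hq0⟩ := hY.q0
  choose δ hδS hδE using hY.E1
  set L := LT k m D with hL
  -- the corners of the lattice point `t`
  have hYq : ∀ (t : Fin d → ℤ) (s : Fin D.length) (i : Fin 3),
      Y.q N t s i = cv (β s) ((((N : ℤ) - 1) • a0 + ∑ j, t j • δ j) s) i := by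
    intro t s i
    have e1 : (((N : ℤ) - 1) • a0 + ∑ j, t j • δ j) s =
        ((N : ℤ) - 1) • a0 s + ∑ j, t j • δ j s := by
      rw [Pi.add_apply, Finset.sum_apply]
      rfl
    rw [e1, cv_add, cv_smul, cv_sum, ← hq0 s]
    unfold Nw.q
    simp only [hδE]
  have hyS : ∀ t : Fin d → ℤ, TS k m D (((N : ℤ) - 1) • a0 + ∑ j, t j • δ j) ((N : ℤ) - 1) := by
    intro t
    have h1 : (∑ j, t j • δ j) ∈ L := L.sum_mem fun j _ => L.smul_mem _ (hδS j)
    have h3 := TS_smulG _ _ ((N : ℤ) - 1) ha0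
    have h2 := TS_add k _ _ _ _ h3 ((mem_LT _).1 h1)
    rw [mul_one, add_zero] at h2
    exact h2
  -- the angles of the lattice point `t`
  have hxS : ∀ t : Fin d → ℤ, TS k m D (fun s => xq (β s) ((N : ℤ) - 1) (Y.q N t s))
      ((N : ℤ) - 1) := by
    intro t
    refine TS_cor _ _ _ (fun s => ?_) (fun s => ?_) (hyS t)
    · refine cor_of_cv (β := β s) (fun i => ?_) ?_
      · rw [← hYq, cv_xq]
      · rw [n12_xq]
        exact (hyS t).1 s
    · rw [n12_xq]
      exact (hyS t).1 s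
  -- both sides as sums over subtypes
  let P : (Fin D.length → Fin 6 → Fin N) → Prop := fun a =>
    TS k m D (fun k => zz (a k)) ((N : ℤ) - 1) ∧ ∀ k, zz (a k) 4 = 0 ∧ zz (a k) 5 = 0
  let Q : (Fin d → ℤ) → Prop := fun t => ∀ s, Ps N (Y.q N t s)
  let g : {t // Q t} → {a // P a} := fun t =>
    ⟨fun s i => ⟨(xq (β s) ((N : ℤ) - 1) (Y.q N t.1 s) i).toNat, by
      have := xq_bd (β s) (t.2 s) i
      omega⟩, by
      have e : (fun k => zz (fun i => (⟨(xq (β k) ((N : ℤ) - 1) (Y.q N t.1 k) i).toNat, by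
          have := xq_bd (β k) (t.2 k) i
          omega⟩ : Fin N))) = fun k => xq (β k) ((N : ℤ) - 1) (Y.q N t.1 k) := by
        funext k i
        show ((xq (β k) ((N : ℤ) - 1) (Y.q N t.1 k) i).toNat : ℤ) = _
        rw [Int.toNat_of_nonneg (xq_bd (β k) (t.2 k) i).1]
      refine ⟨?_, fun k => ?_⟩
      · rw [e]
        exact hxS t.1
      · have ek := congrFun e k
        rw [ek]
        exact xq_45 _ _ _⟩
  have hg : ∀ (t : {t // Q t}) (s : Fin D.length),
      zz ((g t).1 s) = xq (β s) ((N : ℤ) - 1) (Y.q N t.1 s) := by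
    intro t s
    funext i
    show ((xq (β s) ((N : ℤ) - 1) (Y.q N t.1 s) i).toNat : ℤ) = _
    rw [Int.toNat_of_nonneg (xq_bd (β s) (t.2 s) i).1]
  have hgi : Function.Injective g := by
    intro t t' h
    have h1 : ∀ s i, Y.q N t.1 s i = Y.q N t'.1 s i := by
      intro s i
      have h2 := hg t s
      rw [h, hg t' s] at h2
      rw [← cv_xq (β s) ((N : ℤ) - 1) (Y.q N t.1 s), ← h2, cv_xq]
    have h3 := hY.inj (fun j => ((t.1 j - t'.1 j : ℤ) : ℝ)) (fun s i => by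
      have h4 : ∑ j, (t.1 j - t'.1 j) * Y.E j s i = 0 := by
        have h5 := h1 s i
        unfold Nw.q at h5
        simp only [sub_mul, Finset.sum_sub_distrib]
        linarith
      exact_mod_cast h4)
    apply Subtype.ext
    funext j
    have h6 := congrFun h3 j
    have h7 : ((t.1 j - t'.1 j : ℤ) : ℝ) = 0 := h6
    have h8 : t.1 j - t'.1 j = 0 := by exact_mod_cast h7
    linarith
  have hgs : Function.Surjective g := by
    rintro ⟨a', h1, h2⟩
    have hn : ∀ k i, (0 : ℤ) ≤ zz (a' k) i := fun k i => by unfold zz; positivity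
    have hsum := h1.1
    set x : Fin D.length → Fin 6 → ℤ := fun k => zz (a' k) with hx
    have hδ : TS k m D (x - ((N : ℤ) - 1) • a0) 0 := by
      have h4 := TS_sub k _ _ _ _ h1 (TS_smulG _ _ ((N : ℤ) - 1) ha0)
      rw [mul_one, sub_self] at h4
      exact h4
    obtain ⟨t, ht, -⟩ := hY.E2 _ hδ
    have hq : ∀ s, cv (β s) (x s) = Y.q N t s := by
      intro s
      funext i
      have h5 := ht s i
      have e1 : (x - ((N : ℤ) - 1) • a0) s = x s + (-((N : ℤ) - 1)) • a0 s := by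
        rw [Pi.sub_apply, Pi.smul_apply, neg_smul, sub_eq_add_neg]
      rw [e1, cv_add, cv_smul] at h5
      unfold Nw.q
      rw [hq0 s]
      linarith
    have hQ : Q t := by
      intro s
      rw [← hq s]
      exact Ps_cv (β s) (hn s) (hsum s)
    refine ⟨⟨t, hQ⟩, ?_⟩
    apply Subtype.ext
    funext s i
    apply Fin.ext
    have h6 := congrFun (hg ⟨t, hQ⟩ s) i
    have h7 : xq (β s) ((N : ℤ) - 1) (Y.q N t s) = x s := by
      rw [← hq s]
      exact (eq_xq (h2 s).1 (h2 s).2 (hsum s)).symm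
    rw [h7] at h6
    have h8 : (((g ⟨t, hQ⟩).1 s i : ℕ) : ℤ) = ((a' s i : ℕ) : ℤ) := h6
    exact_mod_cast h8
  let e : {t // Q t} ≃ {a // P a} := Equiv.ofBijective g ⟨hgi, hgs⟩
  -- the left side
  have hl : (∑ a : Fin D.length → Fin 6 → Fin N,
      if TS k m D (fun k => zz (a k)) ((N : ℤ) - 1) then (∏ k, t3 (F k) (zz (a k))) *
        P0 (fun k => zz (a k)) else 0) = ∑ a : {a // P a}, (∏ k, t3 (F k) (zz (a.1 k))) *
        P0 (fun k => zz (a.1 k)) := by
    rw [← Finset.sum_subtype (Finset.univ.filter P) (p := P) (by simp)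
      (fun a' => (∏ k, t3 (F k) (zz (a' k))) * P0 (fun k => zz (a' k))), Finset.sum_filter]
    refine Finset.sum_congr rfl fun a' _ => ?_
    by_cases h1 : TS k m D (fun k => zz (a' k)) ((N : ℤ) - 1)
    · by_cases h2 : ∀ k, zz (a' k) 4 = 0 ∧ zz (a' k) 5 = 0
      · rw [if_pos h1, if_pos (show P a' from ⟨h1, h2⟩)]
      · rw [if_pos h1, if_neg (show ¬ P a' from fun h => h2 h.2)]
        push Not at h2
        obtain ⟨k, hk⟩ := h2
        rw [Finset.prod_eq_zero (Finset.mem_univ k), zero_mul]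
        unfold t3
        rw [if_neg]
        rintro ⟨h3, h4⟩
        exact hk h3 h4
    · rw [if_neg h1, if_neg (show ¬ P a' from fun h => h1 h.1)]
  have hr : (∑' t : Fin d → ℤ, (∏ s, F3 N (F s) (Y.q N t s)) * Q0 t) =
      ∑' t : {t // Q t}, (∏ s, F3 N (F s) (Y.q N t.1 s)) * Q0 t.1 := by
    refine (tsum_subtype_eq_of_support_subset (s := {t | Q t}) ?_).symm
    intro t ht
    by_contra hcon
    have hcon' : ¬ ∀ s, Ps N (Y.q N t s) := hcon
    push Not at hcon'
    obtain ⟨s, hs⟩ := hcon'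
    refine ht ?_
    show (∏ s, F3 N (F s) (Y.q N t s)) * Q0 t = 0
    rw [Finset.prod_eq_zero (Finset.mem_univ s), zero_mul]
    unfold F3
    rw [if_neg hs]
  have h9 : ∑ a' : {a // P a}, (∏ k, t3 (F k) (zz (a'.1 k))) * P0 (fun k => zz (a'.1 k)) =
      ∑' a' : {a // P a}, (∏ k, t3 (F k) (zz (a'.1 k))) * P0 (fun k => zz (a'.1 k)) :=
    (tsum_fintype _).symm
  rw [hl, hr, h9, ← e.tsum_eq]
  refine tsum_congr fun t => ?_
  have hgt : (fun k => zz ((e t).1 k)) = fun s => xq (β s) ((N : ℤ) - 1) (Y.q N t.1 s) := by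
    funext s
    exact hg t s
  rw [hgt, hPQ t.1 _ (hxS t.1) (fun s => cv_xq (β s) _ _)]
  congr 1
  refine Finset.prod_congr rfl fun s _ => ?_
  show t3 (F s) (zz ((g t).1 s)) = _
  rw [hg t s]
  exact t3_xq (F s) (hs s) (β s) (t.2 s)

end Pool.Agent.H760.TX
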