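import Pool.Agent.H760.TX.Stt

/-!
# Mixed augmentation in the thickened torus: the trace as the state sum of the network
-/

set_option autoImplicit false

namespace Pool.Agent.H760.TX

open Finset Filter Topology
open Pool.Agent.W715.VC (rt rt_ne)
open Pool.Agent.W709.QAT (Piece run)
open Pool.Agent.Q99.HT
open Pool.Agent.Q191.TW (cs cs_add cs_zero cs_ne cs_neg cs_norm)
open Pool.Agent.Q191.LB (sg)
open Pool.Agent.Q98.FAL (nu_ne nu_add nu_norm)
open Pool.Agent.Q99.FP2 (nu_cs)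
open Pool.Agent.Q99.FAL (Pc Ty fV n1 n2 cor dn toR eij zz nV nu)
open Pool.Agent.Q99.KN (Wk Fk zl ez Rgn)
open Pool.Agent.Q99.HU.Q166 (Vu Vu_one Vu_zero)
open Pool.Agent.H760.TT (Vx TS LT XT AT mem_LT span_LT LR_TS TS_add TS_sub TS_map
  TS_cor TS_castR TS_smulR TS_zero Val Cell gS gK gS_eq gK_eq evx Gof Gof_cor Kf lw lw_evx lw_evxZ dv
  Flat cs_split wr exD exD_len sL sL_congr Exa state_swap)
open Pool.Agent.H760.MX

variable {D : List Vx} {k m d N : ℕ}

lemma lw_ev {c : ℕ} (w : Fin c → Fin 6 → ℤ) (x : Fin c → Fin 6 → ℝ) : lw w x = ev w x := rfl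

section hol
variable {a : Fin D.length → Fin 6 → ℝ} {β : Fin D.length → Bool} {Y : Nw D.length d}

/-- the relations between the data of the holonomies and the network -/
structure HolN (k m : ℕ) (D : List Vx) (a : Fin D.length → Fin 6 → ℝ) (β : Fin D.length → Bool)
    {d : ℕ} (Y : Nw D.length d) (j l : ℤ) (H : Hol d) : Prop where
  s1 : ∀ (T : Fin d → ℂ) (J ζ : Fin D.length → ℂ),
    ev (gS k m D) (fun s => sx (β s) (1 / 2) (Y.v T J s) (ζ s)) =
      ((ev (gS k m D) a : ℝ) : ℂ) + lt H.f Y.τ T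
  k1 : ∀ (T : Fin d → ℂ) (J ζ : Fin D.length → ℂ),
    ev (gK k m D) (fun s => sx (β s) (1 / 2) (Y.v T J s) (ζ s)) =
      ((ev (gK k m D) a : ℝ) : ℂ) + lt H.g Y.τ T
  s0 : ∀ (T : Fin d → ℂ) (J ζ : Fin D.length → ℂ),
    ev (gS k m D) (fun s => sx (β s) 0 (Y.dv T J s) (ζ s)) = lf H.f T
  k0 : ∀ (T : Fin d → ℂ) (J ζ : Fin D.length → ℂ),
    ev (gK k m D) (fun s => sx (β s) 0 (Y.dv T J s) (ζ s)) = lf H.g T
  ph : ∀ (N : ℕ), 0 < N → ∀ (t : Fin d → ℤ) (x : Fin D.length → Fin 6 → ℤ),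
    TS k m D x ((N : ℤ) - 1) → (∀ s, cv (β s) (x s) = Y.q N t s) →
    cs N (2 * ((lw (gS k m D) (dv N a x) - j) * (lw (gK k m D) (dv N a x) - l))) =
      GH H Y.τ N (fun i => (t i : ℂ) / N)

theorem hol_net (hY : NetT k m D a β Y) (ha : TS k m D a 1) (j l : ℤ) :
    ∃ H : Hol d, HolN k m D a β Y j l H := by
  obtain ⟨f, hf1, hf2⟩ := ev_net hY ha (CoF_gS k m D)
  obtain ⟨g, hg1, hg2⟩ := ev_net hY ha (CoF_gK k m D)
  obtain ⟨u, hu⟩ : ∃ u : ℝ, u = (∑ i, Y.τ i * f i) - j := ⟨_, rfl⟩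
  obtain ⟨v, hv⟩ : ∃ v : ℝ, v = (∑ i, Y.τ i * g i) - l := ⟨_, rfl⟩
  have one : ∀ (T : Fin d → ℂ) (J ζ : Fin D.length → ℂ),
      (fun s => sx (β s) (1 / 2) (Y.v T J s) (ζ s)) =
      fun s => sx (β s) ((1 : ℂ) / 2) (Vu Y 1 T J s) (ζ s) := by
    intro T J ζ
    funext s
    rw [Vu_one]
  have zer : ∀ (T : Fin d → ℂ) (J ζ : Fin D.length → ℂ),
      (fun s => sx (β s) 0 (Y.dv T J s) (ζ s)) =
      fun s => sx (β s) ((0 : ℂ) / 2) (Vu Y 0 T J s) (ζ s) := by
    intro T J ζ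
    funext s
    rw [Vu_zero, zero_div]
  refine ⟨⟨f, g, u, v⟩, ?_, ?_, ?_, ?_, ?_⟩
  · intro T J ζ
    rw [one, hf1 1 T _ (fun s => n_sx 1 T J ζ s) (fun s i => cv_sx 1 T J ζ s i)]
    unfold lt
    simp only [one_mul]
  · intro T J ζ
    rw [one, hg1 1 T _ (fun s => n_sx 1 T J ζ s) (fun s i => cv_sx 1 T J ζ s i)]
    unfold lt
    simp only [one_mul]
  · intro T J ζ
    rw [zer, hf1 0 T _ (fun s => n_sx 0 T J ζ s) (fun s i => cv_sx 0 T J ζ s i)]
    unfold lf
    simp only [zero_mul, sub_zero, zero_add]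
  · intro T J ζ
    rw [zer, hg1 0 T _ (fun s => n_sx 0 T J ζ s) (fun s i => cv_sx 0 T J ζ s i)]
    unfold lf
    simp only [zero_mul, sub_zero, zero_add]
  · intro N hN t x hx hc
    have hN0 : (N : ℂ) ≠ 0 := by exact_mod_cast hN.ne'
    have hn : ∀ s, n1 (fun i => ((x s i : ℤ) : ℝ)) + n2 (fun i => ((x s i : ℤ) : ℝ)) =
        (N : ℝ) - 1 := by
      have h1 := TS_castG (R := ℝ) x _ hx
      intro s
      have := h1.1 s
      rw [this]
      push_cast
      ring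
    have hcc : ∀ s i, cv (β s) (fun i => ((x s i : ℤ) : ℝ)) i = ((N : ℝ) - 1) * (Y.q0 s i : ℝ) +
        ∑ j, (t j : ℝ) * (Y.E j s i : ℝ) := by
      intro s i
      rw [cv_int, hc s]
      unfold Nw.q
      push_cast
      rfl
    have gen : ∀ (w : Fin D.length → Fin 6 → ℤ) (φ : Fin d → ℝ) (z : ℤ),
        (∀ (u : ℝ) (T : Fin d → ℝ) (x : Fin D.length → Fin 6 → ℝ), (∀ s, n1 (x s) + n2 (x s) = u) →
        (∀ s i, cv (β s) (x s) i = u * (Y.q0 s i : ℝ) + ∑ j, T j * (Y.E j s i : ℝ)) →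
        ev w x = u * ev w a + ∑ j, (T j - u * Y.τ j) * φ j) →
        ((lw w (dv N a x) - z : ℝ) : ℂ) = N * (lt φ Y.τ (fun i => (t i : ℂ) / N) +
          (((∑ i, Y.τ i * φ i) - z : ℝ) : ℂ) / N) := by
      intro w φ z hw
      have h2 := hw ((N : ℝ) - 1) (fun i => (t i : ℝ)) (fun s i => ((x s i : ℤ) : ℝ)) hn hcc
      have e : dv N a x = (fun s i => ((x s i : ℤ) : ℝ)) - ((N : ℝ) - 1) • a := by
        funext b i
        rfl
      rw [lw_ev, e, ev_sub, ev_smul, h2]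
      unfold lt
      rw [mul_add, mul_div_cancel₀ _ hN0, Finset.mul_sum]
      push_cast
      rw [add_sub_cancel_left, ← add_sub_assoc, ← Finset.sum_add_distrib]
      congr 1
      refine Finset.sum_congr rfl fun i _ => ?_
      field_simp
      ring
    have e1 := gen (gS k m D) f j hf2
    have e2 := gen (gK k m D) g l hg2
    rw [← hu] at e1
    rw [← hv] at e2
    rw [GH_eq _ _ hN]
    unfold cs
    congr 1
    push_cast at e1 e2 ⊢
    rw [e1, e2]
    show _ = 2 * (Real.pi : ℂ) * Complex.I * N * ((lt f Y.τ (fun i => (t i : ℂ) / N) + (u : ℂ) / N) *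
      (lt g Y.τ (fun i => (t i : ℂ) / N) + (v : ℂ) / N))
    field_simp

end hol

/-- the regions of the vertices -/
noncomputable def rgD (N : ℕ) (cc : Fin D.length → Bool) (f : Fin D.length → Bool × ℕ) :
    Fin D.length → Rgn N := fun b => rg N (cc b) (f b).1 (f b).2

lemma rgD_ok (hN : 0 < N) (cc : Fin D.length → Bool) (f : Fin D.length → Bool × ℕ)
    (b : Fin D.length) : (rgD N cc f b).Ok := rg_ok hN _ _ _

/-- the constants of the trace -/
noncomputable def phT (D : List Vx) (m : ℕ) (cc : Fin D.length → Bool)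
    (f : Fin D.length → Bool × ℕ) (j l : ℤ) (N : ℕ) : ℂ :=
  TDG D (rgD N cc f) (m + 1) 0 * cs N (((m + 1 : ℕ) : ℝ) * wr D * ((N : ℝ) - 1) ^ 2 / 2) *
    cs N (N * ((N : ℝ) - 1) * (j * wr D - l * ((m + 1 : ℕ) : ℤ)))

lemma phT_norm (hN : 0 < N) (h : Val D (m + 1) (m + 1)) (cc : Fin D.length → Bool)
    (f : Fin D.length → Bool × ℕ) (j l : ℤ) : ‖phT D m cc f j l N‖ = 1 := by
  rw [phT, norm_mul, norm_mul, cs_norm, cs_norm, TDG_norm hN D _ (rgD_ok hN cc f) _ _ 0 h, one_mul,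
    one_mul]

open Classical in
/-- **the trace is the state sum of the network** -/
theorem trace_Zq (hN : 0 < N) (h : Val D (m + 1) (m + 1)) (hC : Cell D m k)
    {a : Fin D.length → Fin 6 → ℝ} {β : Fin D.length → Bool} {Y : Nw D.length d}
    (hY : NetT k m D a β Y) (j l : ℤ) (hF : Flat k m D a j l) (cc : Fin D.length → Bool)
    (f : Fin D.length → Bool × ℕ) (H : Hol d) (hH : HolN k m D a β Y j l H) :
    ∑ t : Fin (m + 1) → Fin N, FDG D (rgD N cc f) (Pool.Agent.Q191.TW.dl (List.ofFn t))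
      (List.ofFn t) =
      (N : ℂ) ^ D.length * phT D m cc f j l N * (∏ b, kp (cc b)) * Zq Y H N cc (wf f) := by
  have hex : exD D = D.length := by
    have := exD_len D _ _ h
    omega
  rw [trace_stateG hN D (rgD N cc f) (rgD_ok hN cc f) m h, hex, mul_assoc, mul_assoc]
  congr 1
  obtain ⟨F, hFd⟩ : ∃ F : (Fin D.length → Fin 6 → Fin N) → List ℤ → ℂ, F = fun v G =>
      TDG D (rgD N cc f) (m + 1) G.sum * (wtG D (rgD N cc f) (fun b => zz (v b)) *
            (nu N ((m + 1) * Kf D (fun b => zz (v b)) G) *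
              cs N (2 * (Kf D (fun b => zz (v b)) G) * (G.sum + (m + 1))))) := ⟨_, rfl⟩
  have e1 : sL m (fun M : List (Fin N) => ∑ y : Fin N,
        TDG D (rgD N cc f) (m + 1) (TT.Gp M y).sum * ∑ v : Fin D.length → Fin 6 → Fin N,
          if Exa N D (fun b => zz (v b)) (TT.Gp M y) then wtG D (rgD N cc f) (fun b => zz (v b)) *
            (nu N ((m + 1) * Kf D (fun b => zz (v b)) (TT.Gp M y)) *
              cs N (2 * (Kf D (fun b => zz (v b)) (TT.Gp M y)) * ((TT.Gp M y).sum + (m + 1)))) else 0) =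
      sL m (fun M : List (Fin N) => ∑ y : Fin N, ∑ v : Fin D.length → Fin 6 → Fin N,
          if Exa N D (fun b => zz (v b)) (TT.Gp M y) then F v (TT.Gp M y) else 0) := by
    refine sL_congr _ _ _ fun M _ => ?_
    refine Finset.sum_congr rfl fun y _ => ?_
    rw [Finset.mul_sum]
    refine Finset.sum_congr rfl fun v _ => ?_
    rw [mul_ite, mul_zero, hFd]
  refine Eq.trans e1 ?_
  rw [state_swap hN h hC F]
  have e2 : ∀ v : Fin D.length → Fin 6 → Fin N,
      (if TS k m D (fun b => zz (v b)) ((N : ℤ) - 1) then F v (Gof k m D (fun b => zz (v b))) else 0) =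
      phT D m cc f j l N * (if TS k m D (fun b => zz (v b)) ((N : ℤ) - 1) then
        (∏ b, (rg N (cc b) (f b).1 (f b).2).wt (zz (v b))) *
        cs N (2 * ((lw (gS k m D) (dv N a fun b => zz (v b)) - j) *
            (lw (gK k m D) (dv N a fun b => zz (v b)) - l))) else 0) := by
    intro v
    by_cases hs : TS k m D (fun b => zz (v b)) ((N : ℤ) - 1)
    swap
    · rw [if_neg hs, if_neg hs, mul_zero]
    rw [if_pos hs, if_pos hs, hFd]
    dsimp only
    obtain ⟨S, hS⟩ : ∃ S : ℤ, S = (Gof k m D (fun b => zz (v b))).sum := ⟨_, rfl⟩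
    obtain ⟨K, hK⟩ : ∃ K : ℤ, K = Kf D (fun b => zz (v b)) (Gof k m D (fun b => zz (v b))) := ⟨_, rfl⟩
    rw [← hS, ← hK]
    have hph := phaseG hN D (rgD N cc f) (m + 1) S K
    have q1 : (S : ℝ) - ((m + 1 : ℕ) : ℤ) * ((N : ℝ) - 1) / 2 =
        lw (gS k m D) (dv N a fun b => zz (v b)) + ((N : ℝ) - 1) * j := by
      have e : dv N a (fun b => zz (v b)) = (fun b i => ((zz (v b) i : ℤ) : ℝ)) -
          ((N : ℝ) - 1) • a := by
        funext b i
        rfl
      rw [e, map_sub, map_smul, lw_evxZ (gS k m D) (fun b => zz (v b)), lw_evx, ← gS_eq, ← gS_eq,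
        ← hS, hF.1, smul_eq_mul]
      push_cast
      ring
    have q2 : (K : ℝ) + wr D * ((N : ℝ) - 1) / 2 =
        lw (gK k m D) (dv N a fun b => zz (v b)) + ((N : ℝ) - 1) * l := by
      have e : dv N a (fun b => zz (v b)) = (fun b i => ((zz (v b) i : ℤ) : ℝ)) -
          ((N : ℝ) - 1) • a := by
        funext b i
        rfl
      rw [e, map_sub, map_smul, lw_evxZ (gK k m D) (fun b => zz (v b)), lw_evx, ← gK_eq, ← gK_eq,
        ← hK, hF.2, smul_eq_mul]
      ring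
    have hwt' : wtG D (rgD N cc f) (fun b => zz (v b)) =
        ∏ b, (rg N (cc b) (f b).1 (f b).2).wt (zz (v b)) := rfl
    have hsp := cs_split hN ((m + 1 : ℕ) : ℤ) (wr D) j l S K _ _ q1 q2
    rw [hwt']
    obtain ⟨W, hW⟩ : ∃ W, W = ∏ b, (rg N (cc b) (f b).1 (f b).2).wt (zz (v b)) := ⟨_, rfl⟩
    rw [← hW]
    have e4 : TDG D (rgD N cc f) (m + 1) S * (W *
        (nu N ((m + 1) * K) * cs N (2 * K * (S + (m + 1))))) =
        W * (TDG D (rgD N cc f) (m + 1) S * (nu N (((m + 1 : ℕ) : ℤ) * K) *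
          cs N (2 * K * (S + ((m + 1 : ℕ) : ℝ))))) := by
      push_cast
      ring
    rw [e4, hph]
    have e5 : (((m + 1 : ℕ) : ℤ) : ℝ) = ((m + 1 : ℕ) : ℝ) := by norm_cast
    rw [e5] at hsp
    rw [hsp]
    unfold phT
    rw [e5]
    ring
  rw [Finset.sum_congr rfl fun v _ => e2 v, ← Finset.mul_sum]
  congr 1
  have hcor : ∀ (w : Fin D.length → Fin 6 → ℤ), CoF w → ∀ x x' : Fin D.length → Fin 6 → ℤ,
      (∀ b, cor (x b) = cor (x' b)) → lw w (dv N a x) = lw w (dv N a x') := by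
    intro w hw x x' hx
    rw [lw_ev, lw_ev]
    apply hw
    intro b
    have h1 := hx b
    funext i
    have h2 := congrFun h1 i
    have h3 : ∀ y : Fin D.length → Fin 6 → ℤ, cor (dv N a y b) i =
        ((cor (y b) i : ℤ) : ℝ) - ((N : ℝ) - 1) * cor (a b) i := by
      intro y
      fin_cases i
      · show dv N a y b 0 = _
        rfl
      · show ((y b 1 : ℝ) - ((N : ℝ) - 1) * a b 1) + ((y b 4 : ℝ) - ((N : ℝ) - 1) * a b 4) =
          ((y b 1 + y b 4 : ℤ) : ℝ) - ((N : ℝ) - 1) * (a b 1 + a b 4)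
        push_cast
        ring
      · show dv N a y b 3 = _
        rfl
      · show ((y b 2 : ℝ) - ((N : ℝ) - 1) * a b 2) + ((y b 5 : ℝ) - ((N : ℝ) - 1) * a b 5) =
          ((y b 2 + y b 5 : ℤ) : ℝ) - ((N : ℝ) - 1) * (a b 2 + a b 5)
        push_cast
        ring
    rw [h3, h3, h2]
  have h1 := sum_wt (k := k) (m := m) hN cc f
    (fun x => cs N (2 * ((lw (gS k m D) (dv N a x) - j) * (lw (gK k m D) (dv N a x) - l))))
    (fun x x' hx => by
      rw [hcor _ (CoF_gS k m D) x x' hx, hcor _ (CoF_gK k m D) x x' hx])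
  rw [h1]
  congr 1
  exact nz_gen hY (fun s => Fx N (cc s) (wf f s))
    (fun x => cs N (2 * ((lw (gS k m D) (dv N a x) - j) * (lw (gK k m D) (dv N a x) - l))))
    (fun t => GH H Y.τ N (fun i => (t i : ℂ) / N)) (fun t x hx hc => hH.ph N hN t x hx hc)
    fun s A b C h => Fx_sym hN _ _ A b C h

end Pool.Agent.H760.TX
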