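import Pool.Agent.H760.TX.Bal
import Pool.Agent.H760.TT.Geo5
import Pool.Agent.H760.MX.Vc

/-!
# Mixed augmentation in the thickened torus: the modulus of the trace
-/

set_option autoImplicit false

namespace Pool.Agent.H760.TX

open Finset Filter Topology MeasureTheory
open Pool.Agent.Q99.FAL (Pc Ty fV n1 n2 cor dn)
open Pool.Agent.Q99.HT
open Pool.Agent.Q99.HU
open Pool.Agent.H760.TT (Vx TS AT Val Cell Flat)
open Pool.Agent.H760.MX

variable {D : List Vx} {k m : ℕ}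

/-- the trace -/
noncomputable def trN (N : ℕ) (m : ℕ) (D : List Vx) (cc : Fin D.length → Bool)
    (f : Fin D.length → Bool × ℕ) : ℂ :=
  ∑ t : Fin (m + 1) → Fin N, FDG D (rgD N cc f) (Pool.Agent.Q191.TW.dl (List.ofFn t))
    (List.ofFn t)

/-- the modulus -/
theorem finT_mod (h : Val D (m + 1) (m + 1)) (cc : Fin D.length → Bool)
    (f : Fin D.length → Bool × ℕ) (j l : ℤ) (P : ℂ) (V : ℝ) (hx : V = 2 * Real.pi * P.re) (z : ℂ)
    (hz : z ≠ 0)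
    (hlim : Tendsto (fun N : ℕ => (∑ t : Fin (m + 1) → Fin N, FDG D (rgD N cc f)
          (Pool.Agent.Q191.TW.dl (List.ofFn t)) (List.ofFn t)) /
        ((phT D m cc f j l N * (∏ b, kp (cc b)) * sgX cc N) *
          ((√N : ℝ) * Complex.exp (N * P)))) atTop (𝓝 z)) :
    ∃ c : ℝ, 0 < c ∧ Tendsto (fun N : ℕ => ‖trN N m D cc f‖ /
        (√N * Real.exp (N * (V / (2 * Real.pi))))) atTop (𝓝 c) := by
  have hpi := Real.pi_pos
  have hk0 : (∏ k, kp (cc k)) ≠ 0 := Finset.prod_ne_zero_iff.2 fun k _ => kp_ne _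
  refine ⟨‖z‖ * ‖∏ k, kp (cc k)‖, mul_pos (norm_pos_iff.2 hz) (norm_pos_iff.2 hk0), ?_⟩
  refine ((hlim.norm).mul_const ‖∏ k, kp (cc k)‖).congr' ?_
  filter_upwards [eventually_ge_atTop 1] with N hN
  have hN0 : 0 < N := hN
  have hE' : V / (2 * Real.pi) = P.re := by rw [hx]; field_simp
  have hkn : ‖∏ k, kp (cc k)‖ ≠ 0 := (norm_pos_iff.2 hk0).ne'
  have e3 : ((N : ℂ) * P).re = N * P.re := by simp
  show ‖trN N m D cc f / _‖ * _ = _
  rw [hE', norm_div, norm_mul, norm_mul, norm_mul, norm_mul, phT_norm hN0 h, sgX_norm, one_mul,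
    mul_one, Complex.norm_real, Real.norm_of_nonneg (Real.sqrt_nonneg _), Complex.norm_exp, e3]
  field_simp

/-- **the volume conjecture for partially augmented links in the thickened torus** -/
theorem vcT (h : Val D (m + 1) (m + 1)) (hC : Cell D m k)
    (cc : Fin D.length → Bool) (a : Fin D.length → Fin 6 → ℝ) (ha : MxT k m D a)
    (hq : Dmt k m D cc a) :
    ∃ ρ0 : ℝ, 0 < ρ0 ∧ ∀ ρ : ℝ, 0 < ρ → ρ ≤ ρ0 → ∃ W0 C : ℝ, 1 ≤ W0 ∧
    ∀ (f : Fin D.length → Bool × ℕ) (Wm : ℝ), W0 ≤ Wm → (∀ k, cc k = false → Wm ≤ (f k).2) →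
    ∃ x : Fin D.length → Fin 6 → ℂ, CrIT k m D a cc (wf f) x ∧ (∀ s i, ‖x s i - a s i‖ < ρ) ∧
      (∀ x', CrIT k m D a cc (wf f) x' → (∀ s i, ‖x' s i - a s i‖ < ρ) → x' = x) ∧
      (∀ s, cc s = true → n1 (x s) = n2 (x s)) ∧
      |VI x - 2 * Real.pi * fV a| ≤ C / Wm ^ 2 ∧
      ((∀ s, cc s = true) → VI x = 2 * Real.pi * fV a) ∧
      ∃ z : ℝ, 0 < z ∧ Tendsto (fun N : ℕ => ‖trN N m D cc f‖ /
        (√N * Real.exp (N * (VI x / (2 * Real.pi))))) atTop (𝓝 z) := by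
  obtain ⟨a0, -, h0⟩ := Pool.Agent.H760.TT.exists_a0 h hC a ha.mem.2.2 ha.mem.1
  obtain ⟨j, l, hF⟩ := Pool.Agent.H760.TT.flat_of h hC a ha.mem ha.pos ha.max
  obtain ⟨ρ0, hρ0, H⟩ := finT h hC a0 h0 cc a ha hq j l hF
  refine ⟨ρ0, hρ0, fun ρ hρ hρ' => ?_⟩
  obtain ⟨W0, C, hW0, G⟩ := H ρ hρ hρ'
  refine ⟨W0, C, hW0, fun f Wm hWm hf => ?_⟩
  obtain ⟨x, g1, g2, g3, g4, -, g5, g6, z, hz, g7⟩ := G f Wm hWm fun k hk => by
    rw [Pool.Agent.Q99.HU.wf_abs]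
    exact hf k hk
  refine ⟨x, g1, g2, g3, g4, g6, fun hcc => ?_, finT_mod h cc f j l _ _ g5 z hz g7⟩
  have hW : ∀ W : ℝ, W0 ≤ W → |VI x - 2 * Real.pi * fV a| ≤ C / W ^ 2 := by
    intro W hW
    obtain ⟨x', g1', g2', -, -, -, -, g6', -⟩ := G f W hW fun k hk => by
      rw [hcc k] at hk
      exact absurd hk (by simp)
    rw [← g3 x' g1' g2']
    exact g6'
  have hlim : Tendsto (fun W : ℝ => C / W ^ 2) atTop (𝓝 0) :=
    tendsto_const_nhds.div_atTop (tendsto_pow_atTop (by norm_num))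
  have h1 : |VI x - 2 * Real.pi * fV a| ≤ 0 :=
    ge_of_tendsto hlim ((eventually_ge_atTop W0).mono hW)
  have h2 := abs_eq_zero.1 (le_antisymm h1 (abs_nonneg _))
  linarith

end Pool.Agent.H760.TX
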